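import Pool.Agent.PX.Defs

/-!
# PX BD: the data of the final part

Only these consequences of the main theorem on discs are used in part F (`PD.bd`, file `PX/BDp.lean`, gives them for the data `PD`).
-/

set_option autoImplicit false

open Topology Filter Metric

namespace Pool.Agent.PX

open Pool.Agent.H36.BP (EN fs wd)
open Pool.Agent.AD (Vd)
open Pool.Agent.TG (Lat)

variable {k d : ℕ}

/-- the data of the final part: quasi-periodicity and the bound for discs -/
structure BD (Λ : AddSubgroup (Vd (k + 1))) (θ : Fin (d + 1) → Vd (k + 1) → ℂ) : Prop where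
  lat : Lat Λ
  deg : 1 ≤ d
  an : ∀ i, Differentiable ℂ (θ i)
  per : ∀ l ∈ Λ, ∀ y, ∃ e : ℂ, e ≠ 0 ∧ ∀ i, θ i (y + l) = e * θ i y
  bound : ∃ C : ℝ, 0 < C ∧ ∀ (w : ℂ → EN 1) (h : ℂ → Vd (k + 1)), Cp θ (ball 0 1) w h → ‖deriv h 0‖ ≤ C

end Pool.Agent.PX
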