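import Pool.Agent.PX.BD
import Pool.Agent.PX.Bound

/-!
# PX BDp: `PD` gives `BD`
-/

set_option autoImplicit false

open Topology Filter Metric

namespace Pool.Agent.PX

open Pool.Agent.H36.BP (EN fs wd)
open Pool.Agent.AD (Vd)
open Pool.Agent.TG (Lat)

variable {k d r : ℕ} {Λ : AddSubgroup (Vd (k + 1))} {D : Set (Vd (k + 1))} {Bad : Vd (k + 1) → Set (Vd (k + 1))} {θ : Fin (d + 1) → Vd (k + 1) → ℂ}
  {W : Fin r → Vd (k + 1) →L[ℂ] ℂ}

theorem PD.bd (P : PD Λ D Bad θ W) : BD Λ θ := by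
  refine ⟨P.lat, le_trans (by norm_num) P.deg, P.an, fun l hl y => ?_, P.bound⟩
  obtain ⟨e, he, h⟩ := P.per l hl y
  refine ⟨e, fun h0 => ?_, h⟩
  rw [h0, norm_zero, zero_mul] at he
  exact (Real.exp_pos _).ne he

end Pool.Agent.PX
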