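import Pool.Agent.PX.Bas

/-!
# PX Cmp: bounds over `Gd D δ`, by compactness

Translate `y` by `Λ` to a bounded set (`Lat.cpt`, `PD.per`), scale `x` to the unit sphere; the set of all `(y, x)` with `‖y‖ ≤ R`, `y ∈ Gd D δ`, `‖x‖ = 1` is compact.  For `grad_lo`: on the closed subset `Fo θ y x = 0` the operator norm of
`fderiv ℂ (Fo θ y) x` is positive (`PD.simple`); `κ = Fd θ y x v / dt x v` for `v` orthogonal to `x`, `‖v‖ = ‖x‖`: `|dt x v| = ‖x‖ ^ 2` (for `v = (- conj x_1, conj x_0)`).  Scaling: `κ (c • x) = c ^ (d - 2) κ x`.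
-/

set_option autoImplicit false

open Topology Filter Metric

namespace Pool.Agent.PX

open Pool.Agent.H36.BP (EN fs wd)
open Pool.Agent.H62.EF (MN pr)
open Pool.Agent.AD (Vd)
open Pool.Agent.TG (Lat Gd)
open Pool.Agent.G3 (wt TT LLift)
open Pool.Agent.G4 (Few)

variable {k d r : ℕ}

variable {Λ : AddSubgroup (Vd (k + 1))} {D : Set (Vd (k + 1))} {Bad : Vd (k + 1) → Set (Vd (k + 1))} {θ : Fin (d + 1) → Vd (k + 1) → ℂ}
  {W : Fin r → Vd (k + 1) →L[ℂ] ℂ}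

/-- the rotated vector -/
private noncomputable def rot (x : EN 1) : EN 1 := WithLp.toLp 2 ![-(starRingEnd ℂ) (x 1), (starRingEnd ℂ) (x 0)]

private theorem rot_cont : Continuous rot := by
  unfold rot
  refine (PiLp.continuous_toLp 2 _).comp (continuous_pi fun i => ?_)
  fin_cases i
  · exact (Complex.continuous_conj.comp (by fun_prop)).neg
  · exact Complex.continuous_conj.comp (by fun_prop)

private theorem dt_rot (x : EN 1) : dt x (rot x) = ((‖x‖ ^ 2 : ℝ) : ℂ) := by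
  have h : ‖x‖ ^ 2 = ‖x 0‖ ^ 2 + ‖x 1‖ ^ 2 := by
    rw [EuclideanSpace.norm_sq_eq, Fin.sum_univ_two]
  have h0 : x 0 * (starRingEnd ℂ) (x 0) = ((‖x 0‖ ^ 2 : ℝ) : ℂ) := by
    rw [Complex.mul_conj, Complex.normSq_eq_norm_sq]
  have h1 : x 1 * (starRingEnd ℂ) (x 1) = ((‖x 1‖ ^ 2 : ℝ) : ℂ) := by
    rw [Complex.mul_conj, Complex.normSq_eq_norm_sq]
  have e : dt x (rot x) = x 0 * (starRingEnd ℂ) (x 0) + x 1 * (starRingEnd ℂ) (x 1) := by
    simp [dt, rot]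
  rw [e, h0, h1, h]
  push_cast
  ring

private theorem rot_smul (c : ℝ) (x : EN 1) : rot ((c : ℂ) • x) = (c : ℂ) • rot x := by
  ext i
  fin_cases i <;> simp [rot]

private theorem fd_lin (θ : Fin (d + 1) → Vd (k + 1) → ℂ) (y : Vd (k + 1)) (x : EN 1) (c : ℂ) (v : EN 1) :
    Fd θ y x (c • v) = c * Fd θ y x v := by
  simp [Fd]

/-- the form over a translated point -/
private theorem fo_per (P : PD Λ D Bad θ W) {l : Vd (k + 1)} (hl : l ∈ Λ) (y : Vd (k + 1)) :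
    ∃ e : ℂ, e ≠ 0 ∧ ‖e‖ * Real.exp (-wt W (y + l)) = Real.exp (-wt W y) ∧ (∀ x, Fo θ (y + l) x = e * Fo θ y x) ∧
      ∀ x v, Fd θ (y + l) x v = e * Fd θ y x v := by
  obtain ⟨e, he, hθ⟩ := P.per l hl y
  refine ⟨e, ?_, he, fun x => ?_, fun x v => ?_⟩
  · rintro rfl
    rw [norm_zero, zero_mul] at he
    exact (Real.exp_pos _).ne he
  · unfold Fo
    rw [Finset.mul_sum]
    refine Finset.sum_congr rfl fun i _ => ?_
    rw [hθ i]
    ring
  · rw [fd_eq, fd_eq, Finset.mul_sum]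
    refine Finset.sum_congr rfl fun i _ => ?_
    rw [hθ i]
    ring

/-- the normalised derivative -/
private noncomputable def gq (θ : Fin (d + 1) → Vd (k + 1) → ℂ) (W : Fin r → Vd (k + 1) →L[ℂ] ℂ) (p : Vd (k + 1) × EN 1) : ℝ :=
  ‖Fd θ p.1 p.2 (rot p.2)‖ * Real.exp (-wt W p.1)

private theorem wt_cont (W : Fin r → Vd (k + 1) →L[ℂ] ℂ) : Continuous (wt W) := by
  unfold wt
  exact continuous_finsetSum _ fun i _ => ((W i).continuous.norm.pow 2)

private theorem gq_cont (P : PD Λ D Bad θ W) : Continuous (gq θ W) := by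
  unfold gq
  have h1 : Continuous fun p : Vd (k + 1) × EN 1 => Fd θ p.1 p.2 (rot p.2) :=
    (fd_diff P.an).continuous.comp (continuous_fst.prodMk (continuous_snd.prodMk (rot_cont.comp continuous_snd)))
  exact h1.norm.mul (Real.continuous_exp.comp ((wt_cont W).comp continuous_fst).neg)

/-- the derivative from its normalised value -/
private theorem kap_eq (P : PD Λ D Bad θ W) {y l : Vd (k + 1)} (hl : l ∈ Λ) {x : EN 1} (hx : x ≠ 0) {κ : ℂ}
    (hκ : ∀ v, Fd θ y x v = κ * dt x v) :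
    ‖κ‖ = gq θ W (y - l, ((‖x‖⁻¹ : ℝ) : ℂ) • x) * ‖x‖ ^ (d - 2) * Real.exp (wt W y) := by
  have hn : 0 < ‖x‖ := norm_pos_iff.2 hx
  have hd := P.deg
  obtain ⟨e, -, he, -, hF⟩ := fo_per P hl (y - l)
  rw [sub_add_cancel] at he hF
  set z : EN 1 := ((‖x‖⁻¹ : ℝ) : ℂ) • x with hz
  have hxz : x = ((‖x‖ : ℝ) : ℂ) • z := by
    rw [hz, smul_smul, ← Complex.ofReal_mul, mul_inv_cancel₀ hn.ne', Complex.ofReal_one, one_smul]
  have h1 : κ * ((‖x‖ ^ 2 : ℝ) : ℂ) = e * (((‖x‖ : ℝ) : ℂ) ^ d * Fd θ (y - l) z (rot z)) := by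
    rw [← dt_rot x, ← hκ, hF]
    congr 1
    conv_lhs => rw [hxz]
    rw [rot_smul, fd_lin, fd_smul θ (by omega)]
    have e1 : ((‖x‖ : ℝ) : ℂ) ^ d = ((‖x‖ : ℝ) : ℂ) * ((‖x‖ : ℝ) : ℂ) ^ (d - 1) := by
      rw [← pow_succ']
      congr 1
      omega
    rw [e1, mul_assoc]
  have h2 : ‖κ‖ * ‖x‖ ^ 2 = ‖e‖ * (‖x‖ ^ d * ‖Fd θ (y - l) z (rot z)‖) := by
    have := congrArg norm h1
    rw [norm_mul, norm_mul, norm_mul, norm_pow, Complex.norm_real, Complex.norm_real, Real.norm_of_nonneg (sq_nonneg _),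
      Real.norm_of_nonneg hn.le] at this
    exact this
  have h3 : ‖e‖ = Real.exp (-wt W (y - l)) * Real.exp (wt W y) := by
    rw [← he, mul_assoc, ← Real.exp_add, neg_add_cancel, Real.exp_zero, mul_one]
  have h4 : ‖x‖ ^ d = ‖x‖ ^ (d - 2) * ‖x‖ ^ 2 := by
    rw [← pow_add]
    congr 1
    omega
  rw [h3, h4] at h2
  have h5 : ‖x‖ ^ 2 ≠ 0 := (pow_pos hn 2).ne'
  apply mul_right_cancel₀ h5
  rw [h2]
  simp only [gq]
  ring

private theorem gd_sub (P : PD Λ D Bad θ W) {δ : ℝ} {y l : Vd (k + 1)} (hl : l ∈ Λ) (hy : y ∈ Gd D δ) : y - l ∈ Gd D δ := by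
  intro b hb
  have := hy (b + l) (P.D_inv b hb l hl)
  rwa [show y - l - b = y - (b + l) by abel]

private theorem gd_not {δ : ℝ} (hδ : 0 < δ) {y : Vd (k + 1)} (hy : y ∈ Gd D δ) : y ∉ D := fun h => by
  have := hy y h
  rw [sub_self, norm_zero] at this
  linarith

private theorem gd_closed (D : Set (Vd (k + 1))) (δ : ℝ) : IsClosed (Gd D δ) := by
  have : Gd D δ = ⋂ b ∈ D, {y | δ ≤ ‖y - b‖} := by
    ext y
    simp [Gd]
  rw [this]
  exact isClosed_biInter fun b _ => isClosed_le continuous_const (by fun_prop)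

private theorem unit_norm {x : EN 1} (hx : x ≠ 0) : ‖((‖x‖⁻¹ : ℝ) : ℂ) • x‖ = 1 := by
  rw [norm_smul, Complex.norm_real, norm_inv, norm_norm, inv_mul_cancel₀ (norm_ne_zero_iff.2 hx)]

private theorem lat_near (P : PD Λ D Bad θ W) : ∃ R : ℝ, 0 < R ∧ ∀ y : Vd (k + 1), ∃ l ∈ Λ, y - l ∈ closedBall (0 : Vd (k + 1)) R := by
  obtain ⟨R, hR, h⟩ := P.lat.cpt
  refine ⟨R, hR, fun y => ?_⟩
  obtain ⟨l, hl, h1⟩ := h y
  exact ⟨l, hl, by rwa [mem_closedBall, dist_zero_right]⟩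

/-- the derivative at the roots is not small over `Gd D δ` -/
theorem PD.grad_lo (P : PD Λ D Bad θ W) {δ : ℝ} (hδ : 0 < δ) : ∃ c : ℝ, 0 < c ∧ ∀ y ∈ Gd D δ, ∀ x : EN 1, x ≠ 0 → Fo θ y x = 0 →
    ∀ κ : ℂ, (∀ v, Fd θ y x v = κ * dt x v) → c * ‖x‖ ^ (d - 2) * Real.exp (wt W y) ≤ ‖κ‖ := by
  obtain ⟨R, hR, hL⟩ := lat_near P
  set K : Set (Vd (k + 1) × EN 1) := ((closedBall (0 : Vd (k + 1)) R ∩ Gd D δ) ×ˢ sphere (0 : EN 1) 1) ∩ {p | Fo θ p.1 p.2 = 0} with hK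
  have hKc : IsCompact K := by
    refine IsCompact.inter_right (((isCompact_closedBall _ _).inter_right (gd_closed D δ)).prod (isCompact_sphere _ _)) ?_
    exact isClosed_eq (fo_diff P.an).continuous continuous_const
  have hpos : ∀ p ∈ K, 0 < gq θ W p := by
    rintro ⟨y, x⟩ ⟨⟨⟨-, hy⟩, hx⟩, h0⟩
    have hx1 : ‖x‖ = 1 := by simpa using hx
    have hx0 : x ≠ 0 := by
      rintro rfl
      rw [norm_zero] at hx1
      exact zero_ne_one hx1
    obtain ⟨κ, hκ⟩ := fd_root θ hx0 h0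
    obtain ⟨v, hv⟩ := P.simple y (gd_not hδ hy) x hx0 h0
    have hk : κ ≠ 0 := by
      rintro rfl
      exact hv (by rw [hκ, zero_mul])
    have h1 : Fd θ y x (rot x) = κ := by
      rw [hκ, dt_rot, hx1]
      simp
    simp only [gq, h1]
    exact mul_pos (norm_pos_iff.2 hk) (Real.exp_pos _)
  have hc : ∃ c : ℝ, 0 < c ∧ ∀ p ∈ K, c ≤ gq θ W p := by
    rcases K.eq_empty_or_nonempty with h | h
    · exact ⟨1, one_pos, fun p hp => by rw [h] at hp; exact absurd hp (Set.notMem_empty p)⟩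
    · obtain ⟨p, hp, hmin⟩ := hKc.exists_isMinOn h (gq_cont P).continuousOn
      exact ⟨gq θ W p, hpos p hp, fun q hq => hmin hq⟩
  obtain ⟨c, hc0, hc⟩ := hc
  refine ⟨c, hc0, fun y hy x hx h0 κ hκ => ?_⟩
  obtain ⟨l, hl, hyl⟩ := hL y
  rw [kap_eq P hl hx hκ]
  obtain ⟨e, he0, -, hF, -⟩ := fo_per P hl (y - l)
  rw [sub_add_cancel] at hF
  have h1 : Fo θ (y - l) (((‖x‖⁻¹ : ℝ) : ℂ) • x) = 0 := by
    rw [fo_smul]
    have := hF x
    rw [h0] at this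
    rcases mul_eq_zero.1 this.symm with h | h
    · exact absurd h he0
    · rw [h, mul_zero]
  have h2 := hc (y - l, ((‖x‖⁻¹ : ℝ) : ℂ) • x) ⟨⟨⟨hyl, gd_sub P hl hy⟩, by simpa using unit_norm hx⟩, h1⟩
  have h3 : 0 ≤ ‖x‖ ^ (d - 2) * Real.exp (wt W y) := by positivity
  calc c * ‖x‖ ^ (d - 2) * Real.exp (wt W y) = c * (‖x‖ ^ (d - 2) * Real.exp (wt W y)) := by ring
    _ ≤ gq θ W (y - l, ((‖x‖⁻¹ : ℝ) : ℂ) • x) * (‖x‖ ^ (d - 2) * Real.exp (wt W y)) := mul_le_mul_of_nonneg_right h2 h3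
    _ = _ := by ring

theorem PD.grad_up (P : PD Λ D Bad θ W) : ∃ C : ℝ, 0 < C ∧ ∀ y, ∀ x : EN 1, x ≠ 0 →
    ∀ κ : ℂ, (∀ v, Fd θ y x v = κ * dt x v) → ‖κ‖ ≤ C * ‖x‖ ^ (d - 2) * Real.exp (wt W y) := by
  obtain ⟨R, hR, hL⟩ := lat_near P
  have hKc : IsCompact (closedBall (0 : Vd (k + 1)) R ×ˢ sphere (0 : EN 1) 1) := (isCompact_closedBall _ _).prod (isCompact_sphere _ _)
  obtain ⟨C, hC⟩ := hKc.exists_bound_of_continuousOn (gq_cont P).continuousOn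
  refine ⟨max C 1, lt_of_lt_of_le one_pos (le_max_right _ _), fun y x hx κ hκ => ?_⟩
  obtain ⟨l, hl, hyl⟩ := hL y
  rw [kap_eq P hl hx hκ]
  have h2 := hC (y - l, ((‖x‖⁻¹ : ℝ) : ℂ) • x) ⟨hyl, by simpa using unit_norm hx⟩
  have h3 : 0 ≤ ‖x‖ ^ (d - 2) * Real.exp (wt W y) := by positivity
  have h4 : gq θ W (y - l, ((‖x‖⁻¹ : ℝ) : ℂ) • x) ≤ max C 1 := ((le_abs_self _).trans h2).trans (le_max_left _ _)
  calc gq θ W (y - l, ((‖x‖⁻¹ : ℝ) : ℂ) • x) * ‖x‖ ^ (d - 2) * Real.exp (wt W y)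
      = gq θ W (y - l, ((‖x‖⁻¹ : ℝ) : ℂ) • x) * (‖x‖ ^ (d - 2) * Real.exp (wt W y)) := by ring
    _ ≤ max C 1 * (‖x‖ ^ (d - 2) * Real.exp (wt W y)) := mul_le_mul_of_nonneg_right h4 h3
    _ = _ := by ring

/-- over `Gd D δ` the form is not small at some unit vector -/
theorem PD.big_pt (P : PD Λ D Bad θ W) {δ : ℝ} (hδ : 0 < δ) : ∃ c : ℝ, 0 < c ∧ ∀ y ∈ Gd D δ, ∃ b : EN 1, ‖b‖ = 1 ∧ c ≤ qf θ W y b := by
  obtain ⟨R, hR, hL⟩ := lat_near P
  have hd := P.deg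
  have hKc : IsCompact (closedBall (0 : Vd (k + 1)) R ∩ Gd D δ) := (isCompact_closedBall _ _).inter_right (gd_closed D δ)
  have key : ∃ c : ℝ, 0 < c ∧ ∀ y ∈ closedBall (0 : Vd (k + 1)) R ∩ Gd D δ, ∃ b : EN 1, ‖b‖ = 1 ∧ c ≤ qf θ W y b := by
    refine hKc.induction_on (p := fun s => ∃ c : ℝ, 0 < c ∧ ∀ y ∈ s, ∃ b : EN 1, ‖b‖ = 1 ∧ c ≤ qf θ W y b) ⟨1, one_pos, fun y hy => absurd hy (Set.notMem_empty y)⟩ ?_ ?_ ?_
    · rintro s t hst ⟨c, hc, h⟩
      exact ⟨c, hc, fun y hy => h y (hst hy)⟩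
    · rintro s t ⟨c, hc, h⟩ ⟨c', hc', h'⟩
      refine ⟨min c c', lt_min hc hc', fun y hy => ?_⟩
      rcases hy with hy | hy
      · obtain ⟨b, hb, h1⟩ := h y hy
        exact ⟨b, hb, (min_le_left _ _).trans h1⟩
      · obtain ⟨b, hb, h1⟩ := h' y hy
        exact ⟨b, hb, (min_le_right _ _).trans h1⟩
    · rintro y ⟨-, hy⟩
      have hne : ∃ x : EN 1, Fo θ y x ≠ 0 := by
        by_contra hcon
        push Not at hcon
        have hx : (EuclideanSpace.single 0 1 : EN 1) ≠ 0 := by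
          intro h
          have := congrArg (fun w : EN 1 => w 0) h
          simp at this
        obtain ⟨v, hv⟩ := P.simple y (gd_not hδ hy) _ hx (hcon _)
        apply hv
        have : Fo θ y = fun _ => 0 := funext hcon
        unfold Fd
        rw [this]
        simp
      obtain ⟨x, hx⟩ := hne
      have hx0 : x ≠ 0 := by
        rintro rfl
        apply hx
        have := fo_smul θ y 0 (0 : EN 1)
        rw [smul_zero, zero_pow (by omega), zero_mul] at this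
        exact this
      set b : EN 1 := ((‖x‖⁻¹ : ℝ) : ℂ) • x with hb
      have hb1 : ‖b‖ = 1 := unit_norm hx0
      have hq : 0 < qf θ W y b := by
        unfold qf
        rw [hb1, one_pow, div_one, hb, fo_smul]
        refine mul_pos (norm_pos_iff.2 (mul_ne_zero (pow_ne_zero _ ?_) hx)) (Real.exp_pos _)
        exact_mod_cast inv_ne_zero (norm_ne_zero_iff.2 hx0)
      have hcont : Continuous fun y => qf θ W y b := by
        unfold qf
        have h1 : Continuous fun y => Fo θ y b := (fo_diff P.an).continuous.comp (continuous_id.prodMk continuous_const)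
        exact (h1.norm.mul (Real.continuous_exp.comp (wt_cont W).neg)).div_const _
      refine ⟨{z | qf θ W y b / 2 < qf θ W z b}, mem_nhdsWithin_of_mem_nhds ((isOpen_lt continuous_const hcont).mem_nhds (by simp only [Set.mem_ofPred_eq]; linarith)),
        qf θ W y b / 2, by linarith, fun z hz => ⟨b, hb1, le_of_lt hz⟩⟩
  obtain ⟨c, hc, h⟩ := key
  refine ⟨c, hc, fun y hy => ?_⟩
  obtain ⟨l, hl, hyl⟩ := hL y
  obtain ⟨b, hb, h1⟩ := h (y - l) ⟨hyl, gd_sub P hl hy⟩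
  refine ⟨b, hb, ?_⟩
  rwa [← P.qf_add hl (y - l) b, sub_add_cancel] at h1

/-- `|Fo θ y x|` and the weight -/
theorem PD.fo_le (P : PD Λ D Bad θ W) : ∃ C : ℝ, 0 < C ∧ ∀ y x, ‖Fo θ y x‖ ≤ C * ‖x‖ ^ d * Real.exp (wt W y) := by
  obtain ⟨C, hC, h⟩ := P.qf_le
  have hd := P.deg
  refine ⟨C, hC, fun y x => ?_⟩
  rcases eq_or_ne x 0 with rfl | hx
  · have h0 : Fo θ y 0 = 0 := by
      have := fo_smul θ y 0 (0 : EN 1)
      rwa [smul_zero, zero_pow (by omega), zero_mul] at this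
    rw [h0, norm_zero]
    positivity
  · have hn : 0 < ‖x‖ ^ d := pow_pos (norm_pos_iff.2 hx) d
    have h1 := h y x
    unfold qf at h1
    rw [div_le_iff₀ hn] at h1
    have h2 : ‖Fo θ y x‖ = ‖Fo θ y x‖ * Real.exp (-wt W y) * Real.exp (wt W y) := by
      rw [mul_assoc, ← Real.exp_add, neg_add_cancel, Real.exp_zero, mul_one]
    rw [h2]
    exact mul_le_mul_of_nonneg_right h1 (Real.exp_pos _).le

end Pool.Agent.PX
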