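import Pool.Agent.PX.Bas

/-!
# PX Coef: the form on the line `t • b + e`; the comparison lemma for functions without zeros

`exists_coef`: binomial theorem.  `no_zero`: `q = B / A` is holomorphic near the closed disc, `‖1 - q‖ < ‖q‖` on the circle, i.e. `1 / 2 < Re q`; maximum principle for `exp (- q)`.
`rt_dt`: the roots near `b`: if `Fo θ y b ≠ 0` every root `x ≠ 0` is a multiple of some `t • b + e`.
-/

set_option autoImplicit false

open Topology Filter Metric

namespace Pool.Agent.PX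

open Pool.Agent.H36.BP (EN fs wd)
open Pool.Agent.H62.EF (MN pr)
open Pool.Agent.AD (Vd)
open Pool.Agent.TG (Lat Gd)
open Pool.Agent.G3 (wt TT LLift)
open Pool.Agent.G4 (Few)

variable {k d r : ℕ}

/-- the polynomial in `t` of the monomial number `i` at `t • b + e` -/
private noncomputable def mp (d : ℕ) (b e : EN 1) (i : ℕ) : Polynomial ℂ :=
  (Polynomial.C (b 0) * Polynomial.X + Polynomial.C (e 0)) ^ i * (Polynomial.C (b 1) * Polynomial.X + Polynomial.C (e 1)) ^ (d - i)

private theorem mp_eval (b e : EN 1) (i : ℕ) (t : ℂ) : (mp d b e i).eval t = (t • b + e) 0 ^ i * (t • b + e) 1 ^ (d - i) := by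
  simp only [mp, Polynomial.eval_mul, Polynomial.eval_pow, Polynomial.eval_add, Polynomial.eval_C, Polynomial.eval_X, PiLp.add_apply, PiLp.smul_apply, smul_eq_mul]
  rw [mul_comm (b 0), mul_comm (b 1)]

private theorem lin_deg (a c : ℂ) : (Polynomial.C a * Polynomial.X + Polynomial.C c).natDegree ≤ 1 := Polynomial.natDegree_linear_le

private theorem mp_deg (b e : EN 1) {i : ℕ} (hi : i ≤ d) : (mp d b e i).natDegree ≤ d := by
  unfold mp
  refine Polynomial.natDegree_mul_le.trans ?_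
  have h1 : ((Polynomial.C (b 0) * Polynomial.X + Polynomial.C (e 0)) ^ i).natDegree ≤ i := by
    refine Polynomial.natDegree_pow_le.trans ?_
    have := lin_deg (b 0) (e 0)
    nlinarith
  have h2 : ((Polynomial.C (b 1) * Polynomial.X + Polynomial.C (e 1)) ^ (d - i)).natDegree ≤ d - i := by
    refine Polynomial.natDegree_pow_le.trans ?_
    have := lin_deg (b 1) (e 1)
    nlinarith
  omega

private theorem mp_top (b e : EN 1) {i : ℕ} (hi : i ≤ d) : (mp d b e i).coeff d = b 0 ^ i * b 1 ^ (d - i) := by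
  have h1 : ((Polynomial.C (b 0) * Polynomial.X + Polynomial.C (e 0)) ^ i).coeff i = b 0 ^ i := by
    have := Polynomial.coeff_pow_of_natDegree_le (p := Polynomial.C (b 0) * Polynomial.X + Polynomial.C (e 0)) (n := 1) (m := i) (lin_deg _ _)
    simpa using this
  have h2 : ((Polynomial.C (b 1) * Polynomial.X + Polynomial.C (e 1)) ^ (d - i)).coeff (d - i) = b 1 ^ (d - i) := by
    have := Polynomial.coeff_pow_of_natDegree_le (p := Polynomial.C (b 1) * Polynomial.X + Polynomial.C (e 1)) (n := 1) (m := d - i) (lin_deg _ _)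
    simpa using this
  have h3 : ((Polynomial.C (b 0) * Polynomial.X + Polynomial.C (e 0)) ^ i).natDegree ≤ i := by
    refine Polynomial.natDegree_pow_le.trans ?_
    have := lin_deg (b 0) (e 0)
    nlinarith
  have h4 : ((Polynomial.C (b 1) * Polynomial.X + Polynomial.C (e 1)) ^ (d - i)).natDegree ≤ d - i := by
    refine Polynomial.natDegree_pow_le.trans ?_
    have := lin_deg (b 1) (e 1)
    nlinarith
  have h5 := Polynomial.coeff_mul_add_eq_of_natDegree_le h3 h4
  rw [Nat.add_sub_cancel' hi, h1, h2] at h5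
  exact h5

theorem exists_coef {θ : Fin (d + 1) → Vd (k + 1) → ℂ} (han : ∀ i, Differentiable ℂ (θ i)) (b e : EN 1) : ∃ c : Fin d → Vd (k + 1) → ℂ, (∀ i, Differentiable ℂ (c i)) ∧
    ∀ y t, Fo θ y (t • b + e) = Fo θ y b * t ^ d + ∑ i : Fin d, c i y * t ^ (i : ℕ) := by
  refine ⟨fun j y => ∑ i : Fin (d + 1), θ i y * (mp d b e i).coeff (j : ℕ), fun j => ?_, fun y t => ?_⟩
  · exact Differentiable.fun_sum fun i _ => (han i).mul_const _
  · have h1 : ∀ i : Fin (d + 1), θ i y * (t • b + e) 0 ^ (i : ℕ) * (t • b + e) 1 ^ (d - (i : ℕ)) =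
        θ i y * b 0 ^ (i : ℕ) * b 1 ^ (d - (i : ℕ)) * t ^ d + ∑ j : Fin d, θ i y * (mp d b e i).coeff (j : ℕ) * t ^ (j : ℕ) := by
      intro i
      have hi : (i : ℕ) ≤ d := Nat.lt_succ_iff.mp i.2
      rw [mul_assoc, ← mp_eval, Polynomial.eval_eq_sum_range' (Nat.lt_succ_of_le (mp_deg b e hi)), Finset.sum_range_succ, mp_top b e hi, mul_add, add_comm, Finset.sum_range, Finset.mul_sum]
      congr 1
      · ring
      · exact Finset.sum_congr rfl fun j _ => by ring
    unfold Fo
    rw [Finset.sum_congr rfl fun i _ => h1 i, Finset.sum_add_distrib, ← Finset.sum_mul, Finset.sum_comm]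
    congr 1
    exact Finset.sum_congr rfl fun j _ => by rw [Finset.sum_mul]

theorem no_zero {A B : ℂ → ℂ} {z₀ : ℂ} {ρ R : ℝ} (hρ : 0 < ρ) (hR : ρ < R) (hA : DifferentiableOn ℂ A (ball z₀ R)) (hB : DifferentiableOn ℂ B (ball z₀ R)) (hA0 : ∀ z ∈ ball z₀ R, A z ≠ 0)
    (h : ∀ z ∈ sphere z₀ ρ, ‖A z - B z‖ < ‖B z‖) : ∀ z ∈ closedBall z₀ ρ, B z ≠ 0 := by
  have hsub : closedBall z₀ ρ ⊆ ball z₀ R := closedBall_subset_ball hR
  have hq : DifferentiableOn ℂ (fun z => Complex.exp (-(B z / A z))) (closedBall z₀ ρ) :=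
    ((hB.mono hsub).div (hA.mono hsub) fun z hz => hA0 z (hsub hz)).neg.cexp
  have hd : DiffContOnCl ℂ (fun z => Complex.exp (-(B z / A z))) (ball z₀ ρ) := by
    refine DifferentiableOn.diffContOnCl ?_
    rwa [closure_ball z₀ hρ.ne']
  have hre : ∀ z ∈ sphere z₀ ρ, 1 / 2 ≤ (B z / A z).re := by
    intro z hz
    have hA1 : A z ≠ 0 := hA0 z (hsub (sphere_subset_closedBall hz))
    have h1 := h z hz
    set q := B z / A z with hqd
    have h2 : B z = q * A z := by rw [hqd]; field_simp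
    rw [h2] at h1
    have h3 : A z - q * A z = (1 - q) * A z := by ring
    rw [h3, norm_mul, norm_mul] at h1
    have h4 : ‖1 - q‖ < ‖q‖ := lt_of_mul_lt_mul_right h1 (norm_nonneg _)
    have h5 : ‖1 - q‖ ^ 2 < ‖q‖ ^ 2 := by
      have := norm_nonneg (1 - q)
      nlinarith
    rw [← Complex.normSq_eq_norm_sq, ← Complex.normSq_eq_norm_sq, Complex.normSq_apply, Complex.normSq_apply] at h5
    simp only [Complex.sub_re, Complex.one_re, Complex.sub_im, Complex.one_im] at h5
    nlinarith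
  have hle : ∀ z ∈ closedBall z₀ ρ, ‖Complex.exp (-(B z / A z))‖ ≤ Real.exp (-(1 / 2)) := by
    intro z hz
    refine Complex.norm_le_of_forall_mem_frontier_norm_le (U := ball z₀ ρ) isBounded_ball hd ?_ (by rwa [closure_ball z₀ hρ.ne'])
    intro w hw
    rw [frontier_ball z₀ hρ.ne'] at hw
    rw [Complex.norm_exp, Complex.neg_re]
    exact Real.exp_le_exp.mpr (neg_le_neg (hre w hw))
  intro z hz h0
  have h1 := hle z hz
  rw [h0, zero_div, neg_zero, Complex.exp_zero, norm_one] at h1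
  have h2 : Real.exp (-(1 / 2)) < 1 := by
    rw [← Real.exp_zero]
    exact Real.exp_lt_exp.mpr (by norm_num)
  linarith

/-- every root is a multiple of some `t • b + e`, where `b` is not a root -/
theorem rt_dt {θ : Fin (d + 1) → Vd (k + 1) → ℂ} {y : Vd (k + 1)} {b e x : EN 1} (hbe : dt b e ≠ 0) (hb : Fo θ y b ≠ 0) (hx : x ≠ 0) (h : Fo θ y x = 0) :
    dt b x ≠ 0 ∧ x = (dt b x / dt b e) • ((-(dt e x) / dt b x) • b + e) := by
  have hb0 : b ≠ 0 := by
    rintro rfl
    exact hbe (by simp [dt])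
  have h1 : dt b x ≠ 0 := by
    intro h2
    obtain ⟨c, hc⟩ := (dt_eq_zero hb0).mp h2
    have hc0 : c ≠ 0 := by
      rintro rfl
      exact hx (by rw [hc, zero_smul])
    rw [hc, fo_smul] at h
    exact (mul_ne_zero (pow_ne_zero d hc0) hb) h
  refine ⟨h1, ?_⟩
  rw [smul_add, smul_smul, show dt b x / dt b e * (-(dt e x) / dt b x) = -(dt e x) / dt b e by field_simp]
  ext j
  have h3 : b 0 * e 1 - b 1 * e 0 ≠ 0 := hbe
  fin_cases j
  · simp only [PiLp.add_apply, PiLp.smul_apply, smul_eq_mul, dt, Fin.zero_eta]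
    rw [div_mul_eq_mul_div, div_mul_eq_mul_div, ← add_div, eq_div_iff h3]
    ring
  · simp only [PiLp.add_apply, PiLp.smul_apply, smul_eq_mul, dt, Fin.mk_one]
    rw [div_mul_eq_mul_div, div_mul_eq_mul_div, ← add_div, eq_div_iff h3]
    ring

/-- all coefficients are continuous -/
private def CP {X : Type} [TopologicalSpace X] (p : X → Polynomial ℂ) : Prop := ∀ j, Continuous fun x => (p x).coeff j

private theorem CP.mul {X : Type} [TopologicalSpace X] {p q : X → Polynomial ℂ} (hp : CP p) (hq : CP q) : CP fun x => p x * q x := by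
  intro j
  simp only [Polynomial.coeff_mul]
  exact continuous_finsetSum _ fun a _ => (hp a.1).mul (hq a.2)

private theorem CP.add {X : Type} [TopologicalSpace X] {p q : X → Polynomial ℂ} (hp : CP p) (hq : CP q) : CP fun x => p x + q x := by
  intro j
  simp only [Polynomial.coeff_add]
  exact (hp j).add (hq j)

private theorem CP.const {X : Type} [TopologicalSpace X] (p : Polynomial ℂ) : CP fun _ : X => p := fun _ => continuous_const

private theorem CP.C {X : Type} [TopologicalSpace X] {f : X → ℂ} (hf : Continuous f) : CP fun x => Polynomial.C (f x) := by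
  intro j
  simp only [Polynomial.coeff_C]
  split_ifs
  · exact hf
  · exact continuous_const

private theorem CP.pow {X : Type} [TopologicalSpace X] {p : X → Polynomial ℂ} (hp : CP p) (n : ℕ) : CP fun x => p x ^ n := by
  induction n with
  | zero => simpa using CP.const 1
  | succ n ih =>
    simp only [pow_succ]
    exact ih.mul hp

private theorem CP.sum {X ι : Type} [TopologicalSpace X] (s : Finset ι) {p : ι → X → Polynomial ℂ} (hp : ∀ i ∈ s, CP (p i)) : CP fun x => ∑ i ∈ s, p i x := by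
  intro j
  simp only [Polynomial.finsetSum_coeff]
  exact continuous_finsetSum _ fun i hi => hp i hi j

/-- the polynomial in `τ` of the form at `x + τ • v` -/
private noncomputable def qp (θ : Fin (d + 1) → Vd (k + 1) → ℂ) (y : Vd (k + 1)) (x v : EN 1) : Polynomial ℂ := ∑ i : Fin (d + 1), Polynomial.C (θ i y) * mp d v x i

private theorem qp_eval (θ : Fin (d + 1) → Vd (k + 1) → ℂ) (y : Vd (k + 1)) (x v : EN 1) (τ : ℂ) : (qp θ y x v).eval τ = Fo θ y (x + τ • v) := by
  unfold qp Fo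
  rw [Polynomial.eval_finsetSum]
  refine Finset.sum_congr rfl fun i _ => ?_
  rw [Polynomial.eval_mul, Polynomial.eval_C, mp_eval, add_comm x, mul_assoc]

private theorem qp_deg (θ : Fin (d + 1) → Vd (k + 1) → ℂ) (y : Vd (k + 1)) (x v : EN 1) : (qp θ y x v).natDegree ≤ d := by
  unfold qp
  refine Polynomial.natDegree_sum_le_of_forall_le _ _ fun i _ => ?_
  exact (Polynomial.natDegree_C_mul_le _ _).trans (mp_deg v x (Nat.lt_succ_iff.mp i.2))

private theorem qp_cp {θ : Fin (d + 1) → Vd (k + 1) → ℂ} (han : ∀ i, Differentiable ℂ (θ i)) : CP fun p : Vd (k + 1) × EN 1 × EN 1 => qp θ p.1 p.2.1 p.2.2 := by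
  unfold qp
  refine CP.sum _ fun i _ => ?_
  refine (CP.C ((han i).continuous.comp continuous_fst)).mul ?_
  unfold mp
  have hc : ∀ j : Fin 2, Continuous fun x : EN 1 => x j := fun j => PiLp.continuous_apply 2 _ j
  refine CP.mul (CP.pow (CP.add (CP.mul (CP.C ?_) (CP.const _)) (CP.C ?_)) _) (CP.pow (CP.add (CP.mul (CP.C ?_) (CP.const _)) (CP.C ?_)) _)
  · exact (hc 0).comp (continuous_snd.comp continuous_snd)
  · exact (hc 0).comp (continuous_fst.comp continuous_snd)
  · exact (hc 1).comp (continuous_snd.comp continuous_snd)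
  · exact (hc 1).comp (continuous_fst.comp continuous_snd)

private theorem qp_one (θ : Fin (d + 1) → Vd (k + 1) → ℂ) (y : Vd (k + 1)) (x v : EN 1) (hd : DifferentiableAt ℂ (Fo θ y) x) : (qp θ y x v).coeff 1 = Fd θ y x v := by
  have h1 : HasDerivAt (fun τ : ℂ => (qp θ y x v).eval τ) ((Polynomial.derivative (qp θ y x v)).eval 0) 0 := (qp θ y x v).hasDerivAt 0
  have h2 : HasDerivAt (fun τ : ℂ => x + τ • v) v 0 := by
    simpa using ((hasDerivAt_id (0 : ℂ)).smul_const v).const_add x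
  have h3 : HasFDerivAt (Fo θ y) (fderiv ℂ (Fo θ y) x) (x + (0 : ℂ) • v) := by
    rw [zero_smul, add_zero]
    exact hd.hasFDerivAt
  have h4 := h3.comp_hasDerivAt (0 : ℂ) h2
  have h5 : (fun τ : ℂ => (qp θ y x v).eval τ) = (Fo θ y ∘ fun τ : ℂ => x + τ • v) := by
    funext τ
    exact qp_eval θ y x v τ
  rw [h5] at h1
  have h6 := h1.unique h4
  have h7 : (Polynomial.derivative (qp θ y x v)).eval 0 = (qp θ y x v).coeff 1 := by
    rw [← Polynomial.coeff_zero_eq_eval_zero, Polynomial.coeff_derivative]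
    simp
  rw [← h7, h6]
  rfl

/-- expansion of the form near a root: the quotient by the determinant -/
theorem quo_near {θ : Fin (d + 1) → Vd (k + 1) → ℂ} (han : ∀ i, Differentiable ℂ (θ i)) {K : Set (Vd (k + 1))} (hK : IsCompact K) {M : ℝ} : ∃ C : ℝ, 0 < C ∧
    ∀ y ∈ K, ∀ x v : EN 1, ‖x‖ ≤ M → ‖v‖ ≤ M → Fo θ y x = 0 → ∀ κ : ℂ, (∀ v, Fd θ y x v = κ * dt x v) → ∀ τ : ℂ, ‖τ‖ ≤ 1 →
      ‖Fo θ y (x + τ • v) - κ * τ * dt x v‖ ≤ C * ‖τ‖ ^ 2 := by
  have hS : IsCompact (K ×ˢ (closedBall (0 : EN 1) M ×ˢ closedBall (0 : EN 1) M)) := hK.prod ((isCompact_closedBall _ _).prod (isCompact_closedBall _ _))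
  have hcont : Continuous fun p : Vd (k + 1) × EN 1 × EN 1 => ∑ j ∈ Finset.range (d + 1), ‖(qp θ p.1 p.2.1 p.2.2).coeff (j + 2)‖ :=
    continuous_finsetSum _ fun j _ => (qp_cp han (j + 2)).norm
  obtain ⟨C, hC⟩ := (hS.image hcont).bddAbove
  refine ⟨max C 1, lt_of_lt_of_le one_pos (le_max_right _ _), fun y hy x v hx hv h0 κ hκ τ hτ => ?_⟩
  have h1 : ∑ j ∈ Finset.range (d + 1), ‖(qp θ y x v).coeff (j + 2)‖ ≤ C :=
    hC ⟨(y, x, v), ⟨hy, mem_closedBall_zero_iff.mpr hx, mem_closedBall_zero_iff.mpr hv⟩, rfl⟩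
  have h2 : DifferentiableAt ℂ (Fo θ y) x := by
    have h3 : Fo θ y = (fun p : Vd (k + 1) × EN 1 => Fo θ p.1 p.2) ∘ fun x => (y, x) := rfl
    rw [h3]
    exact ((fo_diff han).comp ((differentiable_const y).prodMk differentiable_id)) x
  have h4 : (qp θ y x v).coeff 0 = 0 := by
    rw [Polynomial.coeff_zero_eq_eval_zero, qp_eval, zero_smul, add_zero, h0]
  have h5 : (qp θ y x v).coeff 1 = κ * dt x v := by rw [qp_one θ y x v h2, hκ]
  have h6 : Fo θ y (x + τ • v) = κ * τ * dt x v + ∑ j ∈ Finset.range (d + 1), (qp θ y x v).coeff (j + 2) * τ ^ (j + 2) := by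
    rw [← qp_eval, Polynomial.eval_eq_sum_range' (n := d + 1 + 2) (by have := qp_deg θ y x v; omega), Finset.sum_range_succ', Finset.sum_range_succ', h4]
    simp only [zero_add, h5, pow_zero, pow_one, add_assoc, one_add_one_eq_two]
    ring
  rw [h6, add_sub_cancel_left]
  calc ‖∑ j ∈ Finset.range (d + 1), (qp θ y x v).coeff (j + 2) * τ ^ (j + 2)‖ ≤ ∑ j ∈ Finset.range (d + 1), ‖(qp θ y x v).coeff (j + 2) * τ ^ (j + 2)‖ := norm_sum_le _ _
    _ ≤ ∑ j ∈ Finset.range (d + 1), ‖(qp θ y x v).coeff (j + 2)‖ * ‖τ‖ ^ 2 := by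
      refine Finset.sum_le_sum fun j _ => ?_
      rw [norm_mul, norm_pow]
      refine mul_le_mul_of_nonneg_left ?_ (norm_nonneg _)
      exact pow_le_pow_of_le_one (norm_nonneg _) hτ (by omega)
    _ = (∑ j ∈ Finset.range (d + 1), ‖(qp θ y x v).coeff (j + 2)‖) * ‖τ‖ ^ 2 := by rw [Finset.sum_mul]
    _ ≤ max C 1 * ‖τ‖ ^ 2 := mul_le_mul_of_nonneg_right (h1.trans (le_max_left _ _)) (by positivity)

end Pool.Agent.PX
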