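import Pool.Agent.G3.P.Ult
import Pool.Agent.G3.P.Ext
import Pool.Agent.G3.P.Ent
import Pool.Agent.G4.A.Defs
import Pool.Agent.G4.Z.CDefs

/-!
# PX Defs: complements in `A × ℙ¹`

`A = ℂ^(k+1) / Λ` is a complex torus.  `Fo θ y x = ∑ θ_i(y) x_0^i x_1^(d-i)` is a binary form of degree `d` whose coefficients are entire functions of `y`, quasi-periodic with a common
factor of the (positive definite) weight `wt W`.  `E = {Fo = 0}`, `U` its complement in `A × ℙ¹`.  Curves in `U` are given by `h : ℂ → Vd (k+1)` and a lift `w : ℂ → EN 1` of the `ℙ¹`-component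
(`Cp`).  `D` is a closed `Λ`-invariant set outside which the form has only simple roots; all lines meet `D` in isolated points; `Bad a` is the set of the bad points of `D` for the
direction `a`: at the other points of `D` the set `D` is a smooth hypersurface, transversal to `a`, and the form is not `0`; there are few bad hits (`Few`).
-/

set_option autoImplicit false

open Topology Filter Metric

namespace Pool.Agent.PX

open Pool.Agent.H36.BP (EN fs wd)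
open Pool.Agent.H62.EF (MN pr)
open Pool.Agent.AD (Vd)
open Pool.Agent.TG (Lat Gd)
open Pool.Agent.G3 (wt TT LLift)
open Pool.Agent.G4 (Few)

variable {k d r : ℕ}

/-- the binary form `∑ θ_i(y) x_0^i x_1^(d-i)` -/
noncomputable def Fo (θ : Fin (d + 1) → Vd (k + 1) → ℂ) (y : Vd (k + 1)) (x : EN 1) : ℂ := ∑ i : Fin (d + 1), θ i y * x 0 ^ (i : ℕ) * x 1 ^ (d - (i : ℕ))

/-- the derivative of the form at `x` in the direction `v` -/
noncomputable def Fd (θ : Fin (d + 1) → Vd (k + 1) → ℂ) (y : Vd (k + 1)) (x v : EN 1) : ℂ := fderiv ℂ (Fo θ y) x v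

/-- the determinant of two vectors -/
def dt (x v : EN 1) : ℂ := x 0 * v 1 - x 1 * v 0

/-- the data -/
structure PD (Λ : AddSubgroup (Vd (k + 1))) (D : Set (Vd (k + 1))) (Bad : Vd (k + 1) → Set (Vd (k + 1))) (θ : Fin (d + 1) → Vd (k + 1) → ℂ)
    (W : Fin r → Vd (k + 1) →L[ℂ] ℂ) : Prop where
  lat : Lat Λ
  deg : 3 ≤ d
  an : ∀ i, Differentiable ℂ (θ i)
  per : ∀ l ∈ Λ, ∀ y, ∃ e : ℂ, ‖e‖ * Real.exp (-wt W (y + l)) = Real.exp (-wt W y) ∧ ∀ i, θ i (y + l) = e * θ i y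
  pos : ∀ y, (∀ i, W i y = 0) → y = 0
  D_closed : IsClosed D
  D_inv : ∀ y ∈ D, ∀ l ∈ Λ, y + l ∈ D
  /-- outside `D` the roots are simple -/
  simple : ∀ y ∉ D, ∀ x : EN 1, x ≠ 0 → Fo θ y x = 0 → ∃ v, Fd θ y x v ≠ 0
  /-- the lines meet `D` in isolated points -/
  iso : ∀ a : Vd (k + 1), a ≠ 0 → ∀ y : Vd (k + 1), ∀ᶠ z in 𝓝[≠] (0 : ℂ), y + z • a ∉ D
  bad_sub : ∀ a, Bad a ⊆ D
  bad_inv : ∀ a, ∀ β ∈ Bad a, ∀ l ∈ Λ, β + l ∈ Bad a
  few : ∀ a : Vd (k + 1), a ≠ 0 → Few (Bad a) a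
  /-- at the good points of `D` the set `D` is smooth and transversal to `a` -/
  good : ∀ a : Vd (k + 1), a ≠ 0 → ∀ p ∈ D, p ∉ Bad a → ∃ s : Vd (k + 1) → ℂ, AnalyticAt ℂ s p ∧ (∀ᶠ y in 𝓝 p, (y ∈ D ↔ s y = 0)) ∧ fderiv ℂ s p a ≠ 0
  /-- at the good points the form is not `0`, or it is `0` at all points of `D` near the point -/
  form : ∀ a : Vd (k + 1), a ≠ 0 → ∀ p ∉ Bad a, (∃ i, θ i p ≠ 0) ∨ (p ∈ D ∧ ∀ᶠ y in 𝓝 p, y ∈ D → ∀ i, θ i y = 0)

/-- `(h, w)` is a curve in the complement of `{Fo = 0}` over the set `U` (used for open sets) -/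
structure Cp (θ : Fin (d + 1) → Vd (k + 1) → ℂ) (U : Set ℂ) (w : ℂ → EN 1) (h : ℂ → Vd (k + 1)) : Prop where
  w_diff : DifferentiableOn ℂ w U
  h_diff : DifferentiableOn ℂ h U
  ne : ∀ z ∈ U, Fo θ (h z) (w z) ≠ 0

/-- the norm of the form in the metrics -/
noncomputable def qf (θ : Fin (d + 1) → Vd (k + 1) → ℂ) (W : Fin r → Vd (k + 1) →L[ℂ] ℂ) (y : Vd (k + 1)) (x : EN 1) : ℝ :=
  ‖Fo θ y x‖ * Real.exp (-wt W y) / ‖x‖ ^ d

/-- the limit situation on the line `z ↦ y + z • a`: curves `(w n, h n)` on larger and larger discs converge to `g` on the line off `D` -/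
structure LS (θ : Fin (d + 1) → Vd (k + 1) → ℂ) (D : Set (Vd (k + 1))) (y a : Vd (k + 1)) (𝒰 : Ultrafilter ℕ) (w : ℕ → ℂ → EN 1) (h : ℕ → ℂ → Vd (k + 1)) (g : ℂ → MN 1) : Prop where
  cv : ∀ R : ℝ, ∀ᶠ n in (𝒰 : Filter ℕ), Cp θ (ball 0 R) (w n) (h n)
  hh : ∀ R ε : ℝ, 0 < ε → ∀ᶠ n in (𝒰 : Filter ℕ), ∀ z ∈ closedBall (0 : ℂ) R, ‖h n z - (y + z • a)‖ < ε
  lift : ∀ z : ℂ, y + z • a ∉ D → LLift g z
  lim : ∀ K : Set ℂ, IsCompact K → (∀ z ∈ K, y + z • a ∉ D) → ∀ ε : ℝ, 0 < ε → ∀ᶠ n in (𝒰 : Filter ℕ), ∀ z ∈ K, dist (pr (w n z)) (g z) < ε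

/-- `g z` is a root of the form over the line `y + z a`, at the points off `D` -/
def Rt (θ : Fin (d + 1) → Vd (k + 1) → ℂ) (D : Set (Vd (k + 1))) (y a : Vd (k + 1)) (g : ℂ → MN 1) : Prop :=
  ∀ z : ℂ, y + z • a ∉ D → ∀ x : EN 1, x ≠ 0 → pr x = g z → Fo θ (y + z • a) x = 0

/-- `G` is an entire lift of a root over the line `y + z a`; it is a simple root except at the points of `Bad a` -/
structure RL (θ : Fin (d + 1) → Vd (k + 1) → ℂ) (Bad : Vd (k + 1) → Set (Vd (k + 1))) (y a : Vd (k + 1)) (G : ℂ → EN 1) : Prop where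
  diff : Differentiable ℂ G
  ne : ∀ z, G z ≠ 0
  root : ∀ z, Fo θ (y + z • a) (G z) = 0
  simple : ∀ z, y + z • a ∉ Bad a → ∃ v, Fd θ (y + z • a) (G z) v ≠ 0

end Pool.Agent.PX
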