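import Pool.Agent.PX.BD

/-!
# PX Ext: maps of the punctured disc, the component in the torus

`v` is holomorphic modulo `Λ` on the punctured disc, given by `h` on the half plane `Re ζ < 0` (`v (exp ζ) = h ζ` mod `Λ`); `bound` on discs of radius `- Re ζ / 2` gives `‖h' ζ‖ ≤ C / |Re ζ|`, so `h (ζ + 2 π I) - h ζ ∈ Λ` is `0` for `Re ζ` very negative, so for all `ζ` (identity
theorem).  `h ζ = H (exp ζ)`, `‖H z‖ ≤ C (1 + |log z|)` near `0`: `H` extends.
-/

set_option autoImplicit false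

open Topology Filter Metric

namespace Pool.Agent.PX

open Pool.Agent.H36.BP (EN fs wd)
open Pool.Agent.H62.EF (MN pr)
open Pool.Agent.AD (Vd)
open Pool.Agent.TG (Lat Gd)
open Pool.Agent.G3 (wt TT LLift)
open Pool.Agent.G4 (Few)

variable {k d : ℕ} {Λ : AddSubgroup (Vd (k + 1))} {θ : Fin (d + 1) → Vd (k + 1) → ℂ}

/-- the bound of the derivative on the half plane -/
theorem BD.ext_deriv (B : BD Λ θ) {h : ℂ → Vd (k + 1)}
    (hc : ∀ ζ : ℂ, ζ.re < 0 → ∃ w : ℂ → EN 1, Cp θ (ball ζ (-ζ.re / 2)) w h) :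
    ∃ C : ℝ, 0 < C ∧ ∀ ζ : ℂ, ζ.re < 0 → ‖deriv h ζ‖ ≤ C / (-ζ.re) := by
  obtain ⟨C, hC, hb⟩ := B.bound
  refine ⟨2 * C, by positivity, fun ζ hζ => ?_⟩
  obtain ⟨w, hw⟩ := hc ζ hζ
  obtain ⟨r, hr⟩ : ∃ r : ℝ, r = -ζ.re / 2 := ⟨_, rfl⟩
  have hr0 : 0 < r := by rw [hr]; linarith
  rw [← hr] at hw
  have hmaps : Set.MapsTo (fun z : ℂ => ζ + (r : ℂ) * z) (ball (0 : ℂ) 1) (ball ζ r) := by
    intro z hz
    rw [mem_ball_zero_iff] at hz
    rw [mem_ball, dist_eq_norm, add_sub_cancel_left, norm_mul, Complex.norm_real,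
      Real.norm_of_nonneg hr0.le]
    nlinarith
  have hda : Differentiable ℂ (fun z : ℂ => ζ + (r : ℂ) * z) := by fun_prop
  have hCp : Cp θ (ball 0 1) (fun z => w (ζ + (r : ℂ) * z)) (fun z => h (ζ + (r : ℂ) * z)) :=
    ⟨hw.w_diff.comp hda.differentiableOn hmaps, hw.h_diff.comp hda.differentiableOn hmaps,
      fun z hz => hw.ne _ (hmaps hz)⟩
  have h1 := hb _ _ hCp
  have h2 : deriv (fun z : ℂ => h (ζ + (r : ℂ) * z)) 0 = (r : ℂ) • deriv h ζ := by
    have hd : HasDerivAt h (deriv h ζ) ζ :=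
      (hw.h_diff.differentiableAt (isOpen_ball.mem_nhds (mem_ball_self hr0))).hasDerivAt
    have ha : HasDerivAt (fun z : ℂ => ζ + (r : ℂ) * z) (r : ℂ) 0 := by
      simpa using ((hasDerivAt_id (0 : ℂ)).const_mul (r : ℂ)).const_add ζ
    have hd' : HasDerivAt h (deriv h ζ) (ζ + (r : ℂ) * 0) := by simpa using hd
    exact (HasDerivAt.scomp (0 : ℂ) hd' ha).deriv
  rw [h2, norm_smul, Complex.norm_real, Real.norm_of_nonneg hr0.le] at h1
  rw [le_div_iff₀ (by linarith)]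
  have h3 : -ζ.re = 2 * r := by rw [hr]; ring
  rw [h3]
  nlinarith [norm_nonneg (deriv h ζ)]

theorem BD.base_ext (B : BD Λ θ) {h : ℂ → Vd (k + 1)} (hc : ∀ ζ : ℂ, ζ.re < 0 → ∃ w : ℂ → EN 1, Cp θ (ball ζ (-ζ.re / 2)) w h) (hp : ∀ ζ : ℂ, ζ.re < 0 → h (ζ + 2 * Real.pi * Complex.I) - h ζ ∈ Λ) :
    ∃ H : ℂ → Vd (k + 1), DifferentiableOn ℂ H (ball 0 1) ∧ ∀ ζ : ℂ, ζ.re < 0 → h ζ = H (Complex.exp ζ) := by
  obtain ⟨C, hC, hb⟩ := B.ext_deriv hc
  obtain ⟨δ, hδ, hdisc⟩ := B.lat.disc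
  have hre : ∀ ζ : ℂ, (ζ + 2 * Real.pi * Complex.I).re = ζ.re := by
    intro ζ
    simp
  have hdiff : ∀ ζ : ℂ, ζ.re < 0 → DifferentiableAt ℂ h ζ := by
    intro ζ hζ
    obtain ⟨w, hw⟩ := hc ζ hζ
    exact hw.h_diff.differentiableAt (isOpen_ball.mem_nhds (mem_ball_self (by linarith)))
  have hlip : ∀ ρ : ℝ, 0 < ρ → ∀ x y : ℂ, x.re ≤ -ρ → y.re ≤ -ρ → ‖h y - h x‖ ≤ C / ρ * ‖y - x‖ := by
    intro ρ hρ x y hx hy
    refine Convex.norm_image_sub_le_of_norm_deriv_le (s := {c : ℂ | c.re ≤ -ρ}) (𝕜 := ℂ)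
      (fun z hz => hdiff z (lt_of_le_of_lt hz (by linarith))) ?_ (convex_halfSpace_re_le _) hx hy
    intro z hz
    have hz' : z.re ≤ -ρ := hz
    refine (hb z (by linarith)).trans ?_
    exact div_le_div_of_nonneg_left hC.le hρ (by linarith)
  -- the periods
  have hopen : IsOpen {c : ℂ | c.re < 0} := isOpen_lt Complex.continuous_re continuous_const
  have hper : ∀ ζ : ℂ, ζ.re < 0 → h (ζ + 2 * Real.pi * Complex.I) = h ζ := by
    obtain ⟨ρ, hρ⟩ : ∃ ρ : ℝ, ρ = 2 * Real.pi * C / δ + 1 := ⟨_, rfl⟩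
    have hπ := Real.pi_pos
    have hρ0 : 0 < ρ := by rw [hρ]; positivity
    have hnear : ∀ ζ : ℂ, ζ.re ≤ -ρ → h (ζ + 2 * Real.pi * Complex.I) - h ζ = 0 := by
      intro ζ hζ
      refine hdisc _ (hp ζ (by linarith)) ?_
      refine (hlip ρ hρ0 ζ (ζ + 2 * Real.pi * Complex.I) hζ (by rw [hre]; exact hζ)).trans_lt ?_
      have e : ‖ζ + 2 * Real.pi * Complex.I - ζ‖ = 2 * Real.pi := by
        rw [add_sub_cancel_left, norm_mul, norm_mul, Complex.norm_I, Complex.norm_real,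
          Real.norm_of_nonneg hπ.le]
        simp
      rw [e, div_mul_eq_mul_div, div_lt_iff₀ hρ0, hρ]
      have : δ * (2 * Real.pi * C / δ) = 2 * Real.pi * C := by field_simp
      nlinarith
    have hg : DifferentiableOn ℂ (fun ζ => h (ζ + 2 * Real.pi * Complex.I) - h ζ)
        {c : ℂ | c.re < 0} := by
      intro ζ hζ
      have hζ' : ζ.re < 0 := hζ
      have hd1 : DifferentiableAt ℂ (fun ζ : ℂ => h (ζ + 2 * Real.pi * Complex.I)) ζ :=
        DifferentiableAt.comp ζ (hdiff (ζ + 2 * Real.pi * Complex.I) (by rw [hre]; exact hζ'))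
          (by fun_prop)
      exact (hd1.sub (hdiff ζ hζ')).differentiableWithinAt
    have hz0 : ((-(ρ + 1) : ℝ) : ℂ) ∈ {c : ℂ | c.re < 0} := by
      show ((-(ρ + 1) : ℝ) : ℂ).re < 0
      rw [Complex.ofReal_re]
      linarith
    have hev : (fun ζ => h (ζ + 2 * Real.pi * Complex.I) - h ζ) =ᶠ[𝓝 ((-(ρ + 1) : ℝ) : ℂ)] 0 := by
      have ho : IsOpen {c : ℂ | c.re < -ρ} := isOpen_lt Complex.continuous_re continuous_const
      have hm : ((-(ρ + 1) : ℝ) : ℂ) ∈ {c : ℂ | c.re < -ρ} := by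
        show ((-(ρ + 1) : ℝ) : ℂ).re < -ρ
        rw [Complex.ofReal_re]
        linarith
      filter_upwards [ho.mem_nhds hm] with ζ hζ
      exact hnear ζ (le_of_lt hζ)
    have hpc : IsPreconnected {c : ℂ | c.re < 0} := (convex_halfSpace_re_lt 0).isPreconnected
    have := (hg.analyticOnNhd hopen).eqOn_zero_of_preconnected_of_eventuallyEq_zero hpc hz0 hev
    intro ζ hζ
    exact sub_eq_zero.1 (this hζ)
  have hperZ : ∀ (n : ℤ) (ζ : ℂ), ζ.re < 0 → h (ζ + n * (2 * Real.pi * Complex.I)) = h ζ := by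
    have hreN : ∀ (n : ℤ) (ζ : ℂ), (ζ + n * (2 * Real.pi * Complex.I)).re = ζ.re := by
      intro n ζ
      simp
    intro n
    induction n using Int.induction_on with
    | zero => intro ζ _; simp
    | succ n ih =>
      intro ζ hζ
      have e : ζ + ((n : ℤ) + 1 : ℤ) * (2 * Real.pi * Complex.I) =
          (ζ + (n : ℤ) * (2 * Real.pi * Complex.I)) + 2 * Real.pi * Complex.I := by
        push_cast
        ring
      rw [e, hper _ (by rw [hreN]; exact hζ), ih ζ hζ]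
    | pred n ih =>
      intro ζ hζ
      have e : ζ + (-(n : ℤ)) * (2 * Real.pi * Complex.I) =
          (ζ + (-(n : ℤ) - 1 : ℤ) * (2 * Real.pi * Complex.I)) + 2 * Real.pi * Complex.I := by
        push_cast
        ring
      have h1 := ih ζ hζ
      have e' : ζ + ((-(n : ℤ) : ℤ) : ℂ) * (2 * Real.pi * Complex.I) =
          (ζ + (-(n : ℤ) - 1 : ℤ) * (2 * Real.pi * Complex.I)) + 2 * Real.pi * Complex.I := by
        rw [← e]
        push_cast
        ring
      rw [e', hper _ (by rw [hreN]; exact hζ)] at h1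
      exact h1
  -- the function on the punctured disc
  obtain ⟨H₀, hH₀⟩ : ∃ H₀ : ℂ → Vd (k + 1), H₀ = fun z => h (Complex.log z) := ⟨_, rfl⟩
  have hexp : ∀ ζ : ℂ, ζ.re < 0 → H₀ (Complex.exp ζ) = h ζ := by
    intro ζ hζ
    obtain ⟨n, hn⟩ := Complex.exp_eq_exp_iff_exists_int.1
      (Complex.exp_log (Complex.exp_ne_zero ζ))
    rw [hH₀]
    show h (Complex.log (Complex.exp ζ)) = h ζ
    rw [hn]
    exact hperZ n ζ hζ
  have hd0 : DifferentiableOn ℂ H₀ (ball 0 1 \ {0}) := by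
    rintro z₀ ⟨hz1, hz2⟩
    have hz0 : z₀ ≠ 0 := hz2
    have hzn : ‖z₀‖ < 1 := mem_ball_zero_iff.1 hz1
    have hlog : (Complex.log z₀).re < 0 := by
      rw [Complex.log_re]
      exact Real.log_neg (norm_pos_iff.2 hz0) hzn
    have hev : H₀ =ᶠ[𝓝 z₀] fun z => h (Complex.log z₀ + Complex.log (z / z₀)) := by
      have h1 : ∀ᶠ z in 𝓝 z₀, z ≠ 0 := isOpen_ne.mem_nhds hz0
      have h2 : ∀ᶠ z in 𝓝 z₀, z ∈ ball (0 : ℂ) 1 := isOpen_ball.mem_nhds hz1
      filter_upwards [h1, h2] with z h1 h2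
      have e1 : Complex.exp (Complex.log z₀ + Complex.log (z / z₀)) = z := by
        rw [Complex.exp_add, Complex.exp_log hz0, Complex.exp_log (div_ne_zero h1 hz0),
          mul_div_cancel₀ z hz0]
      have e2 : (Complex.log z₀ + Complex.log (z / z₀)).re < 0 := by
        rw [Complex.add_re, Complex.log_re, Complex.log_re, norm_div,
          Real.log_div (norm_ne_zero_iff.2 h1) (norm_ne_zero_iff.2 hz0)]
        have := Real.log_neg (norm_pos_iff.2 h1) (mem_ball_zero_iff.1 h2)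
        linarith
      rw [← hexp _ e2, e1]
    refine (DifferentiableAt.congr_of_eventuallyEq ?_ hev).differentiableWithinAt
    have hin : DifferentiableAt ℂ (fun z : ℂ => Complex.log z₀ + Complex.log (z / z₀)) z₀ := by
      refine (differentiableAt_const _).add (DifferentiableAt.clog (by fun_prop) ?_)
      rw [div_self hz0]
      exact Complex.one_mem_slitPlane
    refine DifferentiableAt.comp z₀ (g := h) (hdiff _ ?_) hin
    rw [div_self hz0, Complex.log_one, add_zero]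
    exact hlog
  -- growth at `0`
  have hgr : (fun z => H₀ z - H₀ 0) =o[𝓝[≠] (0 : ℂ)] fun z => (z - 0)⁻¹ := by
    have hbig : (fun z => H₀ z - H₀ 0) =O[𝓝[≠] (0 : ℂ)] fun z : ℂ =>
        C * (|Real.log ‖z‖| + Real.pi + 1) + ‖h (-1)‖ + ‖H₀ 0‖ := by
      refine Asymptotics.IsBigO.of_bound 1 ?_
      have h1 : ∀ᶠ z in 𝓝[≠] (0 : ℂ), z ≠ 0 := self_mem_nhdsWithin
      have h2 : ∀ᶠ z in 𝓝[≠] (0 : ℂ), z ∈ ball (0 : ℂ) (Real.exp (-1)) :=
        nhdsWithin_le_nhds (isOpen_ball.mem_nhds (mem_ball_self (Real.exp_pos _)))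
      filter_upwards [h1, h2] with z h1 h2
      have hn : ‖z‖ < Real.exp (-1) := mem_ball_zero_iff.1 h2
      have hl : (Complex.log z).re ≤ -1 := by
        rw [Complex.log_re, Real.log_le_iff_le_exp (norm_pos_iff.2 h1)]
        exact hn.le
      have h3 := hlip 1 one_pos (-1) (Complex.log z) (by simp) hl
      have h4 : ‖Complex.log z‖ ≤ |Real.log ‖z‖| + Real.pi := by
        refine (Complex.norm_le_abs_re_add_abs_im _).trans ?_
        rw [Complex.log_re, Complex.log_im]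
        exact add_le_add le_rfl (Complex.abs_arg_le_pi z)
      have h5 : ‖Complex.log z - -1‖ ≤ |Real.log ‖z‖| + Real.pi + 1 := by
        rw [sub_neg_eq_add]
        refine (norm_add_le _ _).trans ?_
        rw [norm_one]
        linarith
      have h6 : ‖H₀ z‖ ≤ C * (|Real.log ‖z‖| + Real.pi + 1) + ‖h (-1)‖ := by
        have e : H₀ z = (h (Complex.log z) - h (-1)) + h (-1) := by
          rw [hH₀, sub_add_cancel]
        rw [e]
        refine (norm_add_le _ _).trans (add_le_add (h3.trans ?_) le_rfl)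
        rw [div_one]
        exact mul_le_mul_of_nonneg_left h5 hC.le
      have h7 : 0 ≤ C * (|Real.log ‖z‖| + Real.pi + 1) + ‖h (-1)‖ + ‖H₀ 0‖ := by
        have := Real.pi_pos
        positivity
      rw [one_mul, Real.norm_of_nonneg h7]
      refine (norm_sub_le _ _).trans ?_
      linarith
    refine hbig.trans_isLittleO ?_
    rw [← Asymptotics.isLittleO_norm_right]
    refine Asymptotics.isLittleO_of_tendsto' ?_ ?_
    · filter_upwards [self_mem_nhdsWithin] with z hz h0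
      have hz0 : z ≠ 0 := hz
      rw [sub_zero, norm_inv, inv_eq_zero, norm_eq_zero] at h0
      exact absurd h0 hz0
    · have ht : Tendsto (fun x : ℝ => C * |x * Real.log x| +
          (C * (Real.pi + 1) + ‖h (-1)‖ + ‖H₀ 0‖) * x) (𝓝 0) (𝓝 0) := by
        have hcont : Continuous (fun x : ℝ => C * |x * Real.log x| +
          (C * (Real.pi + 1) + ‖h (-1)‖ + ‖H₀ 0‖) * x) := by
          have := Real.continuous_mul_log
          fun_prop
        have := hcont.tendsto 0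
        simpa using this
      have hn : Tendsto (fun z : ℂ => ‖z‖) (𝓝[≠] 0) (𝓝 0) := by
        have : Tendsto (fun z : ℂ => ‖z‖) (𝓝 0) (𝓝 ‖(0 : ℂ)‖) := continuous_norm.tendsto 0
        rw [norm_zero] at this
        exact this.mono_left nhdsWithin_le_nhds
      refine (ht.comp hn).congr fun z => ?_
      show C * |‖z‖ * Real.log ‖z‖| + (C * (Real.pi + 1) + ‖h (-1)‖ + ‖H₀ 0‖) * ‖z‖ = _
      rw [sub_zero, norm_inv, div_inv_eq_mul, abs_mul, abs_norm]
      ring
  refine ⟨Function.update H₀ 0 (limUnder (𝓝[≠] 0) H₀),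
    Complex.differentiableOn_update_limUnder_of_isLittleO (isOpen_ball.mem_nhds
      (mem_ball_self one_pos)) hd0 hgr, fun ζ hζ => ?_⟩
  rw [Function.update_of_ne (Complex.exp_ne_zero ζ), hexp ζ hζ]

end Pool.Agent.PX
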