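import Pool.Agent.PX.Fib

/-!
# PX FibC: entire curves in a fibre with three distinct roots; openness of `R3`

`fib_const`: as `PD.fib` (`cross`, `little_picard`).  `r3_open`: if the form over `y₀` is not `0` and has three distinct roots then so do the forms over the points near `y₀` (Hurwitz / continuity of the roots: choose `b` with `Fo θ y₀ b ≠ 0`, disjoint small discs around the three numbers `t`).
-/

set_option autoImplicit false

open Topology Filter Metric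

namespace Pool.Agent.PX

open Pool.Agent.H36.BP (EN fs wd)
open Pool.Agent.H62.EF (MN pr)
open Pool.Agent.AD (Vd)
open Pool.Agent.TG (Lat Gd)
open Pool.Agent.G3 (wt TT LLift)
open Pool.Agent.G4 (Few)

variable {k d r : ℕ}


/-- there are three distinct roots -/
def R3 (θ : Fin (d + 1) → Vd (k + 1) → ℂ) (y : Vd (k + 1)) : Prop :=
  ∃ x₁ x₂ x₃ : EN 1, Fo θ y x₁ = 0 ∧ Fo θ y x₂ = 0 ∧ Fo θ y x₃ = 0 ∧ dt x₁ x₂ ≠ 0 ∧ dt x₁ x₃ ≠ 0 ∧ dt x₂ x₃ ≠ 0

private theorem ne_of_dt {x v : EN 1} (h : dt x v ≠ 0) : x ≠ 0 := by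
  rintro rfl
  exact h (by simp [dt])

private theorem ne_of_dt' {x v : EN 1} (h : dt x v ≠ 0) : v ≠ 0 := by
  rintro rfl
  exact h (by simp [dt])

private theorem coord_diff {G : ℂ → EN 1} (hG : Differentiable ℂ G) (i : Fin 2) : Differentiable ℂ fun z => G z i :=
  ((EuclideanSpace.proj i : EN 1 →L[ℂ] ℂ).differentiable).comp hG

/-- an entire curve in a fibre with three distinct roots is constant -/
theorem fib_const {θ : Fin (d + 1) → Vd (k + 1) → ℂ} {y : Vd (k + 1)} (h3 : R3 θ y) {G : ℂ → EN 1} (hG : Differentiable ℂ G) (hF : ∀ z, Fo θ y (G z) ≠ 0) (z w : ℂ) :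
    ∃ c : ℂ, G z = c • G w := by
  obtain ⟨x₁, x₂, x₃, e1, e2, e3, h12, h13, h23⟩ := h3
  have key : ∀ x : EN 1, x ≠ 0 → Fo θ y x = 0 → ∀ u, dt x (G u) ≠ 0 := by
    intro x hx hx0 u h0
    obtain ⟨c, hc⟩ := (dt_eq_zero hx).1 h0
    apply hF u
    rw [hc, fo_smul, hx0, mul_zero]
  have k1 := key x₁ (ne_of_dt h12) e1
  have k2 := key x₂ (ne_of_dt h23) e2
  have k3 := key x₃ (ne_of_dt' h23) e3
  have hd : ∀ x : EN 1, Differentiable ℂ fun u => dt x (G u) := by
    intro x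
    unfold dt
    exact ((coord_diff hG 1).const_mul _).sub ((coord_diff hG 0).const_mul _)
  have h21 : dt x₂ x₁ ≠ 0 := by
    intro h
    apply h12
    simp only [dt] at h ⊢
    linear_combination -h
  have hf : Differentiable ℂ fun u => dt x₁ (G u) * dt x₂ x₃ / (dt x₃ (G u) * dt x₂ x₁) :=
    ((hd x₁).mul_const _).div ((hd x₃).mul_const _) fun u => mul_ne_zero (k3 u) h21
  have hp := Pool.Agent.H41.LR.little_picard hf (fun u => cross h12 h13 h23 (k1 u) (k2 u) (k3 u)) z w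
  rw [div_eq_div_iff (mul_ne_zero (k3 z) h21) (mul_ne_zero (k3 w) h21)] at hp
  have hw : G w ≠ 0 := ne_of_dt' (k1 w)
  have h0 : dt (G w) (G z) = 0 := by
    have h1 : dt x₁ (G z) * dt x₃ (G w) = dt x₁ (G w) * dt x₃ (G z) := by
      have h2 : (dt x₂ x₃ * dt x₂ x₁) * (dt x₁ (G z) * dt x₃ (G w) - dt x₁ (G w) * dt x₃ (G z)) = 0 := by
        linear_combination hp
      have h3 := (mul_eq_zero.1 h2).resolve_left (mul_ne_zero h23 h21)
      exact sub_eq_zero.1 h3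
    have h2 : dt x₁ x₃ * dt (G w) (G z) = 0 := by
      simp only [dt] at h1 ⊢
      linear_combination -h1
    exact (mul_eq_zero.1 h2).resolve_left h13
  exact (dt_eq_zero hw).1 h0

/-- the polynomial `t ↦ Fo θ y (x + t b)` -/
private noncomputable def Pl (θ : Fin (d + 1) → Vd (k + 1) → ℂ) (y : Vd (k + 1)) (x b : EN 1) : Polynomial ℂ :=
  ∑ i : Fin (d + 1), Polynomial.C (θ i y) * ((Polynomial.C (b 0) * Polynomial.X + Polynomial.C (x 0)) ^ (i : ℕ) *
    (Polynomial.C (b 1) * Polynomial.X + Polynomial.C (x 1)) ^ (d - (i : ℕ)))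

private theorem pl_eval (θ : Fin (d + 1) → Vd (k + 1) → ℂ) (y : Vd (k + 1)) (x b : EN 1) (t : ℂ) :
    (Pl θ y x b).eval t = Fo θ y (x + t • b) := by
  unfold Pl Fo
  rw [Polynomial.eval_finsetSum]
  refine Finset.sum_congr rfl fun i _ => ?_
  simp only [Polynomial.eval_mul, Polynomial.eval_C, Polynomial.eval_pow, Polynomial.eval_add, Polynomial.eval_X, PiLp.add_apply, PiLp.smul_apply, smul_eq_mul]
  ring

private theorem lin_deg (a c : ℂ) (n : ℕ) : ((Polynomial.C a * Polynomial.X + Polynomial.C c) ^ n).natDegree ≤ n := by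
  refine Polynomial.natDegree_pow_le.trans ?_
  have := Polynomial.natDegree_linear_le (a := a) (b := c)
  nlinarith

private theorem lin_coeff (a c : ℂ) (n : ℕ) : ((Polynomial.C a * Polynomial.X + Polynomial.C c) ^ n).coeff n = a ^ n := by
  have h := Polynomial.coeff_pow_of_natDegree_le (p := Polynomial.C a * Polynomial.X + Polynomial.C c) (n := 1) (m := n) Polynomial.natDegree_linear_le
  rw [mul_one] at h
  rw [h]
  simp

private theorem pl_deg (θ : Fin (d + 1) → Vd (k + 1) → ℂ) (y : Vd (k + 1)) (x b : EN 1) : (Pl θ y x b).natDegree ≤ d := by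
  unfold Pl
  refine Polynomial.natDegree_sum_le_of_forall_le _ _ fun i _ => ?_
  refine (Polynomial.natDegree_C_mul_le _ _).trans (Polynomial.natDegree_mul_le.trans ?_)
  have h1 := lin_deg (b 0) (x 0) (i : ℕ)
  have h2 := lin_deg (b 1) (x 1) (d - (i : ℕ))
  have h3 : (i : ℕ) ≤ d := by omega
  omega

private theorem pl_coeff (θ : Fin (d + 1) → Vd (k + 1) → ℂ) (y : Vd (k + 1)) (x b : EN 1) : (Pl θ y x b).coeff d = Fo θ y b := by
  unfold Pl Fo
  rw [Polynomial.finsetSum_coeff]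
  refine Finset.sum_congr rfl fun i _ => ?_
  rw [Polynomial.coeff_C_mul]
  have h3 : (i : ℕ) + (d - (i : ℕ)) = d := by omega
  have h := Polynomial.coeff_mul_add_eq_of_natDegree_le (lin_deg (b 0) (x 0) (i : ℕ)) (lin_deg (b 1) (x 1) (d - (i : ℕ)))
  rw [h3] at h
  rw [h, lin_coeff, lin_coeff]
  ring

private theorem prod_low {ε : ℝ} (hε : 0 ≤ ε) (s : Multiset ℂ) (h : ∀ a ∈ s, ε ≤ ‖a‖) : ε ^ s.card ≤ ‖(s.map fun a => -a).prod‖ := by
  induction s using Multiset.induction_on with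
  | empty => simp
  | cons a s ih =>
    rw [Multiset.card_cons, Multiset.map_cons, Multiset.prod_cons, norm_mul, norm_neg, pow_succ, mul_comm]
    exact mul_le_mul (h a (Multiset.mem_cons_self a s)) (ih fun b hb => h b (Multiset.mem_cons_of_mem hb)) (pow_nonneg hε _) (norm_nonneg _)

/-- a root of modulus `< ε` -/
private theorem small_root (θ : Fin (d + 1) → Vd (k + 1) → ℂ) (y : Vd (k + 1)) (x b : EN 1) {ε : ℝ} (hε : 0 < ε) (h : ‖Fo θ y x‖ < ‖Fo θ y b‖ * ε ^ d) :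
    ∃ t : ℂ, ‖t‖ < ε ∧ Fo θ y (x + t • b) = 0 := by
  by_contra hcon
  push Not at hcon
  have hb : Fo θ y b ≠ 0 := by
    intro h0
    rw [h0, norm_zero, zero_mul] at h
    exact absurd h (not_lt.2 (norm_nonneg _))
  have hdeg : (Pl θ y x b).natDegree = d := by
    refine le_antisymm (pl_deg θ y x b) (Polynomial.le_natDegree_of_ne_zero ?_)
    rw [pl_coeff]
    exact hb
  have hlc : (Pl θ y x b).leadingCoeff = Fo θ y b := by
    rw [Polynomial.leadingCoeff, hdeg, pl_coeff]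
  have hcard : (Pl θ y x b).roots.card = (Pl θ y x b).natDegree := IsAlgClosed.card_roots_eq_natDegree
  have hne : Pl θ y x b ≠ 0 := by
    intro h0
    rw [h0, Polynomial.leadingCoeff_zero] at hlc
    exact hb hlc.symm
  have hfac := Polynomial.C_leadingCoeff_mul_prod_multiset_X_sub_C hcard
  have hev : (Pl θ y x b).eval 0 = Fo θ y b * ((Pl θ y x b).roots.map fun a => -a).prod := by
    conv_lhs => rw [← hfac]
    rw [Polynomial.eval_mul, Polynomial.eval_C, hlc, Polynomial.eval_multiset_prod, Multiset.map_map]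
    congr 2
    refine Multiset.map_congr rfl fun a _ => ?_
    simp
  have h0 : (Pl θ y x b).eval 0 = Fo θ y x := by
    rw [pl_eval, zero_smul, add_zero]
  have hlow := prod_low hε.le (Pl θ y x b).roots (fun a ha => by
    by_contra hlt
    refine hcon a (not_le.1 hlt) ?_
    rw [← pl_eval]
    exact (Polynomial.mem_roots hne).1 ha)
  rw [hcard, hdeg] at hlow
  have h1 : ‖Fo θ y b‖ * ε ^ d ≤ ‖Fo θ y x‖ := by
    rw [← h0, hev, norm_mul]
    exact mul_le_mul_of_nonneg_left hlow (norm_nonneg _)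
  exact absurd h (not_lt.2 h1)

private theorem fo_cont {θ : Fin (d + 1) → Vd (k + 1) → ℂ} (han : ∀ i, Differentiable ℂ (θ i)) (x : EN 1) : Continuous fun y => Fo θ y x := by
  have h := (fo_diff han).continuous
  exact h.comp (continuous_id.prodMk continuous_const)

private theorem ex_ne {θ : Fin (d + 1) → Vd (k + 1) → ℂ} {y₀ : Vd (k + 1)} (h0 : ∃ i, θ i y₀ ≠ 0) : ∃ b : EN 1, Fo θ y₀ b ≠ 0 := by
  obtain ⟨i₀, hi⟩ := h0
  let Q : Polynomial ℂ := ∑ i : Fin (d + 1), Polynomial.monomial (i : ℕ) (θ i y₀)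
  have hQ : Q ≠ 0 := by
    intro hz
    apply hi
    have h1 : Q.coeff (i₀ : ℕ) = 0 := by rw [hz]; simp
    rw [Polynomial.finsetSum_coeff, Finset.sum_eq_single i₀] at h1
    · simpa using h1
    · intro j _ hj
      rw [Polynomial.coeff_monomial, if_neg]
      intro he
      exact hj (Fin.ext he)
    · intro h
      exact absurd (Finset.mem_univ _) h
  obtain ⟨t, ht⟩ : ∃ t, Q.eval t ≠ 0 := by
    by_contra hcon
    push Not at hcon
    exact hQ (Polynomial.funext fun t => by rw [hcon t]; simp)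
  refine ⟨!₂[t, 1], ?_⟩
  have h1 : Fo θ y₀ !₂[t, 1] = Q.eval t := by
    unfold Fo
    rw [Polynomial.eval_finsetSum]
    refine Finset.sum_congr rfl fun i _ => ?_
    rw [Polynomial.eval_monomial]
    simp
  rw [h1]
  exact ht

private theorem root_near {θ : Fin (d + 1) → Vd (k + 1) → ℂ} (han : ∀ i, Differentiable ℂ (θ i)) {y₀ : Vd (k + 1)} {x b : EN 1} (hx : Fo θ y₀ x = 0)
    (hb : Fo θ y₀ b ≠ 0) {ε : ℝ} (hε : 0 < ε) : ∀ᶠ y in 𝓝 y₀, ∃ t : ℂ, ‖t‖ < ε ∧ Fo θ y (x + t • b) = 0 := by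
  have h1 : Tendsto (fun y => ‖Fo θ y x‖) (𝓝 y₀) (𝓝 ‖Fo θ y₀ x‖) := ((fo_cont han x).norm).tendsto y₀
  have h2 : Tendsto (fun y => ‖Fo θ y b‖ * ε ^ d) (𝓝 y₀) (𝓝 (‖Fo θ y₀ b‖ * ε ^ d)) := (((fo_cont han b).norm).mul continuous_const).tendsto y₀
  have h3 : ‖Fo θ y₀ x‖ < ‖Fo θ y₀ b‖ * ε ^ d := by
    rw [hx, norm_zero]
    exact mul_pos (norm_pos_iff.2 hb) (pow_pos hε d)
  filter_upwards [h1.eventually_lt h2 h3] with y hy
  exact small_root θ y x b hε hy

private theorem dt_near {x v : EN 1} (h : dt x v ≠ 0) (b : EN 1) : ∃ ε > 0, ∀ s t : ℂ, ‖s‖ < ε → ‖t‖ < ε → dt (x + s • b) (v + t • b) ≠ 0 := by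
  have hc : Continuous fun p : ℂ × ℂ => dt (x + p.1 • b) (v + p.2 • b) := by
    simp only [dt, PiLp.add_apply, PiLp.smul_apply, smul_eq_mul]
    fun_prop
  have h0 : dt (x + (0 : ℂ × ℂ).1 • b) (v + (0 : ℂ × ℂ).2 • b) ≠ 0 := by simpa using h
  obtain ⟨ε, hε, hb⟩ := Metric.eventually_nhds_iff.1 (hc.continuousAt.eventually_ne h0)
  refine ⟨ε, hε, fun s t hs ht => hb (y := (s, t)) ?_⟩
  rw [dist_zero_right, Prod.norm_def]
  exact max_lt hs ht

theorem r3_open {θ : Fin (d + 1) → Vd (k + 1) → ℂ} (han : ∀ i, Differentiable ℂ (θ i)) {y₀ : Vd (k + 1)} (h0 : ∃ i, θ i y₀ ≠ 0) (h3 : R3 θ y₀) : ∀ᶠ y in 𝓝 y₀, R3 θ y := by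
  obtain ⟨b, hb⟩ := ex_ne h0
  obtain ⟨x₁, x₂, x₃, e1, e2, e3, h12, h13, h23⟩ := h3
  obtain ⟨ε₁, p1, q1⟩ := dt_near h12 b
  obtain ⟨ε₂, p2, q2⟩ := dt_near h13 b
  obtain ⟨ε₃, p3, q3⟩ := dt_near h23 b
  have hε : 0 < min ε₁ (min ε₂ ε₃) := lt_min p1 (lt_min p2 p3)
  filter_upwards [root_near han e1 hb hε, root_near han e2 hb hε, root_near han e3 hb hε] with y hy1 hy2 hy3
  obtain ⟨t₁, a1, r1⟩ := hy1
  obtain ⟨t₂, a2, r2⟩ := hy2
  obtain ⟨t₃, a3, r3⟩ := hy3
  simp only [lt_min_iff] at a1 a2 a3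
  exact ⟨_, _, _, r1, r2, r3, q1 t₁ t₂ a1.1 a2.1, q2 t₁ t₃ a1.2.1 a3.2.1, q3 t₂ t₃ a2.2.2 a3.2.2⟩

end Pool.Agent.PX
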