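import Pool.Agent.PX.RExt
import Pool.Agent.LR.Cover
import Pool.Agent.H60.OC.RootAna

/-!
# PX RPow: Puiseux expansion

On the half plane `Re ζ < log R` the simple roots of `Pt c (exp ζ)` are `m` continuous functions (`LR/Cover`, `roots_simply`), permuted by `ζ ↦ ζ + 2 π I`; the `N`-th power of the permutation is the identity for `N = m!`; so they are functions of `τ = exp (ζ / N)`, holomorphic off `0`, bounded: they extend.
-/

set_option autoImplicit false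

open Topology Filter Metric Polynomial

namespace Pool.Agent.PX

open Pool.Agent.H60.OC (poly IsRoots)
open Pool.Agent.H36.BP (EN fs wd)
open Pool.Agent.H62.EF (MN pr)
open Pool.Agent.AD (Vd)
open Pool.Agent.TG (Lat Gd)
open Pool.Agent.G3 (wt TT LLift)
open Pool.Agent.G4 (Few)

theorem rp_eval {m : ℕ} (c : Fin m → ℂ → ℂ) (z t : ℂ) :
    Pt c z t = (poly (fun i => c (Fin.rev i) z)).eval t := by
  unfold Pt poly
  simp only [eval_add, eval_pow, eval_X, eval_finsetSum, eval_mul, eval_C]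
  congr 1
  rw [← Equiv.sum_comp Fin.revPerm]
  refine Finset.sum_congr rfl fun i _ => ?_
  have h : ((Fin.revPerm i : Fin m) : ℕ) = m - 1 - (i : ℕ) := by
    rw [Fin.revPerm_apply, Fin.val_rev]
    omega
  rw [h]
  rfl

theorem rp_low {m : ℕ} (z : Fin m → ℂ) : (∑ i : Fin m, C (z i) * X ^ (m - 1 - (i : ℕ)) : ℂ[X]).degree < m := by
  have h1 : (∑ i : Fin m, C (z i) * X ^ (m - 1 - (i : ℕ)) : ℂ[X]) = ∑ i : Fin m, C (z (Fin.rev i)) * X ^ (i : ℕ) := by
    rw [← Equiv.sum_comp Fin.revPerm]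
    refine Finset.sum_congr rfl fun i _ => ?_
    have h : m - 1 - ((Fin.revPerm i : Fin m) : ℕ) = (i : ℕ) := by
      rw [Fin.revPerm_apply, Fin.val_rev]
      have := i.2
      omega
    rw [h]
    rfl
  rw [h1]
  exact degree_sum_fin_lt _

theorem rp_monic {m : ℕ} (z : Fin m → ℂ) : (poly z).Monic := monic_X_pow_add (rp_low z)

theorem rp_deg {m : ℕ} (z : Fin m → ℂ) : (poly z).natDegree = m := by
  have h : (poly z).degree = m := by
    unfold poly
    rw [degree_add_eq_left_of_degree_lt, degree_X_pow]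
    rw [degree_X_pow]
    exact rp_low z
  exact natDegree_eq_of_degree_eq_some h

/-- a polynomial with simple roots has an injective root list -/
theorem rp_list {m : ℕ} (z : Fin m → ℂ) (hs : ∀ t, (poly z).eval t = 0 → (derivative (poly z)).eval t ≠ 0) :
    ∃ r : Fin m → ℂ, IsRoots r z ∧ Function.Injective r := by
  have hsp : (poly z).roots.card = m := by
    exact (splits_iff_card_roots.1 (IsAlgClosed.splits (poly z))).trans (rp_deg z)
  have hne : poly z ≠ 0 := (rp_monic z).ne_zero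
  have hnd : (poly z).roots.Nodup := by
    rw [Multiset.nodup_iff_count_le_one]
    intro t
    rw [count_roots]
    by_contra hlt
    push Not at hlt
    rw [one_lt_rootMultiplicity_iff_isRoot hne] at hlt
    exact hs t hlt.1 hlt.2
  obtain ⟨l, hl⟩ := Quot.exists_rep (poly z).roots
  have hl' : (l : Multiset ℂ) = (poly z).roots := hl
  have hlen : l.length = m := by
    rw [← hsp, ← hl']
    rfl
  subst hlen
  refine ⟨fun i => l.get i, ?_, ?_⟩
  · unfold IsRoots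
    have h2 := (IsAlgClosed.splits (poly z)).eq_prod_roots_of_monic (rp_monic z)
    rw [h2, ← hl', Multiset.map_coe, Multiset.prod_coe]
    conv_lhs => rw [← List.ofFn_get l]
    rw [List.map_ofFn, List.prod_ofFn]
    rfl
  · have h3 : l.Nodup := by
      rw [← Multiset.coe_nodup, hl']
      exact hnd
    exact List.nodup_iff_injective_get.1 h3

/-- the half plane -/
def HP (R : ℝ) : Set ℂ := {ζ | ζ.re < Real.log R}

theorem hp_open (R : ℝ) : IsOpen (HP R) := isOpen_lt Complex.continuous_re continuous_const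

theorem hp_convex (R : ℝ) : Convex ℝ (HP R) := convex_halfSpace_re_lt _

theorem hp_exp {R : ℝ} (hR : 0 < R) {ζ : ℂ} (h : ζ ∈ HP R) : Complex.exp ζ ∈ ball (0 : ℂ) R := by
  rw [mem_ball_zero_iff, Complex.norm_exp, ← Real.lt_log_iff_exp_lt hR]
  exact h

theorem rp_half {m : ℕ} {c : Fin m → ℂ → ℂ} {R : ℝ} (hR : 0 < R) (hc : ∀ i, DifferentiableOn ℂ (c i) (ball 0 R))
    (hs : ∀ z ∈ ball (0 : ℂ) R, z ≠ 0 → ∀ t, Pt c z t = 0 → deriv (Pt c z) t ≠ 0) :
    ∃ ρ : ℂ → (Fin m → ℂ), ContinuousOn ρ (HP R) ∧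
      ∀ ζ ∈ HP R, IsRoots (ρ ζ) (fun i => c (Fin.rev i) (Complex.exp ζ)) ∧ Function.Injective (ρ ζ) := by
  classical
  have hd : ∀ ζ ∈ HP R, ∃ r, IsRoots r (fun i : Fin m => c (Fin.rev i) (Complex.exp ζ)) ∧ Function.Injective r := by
    intro ζ hζ
    refine rp_list _ fun t ht => ?_
    have h1 := hs _ (hp_exp hR hζ) (Complex.exp_ne_zero ζ) t (by rw [rp_eval]; exact ht)
    have h2 : Pt c (Complex.exp ζ) = fun t => (poly (fun i => c (Fin.rev i) (Complex.exp ζ))).eval t := by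
      funext t
      exact rp_eval c _ t
    rw [h2, Polynomial.deriv] at h1
    exact h1
  have hne : (HP R).Nonempty := by
    refine ⟨((Real.log R - 1 : ℝ) : ℂ), ?_⟩
    show (((Real.log R - 1 : ℝ) : ℂ)).re < Real.log R
    rw [Complex.ofReal_re]
    linarith
  have hcon : ContractibleSpace (HP R) := (hp_convex R).contractibleSpace hne
  have hloc : LocallyPathConnectedSpace (HP R) := (hp_open R).locallyPathConnectedSpace
  have hcont : Continuous fun ζ : HP R => (fun i : Fin m => c (Fin.rev i) (Complex.exp ζ)) := by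
    refine continuous_pi fun i => ?_
    have h1 : ContinuousOn (fun ζ : ℂ => c (Fin.rev i) (Complex.exp ζ)) (HP R) :=
      (hc (Fin.rev i)).continuousOn.comp Complex.continuous_exp.continuousOn fun ζ hζ => hp_exp hR hζ
    exact continuousOn_iff_continuous_domRestrict.1 h1
  obtain ⟨ρ, hρ, hr⟩ := Pool.Agent.LR.roots_simply (Y := HP R) hcont (fun ζ => hd ζ ζ.2)
  refine ⟨fun ζ => if h : ζ ∈ HP R then ρ ⟨ζ, h⟩ else 0, ?_, fun ζ hζ => ?_⟩
  · rw [continuousOn_iff_continuous_domRestrict]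
    refine hρ.congr fun x => ?_
    simp [Set.domRestrict]
  · simp only [dif_pos hζ]
    refine ⟨hr ⟨ζ, hζ⟩, ?_⟩
    obtain ⟨r, h1, h2⟩ := hd ζ hζ
    exact Pool.Agent.LR.cv_inj (hr ⟨ζ, hζ⟩) h1 h2

theorem hp_add {R : ℝ} {ζ : ℂ} (x : ℝ) : ζ + x * (2 * Real.pi * Complex.I) ∈ HP R ↔ ζ ∈ HP R := by
  have h : (ζ + x * (2 * Real.pi * Complex.I)).re = ζ.re := by
    simp
  unfold HP
  rw [Set.mem_ofPred_eq, Set.mem_ofPred_eq, h]

theorem rp_per {m : ℕ} {c : Fin m → ℂ → ℂ} {R : ℝ} {ρ : ℂ → (Fin m → ℂ)} (hρ : ContinuousOn ρ (HP R))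
    (hr : ∀ ζ ∈ HP R, IsRoots (ρ ζ) (fun i => c (Fin.rev i) (Complex.exp ζ)) ∧ Function.Injective (ρ ζ)) :
    ∃ N : ℕ, 0 < N ∧ ∀ ζ ∈ HP R, ∀ k : ℤ, ρ (ζ + k * (N * (2 * Real.pi * Complex.I))) = ρ ζ := by
  have hin : ∀ ζ ∈ HP R, ζ + 2 * Real.pi * Complex.I ∈ HP R := by
    intro ζ hζ
    have h := (hp_add (R := R) (ζ := ζ) 1).2 hζ
    simpa using h
  obtain ⟨s, hs⟩ := Pool.Agent.LR.exists_perm_on (W := HP R) (hp_convex R).isPreconnected (ρ := ρ)
    (ρ' := fun ζ => ρ (ζ + 2 * Real.pi * Complex.I)) (H := fun ζ i => c (Fin.rev i) (Complex.exp ζ)) hρ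
    (hρ.comp (by fun_prop) hin) (fun x hx => (hr x hx).1) (fun x hx => by
      have h1 := (hr _ (hin x hx)).1
      rw [Complex.exp_periodic x] at h1
      exact h1) (fun x hx => (hr x hx).2)
  have hpow : ∀ n : ℕ, ∀ ζ ∈ HP R, ∀ j, ρ (ζ + n * (2 * Real.pi * Complex.I)) ((s ^ n) j) = ρ ζ j := by
    intro n
    induction n with
    | zero => intro ζ _ j; simp
    | succ n ih =>
      intro ζ hζ j
      have h1 : ζ + n * (2 * Real.pi * Complex.I) ∈ HP R := by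
        have h := (hp_add (R := R) (ζ := ζ) n).2 hζ
        simpa using h
      have h2 := hs _ h1 ((s ^ n) j)
      have h3 : ζ + ((n + 1 : ℕ) : ℂ) * (2 * Real.pi * Complex.I) = ζ + n * (2 * Real.pi * Complex.I) + 2 * Real.pi * Complex.I := by
        push_cast
        ring
      rw [h3, pow_succ', Equiv.Perm.mul_apply]
      exact h2.trans (ih ζ hζ j)
  refine ⟨orderOf s, orderOf_pos s, ?_⟩
  have hN : ∀ ζ ∈ HP R, ρ (ζ + (orderOf s) * (2 * Real.pi * Complex.I)) = ρ ζ := by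
    intro ζ hζ
    funext j
    have h1 := hpow (orderOf s) ζ hζ j
    rw [pow_orderOf_eq_one] at h1
    exact h1
  have hNat : ∀ n : ℕ, ∀ ζ ∈ HP R, ρ (ζ + n * ((orderOf s) * (2 * Real.pi * Complex.I))) = ρ ζ := by
    intro n
    induction n with
    | zero => intro ζ _; simp
    | succ n ih =>
      intro ζ hζ
      have h1 : ζ + n * ((orderOf s) * (2 * Real.pi * Complex.I)) ∈ HP R := by
        have h := (hp_add (R := R) (ζ := ζ) (n * orderOf s)).2 hζ
        push_cast at h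
        rw [mul_assoc] at h
        exact h
      have h3 : ζ + ((n + 1 : ℕ) : ℂ) * ((orderOf s) * (2 * Real.pi * Complex.I)) =
          ζ + n * ((orderOf s) * (2 * Real.pi * Complex.I)) + (orderOf s) * (2 * Real.pi * Complex.I) := by
        push_cast
        ring
      rw [h3, hN _ h1, ih ζ hζ]
  intro ζ hζ k
  obtain ⟨n, rfl | rfl⟩ := k.eq_nat_or_neg
  · exact_mod_cast hNat n ζ hζ
  · have h1 : ζ + ((-(n : ℤ) : ℤ) : ℂ) * ((orderOf s) * (2 * Real.pi * Complex.I)) ∈ HP R := by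
      have h := (hp_add (R := R) (ζ := ζ) (-(n * orderOf s))).2 hζ
      push_cast at h ⊢
      have e : ζ + -(n : ℂ) * ((orderOf s) * (2 * Real.pi * Complex.I)) = ζ + -((n : ℂ) * (orderOf s)) * (2 * Real.pi * Complex.I) := by ring
      rw [e]
      exact h
    rw [← hNat n _ h1]
    congr 1
    push_cast
    ring

theorem rp_bound {m : ℕ} {a : Fin m → ℂ} {M : ℝ} (hM : ∀ i, ‖a i‖ ≤ M) {t : ℂ} (ht : t ^ m + ∑ i : Fin m, a i * t ^ (i : ℕ) = 0) :
    ‖t‖ ≤ 1 + m * M := by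
  rcases m with _ | m
  · simp at ht
  by_contra hlt
  push Not at hlt
  have hM0 : 0 ≤ M := (norm_nonneg _).trans (hM 0)
  have h1 : 1 ≤ ‖t‖ := by
    have : 0 ≤ ((m + 1 : ℕ) : ℝ) * M := by positivity
    linarith
  have h2 : t ^ (m + 1) = -∑ i : Fin (m + 1), a i * t ^ (i : ℕ) := by
    linear_combination ht
  have h3 : ‖t‖ ^ (m + 1) ≤ ((m + 1 : ℕ) : ℝ) * M * ‖t‖ ^ m := by
    rw [← norm_pow, h2, norm_neg]
    refine (norm_sum_le _ _).trans ?_
    have h4 : ∀ i : Fin (m + 1), ‖a i * t ^ (i : ℕ)‖ ≤ M * ‖t‖ ^ m := by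
      intro i
      rw [norm_mul, norm_pow]
      refine mul_le_mul (hM i) (pow_le_pow_right₀ h1 (Nat.lt_succ_iff.1 i.2)) (by positivity) hM0
    refine (Finset.sum_le_sum fun i _ => h4 i).trans ?_
    rw [Finset.sum_const, Finset.card_univ, Fintype.card_fin, nsmul_eq_mul]
    exact le_of_eq (by ring)
  have h5 : 0 < ‖t‖ ^ m := by positivity
  have h6 : ‖t‖ ≤ ((m + 1 : ℕ) : ℝ) * M := by
    rw [pow_succ'] at h3
    exact le_of_mul_le_mul_right h3 h5
  linarith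

/-- the root at `τ ≠ 0`, `ζ` any point over `τ` -/
theorem rp_log {m : ℕ} {R : ℝ} {ρ : ℂ → (Fin m → ℂ)} {N : ℕ} (hN : 0 < N)
    (hp : ∀ ζ ∈ HP R, ∀ k : ℤ, ρ (ζ + k * (N * (2 * Real.pi * Complex.I))) = ρ ζ) {τ ζ : ℂ} (hτ : τ ≠ 0) (hζ : ζ ∈ HP R)
    (h : Complex.exp (ζ / N) = τ) : N * Complex.log τ ∈ HP R ∧ ρ (N * Complex.log τ) = ρ ζ := by
  have hN' : (N : ℂ) ≠ 0 := by exact_mod_cast hN.ne'
  have h1 : Complex.exp (Complex.log τ) = Complex.exp (ζ / N) := by rw [Complex.exp_log hτ, h]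
  obtain ⟨k, hk⟩ := Complex.exp_eq_exp_iff_exists_int.1 h1
  have h2 : N * Complex.log τ = ζ + k * (N * (2 * Real.pi * Complex.I)) := by
    rw [hk]
    field_simp
  refine ⟨?_, ?_⟩
  · rw [h2]
    have h3 := (hp_add (R := R) (ζ := ζ) (k * N)).2 hζ
    push_cast at h3
    rw [mul_assoc] at h3
    exact h3
  · rw [h2, hp ζ hζ k]

theorem rp_mem {R : ℝ} {N : ℕ} {τ : ℂ} (hτ : τ ≠ 0) (h : ‖τ‖ ^ N < R) :
    (N : ℂ) * Complex.log τ ∈ HP R := by
  have h1 : ((N : ℂ) * Complex.log τ).re = N * Real.log ‖τ‖ := by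
    rw [← Complex.ofReal_natCast, Complex.re_ofReal_mul, Complex.log_re]
  show ((N : ℂ) * Complex.log τ).re < Real.log R
  rw [h1, ← Real.log_pow]
  exact Real.log_lt_log (by positivity) h

theorem roots_pow {m : ℕ} {c : Fin m → ℂ → ℂ} {R : ℝ} (hR : 0 < R) (hc : ∀ i, DifferentiableOn ℂ (c i) (ball 0 R))
    (hs : ∀ z ∈ ball (0 : ℂ) R, z ≠ 0 → ∀ t, Pt c z t = 0 → deriv (Pt c z) t ≠ 0) : ∃ N : ℕ, 0 < N ∧ ∃ ρ : ℝ, 0 < ρ ∧ ρ ^ N ≤ R ∧ ∃ e : Fin m → ℂ → ℂ, (∀ i, DifferentiableOn ℂ (e i) (ball 0 ρ)) ∧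
      ∀ τ ∈ ball (0 : ℂ) ρ, ∀ t, Pt c (τ ^ N) t = ∏ i, (t - e i τ) := by
  classical
  obtain ⟨r, hrc, hr⟩ := rp_half hR hc hs
  obtain ⟨N, hN, hp⟩ := rp_per hrc hr
  have hN' : (N : ℂ) ≠ 0 := by exact_mod_cast hN.ne'
  obtain ⟨ρ, hρ, hρN⟩ : ∃ ρ : ℝ, 0 < ρ ∧ ρ ^ N = R / 2 :=
    ⟨(R / 2) ^ ((N : ℝ)⁻¹), by positivity, Real.rpow_inv_natCast_pow (by positivity) hN.ne'⟩
  have hlt : ∀ τ ∈ ball (0 : ℂ) ρ, ‖τ‖ ^ N < R / 2 := by
    intro τ hτ
    rw [← hρN]
    exact pow_lt_pow_left₀ (mem_ball_zero_iff.1 hτ) (norm_nonneg _) hN.ne'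
  have hltR : ∀ τ ∈ ball (0 : ℂ) ρ, ‖τ‖ ^ N < R := fun τ hτ => (hlt τ hτ).trans (by linarith)
  have hpowb : ∀ τ ∈ ball (0 : ℂ) ρ, τ ^ N ∈ ball (0 : ℂ) R := fun τ hτ => by
    rw [mem_ball_zero_iff, norm_pow]
    exact hltR τ hτ
  -- the roots on the punctured disc
  obtain ⟨f, hf⟩ : ∃ f : Fin m → ℂ → ℂ, f = fun i τ => r (N * Complex.log τ) i := ⟨_, rfl⟩
  have hexp : ∀ τ : ℂ, τ ≠ 0 → Complex.exp (N * Complex.log τ) = τ ^ N := by
    intro τ hτ
    rw [Complex.exp_nat_mul, Complex.exp_log hτ]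
  have hprod : ∀ τ ∈ ball (0 : ℂ) ρ, τ ≠ 0 → ∀ t, Pt c (τ ^ N) t = ∏ i, (t - f i τ) := by
    intro τ hτ h0 t
    have h1 := (hr _ (rp_mem h0 (hltR τ hτ))).1
    rw [hexp τ h0] at h1
    rw [rp_eval, Pool.Agent.LR.rl_eval h1, hf]
  have hdiff : ∀ i, DifferentiableOn ℂ (f i) (ball 0 ρ \ {0}) := by
    intro i τ₀ hτ₀
    have h0 : τ₀ ≠ 0 := hτ₀.2
    refine DifferentiableAt.differentiableWithinAt ?_
    have hm : (N : ℂ) * Complex.log τ₀ ∈ HP R := rp_mem h0 (hltR τ₀ hτ₀.1)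
    -- the root function is differentiable
    have h1 : DifferentiableAt ℂ (fun ζ => r ζ i) (N * Complex.log τ₀) := by
      refine Pool.Agent.H60.OC.root_diff (a := fun ζ i => c (Fin.rev i) (Complex.exp ζ)) ?_
        (hrc.continuousAt ((hp_open R).mem_nhds hm)) ?_ (hr _ hm).2 i
      · refine differentiableAt_pi.2 fun j => ?_
        have h2 : DifferentiableAt ℂ (c (Fin.rev j)) (Complex.exp (N * Complex.log τ₀)) :=
          (hc (Fin.rev j)).differentiableAt (isOpen_ball.mem_nhds (hp_exp hR hm))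
        exact h2.comp (N * Complex.log τ₀) Complex.differentiable_exp.differentiableAt
      · filter_upwards [(hp_open R).mem_nhds hm] with ζ hζ using (hr ζ hζ).1
    -- the branch
    obtain ⟨b, hb⟩ : ∃ b : ℂ → ℂ, b = fun τ => N * (Complex.log (τ / τ₀) + Complex.log τ₀) := ⟨_, rfl⟩
    have hb0 : b τ₀ = N * Complex.log τ₀ := by
      rw [hb]
      simp [div_self h0]
    have hbd : DifferentiableAt ℂ b τ₀ := by
      rw [hb]
      have h3 : DifferentiableAt ℂ (fun τ => Complex.log (τ / τ₀)) τ₀ := by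
        refine DifferentiableAt.clog (by fun_prop) ?_
        rw [div_self h0]
        exact Complex.one_mem_slitPlane
      fun_prop
    have h4 : DifferentiableAt ℂ (fun τ => r (b τ) i) τ₀ := by
      have h5 : DifferentiableAt ℂ (fun ζ => r ζ i) (b τ₀) := by rw [hb0]; exact h1
      exact h5.comp τ₀ hbd
    refine h4.congr_of_eventuallyEq ?_
    have h6 : ∀ᶠ τ in 𝓝 τ₀, b τ ∈ HP R :=
      hbd.continuousAt.eventually ((hp_open R).mem_nhds (by rw [hb0]; exact hm))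
    have h7 : ∀ᶠ τ in 𝓝 τ₀, τ ≠ 0 := isOpen_ne.mem_nhds h0
    filter_upwards [h6, h7] with τ h8 h9
    have h10 : Complex.exp (b τ / N) = τ := by
      have e : b τ / N = Complex.log (τ / τ₀) + Complex.log τ₀ := by
        rw [hb]
        field_simp
      rw [e, Complex.exp_add, Complex.exp_log (div_ne_zero h9 h0), Complex.exp_log h0]
      field_simp
    rw [hf]
    exact congrFun (rp_log hN hp h9 h8 h10).2 i
  -- bounded
  obtain ⟨M, hM⟩ : ∃ M : ℝ, ∀ i, ∀ z ∈ closedBall (0 : ℂ) (R / 2), ‖c i z‖ ≤ M := by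
    have h1 : ∀ i, ∃ M : ℝ, ∀ z ∈ closedBall (0 : ℂ) (R / 2), ‖c i z‖ ≤ M := fun i =>
      (isCompact_closedBall (0 : ℂ) (R / 2)).exists_bound_of_continuousOn
        ((hc i).continuousOn.mono (closedBall_subset_ball (by linarith)))
    choose M hM using h1
    refine ⟨∑ i, |M i|, fun i z hz => (hM i z hz).trans ((le_abs_self _).trans ?_)⟩
    exact Finset.single_le_sum (f := fun i => |M i|) (fun j _ => abs_nonneg _) (Finset.mem_univ i)
  have hbdd : ∀ i, ∀ τ ∈ ball (0 : ℂ) ρ \ {0}, ‖f i τ‖ ≤ 1 + m * M := by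
    intro i τ hτ
    have h1 := hprod τ hτ.1 hτ.2 (f i τ)
    rw [Finset.prod_eq_zero (Finset.mem_univ i) (sub_self _)] at h1
    refine rp_bound (a := fun i => c i (τ ^ N)) (fun j => hM j _ ?_) h1
    rw [mem_closedBall_zero_iff, norm_pow]
    exact (hlt τ hτ.1).le
  refine ⟨N, hN, ρ, hρ, by rw [hρN]; linarith, fun i => Function.update (f i) 0 (limUnder (𝓝[≠] (0 : ℂ)) (f i)), fun i => ?_, ?_⟩
  · refine Complex.differentiableOn_update_limUnder_of_bddAbove (ball_mem_nhds 0 hρ) (hdiff i) ?_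
    refine ⟨1 + m * M, ?_⟩
    rintro _ ⟨τ, hτ, rfl⟩
    exact hbdd i τ hτ
  · have hE : ∀ i, DifferentiableOn ℂ (Function.update (f i) 0 (limUnder (𝓝[≠] (0 : ℂ)) (f i))) (ball 0 ρ) := fun i => by
      refine Complex.differentiableOn_update_limUnder_of_bddAbove (ball_mem_nhds 0 hρ) (hdiff i) ?_
      refine ⟨1 + m * M, ?_⟩
      rintro _ ⟨τ, hτ, rfl⟩
      exact hbdd i τ hτ
    intro τ hτ t
    by_cases h0 : τ = 0
    · subst h0
      have h1 : ContinuousAt (fun τ : ℂ => Pt c (τ ^ N) t) 0 := by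
        unfold Pt
        have h2 : ∀ i, ContinuousAt (fun τ : ℂ => c i (τ ^ N)) 0 := by
          intro i
          have h3 : ContinuousAt (c i) ((0 : ℂ) ^ N) :=
            ((hc i).differentiableAt (isOpen_ball.mem_nhds (hpowb 0 hτ))).continuousAt
          exact ContinuousAt.comp (f := fun τ : ℂ => τ ^ N) h3 (by fun_prop)
        exact continuousAt_const.add (tendsto_finsetSum _ fun i _ => (h2 i).mul continuousAt_const)
      have h4 : ContinuousAt (fun τ : ℂ => ∏ i, (t - Function.update (f i) 0 (limUnder (𝓝[≠] (0 : ℂ)) (f i)) τ)) 0 := by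
        refine tendsto_finsetProd _ fun i _ => ?_
        exact continuousAt_const.sub ((hE i).differentiableAt (isOpen_ball.mem_nhds hτ)).continuousAt
      have h5 : Tendsto (fun τ : ℂ => Pt c (τ ^ N) t) (𝓝[≠] 0) (𝓝 (Pt c ((0 : ℂ) ^ N) t)) :=
        h1.tendsto.mono_left nhdsWithin_le_nhds
      have h6 := h4.tendsto.mono_left (nhdsWithin_le_nhds (s := {(0 : ℂ)}ᶜ))
      refine tendsto_nhds_unique h5 (h6.congr' ?_)
      have h7 : ∀ᶠ τ in 𝓝[≠] (0 : ℂ), τ ∈ ball (0 : ℂ) ρ := nhdsWithin_le_nhds (ball_mem_nhds 0 hρ)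
      have h8 : ∀ᶠ τ in 𝓝[≠] (0 : ℂ), τ ∈ ({(0 : ℂ)}ᶜ : Set ℂ) := self_mem_nhdsWithin
      filter_upwards [h7, h8] with τ h9 h10
      rw [hprod τ h9 h10 t]
      refine Finset.prod_congr rfl fun i _ => ?_
      rw [Function.update_of_ne h10]
    · rw [hprod τ hτ h0 t]
      refine Finset.prod_congr rfl fun i _ => ?_
      beta_reduce
      rw [Function.update_of_ne h0]

end Pool.Agent.PX
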