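import Pool.Agent.PX.RExt

/-!
# PX RSq: the squarefree part of a polynomial with holomorphic coefficients

The germs of the meromorphic functions at `0` (with respect to an ultrafilter on the punctured neighbourhoods of `0`) are a field of
characteristic `0`.  Over this field let `Q` be the radical of the polynomial: `P = Q S`, `Q ^ N = P T`, `A Q + B Q' = 1`.  These identities
hold at all points of a punctured disc (a meromorphic function whose germ is `0` vanishes near `0`).  The roots of `Q` are roots of `P`,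
so the coefficients of `Q` are bounded near `0` and extend.
-/

set_option autoImplicit false

open Topology Filter Metric

namespace Pool.Agent.PX

open Pool.Agent.H36.BP (EN fs wd)
open Pool.Agent.H62.EF (MN pr)
open Pool.Agent.AD (Vd)
open Pool.Agent.TG (Lat Gd)
open Pool.Agent.G3 (wt TT LLift)
open Pool.Agent.G4 (Few)

variable {k d r : ℕ}


/-! ### The field of meromorphic germs -/

section germs

open Polynomial

/-- the ring of the functions which are meromorphic at `0` -/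
private noncomputable def RSq_MF : Subring (ℂ → ℂ) where
  carrier := {f | MeromorphicAt f 0}
  mul_mem' := fun ha hb => MeromorphicAt.mul ha hb
  one_mem' := MeromorphicAt.const (1 : ℂ) 0
  add_mem' := fun ha hb => MeromorphicAt.add ha hb
  zero_mem' := MeromorphicAt.const (0 : ℂ) 0
  neg_mem' := fun ha => MeromorphicAt.neg ha

variable (𝒰 : Ultrafilter ℂ)

/-- the germs of the meromorphic functions with respect to an ultrafilter -/
private noncomputable def RSq_F : Subfield (Germ (𝒰 : Filter ℂ) ℂ) where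
  carrier := {x | ∃ f : ℂ → ℂ, MeromorphicAt f 0 ∧ (f : Germ (𝒰 : Filter ℂ) ℂ) = x}
  mul_mem' := by
    rintro _ _ ⟨f, hf, rfl⟩ ⟨g, hg, rfl⟩
    exact ⟨f * g, hf.mul hg, rfl⟩
  one_mem' := ⟨1, MeromorphicAt.const (1 : ℂ) 0, rfl⟩
  add_mem' := by
    rintro _ _ ⟨f, hf, rfl⟩ ⟨g, hg, rfl⟩
    exact ⟨f + g, hf.add hg, rfl⟩
  zero_mem' := ⟨0, MeromorphicAt.const (0 : ℂ) 0, rfl⟩
  neg_mem' := by
    rintro _ ⟨f, hf, rfl⟩
    exact ⟨-f, hf.neg, rfl⟩
  inv_mem' := by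
    rintro _ ⟨f, hf, rfl⟩
    exact ⟨f⁻¹, hf.inv, rfl⟩

/-- the germ of a function -/
private noncomputable def RSq_φ : RSq_MF →+* RSq_F 𝒰 where
  toFun f := ⟨((f : ℂ → ℂ) : Germ (𝒰 : Filter ℂ) ℂ), (f : ℂ → ℂ), f.2, rfl⟩
  map_one' := rfl
  map_mul' _ _ := rfl
  map_zero' := rfl
  map_add' _ _ := rfl

private theorem RSq_φ_surj : Function.Surjective (RSq_φ 𝒰) := by
  rintro ⟨_, f, hf, rfl⟩
  exact ⟨⟨f, hf⟩, rfl⟩

/-- the value of a function -/
private noncomputable def RSq_ev (z : ℂ) : RSq_MF →+* ℂ := (Pi.evalRingHom (fun _ : ℂ => ℂ) z).comp RSq_MF.subtype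

private theorem RSq_ev_apply (z : ℂ) (f : RSq_MF) : RSq_ev z f = (f : ℂ → ℂ) z := rfl

private theorem RSq_zero (h𝒰 : (𝒰 : Filter ℂ) ≤ 𝓝[≠] 0) {f : RSq_MF} (hf : RSq_φ 𝒰 f = 0) :
    ∀ᶠ z in 𝓝[≠] (0 : ℂ), RSq_ev z f = 0 := by
  have h1 : ∀ᶠ z in (𝒰 : Filter ℂ), (f : ℂ → ℂ) z = 0 := by
    have h2 : (((f : ℂ → ℂ) : Germ (𝒰 : Filter ℂ) ℂ)) = ((fun _ => (0 : ℂ)) : ℂ → ℂ) :=
      congrArg Subtype.val hf
    exact Germ.coe_eq.1 h2
  rcases f.2.eventually_eq_zero_or_eventually_ne_zero with h3 | h3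
  · exact h3
  · exfalso
    obtain ⟨z, hz1, hz2⟩ := (h1.and (h𝒰 h3)).exists
    exact hz2 hz1

private theorem RSq_pzero (h𝒰 : (𝒰 : Filter ℂ) ≤ 𝓝[≠] 0) {A : RSq_MF[X]} (hA : A.map (RSq_φ 𝒰) = 0) :
    ∀ᶠ z in 𝓝[≠] (0 : ℂ), A.map (RSq_ev z) = 0 := by
  have h1 : ∀ i ∈ Finset.range (A.natDegree + 1), ∀ᶠ z in 𝓝[≠] (0 : ℂ), RSq_ev z (A.coeff i) = 0 := by
    intro i _
    refine RSq_zero 𝒰 h𝒰 ?_
    rw [← coeff_map, hA, coeff_zero]
  rw [← Finset.eventually_all] at h1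
  filter_upwards [h1] with z hz
  ext i
  rw [coeff_map, coeff_zero]
  rcases Nat.lt_or_ge i (A.natDegree + 1) with hi | hi
  · exact hz i (Finset.mem_range.2 hi)
  · rw [coeff_eq_zero_of_natDegree_lt (by omega), map_zero]

private theorem RSq_peq (h𝒰 : (𝒰 : Filter ℂ) ≤ 𝓝[≠] 0) {A B : RSq_MF[X]} (hA : A.map (RSq_φ 𝒰) = B.map (RSq_φ 𝒰)) :
    ∀ᶠ z in 𝓝[≠] (0 : ℂ), A.map (RSq_ev z) = B.map (RSq_ev z) := by
  have h1 := RSq_pzero 𝒰 h𝒰 (A := A - B) (by rw [Polynomial.map_sub, hA, sub_self])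
  filter_upwards [h1] with z hz
  rwa [Polynomial.map_sub, sub_eq_zero] at hz

/-- the algebraic part -/
private theorem RSq_alg (P : RSq_MF[X]) (hP : P.Monic) :
    ∃ Q S T A B : RSq_MF[X], ∃ N : ℕ, Q.Monic ∧ ∀ᶠ z in 𝓝[≠] (0 : ℂ),
      P.map (RSq_ev z) = Q.map (RSq_ev z) * S.map (RSq_ev z) ∧
      Q.map (RSq_ev z) ^ N = P.map (RSq_ev z) * T.map (RSq_ev z) ∧
      A.map (RSq_ev z) * Q.map (RSq_ev z) + B.map (RSq_ev z) * derivative (Q.map (RSq_ev z)) = 1 := by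
  classical
  obtain ⟨𝒰, h𝒰⟩ : ∃ 𝒰 : Ultrafilter ℂ, (𝒰 : Filter ℂ) ≤ 𝓝[≠] 0 :=
    ⟨Ultrafilter.of (𝓝[≠] 0), Ultrafilter.of_le _⟩
  have : CharZero (RSq_F 𝒰) := by
    refine charZero_of_inj_zero fun n hn => ?_
    have h1 : RSq_φ 𝒰 (n : RSq_MF) = 0 := by rw [map_natCast]; exact hn
    obtain ⟨z, hz⟩ := (RSq_zero 𝒰 h𝒰 h1).exists
    rw [map_natCast] at hz
    exact_mod_cast hz
  set P' : (RSq_F 𝒰)[X] := P.map (RSq_φ 𝒰) with hP'
  have hP'm : P'.Monic := hP.map _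
  set Q' : (RSq_F 𝒰)[X] := UniqueFactorizationMonoid.radical P' with hQ'
  have hQm : Q'.Monic := by
    rw [hQ', UniqueFactorizationMonoid.radical]
    refine monic_prod_of_monic _ _ fun q hq => ?_
    have h1 := UniqueFactorizationMonoid.mem_primeFactors.1 hq
    have h2 := UniqueFactorizationMonoid.normalize_normalized_factor q h1
    have h3 : q ≠ 0 := (UniqueFactorizationMonoid.irreducible_of_normalized_factor q h1).ne_zero
    have h4 := monic_normalize h3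
    rwa [h2] at h4
  obtain ⟨S', hS'⟩ : Q' ∣ P' := UniqueFactorizationMonoid.radical_dvd_self
  obtain ⟨N, T', hT'⟩ := UniqueFactorizationMonoid.exists_dvd_radical_self_pow hP'm.ne_zero
  have hsep : Q'.Separable := by
    rw [PerfectField.separable_iff_squarefree]
    exact UniqueFactorizationMonoid.squarefree_radical
  obtain ⟨A', B', hAB⟩ := hsep
  have hsurj := Polynomial.map_surjective (RSq_φ 𝒰) (RSq_φ_surj 𝒰)
  obtain ⟨Q, hQ, -, hQmon⟩ := lifts_and_natDegree_eq_and_monic (f := RSq_φ 𝒰) (p := Q')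
    ((mem_lifts _).2 (hsurj Q')) hQm
  obtain ⟨S, hS⟩ := hsurj S'
  obtain ⟨T, hT⟩ := hsurj T'
  obtain ⟨A, hA⟩ := hsurj A'
  obtain ⟨B, hB⟩ := hsurj B'
  refine ⟨Q, S, T, A, B, N, hQmon, ?_⟩
  have e1 := RSq_peq 𝒰 h𝒰 (A := P) (B := Q * S) (by rw [Polynomial.map_mul, hQ, hS, ← hS'])
  have e2 := RSq_peq 𝒰 h𝒰 (A := Q ^ N) (B := P * T) (by
    rw [Polynomial.map_pow, Polynomial.map_mul, hQ, hT, ← hP', ← hT'])
  have e3 := RSq_peq 𝒰 h𝒰 (A := A * Q + B * derivative Q) (B := 1) (by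
    rw [Polynomial.map_add, Polynomial.map_mul, Polynomial.map_mul, ← derivative_map, hQ, hA, hB,
      Polynomial.map_one, hAB])
  filter_upwards [e1, e2, e3] with z h1 h2 h3
  refine ⟨by rw [h1, Polynomial.map_mul], by rw [← Polynomial.map_pow, h2, Polynomial.map_mul], ?_⟩
  rw [Polynomial.map_add, Polynomial.map_mul, Polynomial.map_mul, ← derivative_map,
    Polynomial.map_one] at h3
  exact h3

end germs

/-- a bound for the roots -/
private theorem RSq_root {m : ℕ} {c : Fin m → ℂ → ℂ} {z : ℂ} {C : ℝ} (hC : ∀ i, ‖c i z‖ ≤ C) (hC0 : 0 ≤ C) {t : ℂ}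
    (ht : Pt c z t = 0) : ‖t‖ ≤ 1 + m * C := by
  by_contra hcon
  push Not at hcon
  have hm : 0 ≤ (m : ℝ) * C := by positivity
  have h1 : 1 < ‖t‖ := by linarith
  have h2 : ‖t‖ ^ m ≤ m * C * ‖t‖ ^ (m - 1) := by
    have h3 : t ^ m = -∑ i : Fin m, c i z * t ^ (i : ℕ) := by
      unfold Pt at ht
      linear_combination ht
    calc ‖t‖ ^ m = ‖∑ i : Fin m, c i z * t ^ (i : ℕ)‖ := by rw [← norm_pow, h3, norm_neg]
      _ ≤ ∑ i : Fin m, ‖c i z * t ^ (i : ℕ)‖ := norm_sum_le _ _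
      _ ≤ ∑ _i : Fin m, C * ‖t‖ ^ (m - 1) := by
          refine Finset.sum_le_sum fun i _ => ?_
          rw [norm_mul, norm_pow]
          exact mul_le_mul (hC i) (pow_le_pow_right₀ h1.le (by omega)) (by positivity) hC0
      _ = m * C * ‖t‖ ^ (m - 1) := by
          rw [Finset.sum_const, Finset.card_univ, Fintype.card_fin, nsmul_eq_mul]
          ring
  rcases Nat.eq_zero_or_pos m with h0 | h0
  · subst h0
    norm_num at h2
  · have h4 : ‖t‖ ^ m = ‖t‖ * ‖t‖ ^ (m - 1) := by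
      rw [← pow_succ']
      congr 1
      omega
    rw [h4] at h2
    have h5 : 0 < ‖t‖ ^ (m - 1) := by positivity
    have h6 := le_of_mul_le_mul_right h2 h5
    linarith

theorem sqfree {m : ℕ} {c : Fin m → ℂ → ℂ} {R : ℝ} (hR : 0 < R) (hc : ∀ i, DifferentiableOn ℂ (c i) (ball 0 R)) : ∃ ρ : ℝ, 0 < ρ ∧ ρ ≤ R ∧ ∃ (m' : ℕ) (c' : Fin m' → ℂ → ℂ),
    (∀ i, DifferentiableOn ℂ (c' i) (ball 0 ρ)) ∧ (∀ z ∈ ball (0 : ℂ) ρ, z ≠ 0 → ∀ t, (Pt c' z t = 0 ↔ Pt c z t = 0)) ∧ ∀ z ∈ ball (0 : ℂ) ρ, z ≠ 0 → ∀ t, Pt c' z t = 0 → deriv (Pt c' z) t ≠ 0 := by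
  classical
  have hball : ball (0 : ℂ) R ∈ 𝓝 (0 : ℂ) := ball_mem_nhds _ hR
  have hcm : ∀ i, MeromorphicAt (c i) 0 := fun i => ((hc i).analyticAt hball).meromorphicAt
  -- the polynomial over the ring of meromorphic functions
  set P : Polynomial RSq_MF := Polynomial.X ^ m + ∑ i : Fin m, Polynomial.C ⟨c i, hcm i⟩ * Polynomial.X ^ (i : ℕ)
    with hPdef
  have hdeg : (∑ i : Fin m, Polynomial.C (⟨c i, hcm i⟩ : RSq_MF) * Polynomial.X ^ (i : ℕ)).degree < (m : WithBot ℕ) :=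
    Polynomial.degree_sum_fin_lt fun i => (⟨c i, hcm i⟩ : RSq_MF)
  have hPm : P.Monic := Polynomial.monic_X_pow_add hdeg
  have hPev : ∀ z t, (P.map (RSq_ev z)).eval t = Pt c z t := by
    intro z t
    rw [hPdef, Polynomial.map_add, Polynomial.map_pow, Polynomial.map_X, Polynomial.map_sum, Polynomial.eval_add,
      Polynomial.eval_pow, Polynomial.eval_X, Polynomial.eval_finsetSum]
    unfold Pt
    congr 1
    refine Finset.sum_congr rfl fun i _ => ?_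
    rw [Polynomial.map_mul, Polynomial.map_C, Polynomial.map_pow, Polynomial.map_X, Polynomial.eval_mul, Polynomial.eval_C,
      Polynomial.eval_pow, Polynomial.eval_X]
    rfl
  obtain ⟨Q, S, T, A, B, N, hQm, hev⟩ := RSq_alg P hPm
  -- the coefficients of `Q`
  have hq : ∀ i, ∀ᶠ z in 𝓝[≠] (0 : ℂ), AnalyticAt ℂ ((Q.coeff i : RSq_MF) : ℂ → ℂ) z :=
    fun i => (Q.coeff i).2.eventually_analyticAt
  have hq' : ∀ᶠ z in 𝓝[≠] (0 : ℂ), ∀ i ∈ Finset.range Q.natDegree,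
      AnalyticAt ℂ ((Q.coeff i : RSq_MF) : ℂ → ℂ) z := by
    rw [Finset.eventually_all]
    exact fun i _ => hq i
  -- a bound for the coefficients of `P`
  obtain ⟨C, hC0, hC⟩ : ∃ C : ℝ, 0 ≤ C ∧ ∀ᶠ z in 𝓝[≠] (0 : ℂ), ∀ i, ‖c i z‖ ≤ C := by
    refine ⟨∑ i, (‖c i 0‖ + 1), Finset.sum_nonneg fun i _ => by positivity, ?_⟩
    rw [eventually_all]
    intro i
    have h1 : ContinuousAt (fun z => ‖c i z‖) 0 := ((hc i).differentiableAt hball).continuousAt.norm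
    have h2 : ∀ᶠ z in 𝓝 (0 : ℂ), ‖c i z‖ < ‖c i 0‖ + 1 := h1.eventually_lt_const (by linarith)
    filter_upwards [h2.filter_mono nhdsWithin_le_nhds] with z hz
    refine hz.le.trans ?_
    exact Finset.single_le_sum (f := fun i => ‖c i 0‖ + 1) (fun i _ => by positivity) (Finset.mem_univ i)
  -- a punctured disc
  obtain ⟨ρ', hρ', hall⟩ := Metric.eventually_nhds_iff_ball.1 (eventually_nhdsWithin_iff.1 ((hev.and hq').and hC))
  obtain ⟨ρ, hρ, hρR, hρρ⟩ : ∃ ρ : ℝ, 0 < ρ ∧ ρ ≤ R ∧ ρ ≤ ρ' := ⟨min R ρ', lt_min hR hρ', min_le_left _ _, min_le_right _ _⟩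
  have hz : ∀ z ∈ ball (0 : ℂ) ρ, z ≠ 0 →
      (((P.map (RSq_ev z) = Q.map (RSq_ev z) * S.map (RSq_ev z) ∧
      Q.map (RSq_ev z) ^ N = P.map (RSq_ev z) * T.map (RSq_ev z) ∧
      A.map (RSq_ev z) * Q.map (RSq_ev z) + B.map (RSq_ev z) * Polynomial.derivative (Q.map (RSq_ev z)) = 1) ∧
      ∀ i ∈ Finset.range Q.natDegree, AnalyticAt ℂ ((Q.coeff i : RSq_MF) : ℂ → ℂ) z) ∧ ∀ i, ‖c i z‖ ≤ C) :=
    fun z hz h0 => hall z (ball_subset_ball hρρ hz) h0
  have hroots : ∀ z ∈ ball (0 : ℂ) ρ, z ≠ 0 → ∀ t, ((Q.map (RSq_ev z)).eval t = 0 ↔ Pt c z t = 0) := by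
    intro z hzb h0 t
    obtain ⟨⟨⟨h1, h2, h3⟩, h4⟩, h5⟩ := hz z hzb h0
    rw [← hPev]
    constructor
    · intro h
      rw [h1, Polynomial.eval_mul, h, zero_mul]
    · intro h
      have h6 : (Q.map (RSq_ev z) ^ N).eval t = 0 := by rw [h2, Polynomial.eval_mul, h, zero_mul]
      rw [Polynomial.eval_pow] at h6
      by_contra h7
      exact pow_ne_zero N h7 h6
  -- the coefficients are bounded
  have hbd : ∀ i ∈ Finset.range Q.natDegree, ∀ z ∈ ball (0 : ℂ) ρ, z ≠ 0 →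
      ‖((Q.coeff i : RSq_MF) : ℂ → ℂ) z‖ ≤ (1 + m * C) ^ (Q.natDegree - i) * Q.natDegree.choose i := by
    intro i _ z hzb h0
    obtain ⟨⟨⟨h1, h2, h3⟩, h4⟩, h5⟩ := hz z hzb h0
    have h6 := Polynomial.coeff_le_of_roots_le (p := Q.map (RSq_ev z)) (f := RingHom.id ℂ) (B := 1 + m * C) i
      (hQm.map _) (IsAlgClosed.splits _) (fun t ht => by
        rw [Polynomial.map_id] at ht
        exact RSq_root h5 hC0 ((hroots z hzb h0 t).1 (Polynomial.isRoot_of_mem_roots ht)))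
    rw [Polynomial.map_id, hQm.natDegree_map, Polynomial.coeff_map] at h6
    exact h6
  -- the extensions of the coefficients
  have hdiff : ∀ i : Fin Q.natDegree, DifferentiableOn ℂ (Function.update ((Q.coeff i : RSq_MF) : ℂ → ℂ) 0
      (limUnder (𝓝[≠] 0) ((Q.coeff i : RSq_MF) : ℂ → ℂ))) (ball 0 ρ) := by
    intro i
    refine Complex.differentiableOn_update_limUnder_of_bddAbove (ball_mem_nhds _ hρ) (fun z hz1 => ?_) ?_
    · obtain ⟨⟨h1, h4⟩, h5⟩ := hz z hz1.1 (by simpa using hz1.2)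
      exact (h4 i (Finset.mem_range.2 i.2)).differentiableAt.differentiableWithinAt
    · refine ⟨(1 + m * C) ^ (Q.natDegree - i) * Q.natDegree.choose i, ?_⟩
      rintro _ ⟨z, hz1, rfl⟩
      exact hbd i (Finset.mem_range.2 i.2) z hz1.1 (by simpa using hz1.2)
  have hPt : ∀ z ∈ ball (0 : ℂ) ρ, z ≠ 0 → Pt (fun (i : Fin Q.natDegree) => Function.update ((Q.coeff i : RSq_MF) : ℂ → ℂ) 0
      (limUnder (𝓝[≠] 0) ((Q.coeff i : RSq_MF) : ℂ → ℂ))) z = fun t => (Q.map (RSq_ev z)).eval t := by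
    intro z hzb h0
    funext t
    have h1 := (hQm.map (RSq_ev z)).as_sum
    rw [hQm.natDegree_map] at h1
    conv_rhs => rw [h1]
    rw [Polynomial.eval_add, Polynomial.eval_pow, Polynomial.eval_X, Polynomial.eval_finsetSum]
    unfold Pt
    congr 1
    rw [Finset.sum_range]
    refine Finset.sum_congr rfl fun i _ => ?_
    beta_reduce
    rw [Polynomial.eval_mul, Polynomial.eval_C, Polynomial.eval_pow, Polynomial.eval_X, Function.update_of_ne h0,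
      Polynomial.coeff_map]
    rfl
  refine ⟨ρ, hρ, hρR, Q.natDegree, _, hdiff, fun z hzb h0 t => ?_, fun z hzb h0 t ht => ?_⟩
  · rw [hPt z hzb h0]
    exact hroots z hzb h0 t
  · rw [hPt z hzb h0] at ht ⊢
    obtain ⟨⟨⟨h1, h2, h3⟩, h4⟩, h5⟩ := hz z hzb h0
    intro h6
    rw [Polynomial.deriv] at h6
    beta_reduce at ht
    have h7 := congrArg (Polynomial.eval t) h3
    rw [Polynomial.eval_add, Polynomial.eval_mul, Polynomial.eval_mul, ht, h6, mul_zero, mul_zero, add_zero,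
      Polynomial.eval_one] at h7
    exact zero_ne_one h7

end Pool.Agent.PX
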