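import Pool.Agent.PX.FibC
import Pool.Agent.PX.RSq
import Pool.Agent.PX.RPow
import Pool.Agent.PX.Coef
import Pool.Agent.H41.LR.Pic

/-!
# PX PicF: maps of the punctured disc, the component in `ℙ¹`

Near `0` divide the form `Fo θ (H z)` by `z ^ j` so that it is not `0` at `z = 0`, choose `b`, `e`: all roots are `t • b + e` with bounded `t` (`Coef`), `t` a root of a monic polynomial with holomorphic coefficients; `sqfree`, `roots_pow`: for `z = τ ^ N` there are at least three distinct holomorphic root functions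
`e_i τ`, distinct for `τ ≠ 0`; the cross ratio of `g (τ ^ N)` with three of them omits `0`, `1` (`cross`), so it is meromorphic at `0` (`H41.LR.picard`, `schottky`), so `g (τ ^ N)` has a lift which is meromorphic at `0`, so `g` has a limit at `0` (`core`); in a suitable coordinate
of `ℙ¹` the function `g z` is bounded on the punctured disc, so it extends (`fin_ext`).
-/

set_option autoImplicit false

open Topology Filter Metric

namespace Pool.Agent.PX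

open Pool.Agent.H36.BP (EN fs wd)
open Pool.Agent.H62.EF (MN pr)
open Pool.Agent.AD (Vd)
open Pool.Agent.TG (Lat Gd)
open Pool.Agent.G3 (wt TT LLift)
open Pool.Agent.G4 (Few)

variable {k d r : ℕ}

private theorem pr_coord (v : EN 1) (a i : Fin 2) (hi : v i ≠ 0) : pr v (a, i) / pr v (i, i) = v a / v i := by
  have hv : v ≠ 0 := by
    rintro rfl
    exact hi rfl
  have hn : ((‖v‖ ^ 2 : ℝ) : ℂ) ≠ 0 := by
    have := norm_pos_iff.2 hv
    exact_mod_cast (by positivity : (‖v‖ ^ 2 : ℝ) ≠ 0)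
  have hc : (starRingEnd ℂ) (v i) ≠ 0 := by simpa using hi
  show v a * (starRingEnd ℂ) (v i) / ((‖v‖ ^ 2 : ℝ) : ℂ) / (v i * (starRingEnd ℂ) (v i) / ((‖v‖ ^ 2 : ℝ) : ℂ)) = v a / v i
  field_simp

private theorem pr_ii (v : EN 1) (i : Fin 2) (hv : v ≠ 0) : pr v (i, i) = 0 ↔ v i = 0 := by
  have hn : ((‖v‖ ^ 2 : ℝ) : ℂ) ≠ 0 := by
    have := norm_pos_iff.2 hv
    exact_mod_cast (by positivity : (‖v‖ ^ 2 : ℝ) ≠ 0)
  constructor
  · intro h
    have h1 : v i * (starRingEnd ℂ) (v i) / ((‖v‖ ^ 2 : ℝ) : ℂ) = 0 := h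
    rw [div_eq_zero_iff, mul_eq_zero] at h1
    rcases h1 with (h1 | h1) | h1
    · exact h1
    · simpa using h1
    · exact absurd h1 hn
  · intro h
    show v i * (starRingEnd ℂ) (v i) / ((‖v‖ ^ 2 : ℝ) : ℂ) = 0
    rw [h]
    simp

/-- A curve in `ℙ¹` on a punctured disc which has a limit extends. -/
private theorem fin_ext {g : ℂ → MN 1} {R : ℝ} (hR : 0 < R) (hl : ∀ z ∈ ball (0 : ℂ) R, z ≠ 0 → LLift g z) {v : EN 1} (hv : v ≠ 0) (ht : Tendsto g (𝓝[≠] 0) (𝓝 (pr v))) :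
    ∃ ρ : ℝ, 0 < ρ ∧ ∃ G : ℂ → EN 1, DifferentiableOn ℂ G (ball 0 ρ) ∧ (∀ z ∈ ball (0 : ℂ) ρ, G z ≠ 0) ∧ ∀ z ∈ ball (0 : ℂ) ρ, z ≠ 0 → g z = pr (G z) := by
  obtain ⟨i, hi⟩ : ∃ i, v i ≠ 0 := by
    by_contra h
    push Not at h
    exact hv (by ext i; simpa using h i)
  have h1 : pr v (i, i) ≠ 0 := fun h => hi ((pr_ii v i hv).1 h)
  have hap : ∀ p : Fin 2 × Fin 2, Tendsto (fun z => g z p) (𝓝[≠] 0) (𝓝 (pr v p)) := by
    intro p
    have hc : Continuous fun x : MN 1 => x p := by fun_prop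
    exact (hc.tendsto (pr v)).comp ht
  have h3 : ∀ᶠ z in 𝓝[≠] (0 : ℂ), g z (i, i) ≠ 0 := (hap (i, i)).eventually_ne h1
  rw [eventually_nhdsWithin_iff, Metric.eventually_nhds_iff_ball] at h3
  obtain ⟨ε, hε, h3⟩ := h3
  set G₀ : ℂ → EN 1 := fun z => WithLp.toLp 2 fun a => g z (a, i) / g z (i, i) with hG₀
  set L : EN 1 := WithLp.toLp 2 fun a => pr v (a, i) / pr v (i, i) with hL
  set G : ℂ → EN 1 := Function.update G₀ 0 L with hG
  have hGz : ∀ z, z ≠ 0 → G z = G₀ z := fun z hz => Function.update_of_ne hz _ _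
  have hG0 : G 0 = L := Function.update_self _ _ _
  have hlim : Tendsto G₀ (𝓝[≠] 0) (𝓝 L) := by
    have e : Tendsto (fun z => (fun a => g z (a, i) / g z (i, i) : Fin 2 → ℂ)) (𝓝[≠] 0) (𝓝 fun a => pr v (a, i) / pr v (i, i)) := by
      rw [tendsto_pi_nhds]
      exact fun a => (hap (a, i)).div (hap (i, i)) h1
    exact ((PiLp.continuous_toLp 2 (fun _ : Fin 2 => ℂ)).tendsto _).comp e
  have hcont : ContinuousAt G 0 := continuousAt_update_same.2 hlim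
  have hd : ∀ z ∈ ball (0 : ℂ) (min ε R), z ≠ 0 → DifferentiableAt ℂ G z := by
    intro z hz hz0
    obtain ⟨Φ, hΦ, hev⟩ := hl z (ball_subset_ball (min_le_right _ _) hz) hz0
    have hne : g z (i, i) ≠ 0 := h3 z (ball_subset_ball (min_le_left _ _) hz) hz0
    have hz1 := hev.self_of_nhds
    have hΦi : Φ z i ≠ 0 := by
      intro h
      rw [hz1.2] at hne
      exact hne ((pr_ii _ i hz1.1).2 h)
    have hΦc : ∀ a, AnalyticAt ℂ (fun w => Φ w a) z := by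
      intro a
      exact ((EuclideanSpace.proj (𝕜 := ℂ) a).analyticAt _).comp hΦ
    have hΦi' : ∀ᶠ w in 𝓝 z, Φ w i ≠ 0 := (hΦc i).continuousAt.eventually_ne hΦi
    have hd1 : DifferentiableAt ℂ (fun w => (WithLp.toLp 2 fun a => Φ w a / Φ w i : EN 1)) z := by
      rw [differentiableAt_euclidean]
      intro a
      exact ((hΦc a).differentiableAt).div ((hΦc i).differentiableAt) hΦi
    refine hd1.congr_of_eventuallyEq ?_
    filter_upwards [hev, hΦi', (isOpen_compl_singleton (x := (0 : ℂ))).mem_nhds hz0] with w hw1 hw2 hw3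
    rw [hGz w hw3]
    show (WithLp.toLp 2 fun a => g w (a, i) / g w (i, i) : EN 1) = _
    rw [hw1.2]
    congr 1
    ext a
    exact pr_coord _ a i hw2
  have hGi : ∀ z ∈ ball (0 : ℂ) (min ε R), G z i = 1 := by
    intro z hz
    by_cases hz0 : z = 0
    · rw [hz0, hG0]
      show pr v (i, i) / pr v (i, i) = 1
      exact div_self h1
    · rw [hGz z hz0]
      show g z (i, i) / g z (i, i) = 1
      exact div_self (h3 z (ball_subset_ball (min_le_left _ _) hz) hz0)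
  refine ⟨min ε R, lt_min hε hR, G, ?_, ?_, ?_⟩
  · refine (Complex.differentiableOn_compl_singleton_and_continuousAt_iff (ball_mem_nhds 0 (lt_min hε hR))).1 ⟨?_, hcont⟩
    intro z hz
    exact (hd z hz.1 hz.2).differentiableWithinAt
  · intro z hz h
    have := hGi z hz
    rw [h] at this
    simp at this
  · intro z hz hz0
    obtain ⟨Φ, hΦ, hev⟩ := hl z (ball_subset_ball (min_le_right _ _) hz) hz0
    have hne : g z (i, i) ≠ 0 := h3 z (ball_subset_ball (min_le_left _ _) hz) hz0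
    have hz1 := hev.self_of_nhds
    have hΦi : Φ z i ≠ 0 := by
      intro h
      rw [hz1.2] at hne
      exact hne ((pr_ii _ i hz1.1).2 h)
    have e : G z = (Φ z i)⁻¹ • Φ z := by
      rw [hGz z hz0]
      ext a
      show g z (a, i) / g z (i, i) = (Φ z i)⁻¹ * Φ z a
      rw [hz1.2, pr_coord _ a i hΦi, div_eq_inv_mul]
    rw [e, Pool.Agent.H62.EF.pr_smul _ (inv_ne_zero hΦi)]
    exact hz1.2


/-- the form with the coordinates as coefficients -/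
private def tu (d : ℕ) : Fin (d + 1) → Vd (d + 1) → ℂ := fun i y => y i

private theorem tu_diff (d : ℕ) : ∀ i, Differentiable ℂ (tu d i) := fun i => by
  unfold tu
  fun_prop

private theorem tu_smul (d : ℕ) (c : ℂ) (y : Vd (d + 1)) (x : EN 1) : Fo (tu d) (c • y) x = c * Fo (tu d) y x := by
  unfold Fo tu
  rw [Finset.mul_sum]
  refine Finset.sum_congr rfl fun i _ => ?_
  simp only [Pi.smul_apply, smul_eq_mul]
  ring

/-- the cross ratio argument: recover a vector -/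
private theorem cross_vec {x₁ x₂ x₃ v : EN 1} (h21 : dt x₂ x₁ ≠ 0) (h3 : dt x₃ v ≠ 0) :
    dt x₂ x₃ • x₁ - (dt x₁ v * dt x₂ x₃ / (dt x₃ v * dt x₂ x₁) * dt x₂ x₁) • x₃ = (dt x₂ x₃ * dt x₃ x₁ / dt x₃ v) • v := by
  have e : dt x₁ v * dt x₂ x₃ / (dt x₃ v * dt x₂ x₁) * dt x₂ x₁ = dt x₁ v * dt x₂ x₃ / dt x₃ v := by
    field_simp
  rw [e]
  have key : dt x₃ v • (dt x₂ x₃ • x₁ - (dt x₁ v * dt x₂ x₃ / dt x₃ v) • x₃) = dt x₃ v • ((dt x₂ x₃ * dt x₃ x₁ / dt x₃ v) • v) := by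
    rw [smul_sub, smul_smul, smul_smul, smul_smul]
    have e1 : dt x₃ v * (dt x₁ v * dt x₂ x₃ / dt x₃ v) = dt x₁ v * dt x₂ x₃ := by field_simp
    have e2 : dt x₃ v * (dt x₂ x₃ * dt x₃ x₁ / dt x₃ v) = dt x₂ x₃ * dt x₃ x₁ := by field_simp
    rw [e1, e2]
    ext a
    fin_cases a
    · simp [dt]
      ring
    · simp [dt]
      ring
  exact smul_right_injective _ h3 key

private theorem dt_lin (b e : EN 1) (s t : ℂ) : dt (s • b + e) (t • b + e) = (s - t) * dt b e := by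
  simp [dt]
  ring

/-- the product with a double root has derivative zero -/
private theorem deriv_prod_dbl {m : ℕ} (a : Fin m → ℂ) {i j : Fin m} (hij : i ≠ j) (h : a i = a j) : deriv (fun t => ∏ l, (t - a l)) (a i) = 0 := by
  have e : (fun t => ∏ l, (t - a l)) = fun t => (t - a i) * ((t - a i) * ∏ l ∈ (Finset.univ.erase i).erase j, (t - a l)) := by
    funext t
    rw [← Finset.mul_prod_erase Finset.univ _ (Finset.mem_univ i), ← Finset.mul_prod_erase (Finset.univ.erase i) _ (Finset.mem_erase.2 ⟨hij.symm, Finset.mem_univ j⟩), h]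
  rw [e]
  set q : ℂ → ℂ := fun t => ∏ l ∈ (Finset.univ.erase i).erase j, (t - a l) with hq
  have hqd : DifferentiableAt ℂ q (a i) := by
    rw [hq]
    fun_prop
  have h1 : HasDerivAt (fun t => t - a i) 1 (a i) := (hasDerivAt_id _).sub_const _
  have h2 := h1.mul (h1.mul hqd.hasDerivAt)
  have h3 : (fun t => (t - a i) * ((t - a i) * q t)) = (fun t => t - a i) * ((fun t => t - a i) * q) := rfl
  rw [h3, h2.deriv]
  simp

private theorem core {g : ℂ → MN 1} {B : ℂ → Vd (d + 1)} {R : ℝ} (hR : 0 < R) (hB : DifferentiableOn ℂ B (ball 0 R)) (hB0 : B 0 ≠ 0)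
    (hl : ∀ z ∈ ball (0 : ℂ) R, z ≠ 0 → LLift g z) (hg : ∀ z ∈ ball (0 : ℂ) R, z ≠ 0 → ∀ x : EN 1, x ≠ 0 → pr x = g z → Fo (tu d) (B z) x ≠ 0)
    (h3 : ∀ z ∈ ball (0 : ℂ) R, z ≠ 0 → R3 (tu d) (B z)) : ∃ v : EN 1, v ≠ 0 ∧ Tendsto g (𝓝[≠] 0) (𝓝 (pr v)) := by
  -- the point `b`
  obtain ⟨b, e, hb, hbe⟩ : ∃ b e : EN 1, Fo (tu d) (B 0) b ≠ 0 ∧ dt b e ≠ 0 := by
    by_contra h
    push Not at h
    apply hB0
    have hp : (∑ i : Fin (d + 1), Polynomial.C (B 0 i) * Polynomial.X ^ (i : ℕ)) = (0 : Polynomial ℂ) := by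
      apply Polynomial.funext
      intro s
      by_contra hs
      have h1 : Fo (tu d) (B 0) (WithLp.toLp 2 ![s, 1]) ≠ 0 := by
        intro h2
        apply hs
        rw [Polynomial.eval_zero, Polynomial.eval_finsetSum]
        refine Eq.trans ?_ h2
        show _ = ∑ i : Fin (d + 1), B 0 i * s ^ (i : ℕ) * (1 : ℂ) ^ (d - (i : ℕ))
        refine Finset.sum_congr rfl fun i _ => ?_
        rw [Polynomial.eval_mul, Polynomial.eval_C, Polynomial.eval_pow, Polynomial.eval_X, one_pow, mul_one]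
      have h2 := h _ (WithLp.toLp 2 ![1, 0]) h1
      simp [dt] at h2
    funext i
    have h1 := congrArg (fun p => Polynomial.coeff p (i : ℕ)) hp
    simp only [Polynomial.finsetSum_coeff, Polynomial.coeff_C_mul, Polynomial.coeff_X_pow, Polynomial.coeff_zero] at h1
    rw [Finset.sum_eq_single i] at h1
    · simpa using h1
    · intro j _ hj
      have : (i : ℕ) ≠ (j : ℕ) := fun h => hj (Fin.ext h.symm)
      simp [this]
    · intro h2
      exact absurd (Finset.mem_univ _) h2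
  obtain ⟨c0, hc0, hco⟩ := exists_coef (tu_diff d) b e
  set β : ℂ → ℂ := fun z => Fo (tu d) (B z) b with hβ
  have hβd : DifferentiableOn ℂ β (ball 0 R) := by
    have h1 := fo_diff (tu_diff d)
    have h2 : DifferentiableOn ℂ (fun z => (B z, b)) (ball 0 R) := hB.prodMk (differentiableOn_const b)
    have h4 : DifferentiableOn ℂ ((fun p : Vd (d + 1) × EN 1 => Fo (tu d) p.1 p.2) ∘ fun z => (B z, b)) (ball 0 R) := h1.comp_differentiableOn h2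
    exact h4
  have hβ0 : ∀ᶠ z in 𝓝 (0 : ℂ), β z ≠ 0 := ((hβd.differentiableAt (ball_mem_nhds 0 hR)).continuousAt).eventually_ne hb
  obtain ⟨R₁, hR₁, hR₁R, hβn⟩ : ∃ R₁ : ℝ, 0 < R₁ ∧ R₁ ≤ R ∧ ∀ z ∈ ball (0 : ℂ) R₁, β z ≠ 0 := by
    obtain ⟨ε, hε, h⟩ := Metric.eventually_nhds_iff_ball.1 hβ0
    exact ⟨min ε R, lt_min hε hR, min_le_right _ _, fun z hz => h z (ball_subset_ball (min_le_left _ _) hz)⟩
  set c : Fin d → ℂ → ℂ := fun i z => c0 i (B z) / β z with hc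
  have hcd : ∀ i, DifferentiableOn ℂ (c i) (ball 0 R₁) := fun i =>
    (((hc0 i).comp_differentiableOn (hB.mono (ball_subset_ball hR₁R)))).div (hβd.mono (ball_subset_ball hR₁R)) hβn
  have hPt : ∀ z ∈ ball (0 : ℂ) R₁, ∀ t, Fo (tu d) (B z) (t • b + e) = β z * Pt c z t := by
    intro z hz t
    have h1 := hβn z hz
    rw [hco]
    unfold Pt
    rw [mul_add, Finset.mul_sum]
    congr 1
    refine Finset.sum_congr rfl fun i _ => ?_
    rw [hc]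
    field_simp
  obtain ⟨ρ, hρ, hρR, m', c', hc'd, hroots, hsimple⟩ := sqfree hR₁ hcd
  obtain ⟨N, hN, ρ', hρ', hρN, E, hE, hprod⟩ := roots_pow hρ hc'd hsimple
  have hpw : ∀ τ ∈ ball (0 : ℂ) ρ', τ ^ N ∈ ball (0 : ℂ) ρ := by
    intro τ hτ
    rw [mem_ball_zero_iff] at hτ ⊢
    rw [norm_pow]
    exact (pow_lt_pow_left₀ hτ (norm_nonneg _) hN.ne').trans_le hρN
  have hpwR₁ : ∀ τ ∈ ball (0 : ℂ) ρ', τ ^ N ∈ ball (0 : ℂ) R₁ := fun τ hτ => ball_subset_ball hρR (hpw τ hτ)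
  have hpwR : ∀ τ ∈ ball (0 : ℂ) ρ', τ ^ N ∈ ball (0 : ℂ) R := fun τ hτ => ball_subset_ball hR₁R (hpwR₁ τ hτ)
  -- distinct roots
  have hdist : ∀ τ ∈ ball (0 : ℂ) ρ', τ ≠ 0 → ∀ i j, i ≠ j → E i τ ≠ E j τ := by
    intro τ hτ hτ0 i j hij h
    have h1 : Pt c' (τ ^ N) (E i τ) = 0 := by
      rw [hprod τ hτ]
      exact Finset.prod_eq_zero (Finset.mem_univ i) (sub_self _)
    have h2 := hsimple (τ ^ N) (hpw τ hτ) (pow_ne_zero _ hτ0) _ h1
    apply h2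
    have h4 : Pt c' (τ ^ N) = fun t => ∏ l, (t - E l τ) := funext fun t => hprod τ hτ t
    rw [h4]
    exact deriv_prod_dbl (fun l => E l τ) hij h
  -- three indices
  obtain ⟨i₁, i₂, i₃, h12, h13, h23⟩ : ∃ i₁ i₂ i₃ : Fin m', i₁ ≠ i₂ ∧ i₁ ≠ i₃ ∧ i₂ ≠ i₃ := by
    have hτ : ((ρ' / 2 : ℝ) : ℂ) ∈ ball (0 : ℂ) ρ' := by
      rw [mem_ball_zero_iff, Complex.norm_real, Real.norm_eq_abs, abs_of_pos (by positivity)]
      linarith
    have hτ0 : ((ρ' / 2 : ℝ) : ℂ) ≠ 0 := by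
      exact_mod_cast (by positivity : (ρ' / 2 : ℝ) ≠ 0)
    set τ : ℂ := ((ρ' / 2 : ℝ) : ℂ)
    obtain ⟨x₁, x₂, x₃, f1, f2, f3, d12, d13, d23⟩ := h3 (τ ^ N) (hpwR τ hτ) (pow_ne_zero _ hτ0)
    have key : ∀ x : EN 1, x ≠ 0 → Fo (tu d) (B (τ ^ N)) x = 0 → ∃ i, ∃ c : ℂ, x = c • (E i τ • b + e) := by
      intro x hx hF
      obtain ⟨-, h2⟩ := rt_dt (d := d) hbe (hβn _ (hpwR₁ τ hτ)) hx hF
      set t := -(dt e x) / dt b x with ht
      have hc0 : dt b x / dt b e ≠ 0 := by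
        intro h
        rw [h, zero_smul] at h2
        exact hx h2
      have h5 : Fo (tu d) (B (τ ^ N)) (t • b + e) = 0 := by
        rw [h2, fo_smul] at hF
        exact (mul_eq_zero.1 hF).resolve_left (pow_ne_zero _ hc0)
      rw [hPt _ (hpwR₁ τ hτ)] at h5
      have h6 := (mul_eq_zero.1 h5).resolve_left (hβn _ (hpwR₁ τ hτ))
      have h7 := (hroots _ (hpw τ hτ) (pow_ne_zero _ hτ0) t).2 h6
      rw [hprod τ hτ, Finset.prod_eq_zero_iff] at h7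
      obtain ⟨i, -, hi⟩ := h7
      exact ⟨i, dt b x / dt b e, by rw [← sub_eq_zero.1 hi]; exact h2⟩
    have n1 : x₁ ≠ 0 := by
      rintro rfl
      simp [dt] at d12
    have n2 : x₂ ≠ 0 := by
      rintro rfl
      simp [dt] at d12
    have n3 : x₃ ≠ 0 := by
      rintro rfl
      simp [dt] at d13
    obtain ⟨j₁, a₁, e₁⟩ := key x₁ n1 f1
    obtain ⟨j₂, a₂, e₂⟩ := key x₂ n2 f2
    obtain ⟨j₃, a₃, e₃⟩ := key x₃ n3 f3
    refine ⟨j₁, j₂, j₃, ?_, ?_, ?_⟩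
    · rintro rfl
      rw [e₁, e₂] at d12
      simp [dt] at d12
      apply d12
      ring
    · rintro rfl
      rw [e₁, e₃] at d13
      simp [dt] at d13
      apply d13
      ring
    · rintro rfl
      rw [e₂, e₃] at d23
      simp [dt] at d23
      apply d23
      ring
  set x₁ : ℂ → EN 1 := fun τ => E i₁ τ • b + e with hx₁
  set x₂ : ℂ → EN 1 := fun τ => E i₂ τ • b + e with hx₂
  set x₃ : ℂ → EN 1 := fun τ => E i₃ τ • b + e with hx₃
  have hxF : ∀ i, ∀ τ ∈ ball (0 : ℂ) ρ', τ ≠ 0 → Fo (tu d) (B (τ ^ N)) (E i τ • b + e) = 0 := by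
    intro i τ hτ hτ0
    rw [hPt _ (hpwR₁ τ hτ)]
    have h1 : Pt c' (τ ^ N) (E i τ) = 0 := by
      rw [hprod τ hτ]
      exact Finset.prod_eq_zero (Finset.mem_univ i) (sub_self _)
    rw [(hroots _ (hpw τ hτ) (pow_ne_zero _ hτ0) _).1 h1, mul_zero]
  -- the lift
  have hv : ∀ z : ℂ, ∃ v : EN 1, z ∈ ball (0 : ℂ) R → z ≠ 0 → v ≠ 0 ∧ pr v = g z := by
    intro z
    by_cases hz : z ∈ ball (0 : ℂ) R ∧ z ≠ 0
    · obtain ⟨Φ, -, hev⟩ := hl z hz.1 hz.2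
      exact ⟨Φ z, fun _ _ => ⟨hev.self_of_nhds.1, hev.self_of_nhds.2.symm⟩⟩
    · exact ⟨0, fun h1 h2 => absurd ⟨h1, h2⟩ hz⟩
  choose v hv using hv
  have hxne : ∀ i τ, E i τ • b + e ≠ 0 := by
    intro i τ h
    have h1 : dt b (E i τ • b + e) = dt b e := by
      simp [dt]
      ring
    rw [h] at h1
    apply hbe
    rw [← h1]
    simp [dt]
  -- `dt` of a root and a lift is not zero
  have hdt : ∀ i, ∀ τ ∈ ball (0 : ℂ) ρ', τ ≠ 0 → ∀ w : EN 1, w ≠ 0 → pr w = g (τ ^ N) → dt (E i τ • b + e) w ≠ 0 := by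
    intro i τ hτ hτ0 w hw hpw' h
    obtain ⟨a, ha⟩ := (dt_eq_zero (hxne i τ)).1 h
    have h1 := hg _ (hpwR τ hτ) (pow_ne_zero _ hτ0) w hw hpw'
    apply h1
    rw [ha, fo_smul, hxF i τ hτ hτ0, mul_zero]
  set C : ℂ → ℂ := fun τ => dt (x₁ τ) (v (τ ^ N)) * dt (x₂ τ) (x₃ τ) / (dt (x₃ τ) (v (τ ^ N)) * dt (x₂ τ) (x₁ τ)) with hC
  have hdiff12 : ∀ τ ∈ ball (0 : ℂ) ρ', τ ≠ 0 → ∀ i j, i ≠ j → dt (E i τ • b + e) (E j τ • b + e) ≠ 0 := by
    intro τ hτ hτ0 i j hij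
    rw [dt_lin]
    exact mul_ne_zero (sub_ne_zero.2 (hdist τ hτ hτ0 i j hij)) hbe
  have hEd : ∀ i, ∀ τ ∈ ball (0 : ℂ) ρ', DifferentiableAt ℂ (E i) τ := fun i τ hτ => (hE i).differentiableAt (isOpen_ball.mem_nhds hτ)
  have hCd : DifferentiableOn ℂ C (ball 0 ρ' \ {0}) := by
    intro τ hτ
    have hτ0 : τ ≠ 0 := hτ.2
    obtain ⟨Φ, hΦ, hev⟩ := hl (τ ^ N) (hpwR τ hτ.1) (pow_ne_zero _ hτ0)
    have hpc : ContinuousAt (fun w : ℂ => w ^ N) τ := (continuous_pow N).continuousAt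
    have hev' : ∀ᶠ w in 𝓝 τ, Φ (w ^ N) ≠ 0 ∧ g (w ^ N) = pr (Φ (w ^ N)) := hpc.eventually hev
    have hΦd : DifferentiableAt ℂ (fun w : ℂ => Φ (w ^ N)) τ := by
      have h1 : DifferentiableAt ℂ (fun w : ℂ => w ^ N) τ := by fun_prop
      exact DifferentiableAt.comp τ (g := Φ) (f := fun w : ℂ => w ^ N) hΦ.differentiableAt h1
    have hΦa : ∀ a, DifferentiableAt ℂ (fun w : ℂ => Φ (w ^ N) a) τ := fun a => (differentiableAt_euclidean.1 hΦd) a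
    have hself := hev'.self_of_nhds
    have hd1 : DifferentiableAt ℂ (fun w => dt (x₁ w) (Φ (w ^ N)) * dt (x₂ w) (x₃ w) / (dt (x₃ w) (Φ (w ^ N)) * dt (x₂ w) (x₁ w))) τ := by
      have e1 := hEd i₁ τ hτ.1
      have e2 := hEd i₂ τ hτ.1
      have e3 := hEd i₃ τ hτ.1
      have q0 := hΦa 0
      have q1 := hΦa 1
      refine DifferentiableAt.div ?_ ?_ (mul_ne_zero (hdt i₃ τ hτ.1 hτ0 _ hself.1 hself.2.symm) (hdiff12 τ hτ.1 hτ0 i₂ i₁ h12.symm))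
      · simp only [dt, hx₁, hx₂, hx₃, PiLp.add_apply, PiLp.smul_apply, smul_eq_mul]
        fun_prop
      · simp only [dt, hx₁, hx₂, hx₃, PiLp.add_apply, PiLp.smul_apply, smul_eq_mul]
        fun_prop
    refine (hd1.congr_of_eventuallyEq ?_).differentiableWithinAt
    filter_upwards [hev', (isOpen_ball.sdiff isClosed_singleton).mem_nhds hτ] with w hw1 hw2
    have hw0 : w ≠ 0 := hw2.2
    have hvw := hv (w ^ N) (hpwR w hw2.1) (pow_ne_zero _ hw0)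
    obtain ⟨a, ha, hae⟩ := (Pool.Agent.H62.EF.pr_eq_iff hvw.1 hw1.1).1 (hvw.2.trans hw1.2)
    have ds : ∀ x : EN 1, dt x (a • Φ (w ^ N)) = a * dt x (Φ (w ^ N)) := by
      intro x
      simp [dt]
      ring
    show dt (x₁ w) (v (w ^ N)) * dt (x₂ w) (x₃ w) / (dt (x₃ w) (v (w ^ N)) * dt (x₂ w) (x₁ w)) = _
    rw [hae, ds, ds]
    have n1 := hdt i₃ w hw2.1 hw0 _ hw1.1 hw1.2.symm
    have n2 := hdiff12 w hw2.1 hw0 i₂ i₁ h12.symm
    rw [mul_assoc, mul_assoc, mul_div_mul_left _ _ ha]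
  have hCO : Pool.Agent.H41.LR.Om C (ball 0 ρ' \ {0}) := by
    intro τ hτ
    have hτ0 : τ ≠ 0 := hτ.2
    have hvw := hv (τ ^ N) (hpwR τ hτ.1) (pow_ne_zero _ hτ0)
    exact cross (hdiff12 τ hτ.1 hτ0 i₁ i₂ h12) (hdiff12 τ hτ.1 hτ0 i₁ i₃ h13) (hdiff12 τ hτ.1 hτ0 i₂ i₃ h23)
      (hdt i₁ τ hτ.1 hτ0 _ hvw.1 hvw.2) (hdt i₂ τ hτ.1 hτ0 _ hvw.1 hvw.2) (hdt i₃ τ hτ.1 hτ0 _ hvw.1 hvw.2)
  have hCm : MeromorphicAt C 0 := Pool.Agent.H41.LR.picard Pool.Agent.H41.LR.schottky hρ' hCd hCO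
  -- the meromorphic lift
  set V : ℂ → EN 1 := fun τ => dt (x₂ τ) (x₃ τ) • x₁ τ - (C τ * dt (x₂ τ) (x₁ τ)) • x₃ τ with hV
  have hVv : ∀ τ ∈ ball (0 : ℂ) ρ', τ ≠ 0 → V τ ≠ 0 ∧ pr (V τ) = g (τ ^ N) := by
    intro τ hτ hτ0
    have hvw := hv (τ ^ N) (hpwR τ hτ) (pow_ne_zero _ hτ0)
    have n3 := hdt i₃ τ hτ hτ0 _ hvw.1 hvw.2
    have n21 := hdiff12 τ hτ hτ0 i₂ i₁ h12.symm
    have n23 := hdiff12 τ hτ hτ0 i₂ i₃ h23
    have n31 := hdiff12 τ hτ hτ0 i₃ i₁ h13.symm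
    have e1 : V τ = (dt (x₂ τ) (x₃ τ) * dt (x₃ τ) (x₁ τ) / dt (x₃ τ) (v (τ ^ N))) • v (τ ^ N) := cross_vec n21 n3
    have e2 : dt (x₂ τ) (x₃ τ) * dt (x₃ τ) (x₁ τ) / dt (x₃ τ) (v (τ ^ N)) ≠ 0 := div_ne_zero (mul_ne_zero n23 n31) n3
    rw [e1]
    exact ⟨smul_ne_zero e2 hvw.1, by rw [Pool.Agent.H62.EF.pr_smul _ e2]; exact hvw.2⟩
  have hxa : ∀ i, AnalyticAt ℂ (fun τ => (E i τ • b + e : EN 1)) 0 := by
    intro i
    have h1 : AnalyticAt ℂ (E i) 0 := (hE i).analyticAt (ball_mem_nhds 0 hρ')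
    exact (h1.smul analyticAt_const).add analyticAt_const
  have hdta : ∀ i j, AnalyticAt ℂ (fun τ => dt (E i τ • b + e) (E j τ • b + e)) 0 := by
    intro i j
    have h1 : AnalyticAt ℂ (E i) 0 := (hE i).analyticAt (ball_mem_nhds 0 hρ')
    have h2 : AnalyticAt ℂ (E j) 0 := (hE j).analyticAt (ball_mem_nhds 0 hρ')
    have h4 : (fun τ => dt (E i τ • b + e) (E j τ • b + e)) = fun τ => (E i τ - E j τ) * dt b e := funext fun τ => dt_lin b e _ _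
    rw [h4]
    exact (h1.sub h2).mul analyticAt_const
  have hVm : MeromorphicAt V 0 :=
    ((hdta i₂ i₃).meromorphicAt.smul (hxa i₁).meromorphicAt).sub ((hCm.mul (hdta i₂ i₁).meromorphicAt).smul (hxa i₃).meromorphicAt)
  have hVt : meromorphicOrderAt V 0 ≠ ⊤ := by
    intro h
    rw [meromorphicOrderAt_eq_top_iff] at h
    have h5 : ∀ᶠ τ in 𝓝[≠] (0 : ℂ), τ ∈ ball (0 : ℂ) ρ' ∧ τ ≠ 0 :=
      (eventually_nhdsWithin_of_eventually_nhds (ball_mem_nhds 0 hρ')).and self_mem_nhdsWithin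
    obtain ⟨τ, h6, h7⟩ := (h.and h5).exists
    exact (hVv τ h7.1 h7.2).1 h6
  obtain ⟨V', hV'a, hV'0, hV'e⟩ := (meromorphicOrderAt_ne_top_iff hVm).1 hVt
  refine ⟨V' 0, hV'0, ?_⟩
  -- the limit along the covering
  have hlim : Tendsto (fun τ : ℂ => g (τ ^ N)) (𝓝[≠] 0) (𝓝 (pr (V' 0))) := by
    have h1 : Tendsto (fun τ => pr (V' τ)) (𝓝[≠] 0) (𝓝 (pr (V' 0))) := by
      have h2 : ContinuousAt (fun τ => pr (V' τ)) 0 := ContinuousAt.comp (g := pr) (f := V') (Pool.Agent.H62.EF.continuousAt_pr hV'0) hV'a.continuousAt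
      exact h2.tendsto.mono_left nhdsWithin_le_nhds
    refine h1.congr' ?_
    have h5 : ∀ᶠ τ in 𝓝[≠] (0 : ℂ), τ ∈ ball (0 : ℂ) ρ' ∧ τ ≠ 0 :=
      (eventually_nhdsWithin_of_eventually_nhds (ball_mem_nhds 0 hρ')).and self_mem_nhdsWithin
    filter_upwards [hV'e, h5] with τ h6 h7
    rw [← (hVv τ h7.1 h7.2).2, h6, Pool.Agent.H62.EF.pr_smul _ (zpow_ne_zero _ (sub_ne_zero.2 h7.2))]
  rw [Metric.tendsto_nhdsWithin_nhds] at hlim ⊢
  intro ε hε
  obtain ⟨δ, hδ, h⟩ := hlim ε hε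
  refine ⟨δ ^ N, by positivity, ?_⟩
  intro z hz hzd
  obtain ⟨τ, hτ⟩ := IsAlgClosed.exists_pow_nat_eq z hN
  rw [← hτ]
  have hz0 : z ≠ 0 := hz
  apply h
  · intro h0
    rw [Set.mem_singleton_iff] at h0
    rw [h0, zero_pow hN.ne'] at hτ
    exact hz0 hτ.symm
  · rw [dist_zero_right] at hzd ⊢
    rw [← hτ, norm_pow] at hzd
    exact lt_of_pow_lt_pow_left₀ N hδ.le hzd

private theorem Fo_tu {θ : Fin (d + 1) → Vd (k + 1) → ℂ} (y : Vd (k + 1)) (x : EN 1) : Fo (tu d) (fun i => θ i y) x = Fo θ y x := rfl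

theorem fib_ext {θ : Fin (d + 1) → Vd (k + 1) → ℂ} (han : ∀ i, Differentiable ℂ (θ i)) {H : ℂ → Vd (k + 1)} {R : ℝ} (hR : 0 < R) (hH : DifferentiableOn ℂ H (ball 0 R)) {g : ℂ → MN 1}
    (hl : ∀ z ∈ ball (0 : ℂ) R, z ≠ 0 → LLift g z) (hg : ∀ z ∈ ball (0 : ℂ) R, z ≠ 0 → ∀ x : EN 1, x ≠ 0 → pr x = g z → Fo θ (H z) x ≠ 0) (h3 : ∀ᶠ z in 𝓝[≠] (0 : ℂ), R3 θ (H z)) :
    ∃ ρ : ℝ, 0 < ρ ∧ ∃ G : ℂ → EN 1, DifferentiableOn ℂ G (ball 0 ρ) ∧ (∀ z ∈ ball (0 : ℂ) ρ, G z ≠ 0) ∧ ∀ z ∈ ball (0 : ℂ) ρ, z ≠ 0 → g z = pr (G z) := by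
  set A : ℂ → Vd (d + 1) := fun z i => θ i (H z) with hA
  have hAa : AnalyticAt ℂ A 0 := by
    have h1 : DifferentiableOn ℂ A (ball 0 R) := differentiableOn_pi.2 fun i => (han i).comp_differentiableOn hH
    exact h1.analyticAt (ball_mem_nhds 0 hR)
  have hne : ∀ z ∈ ball (0 : ℂ) R, z ≠ 0 → A z ≠ 0 := by
    intro z hz hz0 h
    obtain ⟨Φ, -, hev⟩ := hl z hz hz0
    have h1 := hev.self_of_nhds
    apply hg z hz hz0 (Φ z) h1.1 h1.2.symm
    rw [← Fo_tu]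
    have h2 : (fun i => θ i (H z)) = (0 : Vd (d + 1)) := h
    rw [h2]
    simp [Fo, tu]
  have hnz : ¬ ∀ᶠ z in 𝓝 (0 : ℂ), A z = 0 := by
    intro h
    have h5 : ∀ᶠ z in 𝓝[≠] (0 : ℂ), z ∈ ball (0 : ℂ) R ∧ z ≠ 0 :=
      (eventually_nhdsWithin_of_eventually_nhds (ball_mem_nhds 0 hR)).and self_mem_nhdsWithin
    obtain ⟨z, h6, h7⟩ := ((eventually_nhdsWithin_of_eventually_nhds h).and h5).exists
    exact hne z h7.1 h7.2 h6
  obtain ⟨n, B, hBa, hB0, hBe⟩ := (hAa.exists_eventuallyEq_pow_smul_nonzero_iff).2 hnz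
  have hall : ∀ᶠ z in 𝓝 (0 : ℂ), AnalyticAt ℂ B z ∧ A z = (z - 0) ^ n • B z ∧ (z ≠ 0 → R3 θ (H z)) := by
    have h1 := hBa.eventually_analyticAt
    have h2 := eventually_nhdsWithin_iff.1 h3
    filter_upwards [h1, hBe, h2] with z q1 q2 q3
    exact ⟨q1, q2, fun hz => q3 hz⟩
  obtain ⟨ε, hε, hall⟩ := Metric.eventually_nhds_iff_ball.1 hall
  have hFB : ∀ z ∈ ball (0 : ℂ) (min ε R), ∀ x : EN 1, Fo θ (H z) x = z ^ n * Fo (tu d) (B z) x := by
    intro z hz x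
    have h1 := (hall z (ball_subset_ball (min_le_left _ _) hz)).2.1
    rw [sub_zero] at h1
    rw [← Fo_tu, ← tu_smul, ← h1]
  obtain ⟨v, hv, hlim⟩ := core (g := g) (B := B) (R := min ε R) (lt_min hε hR)
    (fun z hz => (hall z (ball_subset_ball (min_le_left _ _) hz)).1.differentiableAt.differentiableWithinAt) hB0
    (fun z hz hz0 => hl z (ball_subset_ball (min_le_right _ _) hz) hz0)
    (fun z hz hz0 x hx hxg h => hg z (ball_subset_ball (min_le_right _ _) hz) hz0 x hx hxg (by rw [hFB z hz, h, mul_zero]))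
    (fun z hz hz0 => by
      obtain ⟨x₁, x₂, x₃, f1, f2, f3, d12, d13, d23⟩ := (hall z (ball_subset_ball (min_le_left _ _) hz)).2.2 hz0
      rw [hFB z hz] at f1 f2 f3
      have hzn : z ^ n ≠ 0 := pow_ne_zero _ hz0
      exact ⟨x₁, x₂, x₃, (mul_eq_zero.1 f1).resolve_left hzn, (mul_eq_zero.1 f2).resolve_left hzn, (mul_eq_zero.1 f3).resolve_left hzn, d12, d13, d23⟩)
  exact fin_ext hR hl hv hlim

end Pool.Agent.PX
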