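import Pool.Agent.PX.FibC
import Pool.Agent.PX.RSq
import Pool.Agent.PX.Coef

/-!
# PX R3c: the forms over a disc have three distinct roots near every point, or nowhere

`r3_near`: as in `Hit` divide the form by a power of `z - z₀`, choose `b`; `sqfree`: the number of the roots is constant for `z ≠ z₀` near `z₀`.  `r3_conn`: the set of the `z` in the disc with `∃ᶠ z' in 𝓝[≠] z, R3 θ (H z')` is open and closed in the disc (`r3_near`), and contains `z₁` (`r3_open`).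
-/

set_option autoImplicit false

open Topology Filter Metric

namespace Pool.Agent.PX

open Pool.Agent.H36.BP (EN fs wd)
open Pool.Agent.H62.EF (MN pr)
open Pool.Agent.AD (Vd)
open Pool.Agent.TG (Lat Gd)
open Pool.Agent.G3 (wt TT LLift)
open Pool.Agent.G4 (Few)

variable {k d r : ℕ}

/-- the number of the distinct roots of a polynomial with simple roots is its degree -/
private theorem card_iff {m : ℕ} {c : Fin m → ℂ → ℂ} {z : ℂ} (hs : ∀ t, Pt c z t = 0 → deriv (Pt c z) t ≠ 0) :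
    (∃ t₁ t₂ t₃ : ℂ, Pt c z t₁ = 0 ∧ Pt c z t₂ = 0 ∧ Pt c z t₃ = 0 ∧ t₁ ≠ t₂ ∧ t₁ ≠ t₃ ∧ t₂ ≠ t₃) ↔ 3 ≤ m := by
  classical
  set q : Polynomial ℂ := ∑ i : Fin m, Polynomial.C (c i z) * Polynomial.X ^ (i : ℕ) with hq
  set p : Polynomial ℂ := Polynomial.X ^ m + q with hp
  have hqd : q.degree < m := by
    rw [hq, Polynomial.degree_lt_iff_coeff_zero]
    intro j hj
    rw [Polynomial.finsetSum_coeff]
    refine Finset.sum_eq_zero fun i _ => ?_
    rw [Polynomial.coeff_C_mul_X_pow, if_neg]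
    have := i.2
    omega
  have hpm : p.Monic := Polynomial.monic_X_pow_add hqd
  have hpd : p.natDegree = m := by
    rw [hp, Polynomial.natDegree_eq_of_degree_eq_some]
    rw [Polynomial.degree_add_eq_left_of_degree_lt, Polynomial.degree_X_pow]
    rwa [Polynomial.degree_X_pow]
  have hpe : ∀ t, p.eval t = Pt c z t := fun t => by
    simp only [hp, hq, Pt, Polynomial.eval_add, Polynomial.eval_pow, Polynomial.eval_X, Polynomial.eval_finsetSum, Polynomial.eval_mul, Polynomial.eval_C]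
  have hmem : ∀ t, t ∈ p.roots.toFinset ↔ Pt c z t = 0 := fun t => by
    rw [Multiset.mem_toFinset, Polynomial.mem_roots hpm.ne_zero, Polynomial.IsRoot.def, hpe]
  have hcard : p.roots.toFinset.card = m := by
    have h1 : p.roots.Nodup := by
      rw [Multiset.nodup_iff_count_le_one]
      intro t
      rw [Polynomial.count_roots]
      by_contra h2
      rw [not_le, Polynomial.one_lt_rootMultiplicity_iff_isRoot hpm.ne_zero] at h2
      obtain ⟨h3, h4⟩ := h2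
      rw [Polynomial.IsRoot.def, hpe] at h3
      refine hs t h3 ?_
      have h5 : Pt c z = fun t => p.eval t := funext fun t => (hpe t).symm
      rw [h5, Polynomial.deriv]
      exact h4
    rw [Multiset.toFinset_card_of_nodup h1, ← hpd]
    exact (Polynomial.splits_iff_card_roots.1 (IsAlgClosed.splits p))
  have h3 : 3 ≤ m ↔ 2 < p.roots.toFinset.card := by
    rw [hcard]
    exact Iff.rfl
  rw [h3]
  constructor
  · rintro ⟨t₁, t₂, t₃, h1, h2, h3, h4, h5, h6⟩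
    exact Finset.two_lt_card_iff.2 ⟨t₁, t₂, t₃, (hmem _).2 h1, (hmem _).2 h2, (hmem _).2 h3, h4, h5, h6⟩
  · intro h
    obtain ⟨t₁, t₂, t₃, h1, h2, h3, h4, h5, h6⟩ := Finset.two_lt_card_iff.1 h
    exact ⟨t₁, t₂, t₃, (hmem _).1 h1, (hmem _).1 h2, (hmem _).1 h3, h4, h5, h6⟩

/-- three distinct roots on the line `t • b + e` -/
private theorem r3_iff {θ : Fin (d + 1) → Vd (k + 1) → ℂ} {y : Vd (k + 1)} {b e : EN 1} (hbe : dt b e ≠ 0) (hb : Fo θ y b ≠ 0) :
    R3 θ y ↔ ∃ t₁ t₂ t₃ : ℂ, Fo θ y (t₁ • b + e) = 0 ∧ Fo θ y (t₂ • b + e) = 0 ∧ Fo θ y (t₃ • b + e) = 0 ∧ t₁ ≠ t₂ ∧ t₁ ≠ t₃ ∧ t₂ ≠ t₃ := by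
  constructor
  · rintro ⟨x₁, x₂, x₃, h1, h2, h3, h12, h13, h23⟩
    have hz : ∀ v : EN 1, dt (0 : EN 1) v = 0 ∧ dt v (0 : EN 1) = 0 := fun v => by simp [dt]
    have hx1 : x₁ ≠ 0 := by rintro rfl; exact h12 (hz _).1
    have hx2 : x₂ ≠ 0 := by rintro rfl; exact h12 (hz _).2
    have hx3 : x₃ ≠ 0 := by rintro rfl; exact h13 (hz _).2
    obtain ⟨a1, e1⟩ := rt_dt hbe hb hx1 h1
    obtain ⟨a2, e2⟩ := rt_dt hbe hb hx2 h2
    obtain ⟨a3, e3⟩ := rt_dt hbe hb hx3 h3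
    have key : ∀ x : EN 1, Fo θ y x = 0 → dt b x ≠ 0 → x = (dt b x / dt b e) • ((-(dt e x) / dt b x) • b + e) → Fo θ y ((-(dt e x) / dt b x) • b + e) = 0 := by
      intro x hx ha hxe
      rw [hxe, fo_smul] at hx
      rcases mul_eq_zero.1 hx with h | h
      · exact absurd h (pow_ne_zero _ (div_ne_zero ha hbe))
      · exact h
    have dist : ∀ x x' : EN 1, dt x x' ≠ 0 → dt b x ≠ 0 → dt b x' ≠ 0 → -(dt e x) / dt b x ≠ -(dt e x') / dt b x' := by
      intro x x' hxx hx hx' h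
      rw [div_eq_div_iff hx hx'] at h
      have h4 : dt b e * dt x x' = 0 := by
        have h5 : dt b e * dt x x' = dt b x * dt e x' - dt b x' * dt e x := by simp only [dt]; ring
        rw [h5]
        linear_combination h
      exact (mul_ne_zero hbe hxx) h4
    exact ⟨_, _, _, key x₁ h1 a1 e1, key x₂ h2 a2 e2, key x₃ h3 a3 e3, dist _ _ h12 a1 a2, dist _ _ h13 a1 a3, dist _ _ h23 a2 a3⟩
  · rintro ⟨t₁, t₂, t₃, h1, h2, h3, h12, h13, h23⟩
    have key : ∀ s t : ℂ, s ≠ t → dt (s • b + e) (t • b + e) ≠ 0 := by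
      intro s t hst
      have h4 : dt (s • b + e) (t • b + e) = (s - t) * dt b e := by
        simp only [dt, PiLp.add_apply, PiLp.smul_apply, smul_eq_mul]
        ring
      rw [h4]
      exact mul_ne_zero (sub_ne_zero.2 hst) hbe
    exact ⟨_, _, _, h1, h2, h3, key _ _ h12, key _ _ h13, key _ _ h23⟩

/-- the universal form -/
private def un (d : ℕ) : Fin (d + 1) → Vd (d + 1) → ℂ := fun i y => y i

private theorem un_diff (i : Fin (d + 1)) : Differentiable ℂ (un d i) := differentiable_apply i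

/-- a nonzero form is not `0` at some `(t, 1)` -/
private theorem exists_b {y : Vd (d + 1)} (hy : y ≠ 0) : ∃ b e : EN 1, dt b e ≠ 0 ∧ Fo (un d) y b ≠ 0 := by
  by_contra hcon
  push Not at hcon
  refine hy (funext fun i => ?_)
  set p : Polynomial ℂ := ∑ i : Fin (d + 1), Polynomial.C (y i) * Polynomial.X ^ (i : ℕ) with hp
  have h1 : p = 0 := by
    refine Polynomial.funext fun t => ?_
    have h2 := hcon (WithLp.toLp 2 ![t, 1]) (WithLp.toLp 2 ![1, 0]) (by simp [dt])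
    simp only [Fo, un] at h2
    simp only [hp, Polynomial.eval_finsetSum, Polynomial.eval_mul, Polynomial.eval_C, Polynomial.eval_pow, Polynomial.eval_X, Polynomial.eval_zero]
    rw [← h2]
    refine Finset.sum_congr rfl fun i _ => ?_
    simp
  have h3 : p.coeff (i : ℕ) = y i := by
    rw [hp, Polynomial.finsetSum_coeff]
    rw [Finset.sum_eq_single i]
    · simp
    · intro j _ hj
      rw [Polynomial.coeff_C_mul_X_pow, if_neg]
      intro h
      exact hj (Fin.ext h.symm)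
    · intro h
      exact absurd (Finset.mem_univ i) h
  rw [← h3, h1]
  simp

/-- the coefficients, divided by a power of `z - z₀` -/
private theorem exists_f {g : Fin (d + 1) → ℂ → ℂ} {z₀ : ℂ} (hg : ∀ i, AnalyticAt ℂ (g i) z₀) (hn : ∀ᶠ z in 𝓝[≠] z₀, ∃ i, g i z ≠ 0) :
    ∃ (m : ℕ) (f : ℂ → Vd (d + 1)), AnalyticAt ℂ f z₀ ∧ f z₀ ≠ 0 ∧ ∀ᶠ z in 𝓝 z₀, ∀ i, g i z = (z - z₀) ^ m * f z i := by
  classical
  obtain ⟨j₀, _, hj₀⟩ := Finset.exists_min_image (Finset.univ : Finset (Fin (d + 1))) (fun i => analyticOrderAt (g i) z₀) Finset.univ_nonempty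
  have h1 : analyticOrderAt (g j₀) z₀ ≠ ⊤ := by
    intro h
    have h2 : ∀ i, ∀ᶠ z in 𝓝 z₀, g i z = 0 := fun i => by
      rw [← analyticOrderAt_eq_top]
      have := hj₀ i (Finset.mem_univ i)
      rw [h] at this
      exact top_le_iff.1 this
    have h3 : ∀ᶠ z in 𝓝[≠] z₀, ∀ i, g i z = 0 := (eventually_all.2 h2).filter_mono nhdsWithin_le_nhds
    obtain ⟨z, ⟨i, hi⟩, h4⟩ := (hn.and h3).exists
    exact hi (h4 i)
  obtain ⟨m, hm⟩ := ENat.ne_top_iff_exists.1 h1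
  have h2 : ∀ i, ∃ f : ℂ → ℂ, AnalyticAt ℂ f z₀ ∧ (∀ᶠ z in 𝓝 z₀, g i z = (z - z₀) ^ m * f z) ∧ (i = j₀ → f z₀ ≠ 0) := by
    intro i
    by_cases hi : i = j₀
    · subst hi
      obtain ⟨f, f1, f2, f3⟩ := ((hg i).analyticOrderAt_eq_natCast).1 hm.symm
      exact ⟨f, f1, f3, fun _ => f2⟩
    · have h3 : (m : ℕ∞) ≤ analyticOrderAt (g i) z₀ := by
        rw [hm]
        exact hj₀ i (Finset.mem_univ i)
      obtain ⟨f, f1, f3⟩ := (natCast_le_analyticOrderAt (hg i)).1 h3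
      exact ⟨f, f1, f3, fun h => absurd h hi⟩
  choose f f1 f2 f3 using h2
  refine ⟨m, fun z i => f i z, analyticAt_pi_iff.2 f1, fun h => f3 j₀ rfl (congrFun h j₀), eventually_all.2 f2⟩

theorem r3_near {θ : Fin (d + 1) → Vd (k + 1) → ℂ} (han : ∀ i, Differentiable ℂ (θ i)) {H : ℂ → Vd (k + 1)} {z₀ : ℂ} (hH : AnalyticAt ℂ H z₀) (hn : ∀ᶠ z in 𝓝[≠] z₀, ∃ i, θ i (H z) ≠ 0)
    (h3 : ∃ᶠ z in 𝓝[≠] z₀, R3 θ (H z)) : ∀ᶠ z in 𝓝[≠] z₀, R3 θ (H z) := by
  obtain ⟨m, f, hf, hf0, hfe⟩ := exists_f (g := fun i z => θ i (H z)) (fun i => by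
    rw [Complex.analyticAt_iff_eventually_differentiableAt]
    filter_upwards [hH.eventually_analyticAt] with z hz
    exact (han i (H z)).comp z hz.differentiableAt) hn
  obtain ⟨b, e, hbe, hb⟩ := exists_b hf0
  -- comparison of the two forms
  have hR : ∀ᶠ z in 𝓝[≠] z₀, (R3 θ (H z) ↔ R3 (un d) (f z)) := by
    filter_upwards [hfe.filter_mono nhdsWithin_le_nhds, self_mem_nhdsWithin] with z h1 h2
    have h4 : (z - z₀) ^ m ≠ 0 := pow_ne_zero _ (sub_ne_zero.2 h2)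
    have h5 : ∀ x, Fo θ (H z) x = (z - z₀) ^ m * Fo (un d) (f z) x := fun x => by
      simp only [Fo, un, Finset.mul_sum, h1, mul_assoc]
    have h6 : ∀ x, Fo θ (H z) x = 0 ↔ Fo (un d) (f z) x = 0 := fun x => by
      rw [h5, mul_eq_zero, or_iff_right h4]
    simp only [R3, h6]
  obtain ⟨c, hc, hce⟩ := exists_coef (θ := un d) un_diff b e
  have hFb : Differentiable ℂ fun y : Vd (d + 1) => Fo (un d) y b := by
    unfold Fo
    exact Differentiable.fun_sum fun i _ => ((un_diff i).mul_const _).mul_const _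
  have hev : ∀ᶠ z in 𝓝 z₀, DifferentiableAt ℂ f z ∧ Fo (un d) (f z) b ≠ 0 := by
    refine (hf.eventually_analyticAt.mono fun z hz => hz.differentiableAt).and ?_
    exact ((hFb (f z₀)).continuousAt.comp hf.continuousAt).eventually_ne hb
  obtain ⟨R, hR0, hball⟩ := Metric.eventually_nhds_iff_ball.1 hev
  have hin : ∀ z ∈ ball (0 : ℂ) R, z₀ + z ∈ ball z₀ R := fun z hz => by
    rw [mem_ball_zero_iff] at hz
    rw [mem_ball_iff_norm, add_sub_cancel_left]
    exact hz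
  have hC : ∀ i, DifferentiableOn ℂ (fun z => c i (f (z₀ + z)) / Fo (un d) (f (z₀ + z)) b) (ball 0 R) := by
    intro i z hz
    obtain ⟨e1, e2⟩ := hball _ (hin z hz)
    have e3 : DifferentiableAt ℂ (fun z : ℂ => f (z₀ + z)) z := e1.comp z ((differentiableAt_const _).add differentiableAt_id)
    exact (((hc i _).comp z e3).div ((hFb _).comp z e3) e2).differentiableWithinAt
  obtain ⟨ρ, hρ, hρR, m', c', hc1, hc2, hc3⟩ := sqfree hR0 hC
  have hPt : ∀ z ∈ ball (0 : ℂ) R, ∀ t, (Fo (un d) (f (z₀ + z)) (t • b + e) = 0 ↔ Pt (fun i z => c i (f (z₀ + z)) / Fo (un d) (f (z₀ + z)) b) z t = 0) := by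
    intro z hz t
    have e2 := (hball _ (hin z hz)).2
    have e3 : Fo (un d) (f (z₀ + z)) (t • b + e) = Fo (un d) (f (z₀ + z)) b * Pt (fun i z => c i (f (z₀ + z)) / Fo (un d) (f (z₀ + z)) b) z t := by
      rw [hce, Pt, mul_add, Finset.mul_sum]
      congr 1
      refine Finset.sum_congr rfl fun i _ => ?_
      field_simp
    rw [e3, mul_eq_zero, or_iff_right e2]
  have hiff : ∀ z ∈ ball (0 : ℂ) ρ, z ≠ 0 → (R3 (un d) (f (z₀ + z)) ↔ 3 ≤ m') := by
    intro z hz hz0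
    have hzR : z ∈ ball (0 : ℂ) R := ball_subset_ball hρR hz
    rw [r3_iff hbe (hball _ (hin z hzR)).2, ← card_iff (hc3 z hz hz0)]
    simp only [hPt z hzR, hc2 z hz hz0]
  have hiff' : ∀ᶠ z in 𝓝[≠] z₀, (R3 (un d) (f z) ↔ 3 ≤ m') := by
    filter_upwards [mem_nhdsWithin_of_mem_nhds (ball_mem_nhds z₀ hρ), self_mem_nhdsWithin] with z h1 h2
    have h4 := hiff (z - z₀) (by rw [mem_ball_zero_iff, ← mem_ball_iff_norm]; exact h1) (sub_ne_zero.2 h2)
    rwa [add_sub_cancel] at h4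
  obtain ⟨z, h1, h2, h4⟩ := (h3.and_eventually (hR.and hiff')).exists
  have h5 : 3 ≤ m' := h4.1 (h2.1 h1)
  filter_upwards [hR, hiff'] with w e1 e2
  exact e1.2 (e2.2 h5)

/-- a property which holds in a punctured neighbourhood of `z` holds in punctured neighbourhoods of the points near `z` -/
private theorem ev_ev {p : ℂ → Prop} {z : ℂ} (h : ∀ᶠ z' in 𝓝[≠] z, p z') : ∀ᶠ w in 𝓝 z, ∀ᶠ z' in 𝓝[≠] w, p z' := by
  have h1 := eventually_eventually_nhdsWithin.2 h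
  rw [eventually_nhdsWithin_iff] at h1
  filter_upwards [h1] with w hw
  by_cases hwz : w = z
  · rw [hwz]
    exact h
  · have h2 := hw hwz
    rw [isOpen_compl_singleton.nhdsWithin_eq hwz] at h2
    exact h2.filter_mono nhdsWithin_le_nhds

theorem r3_conn {θ : Fin (d + 1) → Vd (k + 1) → ℂ} (han : ∀ i, Differentiable ℂ (θ i)) {H : ℂ → Vd (k + 1)} (hH : DifferentiableOn ℂ H (ball 0 1)) (hn : ∀ z ∈ ball (0 : ℂ) 1, z ≠ 0 → ∃ i, θ i (H z) ≠ 0)
    {z₁ : ℂ} (hz₁ : z₁ ∈ ball (0 : ℂ) 1) (hz₁0 : z₁ ≠ 0) (h3 : R3 θ (H z₁)) : ∀ᶠ z in 𝓝[≠] (0 : ℂ), R3 θ (H z) := by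
  have hHa : ∀ z ∈ ball (0 : ℂ) 1, AnalyticAt ℂ H z := fun z hz => hH.analyticAt (isOpen_ball.mem_nhds hz)
  have hn' : ∀ z ∈ ball (0 : ℂ) 1, ∀ᶠ z' in 𝓝[≠] z, ∃ i, θ i (H z') ≠ 0 := by
    intro z hz
    have h1 : ∀ᶠ z' in 𝓝[≠] z, z' ≠ 0 := by
      by_cases hz0 : z = 0
      · rw [hz0]
        exact self_mem_nhdsWithin
      · exact mem_nhdsWithin_of_mem_nhds (isOpen_ne.mem_nhds hz0)
    filter_upwards [h1, mem_nhdsWithin_of_mem_nhds (isOpen_ball.mem_nhds hz)] with z' e1 e2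
    exact hn z' e2 e1
  set u : Set ℂ := {z | z ∈ ball (0 : ℂ) 1 ∧ ∀ᶠ z' in 𝓝[≠] z, R3 θ (H z')} with hu
  have hsub : ball (0 : ℂ) 1 ⊆ u := by
    refine (convex_ball (0 : ℂ) 1).isPreconnected.subset_of_closure_inter_subset ?_ ?_ ?_
    · rw [isOpen_iff_mem_nhds]
      rintro z ⟨h1, h2⟩
      filter_upwards [isOpen_ball.mem_nhds h1, ev_ev h2] with w e1 e2
      exact ⟨e1, e2⟩
    · refine ⟨z₁, hz₁, hz₁, ?_⟩
      exact ((hHa z₁ hz₁).continuousAt.eventually (r3_open han (hn z₁ hz₁ hz₁0) h3)).filter_mono nhdsWithin_le_nhds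
    · rintro z ⟨h1, h2⟩
      refine ⟨h2, r3_near han (hHa z h2) (hn' z h2) ?_⟩
      intro h4
      obtain ⟨w, e1, e2⟩ := ((mem_closure_iff_frequently.1 h1).and_eventually (ev_ev h4)).exists
      obtain ⟨z', f1, f2⟩ := (e1.2.and e2).exists
      exact f2 f1
  exact (hsub (mem_ball_self one_pos)).2

end Pool.Agent.PX
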