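import Pool.Agent.PX.FrB
import Pool.Agent.G4.RE.Main

/-!
# PX Front: the data from a theta function

`D = {y | Fo θ y has a multiple root or is 0} = {δ = 0}`, `δ` entire (resultant of the two partial derivatives).  `iso`: a line in `D` is excluded by `Simp` (`G4/Simp`).  `Bad a = Bd ∪ B0`: `Bd` = the points `y ∈ D` without a local equation `s` of `D` with `fderiv ℂ s y a ≠ 0`, a local complete intersection (reduced local
equations of `D`, helper14's block RE), so few (`G4/K`); `B0 = {y | Fo θ y b = 0 = Fo θ y b'}` for suitable `b, b'` (Baire: `NV`), a local complete intersection, so few.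
-/

set_option autoImplicit false

open Topology Filter Metric

namespace Pool.Agent.PX

open Pool.Agent.H36.BP (EN fs wd)
open Pool.Agent.H62.EF (MN pr)
open Pool.Agent.AD (Vd)
open Pool.Agent.TG (Lat Gd)
open Pool.Agent.G3 (wt TT LLift)
open Pool.Agent.G4 (Few Simp)

variable {k d r : ℕ}


/-- the coefficients have no common zeros in codimension one -/
def NV (θ : Fin (d + 1) → Vd (k + 1) → ℂ) : Prop :=
  ∀ y, (∀ i, θ i y = 0) → ∀ b : EN 1, ∃ᶠ z in 𝓝 y, Fo θ z b = 0 ∧ ∃ i, θ i z ≠ 0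

private theorem few_uni {a : Vd (k + 1)} {Z₁ Z₂ Z : Set (Vd (k + 1))} (h1 : Few Z₁ a) (h2 : Few Z₂ a) (h : Z ⊆ Z₁ ∪ Z₂) : Few Z a := by
  classical
  intro ε hε
  obtain ⟨C₁, hC₁⟩ := h1 (ε / 2) (half_pos hε)
  obtain ⟨C₂, hC₂⟩ := h2 (ε / 2) (half_pos hε)
  refine ⟨C₁ + C₂, fun y R hR S hS => ?_⟩
  have e1 : S.card ≤ (S.filter fun z => y + z • a ∈ Z₁).card + (S.filter fun z => y + z • a ∈ Z₂).card := by
    rw [← Finset.card_union_add_card_inter]
    refine le_add_right (Finset.card_le_card fun z hz => ?_)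
    rw [Finset.mem_union, Finset.mem_filter, Finset.mem_filter]
    rcases h (hS z hz).2 with h3 | h3
    · exact Or.inl ⟨hz, h3⟩
    · exact Or.inr ⟨hz, h3⟩
  have e2 := hC₁ y R hR (S.filter fun z => y + z • a ∈ Z₁) fun z hz => ⟨(hS z (Finset.mem_filter.1 hz).1).1, (Finset.mem_filter.1 hz).2⟩
  have e3 := hC₂ y R hR (S.filter fun z => y + z • a ∈ Z₂) fun z hz => ⟨(hS z (Finset.mem_filter.1 hz).1).1, (Finset.mem_filter.1 hz).2⟩
  have e4 : (S.card : ℝ) ≤ ((S.filter fun z => y + z • a ∈ Z₁).card : ℝ) + ((S.filter fun z => y + z • a ∈ Z₂).card : ℝ) := by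
    exact_mod_cast e1
  linarith

private theorem fo_per {θ : Fin (d + 1) → Vd (k + 1) → ℂ} {y l : Vd (k + 1)} {e : ℂ} (h : ∀ i, θ i (y + l) = e * θ i y) (x : EN 1) : Fo θ (y + l) x = e * Fo θ y x := by
  unfold Fo
  rw [Finset.mul_sum]
  refine Finset.sum_congr rfl fun i _ => ?_
  rw [h i]
  ring

private theorem fd_per {θ : Fin (d + 1) → Vd (k + 1) → ℂ} {y l : Vd (k + 1)} {e : ℂ} (h : ∀ i, θ i (y + l) = e * θ i y) (x v : EN 1) : Fd θ (y + l) x v = e * Fd θ y x v := by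
  rw [fd_eq, fd_eq, Finset.mul_sum]
  refine Finset.sum_congr rfl fun i _ => ?_
  rw [h i]
  ring

theorem exists_pd {Λ : AddSubgroup (Vd (k + 1))} {θ : Fin (d + 1) → Vd (k + 1) → ℂ} {W : Fin r → Vd (k + 1) →L[ℂ] ℂ} (hΛ : Lat Λ) (hs : Simp Λ) (hd : 3 ≤ d) (han : ∀ i, Differentiable ℂ (θ i))
    (hper : ∀ l ∈ Λ, ∀ y, ∃ e : ℂ, ‖e‖ * Real.exp (-wt W (y + l)) = Real.exp (-wt W y) ∧ ∀ i, θ i (y + l) = e * θ i y) (hpos : ∀ y, (∀ i, W i y = 0) → y = 0) (hnv : NV θ)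
    {y₀ : Vd (k + 1)} (h0 : ∀ x : EN 1, x ≠ 0 → Fo θ y₀ x = 0 → ∃ v, Fd θ y₀ x v ≠ 0) :
    ∃ (D : Set (Vd (k + 1))) (Bad : Vd (k + 1) → Set (Vd (k + 1))), PD Λ D Bad θ W := by
  have hcont : Continuous (dl θ) := continuous_iff_continuousAt.2 fun y => (dl_an han y).continuousAt
  obtain ⟨D, hD⟩ : ∃ D : Set (Vd (k + 1)), D = {y | dl θ y = 0} := ⟨_, rfl⟩
  have hmem : ∀ y, y ∈ D ↔ dl θ y = 0 := fun y => by rw [hD]; exact Iff.rfl
  have hDc : IsClosed D := by
    rw [hD]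
    exact isClosed_eq hcont continuous_const
  have hDi : ∀ y ∈ D, ∀ l ∈ Λ, y + l ∈ D := by
    intro y hy l hl
    rw [hmem, dl_iff hd] at hy ⊢
    obtain ⟨x, hx, h1, h2⟩ := hy
    obtain ⟨e, -, he⟩ := hper l hl y
    refine ⟨x, hx, ?_, fun v => ?_⟩
    · rw [fo_per he, h1, mul_zero]
    · rw [fd_per he, h2 v, mul_zero]
  have hy₀ : y₀ ∉ D := by
    rw [hmem, dl_iff hd]
    rintro ⟨x, hx, h1, h2⟩
    obtain ⟨v, hv⟩ := h0 x hx h1
    exact hv (h2 v)
  have hAn : Pool.Agent.G4.AnOff ∅ D := by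
    intro y _
    refine ⟨1, fun z _ => dl θ z, analyticAt_pi_iff.2 fun _ => dl_an han y, Eventually.of_forall fun z => ?_⟩
    rw [hmem]
    constructor
    · intro h
      funext _
      exact h
    · intro h
      exact congrFun h 0
  have hL : Pool.Agent.G4.LDi D := Pool.Agent.G4.ldi_of hΛ hs hAn hDi hy₀
  have hne₀ : ∃ i, θ i y₀ ≠ 0 := by
    by_contra hn
    push Not at hn
    refine hy₀ ?_
    rw [hmem, dl_iff hd]
    refine ⟨WithLp.toLp 2 ![1, 0], fun h => ?_, ?_, fun v => ?_⟩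
    · have := congrArg (fun x : EN 1 => x 0) h
      simp at this
    · unfold Fo
      exact Finset.sum_eq_zero fun i _ => by rw [hn i]; ring
    · rw [fd_eq]
      exact Finset.sum_eq_zero fun i _ => by rw [hn i]; ring
  obtain ⟨b, b', hb, hbb⟩ := exists_bb hnv ⟨y₀, hne₀⟩
  have hfo : ∀ x : EN 1, ∀ y, AnalyticAt ℂ (fun y => Fo θ y x) y := by
    intro x y
    unfold Fo
    exact Finset.analyticAt_fun_sum _ fun i _ => ((an_vd (han i) y).mul analyticAt_const).mul analyticAt_const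
  obtain ⟨e, T⟩ : ∃ e : Vd (k + 1) → Vd (k + 1) → ℂ, Pool.Agent.G4.H.ThF Λ W e := by
    refine exists_thf hΛ hpos (f := fun y => Fo θ y b) (hfo b) hb fun l hl y => ?_
    obtain ⟨c, hc1, hc2⟩ := hper l hl y
    rw [fo_per hc2, norm_mul, mul_assoc, mul_comm ‖Fo θ y b‖ (Real.exp _), ← mul_assoc, hc1, mul_comm]
  have hfew2 : ∀ a : Vd (k + 1), a ≠ 0 → Few {y | Fo θ y b = 0 ∧ Fo θ y b' = 0} a := by
    intro a ha
    refine Pool.Agent.G4.RE.few_two T hΛ hs le_rfl (hfo b) (hfo b') hb (fun y h1 h2 l hl => ?_) hbb ha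
    obtain ⟨c, -, hc2⟩ := hper l hl y
    rw [fo_per hc2, fo_per hc2, h1, h2, mul_zero]
    exact ⟨rfl, rfl⟩
  have hfew1 : ∀ a : Vd (k + 1), a ≠ 0 → Few (Pool.Agent.G4.RE.Bd D a) a := fun a ha =>
    Pool.Agent.G4.RE.few_bd T hΛ hs le_rfl hDc hDi (fun y _ => ⟨dl θ, dl_an han y, Eventually.of_forall hmem⟩) hL ha
  refine ⟨D, fun a => Pool.Agent.G4.RE.Bd D a ∪ {y | ∀ i, θ i y = 0}, ?_⟩
  refine ⟨hΛ, hd, han, hper, hpos, hDc, hDi, ?_, ?_, ?_, ?_, ?_, ?_, ?_⟩
  · intro y hy x hx hx0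
    by_contra hn
    push Not at hn
    exact hy ((hmem y).2 ((dl_iff hd θ y).2 ⟨x, hx, hx0, hn⟩))
  · intro a ha y
    filter_upwards [hL a ha y 0] with z hz
    rwa [add_comm (z • a) y] at hz
  · rintro a y (hy | hy)
    · exact hy.1
    · rw [hmem, dl_iff hd]
      refine ⟨WithLp.toLp 2 ![1, 0], fun h => ?_, ?_, fun v => ?_⟩
      · have := congrArg (fun x : EN 1 => x 0) h
        simp at this
      · unfold Fo
        exact Finset.sum_eq_zero fun i _ => by rw [hy i]; ring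
      · rw [fd_eq]
        exact Finset.sum_eq_zero fun i _ => by rw [hy i]; ring
  · rintro a y (hy | hy) l hl
    · exact Or.inl (Pool.Agent.G4.RE.bd_inv hDi a y hy l hl)
    · refine Or.inr fun i => ?_
      obtain ⟨c, -, hc2⟩ := hper l hl y
      rw [hc2 i, hy i, mul_zero]
  · intro a ha
    refine few_uni (hfew1 a ha) (hfew2 a ha) ?_
    rintro y (hy | hy)
    · exact Or.inl hy
    · refine Or.inr ⟨?_, ?_⟩
      · show Fo θ y b = 0
        unfold Fo
        exact Finset.sum_eq_zero fun i _ => by rw [hy i]; ring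
      · show Fo θ y b' = 0
        unfold Fo
        exact Finset.sum_eq_zero fun i _ => by rw [hy i]; ring
  · intro a ha p hp hpb
    have h1 : Pool.Agent.G4.RE.Gd D p a := by
      by_contra hn
      exact hpb (Or.inl ⟨hp, hn⟩)
    obtain ⟨s, hs1, -, hs3, hs4⟩ := h1
    exact ⟨s, hs1, hs4, hs3⟩
  · intro a ha p hpb
    left
    by_contra hn
    push Not at hn
    exact hpb (Or.inr hn)

end Pool.Agent.PX
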