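import Pool.Agent.PX.Bas
import Pool.Agent.H41.LR.Schottky

/-!
# PX Fib: the fibres outside `D`

`roots3`: the form `Fo θ y` is not `0` (otherwise every `x` is a root and all derivatives vanish, against `simple`) and has only simple roots, so it has `d ≥ 3` roots in `ℙ¹`: the polynomial `p t = Fo θ y (t, 1)` (`x 0 = t`, `x 1 = 1`) has
degree `≥ d - 1` (degree `d - 1` exactly if `(1, 0)` is a root: the coefficient of `x_0^d` is `0`, that of `x_0^(d-1) x_1` is not), simple roots (`Polynomial.card_roots`, separable).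
`cross`: with three roots `x₁, x₂, x₃` the function `dt x₁ (G z) * dt x₂ x₃ / (dt x₃ (G z) * dt x₂ x₁)` omits `0` and `1` (Plücker: `dt a b * dt c e - dt a c * dt b e + dt a e * dt b c = 0`); `fib`: `little_picard`, so the function is constant and `G z` is
proportional to `G w`.  `fibE`: differentiate `Fo θ y (G z) = 0`: `Fd θ y (G z) (G' z) = 0`, so `dt (G z) (G' z) = 0`, so `G' z` is a multiple of `G z`, the quotient of `dt (G w) (G z)` by a coordinate
of `G z` has derivative `0` near `w`, and `dt (G w) (G z) = 0` by the identity theorem.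
-/

set_option autoImplicit false

open Topology Filter Metric

namespace Pool.Agent.PX

open Pool.Agent.H36.BP (EN fs wd)
open Pool.Agent.H62.EF (MN pr)
open Pool.Agent.AD (Vd)
open Pool.Agent.TG (Lat Gd)
open Pool.Agent.G3 (wt TT LLift)
open Pool.Agent.G4 (Few)

variable {k d r : ℕ}

variable {Λ : AddSubgroup (Vd (k + 1))} {D : Set (Vd (k + 1))} {Bad : Vd (k + 1) → Set (Vd (k + 1))} {θ : Fin (d + 1) → Vd (k + 1) → ℂ}
  {W : Fin r → Vd (k + 1) →L[ℂ] ℂ}

/-! ### The polynomial -/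

/-- the point `(t, s)` -/
private noncomputable def Fib_pt (t s : ℂ) : EN 1 := WithLp.toLp 2 ![t, s]

private theorem Fib_pt0 (t s : ℂ) : Fib_pt t s 0 = t := rfl

private theorem Fib_pt1 (t s : ℂ) : Fib_pt t s 1 = s := rfl

private theorem Fib_dt (a b c e : ℂ) : dt (Fib_pt a b) (Fib_pt c e) = a * e - b * c := rfl

/-- the dehomogenised form -/
private noncomputable def Fib_p (θ : Fin (d + 1) → Vd (k + 1) → ℂ) (y : Vd (k + 1)) : Polynomial ℂ :=
  ∑ i : Fin (d + 1), Polynomial.C (θ i y) * Polynomial.X ^ (i : ℕ)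

private theorem Fib_eval (θ : Fin (d + 1) → Vd (k + 1) → ℂ) (y : Vd (k + 1)) (t : ℂ) :
    (Fib_p θ y).eval t = Fo θ y (Fib_pt t 1) := by
  unfold Fib_p Fo
  rw [Polynomial.eval_finsetSum]
  refine Finset.sum_congr rfl fun i _ => ?_
  rw [Fib_pt0, Fib_pt1, one_pow, mul_one]
  simp

private theorem Fib_deriv (θ : Fin (d + 1) → Vd (k + 1) → ℂ) (y : Vd (k + 1)) (t : ℂ) :
    (Polynomial.derivative (Fib_p θ y)).eval t = Fd θ y (Fib_pt t 1) (Fib_pt 1 0) := by
  unfold Fib_p
  rw [fd_eq, Polynomial.derivative_sum, Polynomial.eval_finsetSum]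
  refine Finset.sum_congr rfl fun i _ => ?_
  rw [Fib_pt0, Fib_pt1, Fib_pt0, Fib_pt1, one_pow, Polynomial.derivative_C_mul_X_pow]
  simp
  ring

private theorem Fib_coeff (θ : Fin (d + 1) → Vd (k + 1) → ℂ) (y : Vd (k + 1)) (i : Fin (d + 1)) :
    (Fib_p θ y).coeff (i : ℕ) = θ i y := by
  unfold Fib_p
  rw [Polynomial.finsetSum_coeff, Finset.sum_eq_single i]
  · rw [Polynomial.coeff_C_mul_X_pow, if_pos rfl]
  · intro j _ hj
    rw [Polynomial.coeff_C_mul_X_pow, if_neg]
    intro h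
    exact hj (Fin.ext h.symm)
  · intro h
    exact absurd (Finset.mem_univ i) h

private theorem Fib_card {θ : Fin (d + 1) → Vd (k + 1) → ℂ} {y : Vd (k + 1)}
    (hs : ∀ x : EN 1, x ≠ 0 → Fo θ y x = 0 → ∃ v, Fd θ y x v ≠ 0) {i : Fin (d + 1)} (hi : θ i y ≠ 0) :
    (i : ℕ) ≤ (Fib_p θ y).roots.toFinset.card := by
  have hne : Fib_p θ y ≠ 0 := by
    intro h
    apply hi
    rw [← Fib_coeff θ y i, h, Polynomial.coeff_zero]
  have hdeg : (i : ℕ) ≤ (Fib_p θ y).natDegree := by
    apply Polynomial.le_natDegree_of_ne_zero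
    rw [Fib_coeff]
    exact hi
  have hnd : (Fib_p θ y).roots.Nodup := by
    rw [Multiset.nodup_iff_count_le_one]
    intro t
    rw [Polynomial.count_roots]
    by_contra h
    rw [not_le, Polynomial.one_lt_rootMultiplicity_iff_isRoot hne] at h
    obtain ⟨h2, h1⟩ := h
    rw [Polynomial.IsRoot.def, Fib_eval] at h2
    rw [Polynomial.IsRoot.def, Fib_deriv] at h1
    have hx : Fib_pt t 1 ≠ 0 := by
      intro h0
      have h3 : Fib_pt t 1 1 = (0 : EN 1) 1 := by rw [h0]
      rw [Fib_pt1] at h3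
      exact one_ne_zero h3
    obtain ⟨v, hv⟩ := hs _ hx h2
    obtain ⟨κ, hκ⟩ := fd_root θ hx h2
    rw [hκ, Fib_dt] at h1
    have h4 : κ = 0 := by linear_combination -h1
    apply hv
    rw [hκ, h4, zero_mul]
  rw [Multiset.toFinset_card_of_nodup hnd, IsAlgClosed.card_roots_eq_natDegree]
  exact hdeg

private theorem Fib_root {θ : Fin (d + 1) → Vd (k + 1) → ℂ} {y : Vd (k + 1)} {t : ℂ}
    (h : t ∈ (Fib_p θ y).roots.toFinset) : Fo θ y (Fib_pt t 1) = 0 := by
  rw [Multiset.mem_toFinset, Polynomial.mem_roots'] at h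
  rw [← Fib_eval]
  exact h.2

theorem PD.roots3 (P : PD Λ D Bad θ W) {y : Vd (k + 1)} (hy : y ∉ D) : ∃ x₁ x₂ x₃ : EN 1, Fo θ y x₁ = 0 ∧ Fo θ y x₂ = 0 ∧ Fo θ y x₃ = 0 ∧
    dt x₁ x₂ ≠ 0 ∧ dt x₁ x₃ ≠ 0 ∧ dt x₂ x₃ ≠ 0 := by
  have hd := P.deg
  have hs := P.simple y hy
  by_cases h1 : θ (Fin.last d) y = 0
  · have hx : Fib_pt 1 0 ≠ 0 := by
      intro h0
      have h3 : Fib_pt 1 0 0 = (0 : EN 1) 0 := by rw [h0]
      rw [Fib_pt0] at h3
      exact one_ne_zero h3
    have h2 : Fo θ y (Fib_pt 1 0) = 0 := by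
      unfold Fo
      refine Finset.sum_eq_zero fun i _ => ?_
      rw [Fib_pt1]
      by_cases hi : i = Fin.last d
      · rw [hi, h1, zero_mul, zero_mul]
      · have hid : (i : ℕ) ≠ d := fun h => hi (Fin.ext h)
        have := i.2
        rw [zero_pow (by omega), mul_zero]
    obtain ⟨j, hj⟩ : ∃ j : Fin (d + 1), (j : ℕ) = d - 1 := ⟨⟨d - 1, by omega⟩, rfl⟩
    have h3 : θ j y ≠ 0 := by
      intro h3
      obtain ⟨v, hv⟩ := hs _ hx h2
      apply hv
      rw [fd_eq]
      refine Finset.sum_eq_zero fun i _ => ?_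
      rw [Fib_pt1]
      by_cases hi : i = Fin.last d
      · rw [hi, h1, zero_mul]
      by_cases hi' : i = j
      · rw [hi', h3, zero_mul]
      · have hid : (i : ℕ) ≠ d := fun h => hi (Fin.ext h)
        have hid' : (i : ℕ) ≠ d - 1 := fun h => hi' (Fin.ext (h.trans hj.symm))
        have := i.2
        rw [zero_pow (by omega : d - (i : ℕ) ≠ 0), zero_pow (by omega : d - (i : ℕ) - 1 ≠ 0)]
        ring
    have h4 := Fib_card hs h3
    obtain ⟨a, ha, b, hb, hab⟩ := Finset.one_lt_card.1 (show 1 < (Fib_p θ y).roots.toFinset.card by omega)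
    refine ⟨Fib_pt a 1, Fib_pt b 1, Fib_pt 1 0, Fib_root ha, Fib_root hb, h2, ?_, ?_, ?_⟩
    · rw [Fib_dt]
      intro h
      apply hab
      linear_combination h
    · rw [Fib_dt]
      intro h
      have : (1 : ℂ) = 0 := by linear_combination -h
      exact one_ne_zero this
    · rw [Fib_dt]
      intro h
      have : (1 : ℂ) = 0 := by linear_combination -h
      exact one_ne_zero this
  · have h4 := Fib_card hs h1
    rw [Fin.val_last] at h4
    obtain ⟨a, ha, b, hb, c, hc, hab, hac, hbc⟩ :=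
      Finset.two_lt_card.1 (show 2 < (Fib_p θ y).roots.toFinset.card by omega)
    refine ⟨Fib_pt a 1, Fib_pt b 1, Fib_pt c 1, Fib_root ha, Fib_root hb, Fib_root hc, ?_, ?_, ?_⟩
    · rw [Fib_dt]
      intro h
      apply hab
      linear_combination h
    · rw [Fib_dt]
      intro h
      apply hac
      linear_combination h
    · rw [Fib_dt]
      intro h
      apply hbc
      linear_combination h

/-- the cross ratio omits `0` and `1` -/
theorem cross {x₁ x₂ x₃ v : EN 1} (h12 : dt x₁ x₂ ≠ 0) (h13 : dt x₁ x₃ ≠ 0) (h23 : dt x₂ x₃ ≠ 0) (h1 : dt x₁ v ≠ 0) (h2 : dt x₂ v ≠ 0) (h3 : dt x₃ v ≠ 0) :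
    dt x₁ v * dt x₂ x₃ / (dt x₃ v * dt x₂ x₁) ≠ 0 ∧ dt x₁ v * dt x₂ x₃ / (dt x₃ v * dt x₂ x₁) ≠ 1 := by
  have h21 : dt x₂ x₁ ≠ 0 := by
    intro h
    apply h12
    unfold dt at h ⊢
    linear_combination -h
  have hden : dt x₃ v * dt x₂ x₁ ≠ 0 := mul_ne_zero h3 h21
  refine ⟨div_ne_zero (mul_ne_zero h1 h23) hden, ?_⟩
  intro h
  rw [div_eq_one_iff_eq hden] at h
  apply mul_ne_zero h13 h2
  unfold dt at h ⊢
  linear_combination h

private theorem Fib_coord {G : ℂ → EN 1} (hG : Differentiable ℂ G) (i : Fin 2) (z : ℂ) :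
    HasDerivAt (fun z => G z i) (deriv G z i) z := by
  have h1 := (hG z).hasDerivAt
  have h2 := (EuclideanSpace.proj (𝕜 := ℂ) i : EN 1 →L[ℂ] ℂ).hasFDerivAt.comp_hasDerivAt z h1
  exact h2

private theorem Fib_dt_deriv {G : ℂ → EN 1} (hG : Differentiable ℂ G) (x : EN 1) (z : ℂ) :
    HasDerivAt (fun z => dt x (G z)) (dt x (deriv G z)) z := by
  unfold dt
  exact ((Fib_coord hG 1 z).const_mul (x 0)).sub ((Fib_coord hG 0 z).const_mul (x 1))

private theorem Fib_zero (θ : Fin (d + 1) → Vd (k + 1) → ℂ) (hd : 1 ≤ d) (y : Vd (k + 1)) : Fo θ y 0 = 0 := by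
  have h := fo_smul θ y 0 0
  rw [zero_smul, zero_pow (by omega), zero_mul] at h
  exact h

private theorem Fib_dt_left {x₁ x₂ : EN 1} (h : dt x₁ x₂ ≠ 0) : x₁ ≠ 0 := by
  rintro rfl
  apply h
  unfold dt
  simp

private theorem Fib_dt_right {x₁ x₂ : EN 1} (h : dt x₁ x₂ ≠ 0) : x₂ ≠ 0 := by
  rintro rfl
  apply h
  unfold dt
  simp

theorem PD.fib (P : PD Λ D Bad θ W) {y : Vd (k + 1)} (hy : y ∉ D) {G : ℂ → EN 1} (hG : Differentiable ℂ G) (hF : ∀ z, Fo θ y (G z) ≠ 0) (z w : ℂ) :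
    ∃ c : ℂ, G z = c • G w := by
  have hd := P.deg
  obtain ⟨x₁, x₂, x₃, r1, r2, r3, h12, h13, h23⟩ := P.roots3 hy
  have hr : ∀ x : EN 1, x ≠ 0 → Fo θ y x = 0 → ∀ z, dt x (G z) ≠ 0 := by
    intro x hx hx0 z h
    obtain ⟨c, hc⟩ := (dt_eq_zero hx).1 h
    apply hF z
    rw [hc, fo_smul, hx0, mul_zero]
  have n1 := hr x₁ (Fib_dt_left h12) r1
  have n2 := hr x₂ (Fib_dt_left h23) r2
  have n3 := hr x₃ (Fib_dt_right h23) r3
  have h21 : dt x₂ x₁ ≠ 0 := by
    intro h
    apply h12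
    unfold dt at h ⊢
    linear_combination -h
  have hdf : Differentiable ℂ fun z => dt x₁ (G z) * dt x₂ x₃ / (dt x₃ (G z) * dt x₂ x₁) := by
    intro z
    have a1 : DifferentiableAt ℂ (fun z => dt x₁ (G z)) z := (Fib_dt_deriv hG x₁ z).differentiableAt
    have a3 : DifferentiableAt ℂ (fun z => dt x₃ (G z)) z := (Fib_dt_deriv hG x₃ z).differentiableAt
    exact (a1.mul_const _).div (a3.mul_const _) (mul_ne_zero (n3 z) h21)
  have hc := Pool.Agent.H41.LR.little_picard hdf (fun z => cross h12 h13 h23 (n1 z) (n2 z) (n3 z)) z w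
  rw [div_eq_div_iff (mul_ne_zero (n3 z) h21) (mul_ne_zero (n3 w) h21)] at hc
  have hw0 : G w ≠ 0 := by
    intro h
    apply hF w
    rw [h]
    exact Fib_zero θ (by omega) y
  have hkey : dt x₁ (G z) * dt x₃ (G w) - dt x₁ (G w) * dt x₃ (G z) = 0 := by
    have h5 : (dt x₂ x₃ * dt x₂ x₁) * (dt x₁ (G z) * dt x₃ (G w) - dt x₁ (G w) * dt x₃ (G z)) = 0 := by
      linear_combination hc
    rcases mul_eq_zero.1 h5 with h6 | h6
    · exact absurd h6 (mul_ne_zero h23 h21)
    · exact h6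
  have hfin : dt x₁ x₃ * dt (G w) (G z) = 0 := by
    unfold dt at hkey ⊢
    linear_combination -hkey
  rcases mul_eq_zero.1 hfin with h6 | h6
  · exact absurd h6 h13
  · exact (dt_eq_zero hw0).1 h6

theorem PD.fibE (P : PD Λ D Bad θ W) {y : Vd (k + 1)} (hy : y ∉ D) {G : ℂ → EN 1} (hG : Differentiable ℂ G) (h0 : ∀ z, G z ≠ 0) (hF : ∀ z, Fo θ y (G z) = 0) (z w : ℂ) :
    ∃ c : ℂ, G z = c • G w := by
  have hs := P.simple y hy
  -- the derivative is a multiple of the function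
  have hder : ∀ z, ∃ c : ℂ, deriv G z = c • G z := by
    intro z
    have hdiff : DifferentiableAt ℂ (Fo θ y) (G z) := by
      have h1 := fo_diff P.an (y, G z)
      have h2 : DifferentiableAt ℂ (fun x : EN 1 => (y, x)) (G z) := by fun_prop
      exact h1.comp (G z) h2
    have h1 : HasDerivAt (fun z => Fo θ y (G z)) (fderiv ℂ (Fo θ y) (G z) (deriv G z)) z :=
      hdiff.hasFDerivAt.comp_hasDerivAt z (hG z).hasDerivAt
    have h2 : (fun z => Fo θ y (G z)) = fun _ => 0 := funext hF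
    rw [h2] at h1
    have h3 : Fd θ y (G z) (deriv G z) = 0 := h1.unique (hasDerivAt_const z (0 : ℂ))
    obtain ⟨κ, hκ⟩ := fd_root θ (h0 z) (hF z)
    obtain ⟨v, hv⟩ := hs _ (h0 z) (hF z)
    have hκ0 : κ ≠ 0 := by
      intro h
      apply hv
      rw [hκ, h, zero_mul]
    rw [hκ] at h3
    rcases mul_eq_zero.1 h3 with h4 | h4
    · exact absurd h4 hκ0
    · exact (dt_eq_zero (h0 z)).1 h4
  -- a coordinate which is not zero at `w`
  obtain ⟨i, hi⟩ : ∃ i : Fin 2, G w i ≠ 0 := by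
    by_contra h
    push Not at h
    apply h0 w
    ext i
    exact h i
  have hco : Continuous fun z => G z i := by
    rw [continuous_iff_continuousAt]
    exact fun z => (Fib_coord hG i z).continuousAt
  have hev : ∀ᶠ z in 𝓝 w, G z i ≠ 0 := hco.continuousAt.eventually_ne hi
  obtain ⟨ρ, hρ, hball⟩ := Metric.eventually_nhds_iff_ball.1 hev
  have hzero : ∀ z ∈ ball w ρ, dt (G w) (G z) = 0 := by
    intro z hz
    have hd : ∀ x ∈ ball w ρ, HasDerivAt (fun z => dt (G w) (G z) / G z i) 0 x := by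
      intro x hx
      obtain ⟨c, hc⟩ := hder x
      have h1 := (Fib_dt_deriv hG (G w) x).div (Fib_coord hG i x) (hball x hx)
      have h2 : (dt (G w) (deriv G x) * G x i - dt (G w) (G x) * deriv G x i) / G x i ^ 2 = 0 := by
        rw [hc]
        have h3 : dt (G w) (c • G x) * G x i - dt (G w) (G x) * (c • G x) i = 0 := by
          unfold dt
          simp only [PiLp.smul_apply, smul_eq_mul]
          ring
        rw [h3, zero_div]
      rw [h2] at h1
      exact h1
    have hconst := isOpen_ball.is_const_of_deriv_eq_zero (convex_ball w ρ).isPreconnected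
      (fun x hx => (hd x hx).differentiableAt.differentiableWithinAt)
      (fun x hx => (hd x hx).deriv) (mem_ball_self hρ) hz
    simp only at hconst
    have hww : dt (G w) (G w) = 0 := by
      unfold dt
      ring
    rw [hww, zero_div] at hconst
    rcases div_eq_zero_iff.1 hconst.symm with h | h
    · exact h
    · exact absurd h (hball z hz)
  have hu : Differentiable ℂ fun z => dt (G w) (G z) := fun z => (Fib_dt_deriv hG (G w) z).differentiableAt
  have han : AnalyticOnNhd ℂ (fun z => dt (G w) (G z)) Set.univ := hu.differentiableOn.analyticOnNhd isOpen_univ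
  have hall := han.eqOn_zero_of_preconnected_of_eventuallyEq_zero isPreconnected_univ (Set.mem_univ w)
    (Filter.eventually_of_mem (ball_mem_nhds w hρ) hzero)
  exact (dt_eq_zero (h0 w)).1 (hall (Set.mem_univ z))

end Pool.Agent.PX
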