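import Pool.Agent.PX.Bas
import Pool.Agent.TN.Osg
import Mathlib.RingTheory.Polynomial.Resultant.Basic

/-!
# PX FrA: the resultant of the two partial derivatives of the form

`dl θ y = 0` iff the form `Fo θ y` has a multiple root (or is `0`), and `dl θ` is entire.
-/

set_option autoImplicit false

open Topology Filter Metric Polynomial

namespace Pool.Agent.PX

open Pool.Agent.H36.BP (EN fs wd)
open Pool.Agent.AD (Vd)

variable {k d : ℕ}

/-- the derivative in the first variable, at `(t, 1)` -/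
noncomputable def dp (θ : Fin (d + 1) → Vd (k + 1) → ℂ) (y : Vd (k + 1)) : ℂ[X] := ∑ i : Fin (d + 1), C (((i : ℕ) : ℂ) * θ i y) * X ^ ((i : ℕ) - 1)

/-- the derivative in the second variable, at `(t, 1)` -/
noncomputable def dq (θ : Fin (d + 1) → Vd (k + 1) → ℂ) (y : Vd (k + 1)) : ℂ[X] := ∑ i : Fin (d + 1), C (((d - (i : ℕ) : ℕ) : ℂ) * θ i y) * X ^ (i : ℕ)

/-- the resultant of the two partial derivatives -/
noncomputable def dl (θ : Fin (d + 1) → Vd (k + 1) → ℂ) (y : Vd (k + 1)) : ℂ := resultant (dp θ y) (dq θ y) (d - 1) (d - 1)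

private theorem dp_coeff (θ : Fin (d + 1) → Vd (k + 1) → ℂ) (y : Vd (k + 1)) (n : ℕ) :
    (dp θ y).coeff n = ∑ i : Fin (d + 1), if n = (i : ℕ) - 1 then ((i : ℕ) : ℂ) * θ i y else 0 := by
  unfold dp
  rw [finset_sum_coeff]
  refine Finset.sum_congr rfl fun i _ => ?_
  rw [coeff_C_mul_X_pow]

private theorem dq_coeff (θ : Fin (d + 1) → Vd (k + 1) → ℂ) (y : Vd (k + 1)) (n : ℕ) :
    (dq θ y).coeff n = ∑ i : Fin (d + 1), if n = (i : ℕ) then ((d - (i : ℕ) : ℕ) : ℂ) * θ i y else 0 := by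
  unfold dq
  rw [finset_sum_coeff]
  refine Finset.sum_congr rfl fun i _ => ?_
  rw [coeff_C_mul_X_pow]

private theorem dp_deg (θ : Fin (d + 1) → Vd (k + 1) → ℂ) (y : Vd (k + 1)) : (dp θ y).natDegree ≤ d - 1 := by
  unfold dp
  refine natDegree_sum_le_of_forall_le _ _ fun i _ => ?_
  refine (natDegree_C_mul_X_pow_le _ _).trans ?_
  have := i.2
  omega

private theorem dq_deg (θ : Fin (d + 1) → Vd (k + 1) → ℂ) (y : Vd (k + 1)) : (dq θ y).natDegree ≤ d - 1 := by
  unfold dq
  refine natDegree_sum_le_of_forall_le _ _ fun i _ => ?_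
  by_cases h : (i : ℕ) = d
  · rw [h, Nat.sub_self, Nat.cast_zero, zero_mul, C_0, zero_mul, natDegree_zero]
    exact Nat.zero_le _
  · refine (natDegree_C_mul_X_pow_le _ _).trans ?_
    have := i.2
    omega

/-- the resultant is `0` iff there is a common root, perhaps at infinity -/
private theorem res_iff {p q : ℂ[X]} {m : ℕ} (hm : 1 ≤ m) (hp : p.natDegree ≤ m) (hq : q.natDegree ≤ m) :
    resultant p q m m = 0 ↔ (p.coeff m = 0 ∧ q.coeff m = 0) ∨ ∃ t, p.eval t = 0 ∧ q.eval t = 0 := by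
  have hlt : ∀ {r : ℂ[X]}, r.natDegree ≤ m → r.coeff m = 0 → r.natDegree < m := by
    intro r hr h0
    refine lt_of_le_of_ne hr fun h => ?_
    have h1 : r.leadingCoeff = 0 := by
      rw [leadingCoeff, h]
      exact h0
    rw [leadingCoeff_eq_zero] at h1
    rw [h1, natDegree_zero] at h
    omega
  have hcop : ∀ {p q : ℂ[X]}, p ≠ 0 ∨ q ≠ 0 → (resultant p q = 0 ↔ ∃ t, p.eval t = 0 ∧ q.eval t = 0) := by
    intro p q hne
    rw [resultant_eq_zero_iff, isCoprime_iff_aeval_ne_zero_of_isAlgClosed ℂ ℂ]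
    constructor
    · rintro ⟨-, h⟩
      push Not at h
      obtain ⟨t, h1, h2⟩ := h
      exact ⟨t, by simpa using h1, by simpa using h2⟩
    · rintro ⟨t, h1, h2⟩
      refine ⟨hne, fun h => ?_⟩
      rcases h t with h3 | h3
      · exact h3 (by simpa using h1)
      · exact h3 (by simpa using h2)
  by_cases h1 : p.coeff m = 0
  · by_cases h2 : q.coeff m = 0
    · rw [resultant_eq_zero_of_lt_lt _ _ _ _ (hlt hp h1) (hlt hq h2)]
      simp [h1, h2]
    · have hqm : q.natDegree = m := le_antisymm hq (le_natDegree_of_ne_zero h2)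
      obtain ⟨c, hc⟩ := Nat.exists_eq_add_of_le hp
      have e1 : resultant p q m m = (-1) ^ (m * c) * q.coeff m ^ c * resultant p q p.natDegree m := by
        conv_lhs => rw [hc]
        rw [resultant_add_left_deg _ _ _ _ _ le_rfl, ← hc]
      have e2 : resultant p q p.natDegree m = resultant p q := by rw [hqm]
      have hq0 : q ≠ 0 := by
        rintro rfl
        exact h2 (coeff_zero _)
      rw [e1, e2, mul_eq_zero, or_iff_right (mul_ne_zero (pow_ne_zero _ (by norm_num)) (pow_ne_zero _ h2)), hcop (Or.inr hq0)]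
      simp [h2]
  · have hpm : p.natDegree = m := le_antisymm hp (le_natDegree_of_ne_zero h1)
    obtain ⟨c, hc⟩ := Nat.exists_eq_add_of_le hq
    have e1 : resultant p q m m = p.coeff m ^ c * resultant p q m q.natDegree := by
      conv_lhs => rw [hc]
      rw [← hc, hc, resultant_add_right_deg _ _ _ _ _ le_rfl]
    have e2 : resultant p q m q.natDegree = resultant p q := by rw [hpm]
    have hp0 : p ≠ 0 := by
      rintro rfl
      exact h1 (coeff_zero _)
    rw [e1, e2, mul_eq_zero, or_iff_right (pow_ne_zero _ h1), hcop (Or.inl hp0)]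
    simp [h1]

private theorem dp_ev (θ : Fin (d + 1) → Vd (k + 1) → ℂ) (y : Vd (k + 1)) (t : ℂ) : (dp θ y).eval t = ∑ i : Fin (d + 1), (((i : ℕ) : ℂ) * θ i y) * t ^ ((i : ℕ) - 1) := by
  unfold dp
  rw [eval_finset_sum]
  refine Finset.sum_congr rfl fun i _ => ?_
  simp

private theorem dq_ev (θ : Fin (d + 1) → Vd (k + 1) → ℂ) (y : Vd (k + 1)) (t : ℂ) : (dq θ y).eval t = ∑ i : Fin (d + 1), (((d - (i : ℕ) : ℕ) : ℂ) * θ i y) * t ^ (i : ℕ) := by
  unfold dq
  rw [eval_finset_sum]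
  refine Finset.sum_congr rfl fun i _ => ?_
  simp

/-- the first partial derivative -/
private noncomputable def dA (θ : Fin (d + 1) → Vd (k + 1) → ℂ) (y : Vd (k + 1)) (a b : ℂ) : ℂ := ∑ i : Fin (d + 1), θ i y * ((i : ℕ) * a ^ ((i : ℕ) - 1) * b ^ (d - (i : ℕ)))

/-- the second partial derivative -/
private noncomputable def dB (θ : Fin (d + 1) → Vd (k + 1) → ℂ) (y : Vd (k + 1)) (a b : ℂ) : ℂ := ∑ i : Fin (d + 1), θ i y * (((d - (i : ℕ) : ℕ) : ℂ) * a ^ (i : ℕ) * b ^ (d - (i : ℕ) - 1))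

private theorem fd_ab (θ : Fin (d + 1) → Vd (k + 1) → ℂ) (y : Vd (k + 1)) (x v : EN 1) : Fd θ y x v = dA θ y (x 0) (x 1) * v 0 + dB θ y (x 0) (x 1) * v 1 := by
  rw [fd_eq]
  unfold dA dB
  rw [Finset.sum_mul, Finset.sum_mul, ← Finset.sum_add_distrib]
  refine Finset.sum_congr rfl fun i _ => ?_
  ring

private theorem dA_one (hd : 3 ≤ d) (θ : Fin (d + 1) → Vd (k + 1) → ℂ) (y : Vd (k + 1)) (t b : ℂ) : dA θ y (b * t) b = b ^ (d - 1) * (dp θ y).eval t := by
  rw [dp_ev]
  unfold dA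
  rw [Finset.mul_sum]
  refine Finset.sum_congr rfl fun i _ => ?_
  by_cases h0 : (i : ℕ) = 0
  · rw [h0]
    simp
  · have h1 : d - 1 = ((i : ℕ) - 1) + (d - (i : ℕ)) := by
      have := i.2
      omega
    rw [h1, pow_add, mul_pow]
    ring

private theorem dB_one (hd : 3 ≤ d) (θ : Fin (d + 1) → Vd (k + 1) → ℂ) (y : Vd (k + 1)) (t b : ℂ) : dB θ y (b * t) b = b ^ (d - 1) * (dq θ y).eval t := by
  rw [dq_ev]
  unfold dB
  rw [Finset.mul_sum]
  refine Finset.sum_congr rfl fun i _ => ?_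
  by_cases h0 : (i : ℕ) = d
  · rw [h0]
    simp
  · have h1 : d - 1 = (i : ℕ) + (d - (i : ℕ) - 1) := by
      have := i.2
      omega
    rw [h1, pow_add, mul_pow]
    ring

private theorem dA_zero (hd : 3 ≤ d) (θ : Fin (d + 1) → Vd (k + 1) → ℂ) (y : Vd (k + 1)) (a : ℂ) : dA θ y a 0 = a ^ (d - 1) * (dp θ y).coeff (d - 1) := by
  rw [dp_coeff]
  unfold dA
  rw [Finset.mul_sum]
  refine Finset.sum_congr rfl fun i _ => ?_
  by_cases h0 : (i : ℕ) = d
  · rw [h0]
    simp
    ring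
  · have h1 : d - (i : ℕ) ≠ 0 := by
      have := i.2
      omega
    have h2 : ¬ d - 1 = (i : ℕ) - 1 := by
      have := i.2
      omega
    rw [if_neg h2, zero_pow h1]
    ring

private theorem dB_zero (hd : 3 ≤ d) (θ : Fin (d + 1) → Vd (k + 1) → ℂ) (y : Vd (k + 1)) (a : ℂ) : dB θ y a 0 = a ^ (d - 1) * (dq θ y).coeff (d - 1) := by
  rw [dq_coeff]
  unfold dB
  rw [Finset.mul_sum]
  refine Finset.sum_congr rfl fun i _ => ?_
  by_cases h0 : (i : ℕ) = d
  · have h2 : ¬ d - 1 = (i : ℕ) := by omega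
    rw [if_neg h2, h0]
    simp
  · by_cases h2 : d - 1 = (i : ℕ)
    · rw [if_pos h2]
      have h3 : d - (i : ℕ) - 1 = 0 := by omega
      rw [h3, pow_zero, ← h2]
      ring
    · have h1 : d - (i : ℕ) - 1 ≠ 0 := by
        have := i.2
        omega
      rw [if_neg h2, zero_pow h1]
      ring

theorem dl_iff (hd : 3 ≤ d) (θ : Fin (d + 1) → Vd (k + 1) → ℂ) (y : Vd (k + 1)) : dl θ y = 0 ↔ ∃ x : EN 1, x ≠ 0 ∧ Fo θ y x = 0 ∧ ∀ v, Fd θ y x v = 0 := by
  unfold dl
  rw [res_iff (by omega) (dp_deg θ y) (dq_deg θ y)]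
  have hfo : ∀ x : EN 1, (∀ v, Fd θ y x v = 0) → Fo θ y x = 0 := by
    intro x h
    have h1 := fd_euler θ y x
    rw [h x] at h1
    have h2 : (d : ℂ) ≠ 0 := by
      have : d ≠ 0 := by omega
      exact_mod_cast this
    exact (mul_eq_zero.1 h1.symm).resolve_left h2
  constructor
  · rintro (⟨h1, h2⟩ | ⟨t, h1, h2⟩)
    · have hx : ∀ v, Fd θ y (WithLp.toLp 2 ![1, 0] : EN 1) v = 0 := by
        intro v
        rw [fd_ab]
        have e0 : (WithLp.toLp 2 ![(1 : ℂ), 0] : EN 1) 0 = 1 := rfl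
        have e1 : (WithLp.toLp 2 ![(1 : ℂ), 0] : EN 1) 1 = 0 := rfl
        rw [e0, e1, dA_zero hd, dB_zero hd, h1, h2]
        ring
      refine ⟨WithLp.toLp 2 ![1, 0], fun h => ?_, hfo _ hx, hx⟩
      have := congrArg (fun x : EN 1 => x 0) h
      simp at this
    · have hx : ∀ v, Fd θ y (WithLp.toLp 2 ![t, 1] : EN 1) v = 0 := by
        intro v
        rw [fd_ab]
        have e0 : (WithLp.toLp 2 ![t, (1 : ℂ)] : EN 1) 0 = 1 * t := (one_mul t).symm
        have e1 : (WithLp.toLp 2 ![t, (1 : ℂ)] : EN 1) 1 = 1 := rfl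
        rw [e0, e1, dA_one hd, dB_one hd, h1, h2]
        ring
      refine ⟨WithLp.toLp 2 ![t, 1], fun h => ?_, hfo _ hx, hx⟩
      have := congrArg (fun x : EN 1 => x 1) h
      simp at this
  · rintro ⟨x, hx, -, h⟩
    have hA : dA θ y (x 0) (x 1) = 0 := by
      have h1 := h (WithLp.toLp 2 ![1, 0])
      rw [fd_ab] at h1
      simpa using h1
    have hB : dB θ y (x 0) (x 1) = 0 := by
      have h1 := h (WithLp.toLp 2 ![0, 1])
      rw [fd_ab] at h1
      simpa using h1
    by_cases h1 : x 1 = 0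
    · have h0 : x 0 ≠ 0 := by
        intro h0
        apply hx
        ext i
        fin_cases i
        · exact h0
        · exact h1
      rw [h1, dA_zero hd] at hA
      rw [h1, dB_zero hd] at hB
      exact Or.inl ⟨(mul_eq_zero.1 hA).resolve_left (pow_ne_zero _ h0), (mul_eq_zero.1 hB).resolve_left (pow_ne_zero _ h0)⟩
    · have h0 : x 0 = x 1 * (x 0 / x 1) := by field_simp
      rw [h0, dA_one hd] at hA
      rw [h0, dB_one hd] at hB
      exact Or.inr ⟨x 0 / x 1, (mul_eq_zero.1 hA).resolve_left (pow_ne_zero _ h1), (mul_eq_zero.1 hB).resolve_left (pow_ne_zero _ h1)⟩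

/-- entire functions are analytic -/
theorem an_vd {m : ℕ} {f : Vd m → ℂ} (hf : Differentiable ℂ f) (y : Vd m) : AnalyticAt ℂ f y := by
  have h2 : ∀ᶠ z in 𝓝 y, ‖f z‖ < ‖f y‖ + 1 := (hf.continuous.norm.continuousAt).eventually_lt_const (by linarith)
  obtain ⟨r, hr, hb⟩ := Metric.eventually_nhds_iff_ball.1 h2
  refine Pool.Agent.TN.osgood_pi hr (M := ‖f y‖ + 1) (fun z hz => (hb z hz).le) fun z _ l => ?_
  have h3 : Differentiable ℂ fun t : ℂ => z + t • (Pi.single l 1 : Vd m) := by fun_prop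
  exact (hf.comp h3) 0

theorem dl_an {θ : Fin (d + 1) → Vd (k + 1) → ℂ} (han : ∀ i, Differentiable ℂ (θ i)) (y : Vd (k + 1)) : AnalyticAt ℂ (dl θ) y := by
  have hθ : ∀ i, AnalyticAt ℂ (θ i) y := fun i => an_vd (han i) y
  have hp : ∀ n, AnalyticAt ℂ (fun y => (dp θ y).coeff n) y := by
    intro n
    simp only [dp_coeff]
    refine Finset.analyticAt_fun_sum _ fun i _ => ?_
    split_ifs
    · exact analyticAt_const.mul (hθ i)
    · exact analyticAt_const
  have hq : ∀ n, AnalyticAt ℂ (fun y => (dq θ y).coeff n) y := by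
    intro n
    simp only [dq_coeff]
    refine Finset.analyticAt_fun_sum _ fun i _ => ?_
    split_ifs
    · exact analyticAt_const.mul (hθ i)
    · exact analyticAt_const
  have hM : ∀ i j : Fin (d - 1 + (d - 1)), AnalyticAt ℂ (fun y => sylvester (dp θ y) (dq θ y) (d - 1) (d - 1) i j) y := by
    intro i j
    refine Fin.addCases (fun j => ?_) (fun j => ?_) j
    · simp only [sylvester, Matrix.of_apply, Fin.addCases_left]
      split_ifs
      · exact hq _
      · exact analyticAt_const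
    · simp only [sylvester, Matrix.of_apply, Fin.addCases_right]
      split_ifs
      · exact hp _
      · exact analyticAt_const
  have e : dl θ = fun y => (sylvester (dp θ y) (dq θ y) (d - 1) (d - 1)).det := rfl
  rw [e]
  simp only [Matrix.det_apply']
  refine Finset.analyticAt_fun_sum _ fun σ _ => ?_
  exact analyticAt_const.mul (Finset.analyticAt_fun_prod _ fun i _ => hM _ _)

end Pool.Agent.PX
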