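import Pool.Agent.PX.FrA
import Pool.Agent.G4.H.Defs

/-!
# PX FrB: the theta factors, and two vectors `b`, `b'` for which `Fo θ · b` and `Fo θ · b'` have no common zeros in codimension one
-/

set_option autoImplicit false

open Topology Filter Metric Polynomial

namespace Pool.Agent.PX

open Pool.Agent.H36.BP (EN fs wd)
open Pool.Agent.AD (Vd)
open Pool.Agent.TG (Lat)
open Pool.Agent.G3 (wt)
open Pool.Agent.G4.H (ThF)

variable {k d r : ℕ}

private theorem id_thm {m : ℕ} {f : Vd m → ℂ} (hf : ∀ y, AnalyticAt ℂ f y) {y₀ : Vd m} (h : ∀ᶠ y in 𝓝 y₀, f y = 0) (y : Vd m) : f y = 0 :=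
  AnalyticOnNhd.eqOn_zero_of_preconnected_of_eventuallyEq_zero (f := f) (U := Set.univ) (fun z _ => hf z) isPreconnected_univ (Set.mem_univ y₀) h (Set.mem_univ y)

/-- entire functions with the same modulus -/
private theorem same_norm {m : ℕ} {f g : Vd m → ℂ} (hf : ∀ y, AnalyticAt ℂ f y) (hg : ∀ y, AnalyticAt ℂ g y) (hfg : ∀ y, ‖f y‖ = ‖g y‖) (h0 : ∃ y, g y ≠ 0) :
    ∃ c : ℂ, ‖c‖ = 1 ∧ ∀ y, f y = c * g y := by
  obtain ⟨y₀, hy₀⟩ := h0
  have hq : AnalyticAt ℂ (fun y => f y / g y) y₀ := (hf y₀).div (hg y₀) hy₀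
  have hn : ∀ᶠ y in 𝓝 y₀, ‖f y / g y‖ = 1 := by
    filter_upwards [(hg y₀).continuousAt.eventually_ne hy₀] with y hy
    rw [norm_div, hfg y, div_self (norm_ne_zero_iff.2 hy)]
  rcases hq.eventually_constant_or_nhds_le_map_nhds with h | h
  · refine ⟨f y₀ / g y₀, hn.self_of_nhds, fun y => ?_⟩
    have h1 : ∀ᶠ y in 𝓝 y₀, f y - f y₀ / g y₀ * g y = 0 := by
      filter_upwards [h, (hg y₀).continuousAt.eventually_ne hy₀] with y hy hy2
      rw [← hy, div_mul_cancel₀ _ hy2, sub_self]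
    exact sub_eq_zero.1 (id_thm (f := fun y => f y - f y₀ / g y₀ * g y) (fun y => (hf y).sub (analyticAt_const.mul (hg y))) h1 y)
  · exfalso
    have h1 : ∀ᶠ w in 𝓝 (f y₀ / g y₀), ‖w‖ = 1 := h hn
    have h2 : Tendsto (fun t : ℝ => ((1 + t : ℝ) : ℂ) * (f y₀ / g y₀)) (𝓝 0) (𝓝 (f y₀ / g y₀)) := by
      have h3 : ContinuousAt (fun t : ℝ => ((1 + t : ℝ) : ℂ) * (f y₀ / g y₀)) 0 := by fun_prop
      have h4 := h3.tendsto
      simpa using h4
    have h5 := h2.eventually h1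
    obtain ⟨ε, hε, h6⟩ := Metric.eventually_nhds_iff_ball.1 h5
    have h7 := h6 (ε / 2) (by rw [mem_ball_zero_iff, Real.norm_of_nonneg (by positivity)]; linarith)
    rw [norm_mul, hn.self_of_nhds, mul_one, Complex.norm_real, Real.norm_of_nonneg (by positivity)] at h7
    linarith

/-- the exponent of the theta factor -/
private noncomputable def ax (W : Fin r → Vd (k + 1) →L[ℂ] ℂ) (l y : Vd (k + 1)) : ℂ := ∑ i, (2 * (starRingEnd ℂ) (W i l) * W i y + (starRingEnd ℂ) (W i l) * W i l)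

private theorem ax_re (W : Fin r → Vd (k + 1) →L[ℂ] ℂ) (l y : Vd (k + 1)) : (ax W l y).re = wt W (y + l) - wt W y := by
  unfold ax wt
  rw [Complex.re_sum, ← Finset.sum_sub_distrib]
  refine Finset.sum_congr rfl fun i _ => ?_
  rw [map_add, Complex.sq_norm, Complex.sq_norm, Complex.normSq_apply, Complex.normSq_apply]
  simp only [Complex.add_re, Complex.add_im, Complex.mul_re, Complex.mul_im, Complex.conj_re, Complex.conj_im]
  norm_num
  ring

private theorem ax_an (W : Fin r → Vd (k + 1) →L[ℂ] ℂ) (l y : Vd (k + 1)) : AnalyticAt ℂ (ax W l) y := by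
  unfold ax
  refine Finset.analyticAt_fun_sum _ fun i _ => ?_
  exact (analyticAt_const.mul ((W i).analyticAt y)).add analyticAt_const

theorem exists_thf {Λ : AddSubgroup (Vd (k + 1))} {W : Fin r → Vd (k + 1) →L[ℂ] ℂ} (hΛ : Lat Λ) (hpos : ∀ y, (∀ i, W i y = 0) → y = 0) {f : Vd (k + 1) → ℂ} (hf : ∀ y, AnalyticAt ℂ f y) (h0 : ∃ y, f y ≠ 0)
    (hper : ∀ l ∈ Λ, ∀ y, ‖f (y + l)‖ * Real.exp (-wt W (y + l)) = ‖f y‖ * Real.exp (-wt W y)) : ∃ e : Vd (k + 1) → Vd (k + 1) → ℂ, ThF Λ W e := by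
  classical
  have hfl : ∀ l y, AnalyticAt ℂ (fun y => f (y + l)) y := fun l y => AnalyticAt.fun_comp (g := f) (hf _) (analyticAt_id.add analyticAt_const)
  have key : ∀ l : Vd (k + 1), ∃ c : ℂ, l ∈ Λ → (‖c‖ = 1 ∧ ∀ y, f (y + l) * Complex.exp (-ax W l y) = c * f y) := by
    intro l
    by_cases hl : l ∈ Λ
    · obtain ⟨c, hc1, hc2⟩ := same_norm (f := fun y => f (y + l) * Complex.exp (-ax W l y)) (g := f) (fun y => (hfl l y).mul ((ax_an W l y).neg).cexp) hf (by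
        intro y
        have h1 := hper l hl y
        rw [norm_mul, Complex.norm_exp, Complex.neg_re, ax_re]
        have h2 : Real.exp (-(wt W (y + l) - wt W y)) = Real.exp (-wt W (y + l)) * Real.exp (wt W y) := by
          rw [← Real.exp_add]
          congr 1
          ring
        rw [h2, ← mul_assoc, h1, mul_assoc, ← Real.exp_add, neg_add_cancel, Real.exp_zero, mul_one]) h0
      exact ⟨c, fun _ => ⟨hc1, hc2⟩⟩
    · exact ⟨1, fun h => absurd h hl⟩
  choose c hc using key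
  have hE : ∀ l ∈ Λ, ∀ y, (c l)⁻¹ * Complex.exp (-ax W l y) * f (y + l) = f y := by
    intro l hl y
    obtain ⟨h1, h2⟩ := hc l hl
    have h3 : c l ≠ 0 := by
      intro h
      rw [h, norm_zero] at h1
      exact zero_ne_one h1
    have h4 := h2 y
    calc (c l)⁻¹ * Complex.exp (-ax W l y) * f (y + l) = (c l)⁻¹ * (f (y + l) * Complex.exp (-ax W l y)) := by ring
      _ = f y := by rw [h4, inv_mul_cancel_left₀ h3]
  have hEan : ∀ l y, AnalyticAt ℂ (fun y => (c l)⁻¹ * Complex.exp (-ax W l y)) y := fun l y => analyticAt_const.mul ((ax_an W l y).neg).cexp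
  refine ⟨fun l y => (c l)⁻¹ * Complex.exp (-ax W l y), hΛ, hpos, fun l _ y => hEan l y, ?_, ?_⟩
  · intro l hl y
    rw [norm_mul, norm_inv, (hc l hl).1, inv_one, one_mul, Complex.norm_exp, Complex.neg_re, ax_re]
    congr 1
    ring
  · intro l hl l' hl' y
    obtain ⟨y₁, hy₁⟩ := h0
    have hll := Λ.add_mem hl hl'
    have h1 : ∀ y, ((c (l + l'))⁻¹ * Complex.exp (-ax W (l + l') y) - (c l)⁻¹ * Complex.exp (-ax W l (y + l')) * ((c l')⁻¹ * Complex.exp (-ax W l' y))) * f (y + (l + l')) = 0 := by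
      intro y
      have e1 := hE (l + l') hll y
      have e2 := hE l hl (y + l')
      have e3 := hE l' hl' y
      have e4 : y + (l + l') = y + l' + l := by abel
      rw [e4] at e1 ⊢
      linear_combination e1 - (c l')⁻¹ * Complex.exp (-ax W l' y) * e2 - e3
    have h2 : ∀ᶠ y in 𝓝 (y₁ - (l + l')), ((c (l + l'))⁻¹ * Complex.exp (-ax W (l + l') y) - (c l)⁻¹ * Complex.exp (-ax W l (y + l')) * ((c l')⁻¹ * Complex.exp (-ax W l' y))) = 0 := by
      have h3 : f (y₁ - (l + l') + (l + l')) ≠ 0 := by rwa [sub_add_cancel]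
      filter_upwards [(hfl (l + l') (y₁ - (l + l'))).continuousAt.eventually_ne h3] with y hy
      exact (mul_eq_zero.1 (h1 y)).resolve_right hy
    have h3 := id_thm (f := fun y => (c (l + l'))⁻¹ * Complex.exp (-ax W (l + l') y) - (c l)⁻¹ * Complex.exp (-ax W l (y + l')) * ((c l')⁻¹ * Complex.exp (-ax W l' y)))
      (fun y => (hEan (l + l') y).sub ((AnalyticAt.fun_comp (g := fun y => (c l)⁻¹ * Complex.exp (-ax W l y)) (hEan l _) (analyticAt_id.add analyticAt_const)).mul (hEan l' y))) h2 y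
    exact sub_eq_zero.1 h3

/-- the vector `(t, 1)` -/
private noncomputable def tv (t : ℂ) : EN 1 := WithLp.toLp 2 ![t, 1]

private theorem fo_tv (θ : Fin (d + 1) → Vd (k + 1) → ℂ) (y : Vd (k + 1)) (t : ℂ) : Fo θ y (tv t) = ∑ i : Fin (d + 1), θ i y * t ^ (i : ℕ) := by
  unfold Fo
  refine Finset.sum_congr rfl fun i _ => ?_
  have e0 : tv t 0 = t := rfl
  have e1 : tv t 1 = 1 := rfl
  rw [e0, e1, one_pow, mul_one]

private theorem fin_tv {θ : Fin (d + 1) → Vd (k + 1) → ℂ} {y : Vd (k + 1)} (h : ∃ i, θ i y ≠ 0) : {t : ℂ | Fo θ y (tv t) = 0}.Finite := by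
  obtain ⟨i, hi⟩ := h
  set p : ℂ[X] := ∑ i : Fin (d + 1), C (θ i y) * X ^ (i : ℕ) with hp
  have hpi : p.coeff (i : ℕ) = θ i y := by
    rw [hp, finset_sum_coeff, Finset.sum_eq_single i]
    · simp
    · intro j _ hj
      rw [coeff_C_mul_X_pow, if_neg]
      intro h
      exact hj (Fin.ext h.symm)
    · intro h
      exact absurd (Finset.mem_univ i) h
  have hp0 : p ≠ 0 := by
    intro h
    rw [h, coeff_zero] at hpi
    exact hi hpi.symm
  refine (p.roots.toFinset.finite_toSet).subset fun t ht => ?_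
  rw [Finset.mem_coe, Multiset.mem_toFinset, mem_roots hp0, IsRoot.def, hp, eval_finset_sum]
  simp only [eval_mul, eval_C, eval_pow, eval_X]
  rw [← fo_tv]
  exact ht

theorem exists_bb {θ : Fin (d + 1) → Vd (k + 1) → ℂ} (hnv : ∀ y, (∀ i, θ i y = 0) → ∀ b : EN 1, ∃ᶠ z in 𝓝 y, Fo θ z b = 0 ∧ ∃ i, θ i z ≠ 0) (h0 : ∃ y, ∃ i, θ i y ≠ 0) :
    ∃ b b' : EN 1, (∃ y, Fo θ y b ≠ 0) ∧ ∀ y, Fo θ y b = 0 → ∃ᶠ z in 𝓝 y, Fo θ z b = 0 ∧ Fo θ z b' ≠ 0 := by
  obtain ⟨y₀, hy₀⟩ := h0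
  obtain ⟨t, ht⟩ : ∃ t : ℂ, t ∉ {t : ℂ | Fo θ y₀ (tv t) = 0} := by
    by_contra hn
    push Not at hn
    exact Set.infinite_univ ((fin_tv hy₀).subset fun t _ => hn t)
  set S : Set (Vd (k + 1)) := {z | Fo θ z (tv t) = 0 ∧ ∃ i, θ i z ≠ 0} with hS
  obtain ⟨Q, hQS, hQc, hQd⟩ := (TopologicalSpace.IsSeparable.of_separableSpace S).exists_countable_dense_subset
  have hc : (⋃ z ∈ Q, {t : ℂ | Fo θ z (tv t) = 0}).Countable := hQc.biUnion fun z hz => (fin_tv (hQS hz).2).countable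
  obtain ⟨t', ht'⟩ : ∃ t' : ℂ, t' ∉ ⋃ z ∈ Q, {t : ℂ | Fo θ z (tv t) = 0} := by
    by_contra hn
    push Not at hn
    exact not_countable_complex (hc.mono fun t _ => hn t)
  refine ⟨tv t, tv t', ⟨y₀, ht⟩, fun y hy => ?_⟩
  have h1 : y ∈ closure S := by
    by_cases hy2 : ∃ i, θ i y ≠ 0
    · exact subset_closure ⟨hy, hy2⟩
    · push Not at hy2
      exact mem_closure_iff_frequently.2 (hnv y hy2 (tv t))
  have h2 : y ∈ closure Q := closure_minimal hQd isClosed_closure h1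
  refine (mem_closure_iff_frequently.1 h2).mono fun z hz => ⟨(hQS hz).1, fun h => ht' ?_⟩
  exact Set.mem_biUnion hz h

end Pool.Agent.PX
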