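import Pool.Agent.PX.One
import Pool.Agent.PX.GoodA

/-!
# PX GoodB: preparations for `good_hit`
-/

set_option autoImplicit false

open Topology Filter Metric

namespace Pool.Agent.PX

open Pool.Agent.H36.BP (EN fs wd)
open Pool.Agent.H62.EF (MN pr)
open Pool.Agent.AD (Vd)
open Pool.Agent.G3 (wt TT LLift)
open Pool.Agent.H56.PR (hom hom_eq hom_zero LFam)

variable {k d r : ℕ}

/-- uniform convergence of a composition with a function continuous on a compact set -/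
theorem conv_comp {V ι : Type*} [NormedAddCommGroup V] {l : Filter ι} {K : Set V}
    (hK : IsCompact K) {ψ : V → ℂ} (hψ : ContinuousOn ψ K) {γ : ι → ℂ → V} {γ' : ℂ → V} {s : Set ℂ}
    (h : ∀ ε : ℝ, 0 < ε → ∀ᶠ n in l, ∀ z ∈ s, ‖γ n z - γ' z‖ < ε)
    (h1 : ∀ᶠ n in l, ∀ z ∈ s, γ n z ∈ K) (h2 : ∀ z ∈ s, γ' z ∈ K) :
    TendstoUniformlyOn (fun n z => ψ (γ n z)) (fun z => ψ (γ' z)) l s := by
  rw [Metric.tendstoUniformlyOn_iff]
  intro ε hε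
  have hu := hK.uniformContinuousOn_of_continuous hψ
  rw [Metric.uniformContinuousOn_iff] at hu
  obtain ⟨δ, hδ, hu⟩ := hu ε hε
  filter_upwards [h δ hδ, h1] with n h3 h4 z hz
  refine hu _ (h2 z hz) _ (h4 z hz) ?_
  rw [dist_comm, dist_eq_norm]
  exact h3 z hz

theorem conv_Pol {ι : Type*} {l : Filter ι} {m : ℕ} {c : ι → Fin m → ℂ → ℂ} {c' : Fin m → ℂ → ℂ}
    {s : Set ℂ} (h : ∀ i, TendstoUniformlyOn (fun n z => c n i z) (fun z => c' i z) l s) (j : ℕ) :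
    TendstoUniformlyOn (fun n z => (Pol (c n) z).coeff j) (fun z => (Pol c' z).coeff j) l s := by
  rw [Metric.tendstoUniformlyOn_iff]
  intro ε hε
  have h1 : ∀ᶠ n in l, ∀ i : Fin m, ∀ z ∈ s, ‖c n i z - c' i z‖ < ε / (m + 1) := by
    rw [Filter.eventually_all]
    intro i
    filter_upwards [(Metric.tendstoUniformlyOn_iff.1 (h i)) (ε / (m + 1)) (by positivity)] with n hn
      z hz
    have := hn z hz
    rwa [dist_comm, dist_eq_norm] at this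
  filter_upwards [h1] with n hn z hz
  rw [dist_comm, dist_eq_norm]
  have h2 : (Pol (c n) z).coeff j - (Pol c' z).coeff j
      = ∑ i : Fin m, (c n i z - c' i z) * (if j = (i : ℕ) then 1 else 0) := by
    simp only [Pol, Polynomial.coeff_add, Polynomial.finsetSum_coeff, Polynomial.coeff_C_mul,
      Polynomial.coeff_X_pow]
    rw [add_sub_add_left_eq_sub, ← Finset.sum_sub_distrib]
    refine Finset.sum_congr rfl fun i _ => ?_
    ring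
  rw [h2]
  refine (norm_sum_le _ _).trans_lt ?_
  calc ∑ i : Fin m, ‖(c n i z - c' i z) * (if j = (i : ℕ) then 1 else 0)‖
      ≤ ∑ i : Fin m, ε / (m + 1) := by
        refine Finset.sum_le_sum fun i _ => ?_
        rw [norm_mul]
        have h3 : ‖(if j = (i : ℕ) then (1 : ℂ) else 0)‖ ≤ 1 := by split_ifs <;> simp
        have h4 := (hn i z hz).le
        calc _ ≤ ε / (m + 1) * 1 := mul_le_mul h4 h3 (norm_nonneg _) (by positivity)
          _ = _ := mul_one _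
    _ = m * (ε / (m + 1)) := by simp
    _ < ε := by
        rw [mul_div_assoc', div_lt_iff₀ (by positivity)]
        nlinarith

open Classical in
/-- a section of `pr` -/
noncomputable def sec (q : MN 1) : EN 1 := if h : ∃ x : EN 1, x ≠ 0 ∧ pr x = q then h.choose else 0

theorem sec_spec {x : EN 1} (hx : x ≠ 0) : sec (pr x) ≠ 0 ∧ pr (sec (pr x)) = pr x := by
  have h : ∃ x' : EN 1, x' ≠ 0 ∧ pr x' = pr x := ⟨x, hx, rfl⟩
  rw [sec, dif_pos h]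
  exact h.choose_spec

theorem tc_sec {b e x : EN 1} (hx : x ≠ 0) : tc b e (sec (pr x)) = tc b e x := by
  obtain ⟨h1, h2⟩ := sec_spec hx
  obtain ⟨c, hc, h3⟩ := (H62.EF.pr_eq_iff h1 hx).1 h2
  rw [h3, tc_smul b e x hc]

/-- the coordinates of the points near a lift -/
theorem tc_diff {b e : EN 1} {Φ : ℂ → EN 1} {z : ℂ} (hΦ : AnalyticAt ℂ Φ z) (h : dt b (Φ z) ≠ 0) :
    DifferentiableAt ℂ (fun z => tc b e (Φ z)) z := by
  have hcoord : ∀ i, DifferentiableAt ℂ (fun z => Φ z i) z := fun i =>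
    (differentiableAt_euclidean.1 hΦ.differentiableAt) i
  unfold tc dt
  refine DifferentiableAt.div ?_ ?_ h
  · exact ((hcoord 0).mul_const _).sub ((hcoord 1).mul_const _)
  · exact ((hcoord 1).const_mul _).sub ((hcoord 0).const_mul _)

section

variable {Λ : AddSubgroup (Vd (k + 1))} {D : Set (Vd (k + 1))} {Bad : Vd (k + 1) → Set (Vd (k + 1))} {θ : Fin (d + 1) → Vd (k + 1) → ℂ}
  {W : Fin r → Vd (k + 1) →L[ℂ] ℂ}

/-- the arcs near the hit -/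
theorem LS.near {y a : Vd (k + 1)} {𝒰 : Ultrafilter ℕ} {w : ℕ → ℂ → EN 1} {h : ℕ → ℂ → Vd (k + 1)}
    {g : ℂ → MN 1} (S : LS θ D y a 𝒰 w h g) (z₀ : ℂ) (R : ℝ) {ε : ℝ} (hε : 0 < ε) :
    ∀ᶠ n in (𝒰 : Filter ℕ), DifferentiableOn ℂ (fun z => h n (z₀ + z)) (ball 0 R) ∧
      DifferentiableOn ℂ (fun z => w n (z₀ + z)) (ball 0 R) ∧
      (∀ z ∈ ball (0 : ℂ) R, Fo θ (h n (z₀ + z)) (w n (z₀ + z)) ≠ 0) ∧
      ∀ z ∈ ball (0 : ℂ) R, ‖h n (z₀ + z) - (y + z₀ • a + z • a)‖ < ε := by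
  have hm : ∀ z ∈ ball (0 : ℂ) R, z₀ + z ∈ ball (0 : ℂ) (‖z₀‖ + |R|) := by
    intro z hz
    rw [mem_ball_zero_iff] at hz ⊢
    have h1 := norm_add_le z₀ z
    have h2 := le_abs_self R
    linarith
  filter_upwards [S.cv (‖z₀‖ + |R|), S.hh (‖z₀‖ + |R|) ε hε] with n h1 h2
  have hd : DifferentiableOn ℂ (fun z : ℂ => z₀ + z) (ball 0 R) := by fun_prop
  refine ⟨h1.h_diff.comp hd hm, h1.w_diff.comp hd hm, fun z hz => h1.ne _ (hm z hz), ?_⟩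
  intro z hz
  have h3 := h2 _ (ball_subset_closedBall (hm z hz))
  rwa [add_smul, ← add_assoc] at h3

/-- the radius -/
theorem exists_rad {a : Vd (k + 1)} {ρ₀ r₁ : ℝ} (h0 : 0 < ρ₀) (h1 : 0 < r₁) :
    ∃ ρ : ℝ, 0 < ρ ∧ ρ ≤ ρ₀ ∧ ∀ z : ℂ, ‖z‖ < 4 * ρ → ‖z • a‖ ≤ r₁ / 2 := by
  refine ⟨min ρ₀ (r₁ / (8 * (‖a‖ + 1))), lt_min h0 (by positivity), min_le_left _ _, ?_⟩
  intro z hz
  rw [norm_smul]
  have h2 : ‖z‖ ≤ 4 * (r₁ / (8 * (‖a‖ + 1))) :=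
    hz.le.trans (mul_le_mul_of_nonneg_left (min_le_right _ _) (by norm_num))
  calc ‖z‖ * ‖a‖ ≤ 4 * (r₁ / (8 * (‖a‖ + 1))) * (‖a‖ + 1) :=
        mul_le_mul h2 (by linarith) (norm_nonneg _) (by positivity)
    _ = r₁ / 2 := by field_simp; ring

/-- the form is not `0` at the hit -/
theorem PD.form_ne (P : PD Λ D Bad θ W) {y a : Vd (k + 1)} (ha : a ≠ 0) {𝒰 : Ultrafilter ℕ} {w : ℕ → ℂ → EN 1} {h : ℕ → ℂ → Vd (k + 1)} {g : ℂ → MN 1}
    (S : LS θ D y a 𝒰 w h g) {z₀ : ℂ} (hz₀ : y + z₀ • a ∈ D) (hb : y + z₀ • a ∉ Bad a) :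
    ∃ i, θ i (y + z₀ • a) ≠ 0 := by
  rcases P.form a ha _ hb with h1 | ⟨-, h1⟩
  · exact h1
  exfalso
  obtain ⟨s, hs, hsD, hsa⟩ := P.good a ha _ hz₀ hb
  obtain ⟨ρ₀, hρ₀, H⟩ := one_hit hs hsD hz₀ hsa
  obtain ⟨r₁, hr₁, h2⟩ := Metric.eventually_nhds_iff_ball.1 h1
  obtain ⟨ρ, hρ, hρρ₀, hρa⟩ := exists_rad (a := a) hρ₀ hr₁
  obtain ⟨ε, hε, H⟩ := H ρ hρ hρρ₀
  obtain ⟨n, hn1, -, hn3, hn4⟩ := (S.near z₀ (4 * ρ) (lt_min hε (half_pos hr₁))).exists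
  obtain ⟨z₁, hz₁, hz₁D, -⟩ := H _ hn1 fun z hz => (hn4 z hz).trans_le (min_le_left _ _)
  have hz₁b : z₁ ∈ ball (0 : ℂ) (4 * ρ) := mem_ball_zero_iff.2 (by linarith)
  have h3 : h n (z₀ + z₁) ∈ ball (y + z₀ • a) r₁ := by
    rw [mem_ball_iff_norm]
    have h4 := (hn4 z₁ hz₁b).trans_le (min_le_right _ _)
    have h5 := hρa z₁ (mem_ball_zero_iff.1 hz₁b)
    have h6 : h n (z₀ + z₁) - (y + z₀ • a)
        = (h n (z₀ + z₁) - (y + z₀ • a + z₁ • a)) + z₁ • a := by abel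
    rw [h6]
    have := norm_add_le (h n (z₀ + z₁) - (y + z₀ • a + z₁ • a)) (z₁ • a)
    linarith
  have h7 := h2 _ h3 hz₁D
  apply hn3 z₁ hz₁b
  simp [Fo, h7]

end

end Pool.Agent.PX
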