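import Pool.Agent.PX.Bas

/-!
# PX Kap: the function `κ` along a root

Near a point where `G z 0 ≠ 0` put `K z = Fd θ (y + z a) (G z) e₁ / G z 0` (`dt (G z) e₁ = G z 0`), otherwise with `e₀`; `fd_root`; `K z` is unique, so the local functions fit together.
-/

set_option autoImplicit false

open Topology Filter Metric

namespace Pool.Agent.PX

open Pool.Agent.H36.BP (EN fs wd)
open Pool.Agent.H62.EF (MN pr)
open Pool.Agent.AD (Vd)
open Pool.Agent.TG (Lat Gd)
open Pool.Agent.G3 (wt TT LLift)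
open Pool.Agent.G4 (Few)

variable {k d r : ℕ}

variable {Λ : AddSubgroup (Vd (k + 1))} {D : Set (Vd (k + 1))} {Bad : Vd (k + 1) → Set (Vd (k + 1))} {θ : Fin (d + 1) → Vd (k + 1) → ℂ}
  {W : Fin r → Vd (k + 1) →L[ℂ] ℂ}


theorem PD.exists_kap (P : PD Λ D Bad θ W) {y a : Vd (k + 1)} {G : ℂ → EN 1} (hG : Differentiable ℂ G) (h0 : ∀ z, G z ≠ 0) (hr : ∀ z : ℂ, Fo θ (y + z • a) (G z) = 0) :
    ∃ K : ℂ → ℂ, Differentiable ℂ K ∧ ∀ (z : ℂ) (v : EN 1), Fd θ (y + z • a) (G z) v = K z * dt (G z) v := by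
  choose K hK using fun z => fd_root θ (h0 z) (hr z)
  refine ⟨K, fun z₀ => ?_, hK⟩
  have hF : ∀ e : EN 1, DifferentiableAt ℂ (fun z : ℂ => Fd θ (y + z • a) (G z) e) z₀ := by
    intro e
    have h1 : DifferentiableAt ℂ (fun z : ℂ => ((y + z • a, G z, e) : Vd (k + 1) × EN 1 × EN 1)) z₀ :=
      ((differentiableAt_const y).add (differentiableAt_id.smul_const a)).prodMk ((hG z₀).prodMk (differentiableAt_const e))
    exact ((fd_diff P.an) (y + z₀ • a, G z₀, e)).comp z₀ h1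
  have hc : ∀ i : Fin 2, DifferentiableAt ℂ (fun z : ℂ => G z i) z₀ := fun i =>
    (EuclideanSpace.proj (𝕜 := ℂ) (ι := Fin 2) i).differentiableAt.comp z₀ (hG z₀)
  have hor : G z₀ 0 ≠ 0 ∨ G z₀ 1 ≠ 0 := by
    by_contra hcon
    push Not at hcon
    apply h0 z₀
    ext i
    fin_cases i
    · exact hcon.1
    · exact hcon.2
  rcases hor with h | h
  · have hev : ∀ᶠ z in 𝓝 z₀, G z 0 ≠ 0 := (hc 0).continuousAt.eventually_ne h
    have hq : DifferentiableAt ℂ (fun z : ℂ => Fd θ (y + z • a) (G z) (EuclideanSpace.single 1 1) / G z 0) z₀ :=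
      (hF _).div (hc 0) h
    refine hq.congr_of_eventuallyEq ?_
    filter_upwards [hev] with z hz
    rw [hK z]
    simp only [dt, PiLp.single_apply]
    field_simp
    simp
  · have hev : ∀ᶠ z in 𝓝 z₀, G z 1 ≠ 0 := (hc 1).continuousAt.eventually_ne h
    have hq : DifferentiableAt ℂ (fun z : ℂ => - Fd θ (y + z • a) (G z) (EuclideanSpace.single 0 1) / G z 1) z₀ :=
      (hF _).neg.div (hc 1) h
    refine hq.congr_of_eventuallyEq ?_
    filter_upwards [hev] with z hz
    rw [hK z]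
    simp only [dt, PiLp.single_apply]
    field_simp
    simp

end Pool.Agent.PX
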