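import Pool.Agent.PX.Sep
import Pool.Agent.PX.Psi

/-!
# PX Long: no long curves

`A₁, A₂`; `δ` from `circ` (radius `ρ = 1`, directions between `A₁ / 2` and `2 A₂`), then `δ / 2` for arcs near the lines; `R₁, c, η₁` from `sep` for `δ / 2`.  On the disc of radius `R`, `‖h' - a‖ ≤ η` with `η R₁ ≤ η₁`, `η ≤ min (A₁ / 2) (δ / 4)`: at all points `z`, `‖z‖ < R - R₁`, with `h z ∈ Gd D (δ / 2)`:
`c ≤ qf`; by `psi_max` on the circles of radius `≤ 1` the same at all points `‖z‖ < R - R₁ - 2`; `psi_grow` with `s = R - R₁ - 3` gives `c exp (c₀ s ^ 2) ≤ qf ≤ C` (`qf_le`): contradiction for `R` large.  (Choose first `R₁, c, η₁`, then `R`, then `η`.)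
-/

set_option autoImplicit false

open Topology Filter Metric

namespace Pool.Agent.PX

open Pool.Agent.H36.BP (EN fs wd)
open Pool.Agent.H62.EF (MN pr)
open Pool.Agent.AD (Vd)
open Pool.Agent.TG (Lat Gd)
open Pool.Agent.G3 (wt TT LLift)
open Pool.Agent.G4 (Few)

variable {k d r : ℕ}

variable {Λ : AddSubgroup (Vd (k + 1))} {D : Set (Vd (k + 1))} {Bad : Vd (k + 1) → Set (Vd (k + 1))} {θ : Fin (d + 1) → Vd (k + 1) → ℂ}
  {W : Fin r → Vd (k + 1) →L[ℂ] ℂ}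


/-- the mean value inequality -/
private theorem Long_mv {h : ℂ → Vd (k + 1)} {a : Vd (k + 1)} {R η : ℝ} (hd : DifferentiableOn ℂ h (ball 0 R))
    (hη : ∀ z ∈ ball (0 : ℂ) R, ‖deriv h z - a‖ ≤ η) (x y : ℂ) (hx : x ∈ ball (0 : ℂ) R) (hy : y ∈ ball (0 : ℂ) R) :
    ‖h y - h x - (y - x) • a‖ ≤ η * ‖y - x‖ := by
  have hdf : ∀ z ∈ ball (0 : ℂ) R, DifferentiableAt ℂ h z := fun z hz => hd.differentiableAt (isOpen_ball.mem_nhds hz)
  have h1 : ∀ z ∈ ball (0 : ℂ) R, HasDerivAt (fun z => h z - z • a) (deriv h z - a) z := by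
    intro z hz
    have h2 := (hdf z hz).hasDerivAt.sub ((hasDerivAt_id z).smul_const a)
    rw [one_smul] at h2
    exact h2
  have h3 := Convex.norm_image_sub_le_of_norm_hasDerivWithin_le (f := fun z => h z - z • a) (fun z hz => (h1 z hz).hasDerivWithinAt) hη
    (convex_ball 0 R) hx hy
  have h4 : h y - h x - (y - x) • a = (h y - y • a) - (h x - x • a) := by
    rw [sub_smul]
    abel
  rw [h4]
  exact h3

theorem PD.no_long (P : PD Λ D Bad θ W) {A₁ A₂ : ℝ} (hA₁ : 0 < A₁) (hA : A₁ ≤ A₂) : ∃ R η : ℝ, 0 < R ∧ 0 < η ∧ ∀ (w : ℂ → EN 1) (h : ℂ → Vd (k + 1)) (a : Vd (k + 1)),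
    A₁ ≤ ‖a‖ → ‖a‖ ≤ A₂ → Cp θ (ball 0 R) w h → (∀ z ∈ ball (0 : ℂ) R, ‖deriv h z - a‖ ≤ η) → False := by
  obtain ⟨δ, hδ, hcirc⟩ := P.circ (A₂ := A₂) hA₁ one_pos
  obtain ⟨R₁, c, η₁, hR₁, hc, hη₁, hsep⟩ := P.sep (A₂ := A₂) (half_pos hδ) hA₁
  obtain ⟨C, hC, hle⟩ := P.qf_le
  obtain ⟨c₀, hc₀, hgrow⟩ := P.psi_grow (half_pos hA₁)
  set S : ℝ := max 1 (C / (c * c₀)) with hS
  have hS1 : 1 ≤ S := le_max_left _ _
  have hS2 : C / (c * c₀) ≤ S := le_max_right _ _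
  refine ⟨R₁ + 3 + S, min (A₁ / 2) (min (δ / 4) (η₁ / R₁)), by linarith, lt_min (half_pos hA₁) (lt_min (by linarith) (div_pos hη₁ hR₁)), ?_⟩
  intro w h a ha₁ ha₂ hcp hder
  set η : ℝ := min (A₁ / 2) (min (δ / 4) (η₁ / R₁)) with hη
  have h0η : 0 < η := lt_min (half_pos hA₁) (lt_min (by linarith) (div_pos hη₁ hR₁))
  have e1 : η ≤ A₁ / 2 := min_le_left _ _
  have e2 : η ≤ δ / 4 := (min_le_right _ _).trans (min_le_left _ _)
  have e3 : η * R₁ ≤ η₁ := by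
    have : η ≤ η₁ / R₁ := (min_le_right _ _).trans (min_le_right _ _)
    rwa [le_div_iff₀ hR₁] at this
  have mv := Long_mv hcp.h_diff hder
  -- near the set of the good points
  have s1 : ∀ z₀ : ℂ, ‖z₀‖ < 3 + S → h z₀ ∈ Gd D (δ / 2) → c ≤ qf θ W (h z₀) (w z₀) := by
    intro z₀ hz₀ hg
    have hmaps : Set.MapsTo (fun z : ℂ => z₀ + z) (ball 0 R₁) (ball 0 (R₁ + 3 + S)) := by
      intro z hz
      rw [mem_ball_zero_iff] at hz ⊢
      calc ‖z₀ + z‖ ≤ ‖z₀‖ + ‖z‖ := norm_add_le _ _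
        _ < R₁ + 3 + S := by linarith
    have h1 := hsep (fun z => w (z₀ + z)) (fun z => h (z₀ + z)) a ha₁ ha₂
      (hcp.comp (by fun_prop) hmaps) (by
        intro z hz
        have h2 := mv (z₀ + 0) (z₀ + z) (hmaps (mem_ball_self hR₁)) (hmaps hz)
        have h3 : h (z₀ + z) - (h (z₀ + 0) + z • a) = h (z₀ + z) - h (z₀ + 0) - ((z₀ + z) - (z₀ + 0)) • a := by
          rw [add_sub_add_left_eq_sub, sub_zero]
          abel
        rw [h3]
        refine h2.trans ?_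
        rw [add_sub_add_left_eq_sub, sub_zero]
        rw [mem_ball_zero_iff] at hz
        exact (mul_le_mul_of_nonneg_left hz.le h0η.le).trans e3) (by
        rw [add_zero]
        exact hg)
    rw [add_zero] at h1
    exact h1
  -- all points
  have s2 : ∀ z₀ : ℂ, ‖z₀‖ < 1 + S → c ≤ qf θ W (h z₀) (w z₀) := by
    intro z₀ hz₀
    obtain ⟨s, hs0, hs1, hs⟩ := hcirc (h z₀) a ha₁ ha₂
    have hsub : ball z₀ 2 ⊆ ball (0 : ℂ) (R₁ + 3 + S) := by
      intro z hz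
      rw [mem_ball_zero_iff]
      rw [mem_ball, dist_eq_norm] at hz
      have : ‖z‖ ≤ ‖z - z₀‖ + ‖z₀‖ := by
        calc ‖z‖ = ‖(z - z₀) + z₀‖ := by rw [sub_add_cancel]
          _ ≤ _ := norm_add_le _ _
      linarith
    refine P.psi_max hs0 (by linarith : s < 2) (hcp.mono hsub) hc ?_
    intro z hz
    rw [mem_sphere, dist_eq_norm] at hz
    have hzn : ‖z‖ ≤ ‖z - z₀‖ + ‖z₀‖ := by
      calc ‖z‖ = ‖(z - z₀) + z₀‖ := by rw [sub_add_cancel]
        _ ≤ _ := norm_add_le _ _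
    refine s1 z (by linarith) ?_
    have h2 := mv z₀ z (hsub (mem_ball_self two_pos)) (hsub (by
      rw [mem_ball, dist_eq_norm]
      linarith))
    have h3 := hs (z - z₀) hz
    intro b hb
    have h4 := h3 b hb
    have h5 : ‖h z₀ + (z - z₀) • a - b‖ ≤ ‖h z - b‖ + ‖h z - h z₀ - (z - z₀) • a‖ := by
      calc ‖h z₀ + (z - z₀) • a - b‖ = ‖(h z - b) - (h z - h z₀ - (z - z₀) • a)‖ := by
            congr 1
            abel
        _ ≤ _ := norm_sub_le _ _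
    have h6 : η * ‖z - z₀‖ ≤ δ / 4 := by
      rw [hz]
      calc η * s ≤ η * 1 := mul_le_mul_of_nonneg_left hs1 h0η.le
        _ = η := mul_one _
        _ ≤ δ / 4 := e2
    linarith
  -- growth
  have h7 := hgrow w h S (R₁ + 3 + S) (by linarith) (by linarith) hcp (by
    intro z hz
    have h8 := hder z hz
    have h9 : ‖a‖ ≤ ‖deriv h z‖ + ‖deriv h z - a‖ := by
      calc ‖a‖ = ‖deriv h z - (deriv h z - a)‖ := by rw [sub_sub_cancel]
        _ ≤ _ := norm_sub_le _ _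
    linarith) c hc (by
    intro z hz
    rw [mem_sphere_zero_iff_norm] at hz
    exact s2 z (by linarith))
  have h10 := hle (h 0) (w 0)
  have h11 : c₀ * S ^ 2 + 1 ≤ Real.exp (c₀ * S ^ 2) := Real.add_one_le_exp _
  have h12 : S ≤ S ^ 2 := by nlinarith
  have h13 : C ≤ c * (c₀ * S) := by
    rw [div_le_iff₀ (mul_pos hc hc₀)] at hS2
    linarith
  have h14 : c * (c₀ * S) ≤ c * (c₀ * S ^ 2) :=
    mul_le_mul_of_nonneg_left (mul_le_mul_of_nonneg_left h12 hc₀.le) hc.le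
  have h15 : c * (c₀ * S ^ 2 + 1) ≤ c * Real.exp (c₀ * S ^ 2) := mul_le_mul_of_nonneg_left h11 hc.le
  linarith

end Pool.Agent.PX
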