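import Pool.Agent.PX.TTb
import Pool.Agent.PX.Circ

/-!
# PX Mult: the zeros of `κ` have bounded multiplicity

For `z₀` choose `z` with `‖z - z₀‖ ≤ 1` and `y + z a ∈ Gd D δ` (`circ`).  Jensen for `K` on the disc of radius `3` around `z`: the number of zeros in the disc of radius `3 / 2` is at most `(avg log |K| - log |K z|) / log 2`; `avg log |K| ≤ log C + (d - 2) avg log ‖G‖ + avg wt` (`grad_up`),
`log |K z| ≥ log c + (d - 2) log ‖G z‖ + wt` (`grad_lo`), `tt_root`.
-/

set_option autoImplicit false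

open Topology Filter Metric

namespace Pool.Agent.PX

open Pool.Agent.H36.BP (EN fs wd)
open Pool.Agent.H62.EF (MN pr)
open Pool.Agent.AD (Vd)
open Pool.Agent.TG (Lat Gd)
open Pool.Agent.G3 (wt TT LLift)
open Pool.Agent.G4 (Few)

variable {k d r : ℕ}

variable {Λ : AddSubgroup (Vd (k + 1))} {D : Set (Vd (k + 1))} {Bad : Vd (k + 1) → Set (Vd (k + 1))} {θ : Fin (d + 1) → Vd (k + 1) → ℂ}
  {W : Fin r → Vd (k + 1) →L[ℂ] ℂ}


/-- an inequality off a discrete set of the circle -/
private theorem tt_mono {u v : ℂ → ℝ} {z : ℂ} {s : ℝ} (hs : 0 < s) (hu : CircleIntegrable u z s) (hv : CircleIntegrable v z s)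
    (h : ∀ᶠ w in codiscreteWithin (sphere z |s|), u w ≤ v w) : Real.circleAverage u z s ≤ Real.circleAverage v z s := by
  have h3 := circleMap_preimage_codiscrete hs.ne' h
  have h4 := ae_restrict_le_codiscreteWithin (μ := MeasureTheory.volume) measurableSet_uIoc (codiscreteWithin_mono (U₁ := Set.uIoc 0 (2 * Real.pi)) (by simp) h3)
  have h5 : ∀ᵐ θ ∂(MeasureTheory.volume.restrict (Set.uIoc 0 (2 * Real.pi))), u (circleMap z s θ) ≤ v (circleMap z s θ) := by
    filter_upwards [h4] with θ hθ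
    exact hθ
  rw [Real.circleAverage, Real.circleAverage, smul_eq_mul, smul_eq_mul]
  refine mul_le_mul_of_nonneg_left ?_ (by positivity)
  refine intervalIntegral.integral_mono_ae_restrict (by positivity) hu hv ?_
  rw [Set.uIoc_of_le (by positivity)] at h5
  rw [MeasureTheory.Measure.restrict_congr_set MeasureTheory.Ioc_ae_eq_Icc.symm]
  exact h5

/-- an analytic function which is not zero at the centre is not zero outside a discrete set of the circle -/
private theorem tt_codisc {a : ℂ → ℂ} {z : ℂ} {s : ℝ} (hs : 0 < s) (ha : Differentiable ℂ a) (ha0 : a z ≠ 0) :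
    a ⁻¹' {0}ᶜ ∈ codiscreteWithin (sphere z |s|) := by
  have h0 : AnalyticOnNhd ℂ a (closedBall z s) := fun w _ => ha.analyticAt w
  have h1 : a ⁻¹' {0}ᶜ ∈ codiscreteWithin (closedBall z s) :=
    h0.preimage_zero_mem_codiscreteWithin ha0 (mem_closedBall_self hs.le) ((convex_closedBall z s).isConnected ⟨z, mem_closedBall_self hs.le⟩)
  rw [abs_of_pos hs]
  exact codiscreteWithin_mono sphere_subset_closedBall h1

/-- the logarithm of the norm of an entire function is circle integrable -/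
private theorem tt_int {a : ℂ → ℂ} {z : ℂ} {s : ℝ} (hs : 0 < s) (ha : Differentiable ℂ a) : CircleIntegrable (fun w => Real.log ‖a w‖) z s := by
  apply MeromorphicOn.circleIntegrable_log_norm_of_nonneg _ hs.le
  have h0 : AnalyticOnNhd ℂ a (sphere z s) := fun w _ => ha.analyticAt w
  exact h0.meromorphicOn

/-- the mean of `‖g‖ ^ 2` -/
private theorem tt_sq {g : ℂ → ℂ} {z : ℂ} {s : ℝ} (hs : 0 < s) (hg : Differentiable ℂ g) :
    Real.circleAverage (fun w => ‖g w‖ ^ 2) z s = ‖g z‖ ^ 2 + Real.circleAverage (fun w => ‖g w - g z‖ ^ 2) z s := by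
  have hgc : ContinuousOn g (sphere z s) := hg.continuous.continuousOn
  have hmean : Real.circleAverage g z s = g z := hg.diffContOnCl.circleAverage
  have hIg : CircleIntegrable g z s := hgc.circleIntegrable hs.le
  -- the linear term
  set L : ℂ →L[ℝ] ℝ := Complex.reCLM.comp ((ContinuousLinearMap.mul ℂ ℂ ((starRingEnd ℂ) (g z))).restrictScalars ℝ) with hL
  have hLv : ∀ w, L w = ((starRingEnd ℂ) (g z) * w).re := fun w => by
    simp [hL]
  have hlin : Real.circleAverage (fun w => L (g w)) z s = L (g z) := by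
    have := L.circleAverage_comp_comm hIg
    rw [hmean] at this
    exact this
  have hIL : CircleIntegrable (fun w => L (g w)) z s := (L.continuous.comp_continuousOn hgc).circleIntegrable hs.le
  have hIn : CircleIntegrable (fun w => ‖g w - g z‖ ^ 2) z s := ((hgc.sub continuousOn_const).norm.pow 2).circleIntegrable hs.le
  have hpt : (fun w => ‖g w‖ ^ 2) = fun w => ((2 : ℝ) • (L (g w)) + ‖g w - g z‖ ^ 2) + (-‖g z‖ ^ 2) := by
    funext w
    rw [hLv, Complex.sq_norm, Complex.sq_norm, Complex.sq_norm, Complex.normSq_apply, Complex.normSq_apply, Complex.normSq_apply]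
    simp only [Complex.sub_re, Complex.sub_im, Complex.mul_re, Complex.conj_re, Complex.conj_im, smul_eq_mul]
    ring
  have hI1 : CircleIntegrable (fun w => (2 : ℝ) • (L (g w))) z s := hIL.const_fun_smul
  rw [hpt, Real.circleAverage_fun_add (hI1.fun_add hIn) (circleIntegrable_const _ _ _), Real.circleAverage_fun_add hI1 hIn,
    Real.circleAverage_fun_smul, Real.circleAverage_const, hlin, hLv]
  have h1 : ((starRingEnd ℂ) (g z) * g z).re = ‖g z‖ ^ 2 := by
    rw [Complex.sq_norm, Complex.normSq_apply]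
    simp [Complex.mul_re]
  rw [h1, smul_eq_mul]
  ring

/-- the mean of the weight on a line -/
private theorem tt_wt (W : Fin r → Vd (k + 1) →L[ℂ] ℂ) {y a : Vd (k + 1)} {A : ℝ} (ha : ‖a‖ ≤ A) {z : ℂ} {s : ℝ} (hs : 0 < s) :
    CircleIntegrable (fun w : ℂ => wt W (y + w • a)) z s ∧
      Real.circleAverage (fun w : ℂ => wt W (y + w • a)) z s ≤ wt W (y + z • a) + s ^ 2 * (∑ i, ‖W i‖ ^ 2) * A ^ 2 := by
  have hd : ∀ i : Fin r, Differentiable ℂ fun w : ℂ => W i (y + w • a) := fun i =>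
    (W i).differentiable.comp ((differentiable_const y).add (differentiable_id.smul_const a))
  have hIi : ∀ i : Fin r, CircleIntegrable (fun w : ℂ => ‖W i (y + w • a)‖ ^ 2) z s := fun i =>
    ((hd i).continuous.norm.pow 2).continuousOn.circleIntegrable hs.le
  have hIW : CircleIntegrable (fun w : ℂ => wt W (y + w • a)) z s := by
    unfold wt
    exact CircleIntegrable.fun_sum _ fun i _ => hIi i
  refine ⟨hIW, ?_⟩
  have h1 : Real.circleAverage (fun w : ℂ => wt W (y + w • a)) z s = ∑ i, Real.circleAverage (fun w : ℂ => ‖W i (y + w • a)‖ ^ 2) z s := by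
    unfold wt
    exact Real.circleAverage_fun_sum fun i _ => hIi i
  rw [h1, wt, Finset.mul_sum, Finset.sum_mul, ← Finset.sum_add_distrib]
  refine Finset.sum_le_sum fun i _ => ?_
  rw [tt_sq hs (hd i)]
  have h2 : Real.circleAverage (fun w : ℂ => ‖W i (y + w • a) - W i (y + z • a)‖ ^ 2) z s ≤ s ^ 2 * ‖W i‖ ^ 2 * A ^ 2 := by
    refine Real.circleAverage_mono_on_of_le_circle ?_ fun w hw => ?_
    · exact ((((hd i).continuous.sub continuous_const).norm.pow 2).continuousOn).circleIntegrable hs.le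
    · rw [abs_of_pos hs, mem_sphere, dist_eq_norm] at hw
      have h3 : W i (y + w • a) - W i (y + z • a) = (w - z) • W i a := by
        rw [← map_sub, ← map_smul]
        congr 1
        rw [sub_smul]
        abel
      rw [h3, norm_smul, hw, mul_pow, mul_assoc]
      refine mul_le_mul_of_nonneg_left ?_ (by positivity)
      rw [← mul_pow]
      exact pow_le_pow_left₀ (norm_nonneg _) (((W i).le_opNorm a).trans (mul_le_mul_of_nonneg_left ha (norm_nonneg _))) 2
  linarith

/-- Jensen: the order of a zero -/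
private theorem order_le {K : ℂ → ℂ} (hK : Differentiable ℂ K) {z z₀ : ℂ} (hz : K z ≠ 0) (h1 : ‖z - z₀‖ ≤ 1) (hne : z ≠ z₀) {m : ℕ} (hm : analyticOrderAt K z₀ = m) :
    (m : ℝ) ≤ Real.circleAverage (fun w => Real.log ‖K w‖) z 3 - Real.log ‖K z‖ := by
  have hs : (0 : ℝ) < 3 := by norm_num
  have hmerOn : MeromorphicOn K (closedBall z |(3 : ℝ)|) := fun ζ _ => (hK.analyticAt ζ).meromorphicAt
  have hJ := MeromorphicOn.circleAverage_log_norm hs.ne' hmerOn
  have hzm : z ∈ closedBall z |(3 : ℝ)| := mem_closedBall_self (abs_nonneg _)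
  have hdz : MeromorphicOn.divisor K (closedBall z |(3 : ℝ)|) z = 0 := by
    rw [MeromorphicOn.divisor_apply hmerOn hzm, (hK.analyticAt z).meromorphicOrderAt_eq, (hK.analyticAt z).analyticOrderAt_eq_zero.2 hz]
    simp
  have hnn : ∀ u, 0 ≤ (MeromorphicOn.divisor K (closedBall z |(3 : ℝ)|) u : ℝ) * Real.log (3 * ‖z - u‖⁻¹) := by
    intro u
    by_cases hu : u ∈ closedBall z |(3 : ℝ)|
    · apply mul_nonneg
      · have h1 : 0 ≤ MeromorphicOn.divisor K (closedBall z |(3 : ℝ)|) u := by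
          rw [MeromorphicOn.divisor_apply hmerOn hu, (hK.analyticAt u).meromorphicOrderAt_eq]
          refine WithTop.untop₀_nonneg.2 ?_
          have h5 := (hK.analyticAt u).meromorphicOrderAt_nonneg
          rwa [(hK.analyticAt u).meromorphicOrderAt_eq] at h5
        exact_mod_cast h1
      · by_cases huc : u = z
        · simp [huc]
        · apply Real.log_nonneg
          have h2 : 0 < ‖z - u‖ := by
            rw [norm_pos_iff, sub_ne_zero]
            exact fun h => huc h.symm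
          have h3 : ‖z - u‖ ≤ 3 := by
            rw [mem_closedBall, dist_eq_norm, abs_of_pos hs, norm_sub_rev] at hu
            exact hu
          rw [← div_eq_mul_inv, le_div_iff₀ h2]
          linarith
    · have : MeromorphicOn.divisor K (closedBall z |(3 : ℝ)|) u = 0 := Function.locallyFinsuppWithin.apply_eq_zero_of_notMem _ hu
      simp [this]
  have hfin : (Function.support fun u => (MeromorphicOn.divisor K (closedBall z |(3 : ℝ)|) u : ℝ) * Real.log (3 * ‖z - u‖⁻¹)).Finite := by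
    refine ((MeromorphicOn.divisor K (closedBall z |(3 : ℝ)|)).finiteSupport (isCompact_closedBall _ _)).subset ?_
    intro u hu h0
    apply hu
    simp only
    rw [h0]
    simp
  have hsum := single_le_finsum z₀ hfin hnn
  have hz₀ : z₀ ∈ closedBall z |(3 : ℝ)| := by
    rw [mem_closedBall, dist_eq_norm, abs_of_pos hs, norm_sub_rev]
    linarith
  have hd₀ : (MeromorphicOn.divisor K (closedBall z |(3 : ℝ)|) z₀ : ℝ) = m := by
    rw [MeromorphicOn.divisor_apply hmerOn hz₀, (hK.analyticAt z₀).meromorphicOrderAt_eq, hm]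
    simp
  have hpos : 0 < ‖z - z₀‖ := by
    rw [norm_pos_iff, sub_ne_zero]
    exact hne
  have hlog : 1 ≤ Real.log (3 * ‖z - z₀‖⁻¹) := by
    rw [Real.le_log_iff_exp_le (by positivity)]
    have h2 : (1 : ℝ) ≤ ‖z - z₀‖⁻¹ := (one_le_inv₀ hpos).2 h1
    have h3 := Real.exp_one_lt_d9
    nlinarith
  have h4 : (m : ℝ) ≤ (MeromorphicOn.divisor K (closedBall z |(3 : ℝ)|) z₀ : ℝ) * Real.log (3 * ‖z - z₀‖⁻¹) := by
    rw [hd₀]
    exact le_mul_of_one_le_right (Nat.cast_nonneg _) hlog
  rw [hdz, (hK.analyticAt z).meromorphicTrailingCoeffAt_of_ne_zero hz] at hJ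
  push_cast at hJ
  linarith

theorem PD.mult (P : PD Λ D Bad θ W) {a : Vd (k + 1)} (ha : a ≠ 0) : ∃ M : ℕ, ∀ (y : Vd (k + 1)) (G : ℂ → EN 1) (K : ℂ → ℂ), Differentiable ℂ G → (∀ z, G z ≠ 0) →
    (∀ z : ℂ, Fo θ (y + z • a) (G z) = 0) → Differentiable ℂ K → (∀ (z : ℂ) (v : EN 1), Fd θ (y + z • a) (G z) v = K z * dt (G z) v) → ∀ z, analyticOrderAt K z ≤ (M : ℕ∞) := by
  have hs : (0 : ℝ) < 3 := by norm_num
  obtain ⟨δ, hδ, hcirc⟩ := P.circ (A₁ := ‖a‖) (A₂ := ‖a‖) (ρ := 1) (norm_pos_iff.2 ha) one_pos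
  obtain ⟨c, hc, hlo⟩ := P.grad_lo hδ
  obtain ⟨C, hC, hup⟩ := P.grad_up
  obtain ⟨T, hT⟩ := P.tt_root (A := ‖a‖) hδ hs
  obtain ⟨B, hB⟩ : ∃ B : ℝ, B = Real.log C - Real.log c + ((d - 2 : ℕ) : ℝ) * T + 3 ^ 2 * (∑ i, ‖W i‖ ^ 2) * ‖a‖ ^ 2 := ⟨_, rfl⟩
  refine ⟨⌈B⌉₊, fun y G K hG hG0 hr hK hKd z₀ => ?_⟩
  obtain ⟨s, hs0, hs1, hsG⟩ := hcirc (y + z₀ • a) a le_rfl le_rfl
  obtain ⟨z, hz⟩ : ∃ z : ℂ, z = z₀ + s := ⟨_, rfl⟩
  have hzs : z - z₀ = s := by
    rw [hz]
    ring
  have hzn : ‖z - z₀‖ = s := by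
    rw [hzs, Complex.norm_real, Real.norm_of_nonneg hs0.le]
  have hzG : y + z • a ∈ Gd D δ := by
    have h1 := hsG (s : ℂ) (by rw [Complex.norm_real, Real.norm_of_nonneg hs0.le])
    rw [hz, add_smul, ← add_assoc]
    exact h1
  have hnG : ∀ ζ, 0 < ‖G ζ‖ := fun ζ => norm_pos_iff.2 (hG0 ζ)
  have hlow := hlo _ hzG _ (hG0 z) (hr z) (K z) (hKd z)
  have hKz : K z ≠ 0 := by
    intro h
    rw [h, norm_zero] at hlow
    exact absurd hlow (not_le.2 (by have := hnG z; positivity))
  have hne : z ≠ z₀ := by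
    intro h
    rw [h, sub_self, norm_zero] at hzn
    exact hs0.ne hzn
  -- finite order
  have hord : analyticOrderAt K z₀ ≠ ⊤ := by
    intro h
    rw [analyticOrderAt_eq_top] at h
    have h1 : AnalyticOnNhd ℂ K Set.univ := fun w _ => hK.analyticAt w
    exact hKz (h1.eqOn_zero_of_preconnected_of_eventuallyEq_zero isPreconnected_univ (Set.mem_univ z₀) h (Set.mem_univ z))
  obtain ⟨m, hm⟩ := ENat.ne_top_iff_exists.1 hord
  have hJ := order_le hK hKz (by rw [hzn]; exact hs1) hne hm.symm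
  -- the upper bound
  have hIG : CircleIntegrable (fun w => Real.log ‖G w‖) z 3 :=
    (hG.continuous.norm.log fun w => (hnG w).ne').continuousOn.circleIntegrable hs.le
  obtain ⟨hIW, hW⟩ := tt_wt W (y := y) (a := a) le_rfl (z := z) hs
  have hIK := tt_int (z := z) hs hK
  have hIc : CircleIntegrable (fun _ : ℂ => Real.log C) z 3 := circleIntegrable_const _ _ _
  have hIG2 : CircleIntegrable (fun w => ((d - 2 : ℕ) : ℝ) * Real.log ‖G w‖) z 3 := hIG.const_mul _
  have hmono : Real.circleAverage (fun w => Real.log ‖K w‖) z 3 ≤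
      Real.circleAverage (fun w => Real.log C + ((d - 2 : ℕ) : ℝ) * Real.log ‖G w‖ + wt W (y + w • a)) z 3 := by
    refine tt_mono hs hIK ((hIc.fun_add hIG2).fun_add hIW) ?_
    filter_upwards [tt_codisc hs hK hKz] with w h1
    have h3 : 0 < ‖K w‖ := norm_pos_iff.2 h1
    have h5 := Real.log_le_log h3 (hup (y + w • a) (G w) (hG0 w) (K w) (hKd w))
    rw [Real.log_mul (mul_pos hC (pow_pos (hnG w) _)).ne' (Real.exp_pos _).ne', Real.log_mul hC.ne' (pow_pos (hnG w) _).ne', Real.log_exp, Real.log_pow] at h5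
    exact h5
  rw [Real.circleAverage_fun_add (hIc.fun_add hIG2) hIW, Real.circleAverage_fun_add hIc hIG2, Real.circleAverage_const] at hmono
  have hsm : Real.circleAverage (fun w => ((d - 2 : ℕ) : ℝ) * Real.log ‖G w‖) z 3 = ((d - 2 : ℕ) : ℝ) * Real.circleAverage (fun w => Real.log ‖G w‖) z 3 := by
    have := Real.circleAverage_fun_smul (a := ((d - 2 : ℕ) : ℝ)) (f := fun w => Real.log ‖G w‖) (c := z) (R := 3)
    simpa [smul_eq_mul] using this
  rw [hsm] at hmono
  have hTT := hT y a le_rfl G hG hG0 hr z hzG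
  unfold TT at hTT
  have h6 := Real.log_le_log (by have := hnG z; positivity) hlow
  rw [Real.log_mul (mul_pos hc (pow_pos (hnG z) _)).ne' (Real.exp_pos _).ne', Real.log_mul hc.ne' (pow_pos (hnG z) _).ne', Real.log_exp, Real.log_pow] at h6
  have h7 : ((d - 2 : ℕ) : ℝ) * (Real.circleAverage (fun w => Real.log ‖G w‖) z 3 - Real.log ‖G z‖) ≤ ((d - 2 : ℕ) : ℝ) * T :=
    mul_le_mul_of_nonneg_left hTT (Nat.cast_nonneg _)
  have h8 : (m : ℝ) ≤ B := by
    rw [hB]
    nlinarith
  rw [← hm]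
  have h9 : (m : ℝ) ≤ (⌈B⌉₊ : ℝ) := h8.trans (Nat.le_ceil B)
  exact_mod_cast h9

end Pool.Agent.PX
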