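import Pool.Agent.PX.Mult
import Pool.Agent.G4.U.UStar
import Pool.Agent.G4.A.GeoC

/-!
# PX NoR: there is no such root

`ustar` (`G4/U/UStar`) with `E = {z | y + z a ∈ Bad a}` and `κ z = max_j |G_j z| ^ (d - 2) / ‖K z‖ * exp (wt W (y + z a))`, `K` from `exists_kap`; `K z ≠ 0` off `E` (`RL.simple`).  Over `Gd D δ'`: `κ ≤ 1 / c` (`grad_lo`).
At the points away from `E` the function `κ` satisfies a strict maximum principle on small circles (`kmax`); near `E` it is multiplied by `∏ (z' - e) ^ (M + 1)` (`mult`).  Normalise `‖a‖ = 1` (`G (z / ‖a‖)`), constants `ρ`, `δ` from `exists_lc` for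
`LG Λ D (Bad a) (a / ‖a‖)`.  The conclusion `κ = 0` contradicts `κ > 0`.
-/

set_option autoImplicit false

open Topology Filter Metric

namespace Pool.Agent.PX

open Pool.Agent.H36.BP (EN fs wd)
open Pool.Agent.H62.EF (MN pr)
open Pool.Agent.AD (Vd)
open Pool.Agent.TG (Lat Gd)
open Pool.Agent.G3 (wt TT LLift)
open Pool.Agent.G4 (Few)
open Pool.Agent.G4.A (LG LC exists_lc hits_closed)

variable {k d r : ℕ}

variable {Λ : AddSubgroup (Vd (k + 1))} {D : Set (Vd (k + 1))} {Bad : Vd (k + 1) → Set (Vd (k + 1))} {θ : Fin (d + 1) → Vd (k + 1) → ℂ}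
  {W : Fin r → Vd (k + 1) →L[ℂ] ℂ}

/-- the weighted norm of a vector of functions -/
private noncomputable def kp (W : Fin r → Vd (k + 1) →L[ℂ] ℂ) (F : Fin 2 → ℂ → ℂ) (y a : Vd (k + 1)) (x : ℂ) : ℝ :=
  ‖(fun j => F j x : Fin 2 → ℂ)‖ * Real.exp (wt W (y + x • a))

private theorem kp_nonneg (F : Fin 2 → ℂ → ℂ) (y a : Vd (k + 1)) (x : ℂ) : 0 ≤ kp W F y a x := mul_nonneg (norm_nonneg _) (Real.exp_pos _).le

private theorem nsq_add (A h : ℂ) : ‖A + h‖ ^ 2 = ‖A‖ ^ 2 + (2 * (starRingEnd ℂ) A * h).re + ‖h‖ ^ 2 := by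
  rw [Complex.sq_norm, Complex.sq_norm, Complex.sq_norm, Complex.normSq_apply, Complex.normSq_apply, Complex.normSq_apply]
  simp only [Complex.add_re, Complex.add_im, Complex.mul_re, Complex.mul_im, Complex.conj_re, Complex.conj_im, Complex.re_ofNat, Complex.im_ofNat]
  ring

/-- the weight along a line is a quadratic polynomial -/
private theorem qexp (W : Fin r → Vd (k + 1) →L[ℂ] ℂ) (y a : Vd (k + 1)) (z : ℂ) :
    ∃ L : ℂ, ∀ h : ℂ, wt W (y + (z + h) • a) = wt W (y + z • a) + (L * h).re + wt W a * ‖h‖ ^ 2 := by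
  refine ⟨∑ i, 2 * (starRingEnd ℂ) (W i (y + z • a)) * W i a, fun h => ?_⟩
  simp only [wt]
  rw [Finset.sum_mul, Complex.re_sum, Finset.sum_mul, ← Finset.sum_add_distrib, ← Finset.sum_add_distrib]
  refine Finset.sum_congr rfl fun i _ => ?_
  have e : W i (y + (z + h) • a) = W i (y + z • a) + h * W i a := by
    rw [add_smul, ← add_assoc, map_add, map_smul, smul_eq_mul]
  rw [e, nsq_add, norm_mul, mul_pow]
  have e2 : 2 * (starRingEnd ℂ) (W i (y + z • a)) * (h * W i a) = 2 * (starRingEnd ℂ) (W i (y + z • a)) * W i a * h := by ring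
  rw [e2]
  ring

/-- the maximum principle -/
private theorem kmax {F : Fin 2 → ℂ → ℂ} {y a : Vd (k + 1)} {z : ℂ} {s s' : ℝ} (hs : 0 < s) (hs' : s < s') (hF : ∀ j, ∀ x ∈ closedBall z s, DifferentiableAt ℂ (F j) x)
    {g : ℂ → ℂ} (hg : DifferentiableOn ℂ g (ball z s')) {S : ℝ} (hS : ∀ w : ℂ, dist w z = s → kp W F y a w * ‖g w‖ ≤ S) :
    kp W F y a z * ‖g z‖ ≤ Real.exp (-(wt W a * s ^ 2)) * S := by
  obtain ⟨L, hL⟩ := qexp W y a z
  have hQL : ∀ x : ℂ, dist x z = s → wt W (y + x • a) = wt W (y + z • a) + (L * (x - z)).re + wt W a * s ^ 2 := by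
    intro x hx
    have h1 := hL (x - z)
    rw [add_sub_cancel] at h1
    rw [← dist_eq_norm, hx] at h1
    exact h1
  have hS0 : 0 ≤ S := by
    have h1 := hS (z + s) (by rw [dist_eq_norm, add_sub_cancel_left, Complex.norm_real, Real.norm_eq_abs, abs_of_pos hs])
    exact (mul_nonneg (kp_nonneg F y a _) (norm_nonneg _)).trans h1
  have hj : ∀ j, ‖F j z‖ * ‖g z‖ ≤ Real.exp (-wt W (y + z • a) - wt W a * s ^ 2) * S := by
    intro j
    set H : ℂ → ℂ := fun x => F j x * g x * Complex.exp (L * (x - z)) with hH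
    have hHd : DiffContOnCl ℂ H (ball z s) := by
      have h1 : ∀ x ∈ closedBall z s, DifferentiableAt ℂ H x := by
        intro x hx
        have h2 : DifferentiableAt ℂ g x := hg.differentiableAt (isOpen_ball.mem_nhds (closedBall_subset_ball hs' hx))
        have h3 : DifferentiableAt ℂ (fun x : ℂ => Complex.exp (L * (x - z))) x := by fun_prop
        exact ((hF j x hx).mul h2).mul h3
      refine ⟨fun x hx => (h1 x (ball_subset_closedBall hx)).differentiableWithinAt, ?_⟩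
      rw [closure_ball z hs.ne']
      exact fun x hx => (h1 x hx).continuousAt.continuousWithinAt
    have h4 : ‖H z‖ ≤ Real.exp (-wt W (y + z • a) - wt W a * s ^ 2) * S := by
      refine Complex.norm_le_of_forall_mem_frontier_norm_le isBounded_ball hHd (fun x hx => ?_) (subset_closure (mem_ball_self hs))
      rw [frontier_ball z hs.ne'] at hx
      have hxr : dist x z = s := mem_sphere.1 hx
      have h5 := hS x hxr
      have h6 : ‖H x‖ = ‖F j x‖ * ‖g x‖ * Real.exp (L * (x - z)).re := by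
        rw [hH]
        simp only
        rw [norm_mul, norm_mul, Complex.norm_exp]
      have h7 : (L * (x - z)).re = wt W (y + x • a) + (-wt W (y + z • a) - wt W a * s ^ 2) := by
        rw [hQL x hxr]
        ring
      rw [h6, h7, Real.exp_add]
      have h8 : ‖F j x‖ ≤ ‖(fun j => F j x : Fin 2 → ℂ)‖ := norm_le_pi_norm (fun j => F j x : Fin 2 → ℂ) j
      calc ‖F j x‖ * ‖g x‖ * (Real.exp (wt W (y + x • a)) * Real.exp (-wt W (y + z • a) - wt W a * s ^ 2))
          ≤ ‖(fun j => F j x : Fin 2 → ℂ)‖ * ‖g x‖ * (Real.exp (wt W (y + x • a)) * Real.exp (-wt W (y + z • a) - wt W a * s ^ 2)) := by gcongr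
        _ = Real.exp (-wt W (y + z • a) - wt W a * s ^ 2) * (kp W F y a x * ‖g x‖) := by
            rw [kp]
            ring
        _ ≤ Real.exp (-wt W (y + z • a) - wt W a * s ^ 2) * S := mul_le_mul_of_nonneg_left h5 (Real.exp_pos _).le
    have h5 : ‖H z‖ = ‖F j z‖ * ‖g z‖ := by
      rw [hH]
      simp only
      rw [sub_self, mul_zero, Complex.exp_zero, mul_one, norm_mul]
    rwa [h5] at h4
  have hall : ‖(fun j => F j z : Fin 2 → ℂ)‖ * ‖g z‖ ≤ Real.exp (-wt W (y + z • a) - wt W a * s ^ 2) * S := by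
    rcases eq_or_ne (g z) 0 with h0 | h0
    · rw [h0, norm_zero, mul_zero]
      positivity
    · have hg0 : 0 < ‖g z‖ := norm_pos_iff.2 h0
      rw [← le_div_iff₀ hg0, pi_norm_le_iff_of_nonneg (by positivity)]
      intro j
      rw [le_div_iff₀ hg0]
      exact hj j
  have e : Real.exp (-wt W (y + z • a) - wt W a * s ^ 2) = Real.exp (-(wt W a * s ^ 2)) * (Real.exp (wt W (y + z • a)))⁻¹ := by
    rw [← Real.exp_neg, ← Real.exp_add]
    congr 1
    ring
  calc kp W F y a z * ‖g z‖ = (‖(fun j => F j z : Fin 2 → ℂ)‖ * ‖g z‖) * Real.exp (wt W (y + z • a)) := by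
        rw [kp]
        ring
    _ ≤ (Real.exp (-wt W (y + z • a) - wt W a * s ^ 2) * S) * Real.exp (wt W (y + z • a)) := mul_le_mul_of_nonneg_right hall (Real.exp_pos _).le
    _ = Real.exp (-(wt W a * s ^ 2)) * S := by
        rw [e]
        have := (Real.exp_pos (wt W (y + z • a))).ne'
        field_simp

private theorem fin_of_card {T : Set ℂ} {b : ℝ} (h : ∀ S : Finset ℂ, (∀ z ∈ S, z ∈ T) → (S.card : ℝ) ≤ b) : T.Finite ∧ (T.ncard : ℝ) ≤ b := by
  have hf : T.Finite := by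
    by_contra hinf
    obtain ⟨S, hST, hSc⟩ := Set.Infinite.exists_subset_card_eq hinf (⌊b⌋₊ + 1)
    have h1 := h S (fun z hz => hST hz)
    rw [hSc] at h1
    push_cast at h1
    have := Nat.lt_floor_add_one b
    linarith
  refine ⟨hf, ?_⟩
  have h1 := h hf.toFinset (fun z hz => hf.mem_toFinset.1 hz)
  rwa [← Set.ncard_eq_toFinset_card T hf] at h1

private theorem few_ncard {B : Set (Vd (k + 1))} {a : Vd (k + 1)} (hL : LG Λ D B a) (y : Vd (k + 1)) {ε : ℝ} (hε : 0 < ε) :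
    ∃ C : ℝ, ∀ (z : ℂ) (R : ℝ), 0 ≤ R → ({x : ℂ | y + x • a ∈ B} ∩ closedBall z R).Finite ∧
    ((({x : ℂ | y + x • a ∈ B} ∩ closedBall z R).ncard : ℕ) : ℝ) ≤ ε * R ^ 2 + C := by
  obtain ⟨C, hC⟩ := hL.few ε hε
  refine ⟨C, fun z R hR => fin_of_card fun S hS => ?_⟩
  have h1 := hC (y + z • a) R hR (S.image fun x => x - z) (fun x hx => by
    obtain ⟨x', hx', rfl⟩ := Finset.mem_image.1 hx
    obtain ⟨h2, h3⟩ := hS x' hx'
    rw [mem_closedBall, dist_eq_norm] at h3
    have e : y + z • a + (x' - z) • a = y + x' • a := by rw [sub_smul]; abel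
    exact ⟨h3, by rw [e]; exact h2⟩)
  rwa [Finset.card_image_of_injective S (fun x x' h => by simpa using h)] at h1

/-- the product which removes the poles -/
private theorem div_diff {P₁ K : ℂ → ℂ} (hP : Differentiable ℂ P₁) (hK : Differentiable ℂ K) {M : ℕ} {x : ℂ} (hM : analyticOrderAt K x ≤ (M : ℕ∞))
    (hx : K x ≠ 0 ∨ ∃ Q : ℂ → ℂ, Differentiable ℂ Q ∧ ∀ w, P₁ w = (w - x) ^ (M + 1) * Q w) : DifferentiableAt ℂ (fun w => P₁ w / K w) x := by
  rcases hx with hx | ⟨Q, hQ, hPQ⟩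
  · exact (hP x).div (hK x) hx
  · have hKa : AnalyticAt ℂ K x := hK.analyticAt x
    have hne : analyticOrderAt K x ≠ ⊤ := fun h => by
      rw [h] at hM
      exact absurd hM (by simp)
    obtain ⟨m, hm⟩ := ENat.ne_top_iff_exists.1 hne
    have hmM : m ≤ M := by
      rw [← hm] at hM
      exact_mod_cast hM
    obtain ⟨K₁, hK₁, hK₁0, hKK⟩ := hKa.analyticOrderAt_eq_natCast.1 hm.symm
    have h1 : DifferentiableAt ℂ (fun w => (w - x) ^ (M + 1 - m) * Q w / K₁ w) x := by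
      refine DifferentiableAt.div (DifferentiableAt.mul (by fun_prop) (hQ x)) hK₁.differentiableAt hK₁0
    refine h1.congr_of_eventuallyEq ?_
    filter_upwards [hKK, hK₁.continuousAt.eventually_ne hK₁0] with w hw hw0
    rw [hPQ, hw, smul_eq_mul]
    by_cases hwx : w = x
    · subst hwx
      have h2 : M + 1 - m ≠ 0 := by omega
      simp [h2]
    · have h2 : (w - x) ^ m ≠ 0 := pow_ne_zero _ (sub_ne_zero.2 hwx)
      have h3 : (w - x) ^ (M + 1) = (w - x) ^ m * (w - x) ^ (M + 1 - m) := by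
        rw [← pow_add]
        congr 1
        omega
      rw [h3]
      field_simp

/-- the case of a unit vector `a` -/
private theorem core (P : PD Λ D Bad θ W) {B : Set (Vd (k + 1))} {y a : Vd (k + 1)} (hL : LG Λ D B a) {G : ℂ → EN 1} {K : ℂ → ℂ} (hG : Differentiable ℂ G) (hG0 : ∀ z, G z ≠ 0)
    (hr : ∀ z : ℂ, Fo θ (y + z • a) (G z) = 0) (hK : Differentiable ℂ K) (hKF : ∀ (z : ℂ) (v : EN 1), Fd θ (y + z • a) (G z) v = K z * dt (G z) v)
    (hK0 : ∀ z : ℂ, y + z • a ∉ B → K z ≠ 0) : False := by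
  have ha : ‖a‖ = 1 := hL.norm
  have ha0 : a ≠ 0 := by
    rintro rfl
    rw [norm_zero] at ha
    exact zero_ne_one ha
  have hsm : ∀ z : ℂ, ‖z • a‖ = ‖z‖ := fun z => by rw [norm_smul, ha, mul_one]
  have hW : 0 < wt W a := by
    unfold wt
    refine lt_of_le_of_ne (Finset.sum_nonneg fun i _ => sq_nonneg _) fun h => ha0 (P.pos a fun i => ?_)
    have h1 := (Finset.sum_eq_zero_iff_of_nonneg (fun i _ => sq_nonneg ‖W i a‖)).1 h.symm i (Finset.mem_univ i)
    exact norm_eq_zero.1 (pow_eq_zero_iff (two_ne_zero) |>.1 h1)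
  obtain ⟨M, hM⟩ := P.mult ha0
  have hMz := hM y G K hG hG0 hr hK hKF
  -- the geometry
  obtain ⟨δ, hδ, hlc⟩ := exists_lc hL (ρ := 1 / 8) (by norm_num) le_rfl
  have hC := hlc δ hδ le_rfl
  have hδρ := hC.δ_le
  have hδ64 : δ ≤ 1 / 64 := by linarith
  set E : Set ℂ := {z : ℂ | y + z • a ∈ B} with hE
  have hEc : IsClosed E := hits_closed hL.iso hL.bad_sub y
  obtain ⟨C₂, hC₂⟩ := few_ncard hL y one_pos
  obtain ⟨M₀, hM₀⟩ : ∃ M₀ : ℕ, M₀ = ⌈1 * (2 : ℝ) ^ 2 + C₂⌉₊ := ⟨_, rfl⟩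
  have hM₀' : ∀ z : ℂ, (E ∩ closedBall z 2).ncard ≤ M₀ := by
    intro z
    have h1 := (hC₂ z 2 (by norm_num)).2
    rw [hM₀]
    have h2 := h1.trans (Nat.le_ceil _)
    exact_mod_cast h2
  -- a point off `D`
  obtain ⟨c, hc⟩ : ∃ c : ℂ, y + c • a ∉ D := by
    have h1 : ∀ᶠ z in 𝓝[≠] (0 : ℂ), y + z • a ∉ D := hL.iso y
    exact h1.exists
  have hcE : c ∉ E := fun h => hc (hL.bad_sub h)
  obtain ⟨d₀, hd₀, hd₁⟩ : ∃ d₀ : ℝ, 0 < d₀ ∧ ∀ e ∈ E, d₀ ≤ dist c e := by
    obtain ⟨d₀, h1, h2⟩ := Metric.isOpen_iff.1 hEc.isOpen_compl c hcE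
    refine ⟨d₀, h1, fun e he => ?_⟩
    by_contra h3
    push Not at h3
    exact h2 (mem_ball'.2 h3) he
  obtain ⟨r₀, hr₀, hr₁, hr₂⟩ : ∃ r₀ : ℝ, 0 < r₀ ∧ r₀ ≤ d₀ ∧ r₀ ≤ δ ^ (M₀ + 1) := ⟨min d₀ (δ ^ (M₀ + 1)), lt_min hd₀ (by positivity), min_le_left _ _, min_le_right _ _⟩
  have hr₃ : r₀ / (2 * δ) * (1 / δ) ^ M₀ ≤ 1 / 2 := by
    have h1 : r₀ / (2 * δ) * (1 / δ) ^ M₀ ≤ δ ^ (M₀ + 1) / (2 * δ) * (1 / δ) ^ M₀ := by gcongr
    refine h1.trans (le_of_eq ?_)
    rw [pow_succ, one_div, inv_pow]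
    have := hδ.ne'
    have := pow_ne_zero M₀ hδ.ne'
    field_simp
  have hr₄ : r₀ ≤ 1 / 64 := (hr₂.trans (pow_le_of_le_one hδ.le (by linarith) (Nat.succ_ne_zero _))).trans hδ64
  -- the circles
  obtain ⟨δ₁, hδ₁, hcirc⟩ := hC.circ (r₀ / 4) (by positivity)
  have hcirc' : ∀ z : ℂ, ∃ s : ℝ, 0 < s ∧ s < r₀ / 4 ∧ ∀ w : ℂ, dist w z = s → y + w • a ∈ Gd D δ₁ := by
    intro z
    obtain ⟨s, h1, h2, h3⟩ := hcirc (y + z • a)
    refine ⟨s, h1, h2, fun w hw => ?_⟩
    have h4 := h3 (w - z) (by rw [← dist_eq_norm, hw])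
    have e : y + z • a + (w - z) • a = y + w • a := by rw [sub_smul]; abel
    rwa [e] at h4
  have hcircC : ∀ z : ℂ, ∃ s : ℝ, 0 < s ∧ s ≤ 1 / 4 ∧ ∀ w : ℂ, dist w z = s → ∀ e ∈ E, 4 * δ ≤ dist w e := by
    intro z
    obtain ⟨s, h1, h2, h3⟩ := hC.circC (y + z • a)
    refine ⟨s, h1, by linarith, fun w hw e he => ?_⟩
    have h4 := h3 (w - z) (by rw [← dist_eq_norm, hw])
    have e1 : y + z • a + (w - z) • a = y + w • a := by rw [sub_smul]; abel
    rw [e1] at h4
    have h5 := h4 (y + e • a) (hL.bad_sub he)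
    have e2 : y + w • a - (y + e • a) = (w - e) • a := by rw [sub_smul]; abel
    rw [e2, hsm] at h5
    rwa [dist_eq_norm]
  obtain ⟨c₁, hc₁, hlo⟩ := P.grad_lo hδ₁
  -- the functions
  set F : Fin 2 → ℂ → ℂ := fun j x => (G x j) ^ (d - 2) / K x with hF
  have hGj : ∀ j : Fin 2, Differentiable ℂ (fun x => (G x j) ^ (d - 2)) := fun j =>
    ((EuclideanSpace.proj (𝕜 := ℂ) j).differentiable.comp hG).pow _
  have hFd : ∀ j, ∀ x : ℂ, x ∉ E → DifferentiableAt ℂ (F j) x := fun j x hx => (hGj j x).div (hK x) (hK0 x hx)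
  -- the bound over `Gd D δ₁`
  have hkb : ∀ w : ℂ, y + w • a ∈ Gd D δ₁ → kp W F y a w ≤ 1 / c₁ := by
    intro w hw
    have h1 := hlo _ hw (G w) (hG0 w) (hr w) (K w) (hKF w)
    have hG1 : 0 < ‖G w‖ := norm_pos_iff.2 (hG0 w)
    have hK1 : 0 < ‖K w‖ := lt_of_lt_of_le (by positivity) h1
    have h2 : ‖(fun j => F j w : Fin 2 → ℂ)‖ ≤ ‖G w‖ ^ (d - 2) / ‖K w‖ := by
      rw [pi_norm_le_iff_of_nonneg (by positivity)]
      intro j
      rw [hF]
      simp only
      rw [norm_div, norm_pow]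
      have h3 : ‖G w j‖ ≤ ‖G w‖ := PiLp.norm_apply_le (G w) j
      gcongr
    unfold kp
    calc ‖(fun j => F j w : Fin 2 → ℂ)‖ * Real.exp (wt W (y + w • a)) ≤ ‖G w‖ ^ (d - 2) / ‖K w‖ * Real.exp (wt W (y + w • a)) := by gcongr
      _ ≤ 1 / c₁ := by
        rw [div_mul_eq_mul_div, div_le_div_iff₀ hK1 hc₁, one_mul]
        linarith
  have hlt : ∀ s : ℝ, Real.exp (-(wt W a * s ^ 2)) ≤ 1 := by
    intro s
    rw [Real.exp_le_one_iff]
    have : 0 ≤ wt W a * s ^ 2 := by positivity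
    linarith
  have hdisc : ∀ z : ℂ, (∀ e ∈ E, r₀ / 2 ≤ dist z e) → ∀ s : ℝ, s ≤ r₀ / 4 → ∀ j, ∀ x ∈ closedBall z s, DifferentiableAt ℂ (F j) x := by
    intro z hz s hs j x hx
    refine hFd j x fun hxB => ?_
    have h1 := hz x hxB
    rw [mem_closedBall, dist_comm] at hx
    linarith
  have hzero := Pool.Agent.G4.U.ustar (E := E) hEc (fun z R => by
      rcases le_or_gt 0 R with hR | hR
      · exact (hC₂ z R hR).1
      · rw [closedBall_eq_empty.2 hR, Set.inter_empty]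
        exact Set.finite_empty) (M := M₀) hM₀' (fun ε hε => by
      obtain ⟨C, hC'⟩ := few_ncard hL y hε
      exact ⟨C, fun z R hR => (hC' z R (by linarith)).2⟩) hδ (by linarith) (ρ := 1 / 2) (by norm_num) le_rfl hr₀ hr₃ (q := Real.exp (-(wt W a * (r₀ / 4) ^ 2)))
      (by
        rw [Real.exp_lt_one_iff]
        have : 0 < wt W a * (r₀ / 4) ^ 2 := by positivity
        linarith) (κ := kp W F y a) (C₁ := max (1 / c₁) ((2 / r₀) ^ ((M + 1) * M₀))) (kp_nonneg F y a) ?_ ?_ ?_ c (fun e he => hr₁.trans (hd₁ e he))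
  · -- the contradiction
    have h1 : (fun j => F j c : Fin 2 → ℂ) = 0 := by
      rw [kp, mul_eq_zero] at hzero
      rcases hzero with h1 | h1
      · exact norm_eq_zero.1 h1
      · exact absurd h1 (Real.exp_pos _).ne'
    refine hG0 c ?_
    ext j
    have h2 := congrFun h1 j
    rw [hF] at h2
    simp only [Pi.zero_apply, div_eq_zero_iff] at h2
    rcases h2 with h2 | h2
    · exact pow_eq_zero_iff (by have := P.deg; omega) |>.1 h2
    · exact absurd h2 (hK0 c hcE)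
  · intro z hz
    obtain ⟨s, hs, hs', hcz⟩ := hcirc' z
    have h1 := kmax (W := W) (F := F) (y := y) (a := a) (z := z) (s' := s + 1) hs (by linarith) (hdisc z hz s hs'.le) (g := fun _ => 1) (differentiableOn_const _)
      (S := 1 / c₁) (fun w hw => by
        rw [norm_one, mul_one]
        exact hkb w (hcz w hw))
    rw [norm_one, mul_one] at h1
    refine h1.trans (le_trans ?_ (le_max_left _ _))
    have : 0 ≤ 1 / c₁ := by positivity
    exact mul_le_of_le_one_left this (hlt s)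
  · intro z hz G₁ hG₁ _ T hT
    refine kmax (s' := r₀ / 2) (by positivity) (by linarith) (hdisc z (fun e he => by linarith [hz e he]) _ le_rfl) hG₁ hT
  · intro z hz _ G₁ hG₁ _ T hT
    obtain ⟨s, hs, hs', hcz⟩ := hcircC z
    -- `T` is not negative
    have hT0 : 0 ≤ T := by
      have h1 : dist (z + s) z = s := by rw [dist_eq_norm, add_sub_cancel_left, Complex.norm_real, Real.norm_eq_abs, abs_of_pos hs]
      refine (mul_nonneg (kp_nonneg F y a _) (norm_nonneg _)).trans (hT (z + s) (by rw [h1]; linarith) fun e he => ?_)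
      have := hcz (z + s) h1 e he
      linarith
    -- the exceptional points in the disc
    have hfin : (E ∩ closedBall z (1 / 4)).Finite := (hC₂ z (1 / 4) (by norm_num)).1
    obtain ⟨A, hA⟩ : ∃ A : Finset ℂ, A = hfin.toFinset := ⟨_, rfl⟩
    have hAm : ∀ e, e ∈ A ↔ e ∈ E ∧ dist e z ≤ 1 / 4 := fun e => by
      rw [hA, Set.Finite.mem_toFinset]
      rfl
    have hAc : A.card ≤ M₀ := by
      rw [hA, ← Set.ncard_eq_toFinset_card _ hfin]
      have hsub : E ∩ closedBall z (1 / 4) ⊆ E ∩ closedBall z 2 :=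
        Set.inter_subset_inter_right E (closedBall_subset_closedBall (by norm_num))
      exact (Set.ncard_le_ncard hsub (hC₂ z 2 (by norm_num)).1).trans (hM₀' z)
    set P₁ : ℂ → ℂ := fun w => ∏ e ∈ A, (w - e) ^ (M + 1) with hP₁
    have hP₁d : Differentiable ℂ P₁ := by
      rw [hP₁]
      fun_prop
    have hdiff : ∀ j, ∀ x ∈ closedBall z s, DifferentiableAt ℂ (fun w => (G w j) ^ (d - 2) * P₁ w / K w) x := by
      intro j x hx
      refine div_diff ((hGj j).mul hP₁d) hK (hMz x) ?_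
      by_cases hxE : x ∈ E
      · right
        have hxA : x ∈ A := (hAm x).2 ⟨hxE, by
          rw [mem_closedBall] at hx
          linarith⟩
        refine ⟨fun w => (G w j) ^ (d - 2) * ∏ e ∈ A.erase x, (w - e) ^ (M + 1), (hGj j).mul (by fun_prop), fun w => ?_⟩
        show (G w j) ^ (d - 2) * ∏ e ∈ A, (w - e) ^ (M + 1) = _
        rw [← Finset.mul_prod_erase A (fun e => (w - e) ^ (M + 1)) hxA]
        ring
      · left
        exact hK0 x hxE
    have hkpP : ∀ w, kp W (fun j w => (G w j) ^ (d - 2) * P₁ w / K w) y a w = kp W F y a w * ‖P₁ w‖ := by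
      intro w
      unfold kp
      have h1 : (fun j => (G w j) ^ (d - 2) * P₁ w / K w : Fin 2 → ℂ) = P₁ w • (fun j => F j w : Fin 2 → ℂ) := by
        funext j
        rw [Pi.smul_apply, smul_eq_mul, hF]
        ring
      rw [h1, norm_smul]
      ring
    have h1 := kmax (W := W) (F := fun j w => (G w j) ^ (d - 2) * P₁ w / K w) (y := y) (a := a) (z := z) (s := s) (s' := 1) hs (by linarith) hdiff hG₁ (S := T)
      (fun w hw => by
        rw [hkpP]
        have h2 : ‖P₁ w‖ ≤ 1 := by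
          rw [hP₁]
          simp only
          rw [norm_prod]
          refine Finset.prod_le_one (fun e _ => norm_nonneg _) fun e he => ?_
          rw [norm_pow]
          refine pow_le_one₀ (norm_nonneg _) ?_
          have h3 := ((hAm e).1 he).2
          have h4 := dist_triangle w z e
          rw [dist_comm z e, hw, dist_eq_norm] at h4
          linarith
        have h3 := hT w (by rw [hw]; linarith) fun e he => by
          have := hcz w hw e he
          linarith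
        have h4 := kp_nonneg (W := W) F y a w
        calc kp W F y a w * ‖P₁ w‖ * ‖G₁ w‖ ≤ kp W F y a w * 1 * ‖G₁ w‖ := by gcongr
          _ ≤ T := by
            rw [mul_one]
            exact h3)
    rw [hkpP] at h1
    have h2 : kp W F y a z * ‖P₁ z‖ * ‖G₁ z‖ ≤ T := h1.trans (mul_le_of_le_one_left hT0 (hlt s))
    have h3 : (r₀ / 2) ^ ((M + 1) * M₀) ≤ ‖P₁ z‖ := by
      rw [hP₁]
      simp only
      rw [norm_prod]
      have hr2 : r₀ / 2 ≤ 1 := by linarith
      calc (r₀ / 2) ^ ((M + 1) * M₀) ≤ (r₀ / 2) ^ ((M + 1) * A.card) := pow_le_pow_of_le_one (by positivity) hr2 (Nat.mul_le_mul_left _ hAc)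
        _ = ∏ _e ∈ A, (r₀ / 2) ^ (M + 1) := by rw [Finset.prod_const, pow_mul]
        _ ≤ ∏ e ∈ A, ‖(z - e) ^ (M + 1)‖ := by
          refine Finset.prod_le_prod (fun e _ => by positivity) fun e he => ?_
          rw [norm_pow]
          have h4 := hz e ((hAm e).1 he).1
          rw [dist_eq_norm] at h4
          gcongr
    have h4 : 0 < (r₀ / 2) ^ ((M + 1) * M₀) := by positivity
    have h5 := kp_nonneg (W := W) F y a z
    have h6 : kp W F y a z * ‖G₁ z‖ * (r₀ / 2) ^ ((M + 1) * M₀) ≤ T := by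
      refine le_trans ?_ h2
      calc kp W F y a z * ‖G₁ z‖ * (r₀ / 2) ^ ((M + 1) * M₀) ≤ kp W F y a z * ‖G₁ z‖ * ‖P₁ z‖ := by gcongr
        _ = kp W F y a z * ‖P₁ z‖ * ‖G₁ z‖ := by ring
    have h7 : kp W F y a z * ‖G₁ z‖ ≤ (2 / r₀) ^ ((M + 1) * M₀) * T := by
      rw [← le_div_iff₀ h4] at h6
      refine h6.trans (le_of_eq ?_)
      rw [div_eq_inv_mul, ← inv_pow, inv_div]
    exact h7.trans (mul_le_mul_of_nonneg_right (le_max_right _ _) hT0)

theorem PD.no_root (P : PD Λ D Bad θ W) {y a : Vd (k + 1)} (ha : a ≠ 0) {G : ℂ → EN 1} (hG : RL θ Bad y a G) : False := by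
  have hn : 0 < ‖a‖ := norm_pos_iff.2 ha
  have hnc : (‖a‖ : ℂ) ≠ 0 := by exact_mod_cast hn.ne'
  obtain ⟨K, hK, hKF⟩ := P.exists_kap hG.diff hG.ne hG.root
  set t : ℂ := (‖a‖ : ℂ)⁻¹ with ht
  have ht0 : t ≠ 0 := inv_ne_zero hnc
  have htn : ‖t‖ = ‖a‖⁻¹ := by rw [ht, norm_inv, Complex.norm_real, norm_norm]
  have e : ∀ z : ℂ, z • (t • a) = (z * t) • a := fun z => by rw [smul_smul]
  have hLG : LG Λ D (Bad a) (t • a) :=
    { norm := by rw [norm_smul, htn, inv_mul_cancel₀ hn.ne']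
      lat := P.lat
      D_closed := P.D_closed
      D_inv := P.D_inv
      bad_sub := P.bad_sub a
      bad_inv := P.bad_inv a
      iso := P.iso (t • a) (smul_ne_zero ht0 ha)
      few := fun ε hε => by
        obtain ⟨C, hC⟩ := P.few a ha (ε * ‖a‖ ^ 2) (by positivity)
        refine ⟨C, fun y' R hR S hS => ?_⟩
        have h1 := hC y' (R / ‖a‖) (by positivity) (S.image fun z => z * t) (fun z hz => by
          obtain ⟨z', hz', rfl⟩ := Finset.mem_image.1 hz
          obtain ⟨h2, h3⟩ := hS z' hz'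
          refine ⟨?_, by rw [← e]; exact h3⟩
          rw [norm_mul, htn, div_eq_mul_inv]
          gcongr)
        rw [Finset.card_image_of_injective S (mul_left_injective₀ ht0)] at h1
        refine h1.trans (le_of_eq ?_)
        rw [div_pow]
        field_simp }
  refine core P (y := y) hLG (G := fun z => G (z * t)) (K := fun z => K (z * t)) (hG.diff.comp (by fun_prop)) (fun z => hG.ne _) (fun z => ?_) (hK.comp (by fun_prop)) (fun z v => ?_) fun z hz => ?_
  · rw [e]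
    exact hG.root _
  · rw [e]
    exact hKF _ v
  · rw [e] at hz
    obtain ⟨v, hv⟩ := hG.simple _ hz
    rw [hKF] at hv
    exact left_ne_zero_of_mul hv

end Pool.Agent.PX
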