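import Pool.Agent.PX.Defs

/-!
# PX One: arcs near a line meet `D` only once near a good point

`s ∘ γ` has on the disc a derivative near `c = fderiv ℂ s p a ≠ 0` (Cauchy; `s` is `C¹` near `p`), so it is injective on the convex disc, and it has a zero within `ρ / 8` (Banach fixed point of `z - s (γ z) / c`).
-/

set_option autoImplicit false

open Topology Filter Metric

namespace Pool.Agent.PX

open Pool.Agent.H36.BP (EN fs wd)
open Pool.Agent.H62.EF (MN pr)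
open Pool.Agent.AD (Vd)
open Pool.Agent.TG (Lat Gd)
open Pool.Agent.G3 (wt TT LLift)
open Pool.Agent.G4 (Few)

variable {k d r : ℕ}

/-- a function on a disc with derivative near `c` and a small value in the centre has exactly one zero -/
private theorem one_zero {f f' : ℂ → ℂ} {c : ℂ} {ρ : ℝ} (hρ : 0 < ρ) (hc : c ≠ 0)
    (hf : ∀ z ∈ ball (0 : ℂ) (2 * ρ), HasDerivAt f (f' z) z)
    (hb : ∀ z ∈ ball (0 : ℂ) (2 * ρ), ‖f' z - c‖ ≤ ‖c‖ / 8) (h0 : ‖f 0‖ ≤ ρ * ‖c‖ / 64) :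
    ∃ z₁ : ℂ, ‖z₁‖ ≤ ρ / 8 ∧ f z₁ = 0 ∧ ∀ z ∈ ball (0 : ℂ) (2 * ρ), f z = 0 → z = z₁ := by
  have hc0 : 0 < ‖c‖ := norm_pos_iff.2 hc
  -- mean value
  have hmv : ∀ z ∈ ball (0 : ℂ) (2 * ρ), ∀ w ∈ ball (0 : ℂ) (2 * ρ),
      ‖(f z - f w) - c * (z - w)‖ ≤ ‖c‖ / 8 * ‖z - w‖ := by
    intro z hz w hw
    have h1 := Convex.norm_image_sub_le_of_norm_hasDerivWithin_le (𝕜 := ℂ)
      (f := fun z => f z - c * z) (f' := fun z => f' z - c) (s := ball (0 : ℂ) (2 * ρ))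
      (C := ‖c‖ / 8) (x := w) (y := z)
      (fun x hx => by
        have h2 := (hf x hx).sub ((hasDerivAt_id x).const_mul c)
        simp only [id, mul_one] at h2
        exact h2.hasDerivWithinAt) hb (convex_ball _ _) hw hz
    calc ‖(f z - f w) - c * (z - w)‖ = ‖(f z - c * z) - (f w - c * w)‖ := by congr 1; ring
      _ ≤ _ := h1
  have hmv' : ∀ z ∈ ball (0 : ℂ) (2 * ρ), ∀ w ∈ ball (0 : ℂ) (2 * ρ),
      ‖(z - f z / c) - (w - f w / c)‖ ≤ 1 / 8 * ‖z - w‖ := by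
    intro z hz w hw
    have h1 := hmv z hz w hw
    have h2 : (z - f z / c) - (w - f w / c) = -(((f z - f w) - c * (z - w)) / c) := by
      field_simp
      ring
    rw [h2, norm_neg, norm_div, div_le_iff₀ hc0]
    linarith
  have hsub : closedBall (0 : ℂ) (ρ / 8) ⊆ ball (0 : ℂ) (2 * ρ) := by
    intro z hz
    rw [mem_closedBall_zero_iff] at hz
    rw [mem_ball_zero_iff]
    linarith
  have h00 : (0 : ℂ) ∈ ball (0 : ℂ) (2 * ρ) := by
    rw [mem_ball_zero_iff, norm_zero]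
    linarith
  have hmaps : Set.MapsTo (fun z => z - f z / c) (closedBall (0 : ℂ) (ρ / 8))
      (closedBall (0 : ℂ) (ρ / 8)) := by
    intro z hz
    have h1 := hmv' z (hsub hz) 0 h00
    rw [mem_closedBall_zero_iff] at hz ⊢
    have h2 : ‖f 0 / c‖ ≤ ρ / 64 := by
      rw [norm_div, div_le_iff₀ hc0]
      linarith
    have h3 : ‖z - f z / c‖ ≤ ‖(z - f z / c) - (0 - f 0 / c)‖ + ‖f 0 / c‖ := by
      calc ‖z - f z / c‖ = ‖((z - f z / c) - (0 - f 0 / c)) + -(f 0 / c)‖ := by congr 1; ring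
        _ ≤ _ := (norm_add_le _ _).trans (by rw [norm_neg])
    rw [sub_zero] at h1
    beta_reduce
    linarith
  have hcon : ContractingWith (1 / 8) (hmaps.restrict (fun z => z - f z / c) _ _) := by
    refine ⟨by norm_num, LipschitzWith.of_dist_le_mul fun z w => ?_⟩
    have h1 := hmv' z.1 (hsub z.2) w.1 (hsub w.2)
    rw [Subtype.dist_eq, Subtype.dist_eq, dist_eq_norm, dist_eq_norm]
    simpa using h1
  obtain ⟨z₁, hz₁, hfix, -⟩ := hcon.exists_fixedPoint' (isClosed_closedBall.isComplete) hmaps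
    (x := 0) (by rw [mem_closedBall_zero_iff, norm_zero]; positivity) (edist_ne_top _ _)
  have hfz : f z₁ = 0 := by
    have h1 : z₁ - f z₁ / c = z₁ := hfix
    have h2 : f z₁ / c = 0 := by linear_combination -h1
    exact (div_eq_zero_iff.1 h2).resolve_right hc
  refine ⟨z₁, mem_closedBall_zero_iff.1 hz₁, hfz, fun z hz hfz' => ?_⟩
  have h1 := hmv' z hz z₁ (hsub hz₁)
  rw [hfz, hfz', zero_div, sub_zero, sub_zero] at h1
  have h2 : ‖z - z₁‖ = 0 := by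
    have := norm_nonneg (z - z₁)
    linarith
  exact sub_eq_zero.1 (norm_eq_zero.1 h2)

theorem one_hit {D : Set (Vd (k + 1))} {s : Vd (k + 1) → ℂ} {p a : Vd (k + 1)} (hs : AnalyticAt ℂ s p) (hD : ∀ᶠ y in 𝓝 p, (y ∈ D ↔ s y = 0)) (hp : p ∈ D) (hc : fderiv ℂ s p a ≠ 0) :
    ∃ ρ₀ : ℝ, 0 < ρ₀ ∧ ∀ ρ : ℝ, 0 < ρ → ρ ≤ ρ₀ → ∃ ε : ℝ, 0 < ε ∧ ∀ γ : ℂ → Vd (k + 1), DifferentiableOn ℂ γ (ball 0 (4 * ρ)) → (∀ z ∈ ball (0 : ℂ) (4 * ρ), ‖γ z - (p + z • a)‖ < ε) →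
      ∃ z₁ : ℂ, ‖z₁‖ ≤ ρ / 8 ∧ γ z₁ ∈ D ∧ ∀ z ∈ ball (0 : ℂ) (2 * ρ), γ z ∈ D → z = z₁ := by
  obtain ⟨c, hcdef⟩ : ∃ c, c = fderiv ℂ s p a := ⟨_, rfl⟩
  obtain ⟨L, hL⟩ : ∃ L, L = fderiv ℂ s p := ⟨_, rfl⟩
  rw [← hcdef] at hc
  have hc0 : 0 < ‖c‖ := norm_pos_iff.2 hc
  obtain ⟨η, hη⟩ : ∃ η, η = min 1 (‖c‖ / (16 * (‖a‖ + 1))) := ⟨_, rfl⟩
  have hη0 : 0 < η := by rw [hη]; positivity
  have hη1 : η ≤ 1 := hη ▸ min_le_left _ _
  have hηa : η * ‖a‖ ≤ ‖c‖ / 16 := by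
    have h1 : η ≤ ‖c‖ / (16 * (‖a‖ + 1)) := hη ▸ min_le_right _ _
    have h2 : η * (‖a‖ + 1) ≤ ‖c‖ / 16 := by
      calc η * (‖a‖ + 1) ≤ ‖c‖ / (16 * (‖a‖ + 1)) * (‖a‖ + 1) := by gcongr
        _ = ‖c‖ / 16 := by
          have : ‖a‖ + 1 ≠ 0 := by positivity
          field_simp
    nlinarith [norm_nonneg a]
  have hcont : ∀ᶠ y in 𝓝 p, ‖fderiv ℂ s y - L‖ < η := by
    have h1 : ContinuousAt (fderiv ℂ s) p := hs.fderiv.continuousAt
    have h2 := (Metric.continuousAt_iff.1 h1) η hη0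
    obtain ⟨δ, hδ, h3⟩ := h2
    filter_upwards [Metric.ball_mem_nhds p hδ] with y hy
    have h4 := h3 hy
    rwa [dist_eq_norm, ← hL] at h4
  obtain ⟨R, hR, hball⟩ := Metric.eventually_nhds_iff_ball.1
    ((hs.eventually_analyticAt.and hD).and hcont)
  have hsp : s p = 0 := (hball p (mem_ball_self hR)).1.2.1 hp
  have hfd : ∀ y ∈ ball p R, ‖fderiv ℂ s y‖ ≤ ‖L‖ + 1 := by
    intro y hy
    have h1 := (hball y hy).2
    calc ‖fderiv ℂ s y‖ = ‖(fderiv ℂ s y - L) + L‖ := by rw [sub_add_cancel]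
      _ ≤ ‖fderiv ℂ s y - L‖ + ‖L‖ := norm_add_le _ _
      _ ≤ ‖L‖ + 1 := by linarith
  have hlip : ∀ y ∈ ball p R, ‖s y‖ ≤ (‖L‖ + 1) * ‖y - p‖ := by
    intro y hy
    have h1 := (convex_ball p R).norm_image_sub_le_of_norm_fderiv_le (𝕜 := ℂ) (f := s)
      (C := ‖L‖ + 1) (fun x hx => (hball x hx).1.1.differentiableAt) hfd (mem_ball_self hR) hy
    rwa [hsp, sub_zero] at h1
  refine ⟨R / (8 * (‖a‖ + 1)), by positivity, fun ρ hρ hρR => ?_⟩
  have hρa : 4 * ρ * ‖a‖ ≤ R / 2 := by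
    have h1 : ρ * (8 * (‖a‖ + 1)) ≤ R := by
      rwa [le_div_iff₀ (by positivity)] at hρR
    nlinarith [norm_nonneg a]
  have hL0 : 0 < ‖L‖ + 1 := by positivity
  obtain ⟨ε, hε⟩ : ∃ ε, ε = min (R / 2) (ρ * ‖c‖ / (64 * (‖L‖ + 1))) := ⟨_, rfl⟩
  have hε0 : 0 < ε := by rw [hε]; positivity
  have hεR : ε ≤ R / 2 := hε ▸ min_le_left _ _
  have hεc : (‖L‖ + 1) * ε ≤ ρ * ‖c‖ / 64 := by
    have h1 : ε ≤ ρ * ‖c‖ / (64 * (‖L‖ + 1)) := hε ▸ min_le_right _ _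
    calc (‖L‖ + 1) * ε ≤ (‖L‖ + 1) * (ρ * ‖c‖ / (64 * (‖L‖ + 1))) := by gcongr
      _ = ρ * ‖c‖ / 64 := by field_simp
  refine ⟨ε, hε0, fun γ hγ hγε => ?_⟩
  have hin : ∀ z ∈ ball (0 : ℂ) (4 * ρ), γ z ∈ ball p R := by
    intro z hz
    have h1 := hγε z hz
    rw [mem_ball_zero_iff] at hz
    rw [mem_ball, dist_eq_norm]
    have h2 : ‖z • a‖ ≤ 4 * ρ * ‖a‖ := by
      rw [norm_smul]
      gcongr
    calc ‖γ z - p‖ = ‖(γ z - (p + z • a)) + z • a‖ := by congr 1; abel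
      _ ≤ ‖γ z - (p + z • a)‖ + ‖z • a‖ := norm_add_le _ _
      _ < R := by linarith
  have h24 : ball (0 : ℂ) (2 * ρ) ⊆ ball (0 : ℂ) (4 * ρ) := ball_subset_ball (by linarith)
  have hγd : ∀ z ∈ ball (0 : ℂ) (2 * ρ), HasDerivAt γ (deriv γ z) z := fun z hz =>
    (hγ.differentiableAt (isOpen_ball.mem_nhds (h24 hz))).hasDerivAt
  have hder : ∀ z ∈ ball (0 : ℂ) (2 * ρ), ‖deriv γ z - a‖ ≤ ε / ρ := by
    intro z hz
    have hsub : closedBall z ρ ⊆ ball (0 : ℂ) (4 * ρ) := by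
      intro w hw
      rw [mem_ball_zero_iff] at hz ⊢
      rw [mem_closedBall, dist_eq_norm] at hw
      calc ‖w‖ = ‖(w - z) + z‖ := by rw [sub_add_cancel]
        _ ≤ ‖w - z‖ + ‖z‖ := norm_add_le _ _
        _ < 4 * ρ := by linarith
    have hdδ : DifferentiableOn ℂ (fun w => γ w - (p + w • a)) (ball 0 (4 * ρ)) := by
      refine hγ.sub ?_
      exact ((differentiable_const p).add (differentiable_id.smul_const a)).differentiableOn
    have h1 := Complex.norm_deriv_le_of_forall_mem_sphere_norm_le (F := Vd (k + 1))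
      (f := fun w => γ w - (p + w • a)) (c := z) (R := ρ) (C := ε) hρ
      (hdδ.diffContOnCl_ball hsub) (fun w hw => (hγε w (hsub (sphere_subset_closedBall hw))).le)
    have h2 : HasDerivAt (fun w => γ w - (p + w • a)) (deriv γ z - a) z := by
      have h3 : HasDerivAt (fun w : ℂ => p + w • a) a z := by
        have h4 := ((hasDerivAt_id z).smul_const a).const_add p
        simpa using h4
      exact (hγd z hz).sub h3
    rwa [h2.deriv] at h1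
  obtain ⟨z₁, hz₁, h1, h2⟩ := one_zero (f := fun z => s (γ z))
    (f' := fun z => fderiv ℂ s (γ z) (deriv γ z)) (c := c) hρ hc
    (fun z hz => by
      have h1 := (hball (γ z) (hin z (h24 hz))).1.1.differentiableAt.hasFDerivAt
      exact h1.comp_hasDerivAt z (hγd z hz))
    (fun z hz => by
      have h1 := (hball (γ z) (hin z (h24 hz))).2
      have h2 := hfd (γ z) (hin z (h24 hz))
      have h3 := hder z hz
      have h4 : fderiv ℂ s (γ z) (deriv γ z) - c =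
          (fderiv ℂ s (γ z) - L) a + fderiv ℂ s (γ z) (deriv γ z - a) := by
        rw [hcdef, ← hL, map_sub]
        show _ = (fderiv ℂ s (γ z) a - L a) + _
        ring
      have h5 : ‖(fderiv ℂ s (γ z) - L) a‖ ≤ ‖c‖ / 16 :=
        ((fderiv ℂ s (γ z) - L).le_opNorm a).trans
          ((mul_le_mul_of_nonneg_right h1.le (norm_nonneg a)).trans hηa)
      have h6 : ‖fderiv ℂ s (γ z) (deriv γ z - a)‖ ≤ ‖c‖ / 64 := by
        refine ((fderiv ℂ s (γ z)).le_opNorm _).trans ?_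
        calc ‖fderiv ℂ s (γ z)‖ * ‖deriv γ z - a‖ ≤ (‖L‖ + 1) * (ε / ρ) := by gcongr
          _ = (‖L‖ + 1) * ε / ρ := by ring
          _ ≤ ρ * ‖c‖ / 64 / ρ := by gcongr
          _ = ‖c‖ / 64 := by field_simp
      rw [h4]
      refine (norm_add_le _ _).trans ?_
      linarith)
    (by
      have h00 : (0 : ℂ) ∈ ball (0 : ℂ) (4 * ρ) := by
        rw [mem_ball_zero_iff, norm_zero]
        linarith
      have h1 := hγε 0 h00
      rw [zero_smul, add_zero] at h1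
      refine (hlip (γ 0) (hin 0 h00)).trans ?_
      exact (mul_le_mul_of_nonneg_left h1.le hL0.le).trans hεc)
  refine ⟨z₁, hz₁, ?_, fun z hz hzD => h2 z hz ?_⟩
  · have h3 : z₁ ∈ ball (0 : ℂ) (4 * ρ) := by
      rw [mem_ball_zero_iff]
      linarith
    exact ((hball (γ z₁) (hin z₁ h3)).1.2).2 h1
  · exact ((hball (γ z) (hin z (h24 hz))).1.2).1 hzD

end Pool.Agent.PX
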