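import Pool.Agent.PX.Defs
import Pool.Agent.LR.Cover
import Pool.Agent.H56.PR.Loc

/-!
# PX RExt: extension of a root of a polynomial to a disc

`Pt c z t = t ^ m + ∑ c i z * t ^ i`, simple roots for `z ≠ 0`; on the circle of radius `ρ` one root is near the continuous function `g`, and only one.  Then this root extends to a holomorphic root on the disc of radius `R`.
Proof: on the half plane `{ζ | Re ζ < log R}` (convex) the roots of `Pt c (exp ζ)` are given by `m` continuous functions `r i` (`LR/Cover`, `exists_roots_on`, or a direct lifting argument); on the line `Re ζ = log ρ` the index `i` of the root near `g (exp ζ)` does not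
depend on `ζ` (connected), so `r i (ζ + 2 π I)` and `r i ζ` agree for `Re ζ = log ρ`, hence everywhere (both are continuous choices of simple roots): `r i ζ = e (exp ζ)` with `e` continuous on the punctured disc, holomorphic (simple roots: implicit function theorem or
`t - e z` divides), bounded near `0` (bound of the roots by the coefficients): `e` extends.
-/

set_option autoImplicit false

open Topology Filter Metric

namespace Pool.Agent.PX

open Pool.Agent.H36.BP (EN fs wd)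
open Pool.Agent.H62.EF (MN pr)
open Pool.Agent.AD (Vd)
open Pool.Agent.TG (Lat Gd)
open Pool.Agent.G3 (wt TT LLift)
open Pool.Agent.G4 (Few)

variable {k d r : ℕ}


/-- the monic polynomial with the coefficients `c i z` -/
def Pt {m : ℕ} (c : Fin m → ℂ → ℂ) (z t : ℂ) : ℂ := t ^ m + ∑ i : Fin m, c i z * t ^ (i : ℕ)

open Polynomial in
/-- `Pt` as a polynomial -/
noncomputable def Pol {m : ℕ} (c : Fin m → ℂ → ℂ) (z : ℂ) : ℂ[X] :=
  X ^ m + ∑ i : Fin m, C (c i z) * X ^ (i : ℕ)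

theorem eval_Pol {m : ℕ} (c : Fin m → ℂ → ℂ) (z t : ℂ) : (Pol c z).eval t = Pt c z t := by
  simp [Pol, Pt, Polynomial.eval_finsetSum]

theorem Pol_monic {m : ℕ} (c : Fin m → ℂ → ℂ) (z : ℂ) : (Pol c z).Monic :=
  Polynomial.monic_X_pow_add (Polynomial.degree_sum_fin_lt _)

theorem Pol_natDegree {m : ℕ} (c : Fin m → ℂ → ℂ) (z : ℂ) : (Pol c z).natDegree = m := by
  have h1 : (Polynomial.X ^ m + ∑ i : Fin m, Polynomial.C (c i z) * Polynomial.X ^ (i : ℕ)).degree
      = m := by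
    rw [Polynomial.degree_add_eq_left_of_degree_lt]
    · exact Polynomial.degree_X_pow m
    · rw [Polynomial.degree_X_pow]
      exact Polynomial.degree_sum_fin_lt _
  exact Polynomial.natDegree_eq_of_degree_eq_some h1

theorem Pol_coeff {m : ℕ} {c : Fin m → ℂ → ℂ} {s : Set ℂ} (hc : ∀ i, DifferentiableOn ℂ (c i) s)
    (j : ℕ) : DifferentiableOn ℂ (fun z => (Pol c z).coeff j) s := by
  simp only [Pol, Polynomial.coeff_add, Polynomial.finsetSum_coeff, Polynomial.coeff_C_mul]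
  refine (differentiableOn_const _).add (DifferentiableOn.fun_sum fun i _ => ?_)
  exact (hc i).mul (differentiableOn_const _)

theorem deriv_Pt {m : ℕ} (c : Fin m → ℂ → ℂ) (z t : ℂ) :
    deriv (Pt c z) t = (Pol c z).derivative.eval t := by
  have h1 : Pt c z = fun t => (Pol c z).eval t := by funext t; rw [eval_Pol]
  rw [h1]
  exact (Pol c z).deriv

theorem Pol_separable {m : ℕ} {c : Fin m → ℂ → ℂ} {z : ℂ}
    (h : ∀ t, Pt c z t = 0 → deriv (Pt c z) t ≠ 0) : (Pol c z).Separable := by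
  rw [Polynomial.Separable, Polynomial.isCoprime_iff_aeval_ne_zero_of_isAlgClosed (k := ℂ) (K := ℂ)]
  intro t
  rw [Polynomial.coe_aeval_eq_eval, eval_Pol, ← deriv_Pt]
  by_cases h0 : Pt c z t = 0
  · exact Or.inr (h t h0)
  · exact Or.inl h0

theorem LFam_Pol {m : ℕ} (hm : 0 < m) {c : Fin m → ℂ → ℂ} {R : ℝ}
    (hc : ∀ i, DifferentiableOn ℂ (c i) (ball 0 R)) : H56.PR.LFam (Pol c) m R :=
  ⟨hm, fun z _ => Pol_monic c z, fun z _ => Pol_natDegree c z, fun j => Pol_coeff hc j⟩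

theorem root_ext {m : ℕ} {c : Fin m → ℂ → ℂ} {R ρ η : ℝ} (hρ : 0 < ρ) (hρR : ρ < R) (hη : 0 < η) (hc : ∀ i, DifferentiableOn ℂ (c i) (ball 0 R))
    (hs : ∀ z ∈ ball (0 : ℂ) R, z ≠ 0 → ∀ t, Pt c z t = 0 → deriv (Pt c z) t ≠ 0) {g : ℂ → ℂ} (hg : ContinuousOn g (sphere 0 ρ))
    (ha : ∀ z ∈ sphere (0 : ℂ) ρ, ∃ t, Pt c z t = 0 ∧ ‖t - g z‖ ≤ η)
    (hb : ∀ z ∈ sphere (0 : ℂ) ρ, ∀ t, Pt c z t = 0 → ‖t - g z‖ ≤ 2 * η → ‖t - g z‖ ≤ η)
    (hu : ∀ z ∈ sphere (0 : ℂ) ρ, ∀ t t', Pt c z t = 0 → Pt c z t' = 0 → ‖t - g z‖ ≤ 2 * η → ‖t' - g z‖ ≤ 2 * η → t = t') :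
    ∃ e : ℂ → ℂ, DifferentiableOn ℂ e (ball 0 R) ∧ (∀ z ∈ ball (0 : ℂ) R, Pt c z (e z) = 0) ∧ ∀ z ∈ sphere (0 : ℂ) ρ, ‖e z - g z‖ ≤ η := by
  classical
  have hR : 0 < R := hρ.trans hρR
  have hm : 0 < m := by
    rcases Nat.eq_zero_or_pos m with rfl | hm
    · obtain ⟨z, hz⟩ := NormedSpace.sphere_nonempty (x := (0 : ℂ)).2 hρ.le
      obtain ⟨t, ht, -⟩ := ha z hz
      simp [Pt] at ht
    · exact hm
  have hfam := LFam_Pol hm hc
  -- the root near g
  choose! e₀ he1 he2 using ha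
  have hec : ContinuousOn e₀ (sphere 0 ρ) := by
    intro z₀ hz₀
    rw [ContinuousWithinAt, tendsto_iff_ultrafilter]
    intro F hF
    have hFK : sphere (0 : ℂ) ρ ∈ F := hF self_mem_nhdsWithin
    have hF0 : (F : Filter ℂ) ≤ 𝓝 z₀ := hF.trans nhdsWithin_le_nhds
    have hgF : Tendsto g F (𝓝 (g z₀)) := (hg z₀ hz₀).mono_left hF
    have hbd : ∀ᶠ z in (F : Filter ℂ), e₀ z ∈ closedBall (g z₀) (η + 1) := by
      filter_upwards [hFK, hgF.eventually (ball_mem_nhds (g z₀) one_pos)] with z h2 h3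
      rw [mem_closedBall_iff_norm]
      have h4 : ‖e₀ z - g z₀‖ ≤ ‖e₀ z - g z‖ + ‖g z - g z₀‖ :=
        norm_sub_le_norm_sub_add_norm_sub _ _ _
      have h5 := he2 z h2
      rw [dist_eq_norm] at h3
      linarith
    obtain ⟨w, -, hw2⟩ := (isCompact_closedBall (g z₀) (η + 1)).ultrafilter_le_nhds
      (F.map e₀) (le_principal_iff.2 hbd)
    have hw2' : Tendsto e₀ F (𝓝 w) := hw2
    have hzR : z₀ ∈ ball (0 : ℂ) R := mem_ball_zero_iff.2 (by
      rw [mem_sphere_zero_iff_norm] at hz₀; rw [hz₀]; exact hρR)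
    have hcw : Pt c z₀ w = 0 := by
      have h7 : Tendsto (fun z => Pt c z (e₀ z)) F (𝓝 (Pt c z₀ w)) := by
        unfold Pt
        refine (hw2'.pow m).add (tendsto_finsetSum _ fun i _ => ?_)
        have h8 : ContinuousAt (c i) z₀ := ((hc i).differentiableAt (isOpen_ball.mem_nhds hzR)).continuousAt
        exact (h8.tendsto.mono_left hF0).mul (hw2'.pow _)
      have h9 : Tendsto (fun z => Pt c z (e₀ z)) F (𝓝 0) := by
        refine tendsto_const_nhds.congr' ?_
        filter_upwards [hFK] with z hz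
        exact (he1 z hz).symm
      exact tendsto_nhds_unique h7 h9
    have hwg : ‖w - g z₀‖ ≤ η := by
      refine le_of_tendsto ((hw2'.sub hgF).norm) ?_
      filter_upwards [hFK] with z hz
      exact he2 z hz
    have : w = e₀ z₀ := hu z₀ hz₀ _ _ hcw (he1 z₀ hz₀) (by linarith) (by have := he2 z₀ hz₀; linarith)
    rw [← this]
    exact hw2'
  -- the extension to smaller discs
  have hext : ∀ s : ℝ, ρ < s → s < R → ∃ E : ℂ → ℂ, DifferentiableOn ℂ E (ball 0 s) ∧
      (∀ z ∈ sphere (0 : ℂ) ρ, E z = e₀ z) ∧ ∀ z ∈ ball (0 : ℂ) s, Pt c z (E z) = 0 := by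
    intro s hρs hsR
    obtain ⟨s', hs1, hs2⟩ := exists_between hsR
    have hs0 : 0 < s' := hρ.trans (hρs.trans hs1)
    have hmem : ∀ z, ‖H56.PR.retr s' z‖ < R := fun z => (H56.PR.retr_norm hs0 z).trans_lt hs2
    have hreq : ∀ z ∈ ball (0 : ℂ) s', H56.PR.retr s' z = z := fun z hz =>
      H56.PR.retr_eq hs0 (mem_ball_zero_iff.1 hz).le
    have hF : H56.PR.Fam (fun z => Pol c (H56.PR.retr s' z)) m (ball 0 s' \ {0}) := by
      refine ⟨hm, fun z => Pol_monic _ _, fun z => Pol_natDegree _ _, fun i => ?_,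
        isOpen_ball.sdiff isClosed_singleton, fun i => ?_, fun z hz => ?_⟩
      · exact (Pol_coeff hc i).continuousOn.comp_continuous H56.PR.retr_cont
          fun z => mem_ball_zero_iff.2 (hmem z)
      · have ho : IsOpen (ball (0 : ℂ) s' \ {0}) := isOpen_ball.sdiff isClosed_singleton
        refine DifferentiableOn.analyticOnNhd ?_ ho
        refine ((Pol_coeff hc i).mono (fun z hz => ball_subset_ball hs2.le hz.1)).congr
          fun z hz => ?_
        rw [hreq z hz.1]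
      · rw [hreq z hz.1]
        exact Pol_separable (hs z (ball_subset_ball hs2.le hz.1) hz.2)
    obtain ⟨E, hE1, hE2, hE3⟩ := hF.root_ext (ρ := s') (le_refl _) (c := 0) (r := ρ)
      (by simpa using hρ) (by simpa using hρs.trans hs1) hec
      (fun z hz => by
        have hz' : z ∈ ball (0 : ℂ) s' := mem_ball_zero_iff.2 (by
          rw [mem_sphere_zero_iff_norm] at hz; rw [hz]; exact hρs.trans hs1)
        rw [hreq z hz', eval_Pol]; exact he1 z hz)
    refine ⟨E, hE1.mono (ball_subset_ball hs1.le), hE2, fun z hz => ?_⟩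
    have hz' := ball_subset_ball hs1.le hz
    have := hE3 z hz'
    rwa [hreq z hz', eval_Pol] at this
  choose! E hE1 hE2 hE3 using hext
  -- uniqueness
  have huniq : ∀ s, ρ < s → s < R → ∀ t, ρ < t → t < R → ∀ z ∈ ball (0 : ℂ) s, z ∈ ball (0 : ℂ) t →
      E s z = E t z := by
    intro s hs1 hs2 t ht1 ht2 z hzs hzt
    set u := min s t with hu'
    have hsu : ball (0 : ℂ) u ⊆ ball 0 s := ball_subset_ball (min_le_left _ _)
    have htu : ball (0 : ℂ) u ⊆ ball 0 t := ball_subset_ball (min_le_right _ _)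
    have hρu : ρ < u := lt_min hs1 ht1
    have h1 : AnalyticOnNhd ℂ (E s) (ball 0 u) :=
      ((hE1 s hs1 hs2).mono hsu).analyticOnNhd isOpen_ball
    have h2 : AnalyticOnNhd ℂ (E t) (ball 0 u) :=
      ((hE1 t ht1 ht2).mono htu).analyticOnNhd isOpen_ball
    have hsub : closedBall (0 : ℂ) ρ ⊆ ball 0 u := closedBall_subset_ball hρu
    have h3 : Set.EqOn (E s) (E t) (ball 0 ρ) := by
      refine Complex.eqOn_of_eqOn_frontier isBounded_ball ?_ ?_ ?_
      · refine DifferentiableOn.diffContOnCl ?_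
        rw [closure_ball _ hρ.ne']; exact h1.differentiableOn.mono hsub
      · refine DifferentiableOn.diffContOnCl ?_
        rw [closure_ball _ hρ.ne']; exact h2.differentiableOn.mono hsub
      · rw [frontier_ball _ hρ.ne']
        intro z hz
        rw [hE2 s hs1 hs2 z hz, hE2 t ht1 ht2 z hz]
    have h4 := h1.eqOn_of_preconnected_of_eventuallyEq h2 (convex_ball _ _).isPreconnected
      (z₀ := 0) (mem_ball_self (hρ.trans hρu))
      (by filter_upwards [ball_mem_nhds (0 : ℂ) hρ] with z hz using h3 hz)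
    exact h4 (mem_ball_zero_iff.2 (lt_min (mem_ball_zero_iff.1 hzs) (mem_ball_zero_iff.1 hzt)))
  -- glue
  set σ : ℂ → ℝ := fun z => (max ρ ‖z‖ + R) / 2 with hσ
  have hσ1 : ∀ z ∈ ball (0 : ℂ) R, ρ < σ z ∧ σ z < R ∧ z ∈ ball (0 : ℂ) (σ z) := by
    intro z hz
    rw [mem_ball_zero_iff] at hz
    have h1 : max ρ ‖z‖ < R := max_lt hρR hz
    have h2 := le_max_left ρ ‖z‖
    have h3 := le_max_right ρ ‖z‖
    simp only [hσ]
    refine ⟨by linarith, by linarith, mem_ball_zero_iff.2 (by linarith)⟩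
  refine ⟨fun z => E (σ z) z, ?_, ?_, ?_⟩
  · intro z₁ hz₁
    obtain ⟨h1, h2, h3⟩ := hσ1 z₁ hz₁
    have h4 : DifferentiableAt ℂ (E (σ z₁)) z₁ :=
      (hE1 _ h1 h2).differentiableAt (isOpen_ball.mem_nhds h3)
    refine (h4.congr_of_eventuallyEq ?_).differentiableWithinAt
    filter_upwards [isOpen_ball.mem_nhds h3, isOpen_ball.mem_nhds hz₁] with z hz hz'
    obtain ⟨h5, h6, h7⟩ := hσ1 z hz'
    exact huniq _ h5 h6 _ h1 h2 z h7 hz
  · intro z hz
    obtain ⟨h1, h2, h3⟩ := hσ1 z hz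
    exact hE3 _ h1 h2 z h3
  · intro z hz
    have hz' : z ∈ ball (0 : ℂ) R := mem_ball_zero_iff.2 (by
      rw [mem_sphere_zero_iff_norm] at hz; rw [hz]; exact hρR)
    obtain ⟨h1, h2, h3⟩ := hσ1 z hz'
    simp only
    rw [hE2 _ h1 h2 z hz]
    exact he2 z hz

end Pool.Agent.PX
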