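import Pool.Agent.PX.Good
import Pool.Agent.PX.Hit

/-!
# PX RLf: the entire lift of the limit root

`any_hit` gives local lifts of the map `g'` (`g' z = pr (G z)`, the continuous extension of `g`); `G3.entire_lift`; simplicity off `D` from `PD.simple`, at the good hits from `good_hit` (the two local lifts agree near `z₀` up to a factor, by continuity also at `z₀`).
-/

set_option autoImplicit false

open Topology Filter Metric

namespace Pool.Agent.PX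

open Pool.Agent.H36.BP (EN fs wd)
open Pool.Agent.H62.EF (MN pr)
open Pool.Agent.AD (Vd)
open Pool.Agent.TG (Lat Gd)
open Pool.Agent.G3 (wt TT LLift)
open Pool.Agent.G4 (Few)

variable {k d r : ℕ}

variable {Λ : AddSubgroup (Vd (k + 1))} {D : Set (Vd (k + 1))} {Bad : Vd (k + 1) → Set (Vd (k + 1))} {θ : Fin (d + 1) → Vd (k + 1) → ℂ}
  {W : Fin r → Vd (k + 1) →L[ℂ] ℂ}

/-- two lifts which agree near a point agree at the point -/
private theorem pr_agree {G G' : ℂ → EN 1} {z : ℂ} (hG : ContinuousAt G z) (hG' : ContinuousAt G' z) (h0 : G z ≠ 0) (h0' : G' z ≠ 0)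
    (h : ∀ᶠ w in 𝓝[≠] z, pr (G w) = pr (G' w)) : pr (G z) = pr (G' z) := by
  have h1 : Tendsto (fun w => pr (G w)) (𝓝[≠] z) (𝓝 (pr (G z))) :=
    (ContinuousAt.comp (Pool.Agent.H62.EF.continuousAt_pr h0) hG).tendsto.mono_left nhdsWithin_le_nhds
  have h2 : Tendsto (fun w => pr (G' w)) (𝓝[≠] z) (𝓝 (pr (G' z))) :=
    (ContinuousAt.comp (Pool.Agent.H62.EF.continuousAt_pr h0') hG').tendsto.mono_left nhdsWithin_le_nhds
  exact tendsto_nhds_unique (h1.congr' h) h2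

theorem PD.exists_rl (P : PD Λ D Bad θ W) {y a : Vd (k + 1)} (ha : a ≠ 0) {𝒰 : Ultrafilter ℕ} {w : ℕ → ℂ → EN 1} {h : ℕ → ℂ → Vd (k + 1)} {g : ℂ → MN 1}
    (S : LS θ D y a 𝒰 w h g) (hR : Rt θ D y a g) : ∃ G : ℂ → EN 1, RL θ Bad y a G := by
  choose ρ hρ Gl hGd hGr hGg using P.any_hit ha S.lift hR
  have hcont : ∀ z₀, ∀ z ∈ ball z₀ (ρ z₀), ContinuousAt (Gl z₀) z := fun z₀ z hz =>
    ((hGd z₀).continuousOn.continuousAt (isOpen_ball.mem_nhds hz))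
  -- the local lifts agree
  have key : ∀ z₀, ∀ z ∈ ball z₀ (ρ z₀), pr (Gl z z) = pr (Gl z₀ z) := by
    intro z₀ z hz
    rcases eq_or_ne z z₀ with rfl | hne
    · rfl
    refine pr_agree (hcont z z (mem_ball_self (hρ z))) (hcont z₀ z hz) (hGr z z (mem_ball_self (hρ z))).1 (hGr z₀ z hz).1 ?_
    have h1 : ∀ᶠ w in 𝓝[≠] z, w ∈ ball z (ρ z) := mem_nhdsWithin_of_mem_nhds (ball_mem_nhds z (hρ z))
    have h2 : ∀ᶠ w in 𝓝[≠] z, w ∈ ball z₀ (ρ z₀) := mem_nhdsWithin_of_mem_nhds (isOpen_ball.mem_nhds hz)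
    have h3 : ∀ᶠ w in 𝓝[≠] z, w ≠ z₀ := mem_nhdsWithin_of_mem_nhds (isOpen_ne.mem_nhds hne)
    filter_upwards [h1, h2, h3, self_mem_nhdsWithin] with w hw1 hw2 hw3 hw4
    rw [← hGg z w hw1 hw4, ← hGg z₀ w hw2 hw3]
  have hL : ∀ z, LLift (fun z => pr (Gl z z)) z := by
    intro z₀
    refine ⟨Gl z₀, (hGd z₀).analyticAt (ball_mem_nhds z₀ (hρ z₀)), ?_⟩
    filter_upwards [ball_mem_nhds z₀ (hρ z₀)] with z hz
    exact ⟨(hGr z₀ z hz).1, key z₀ z hz⟩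
  obtain ⟨G, hG, hGe⟩ := Pool.Agent.G3.entire_lift hL
  have hroot : ∀ z, Fo θ (y + z • a) (G z) = 0 := by
    intro z
    have h1 := hGr z z (mem_ball_self (hρ z))
    obtain ⟨c, -, hc⟩ := (Pool.Agent.H62.EF.pr_eq_iff (hGe z).1 h1.1).mp (hGe z).2.symm
    rw [hc, fo_smul, h1.2, mul_zero]
  refine ⟨G, hG, fun z => (hGe z).1, hroot, fun z hz => ?_⟩
  by_cases hD : y + z • a ∈ D
  · obtain ⟨ρ', hρ', G', hG'd, hG'r, hG'g⟩ := P.good_hit ha S hR hD hz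
    have h1 : pr (Gl z z) = pr (G' z) := by
      refine pr_agree (hcont z z (mem_ball_self (hρ z))) (hG'd.continuousOn.continuousAt (ball_mem_nhds z hρ'))
        (hGr z z (mem_ball_self (hρ z))).1 (hG'r z (mem_ball_self hρ')).1 ?_
      have h1 : ∀ᶠ w in 𝓝[≠] z, w ∈ ball z (ρ z) := mem_nhdsWithin_of_mem_nhds (ball_mem_nhds z (hρ z))
      have h2 : ∀ᶠ w in 𝓝[≠] z, w ∈ ball z ρ' := mem_nhdsWithin_of_mem_nhds (ball_mem_nhds z hρ')
      filter_upwards [h1, h2, self_mem_nhdsWithin] with w hw1 hw2 hw4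
      rw [← hGg z w hw1 hw4, ← hG'g w hw2 hw4]
    obtain ⟨h0, -, v, hv⟩ := hG'r z (mem_ball_self hρ')
    have h2 : pr (G z) = pr (G' z) := by
      rw [← h1]
      exact (hGe z).2.symm
    obtain ⟨c, hc0, hc⟩ := (Pool.Agent.H62.EF.pr_eq_iff (hGe z).1 h0).mp h2
    refine ⟨v, ?_⟩
    rw [hc, fd_smul θ (by have := P.deg; omega)]
    exact mul_ne_zero (pow_ne_zero _ hc0) hv
  · exact P.simple _ hD _ (hGe z).1 (hroot z)

end Pool.Agent.PX
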