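import Pool.Agent.PX.RLf
import Pool.Agent.PX.NoR

/-!
# PX Sep: long curves are away from the roots

By contradiction: `R = n + 1`, `c = η = 1 / (n + 1)` give `w n, h n, a n`; translate by `Λ` (`‖h n 0‖` bounded, `qf_add`, `Cp.add`); along the hyperfilter `h n 0 → y ∈ Gd D δ`, `a n → a`; `exists_ls`, `ls_rt` at `z₀ = 0` (`qf → 0`: the limit of the normalised `w n 0` is a root),
`exists_rl`, `no_root`.
-/

set_option autoImplicit false

open Topology Filter Metric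

namespace Pool.Agent.PX

open Pool.Agent.H36.BP (EN fs wd)
open Pool.Agent.H62.EF (MN pr)
open Pool.Agent.AD (Vd)
open Pool.Agent.TG (Lat Gd)
open Pool.Agent.G3 (wt TT LLift)
open Pool.Agent.G4 (Few)

variable {k d r : ℕ}

variable {Λ : AddSubgroup (Vd (k + 1))} {D : Set (Vd (k + 1))} {Bad : Vd (k + 1) → Set (Vd (k + 1))} {θ : Fin (d + 1) → Vd (k + 1) → ℂ}
  {W : Fin r → Vd (k + 1) →L[ℂ] ℂ}


theorem PD.sep (P : PD Λ D Bad θ W) {δ A₁ A₂ : ℝ} (hδ : 0 < δ) (hA₁ : 0 < A₁) : ∃ R c η : ℝ, 0 < R ∧ 0 < c ∧ 0 < η ∧ ∀ (w : ℂ → EN 1) (h : ℂ → Vd (k + 1)) (a : Vd (k + 1)),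
    A₁ ≤ ‖a‖ → ‖a‖ ≤ A₂ → Cp θ (ball 0 R) w h → (∀ z ∈ ball (0 : ℂ) R, ‖h z - (h 0 + z • a)‖ ≤ η) → h 0 ∈ Gd D δ → c ≤ qf θ W (h 0) (w 0) := by
  by_contra hcon
  push Not at hcon
  obtain ⟨R₀, hR0, hR₀⟩ := P.lat.cpt
  have hbad : ∀ n : ℕ, ∃ (w : ℂ → EN 1) (h : ℂ → Vd (k + 1)) (a : Vd (k + 1)), A₁ ≤ ‖a‖ ∧ ‖a‖ ≤ A₂ ∧ Cp θ (ball 0 ((n : ℝ) + 1)) w h ∧
      (∀ z ∈ ball (0 : ℂ) ((n : ℝ) + 1), ‖h z - (h 0 + z • a)‖ ≤ 1 / ((n : ℝ) + 1)) ∧ h 0 ∈ Gd D δ ∧ qf θ W (h 0) (w 0) < 1 / ((n : ℝ) + 1) ∧ ‖h 0‖ ≤ R₀ := by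
    intro n
    obtain ⟨w, h, a, h1, h2, h3, h4, h5, h6⟩ := hcon ((n : ℝ) + 1) (1 / ((n : ℝ) + 1)) (1 / ((n : ℝ) + 1)) (by positivity) (by positivity) (by positivity)
    obtain ⟨l, hl, hlR⟩ := hR₀ (h 0)
    refine ⟨w, fun z => h z + -l, a, h1, h2, Cp.add P h3 (Λ.neg_mem hl), fun z hz => ?_, ?_, ?_, ?_⟩
    · have h7 := h4 z hz
      have h8 : h z + -l - (h 0 + -l + z • a) = h z - (h 0 + z • a) := by abel
      rw [h8]
      exact h7
    · intro b hb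
      have h7 := h5 _ (P.D_inv b hb l hl)
      have h8 : h 0 + -l - b = h 0 - (b + l) := by abel
      simp only
      rw [h8]
      exact h7
    · simp only
      rw [P.qf_add (Λ.neg_mem hl)]
      exact h6
    · simp only
      rwa [← sub_eq_add_neg]
  choose w h a ha₁ ha₂ hcp hlin hGd hq hb using hbad
  set 𝒰 : Ultrafilter ℕ := Filter.hyperfilter ℕ with h𝒰
  have htop : Tendsto (fun n : ℕ => (n : ℝ) + 1) (𝒰 : Filter ℕ) atTop := by
    have h1 : Tendsto (fun n : ℕ => (n : ℝ) + 1) atTop atTop := tendsto_atTop_add_const_right _ _ tendsto_natCast_atTop_atTop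
    refine h1.mono_left ?_
    rw [← Nat.cofinite_eq_atTop]
    exact Filter.hyperfilter_le_cofinite
  have hinv : Tendsto (fun n : ℕ => 1 / ((n : ℝ) + 1)) (𝒰 : Filter ℕ) (𝓝 0) := by
    have h1 : Tendsto (fun n : ℕ => ((n : ℝ) + 1)⁻¹) (𝒰 : Filter ℕ) (𝓝 0) := Tendsto.comp (g := fun x : ℝ => x⁻¹) tendsto_inv_atTop_zero htop
    refine h1.congr fun n => ?_
    rw [one_div]
  -- limits of the centres and the directions
  obtain ⟨y, hy⟩ : ∃ y, Tendsto (fun n => h n 0) (𝒰 : Filter ℕ) (𝓝 y) := by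
    obtain ⟨y, -, hy⟩ := (isCompact_closedBall (0 : Vd (k + 1)) R₀).ultrafilter_le_nhds' (𝒰.map fun n => h n 0)
      (by rw [Ultrafilter.mem_map]; exact Filter.univ_mem' fun n => by simpa using hb n)
    exact ⟨y, hy⟩
  obtain ⟨a₀, ha₀⟩ : ∃ a₀, Tendsto a (𝒰 : Filter ℕ) (𝓝 a₀) := by
    obtain ⟨a₀, -, ha₀⟩ := (isCompact_closedBall (0 : Vd (k + 1)) A₂).ultrafilter_le_nhds' (𝒰.map a)
      (by rw [Ultrafilter.mem_map]; exact Filter.univ_mem' fun n => by simpa using ha₂ n)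
    exact ⟨a₀, ha₀⟩
  have ha₀0 : a₀ ≠ 0 := by
    rintro rfl
    have h1 : A₁ ≤ ‖(0 : Vd (k + 1))‖ := ge_of_tendsto ha₀.norm (Eventually.of_forall ha₁)
    rw [norm_zero] at h1
    linarith
  have hyG : y ∈ Gd D δ := by
    intro b hb'
    exact ge_of_tendsto (hy.sub_const b).norm (Eventually.of_forall fun n => hGd n b hb')
  have hyD : y ∉ D := by
    intro h1
    have h2 := hyG y h1
    rw [sub_self, norm_zero] at h2
    linarith
  have hcv : ∀ R : ℝ, ∀ᶠ n in (𝒰 : Filter ℕ), Cp θ (ball 0 R) (w n) (h n) := by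
    intro R
    filter_upwards [htop.eventually_ge_atTop R] with n hn
    exact (hcp n).mono (ball_subset_ball hn)
  have hh : ∀ R ε : ℝ, 0 < ε → ∀ᶠ n in (𝒰 : Filter ℕ), ∀ z ∈ closedBall (0 : ℂ) R, ‖h n z - (y + z • a₀)‖ < ε := by
    intro R ε hε
    have e1 : ∀ᶠ n : ℕ in (𝒰 : Filter ℕ), 1 / ((n : ℝ) + 1) < ε / 3 := hinv.eventually_lt_const (by positivity)
    have e2 : ∀ᶠ n in (𝒰 : Filter ℕ), ‖h n 0 - y‖ < ε / 3 := by
      have h1 : Tendsto (fun n => ‖h n 0 - y‖) (𝒰 : Filter ℕ) (𝓝 0) := by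
        have h2 := (hy.sub_const y).norm
        rwa [sub_self, norm_zero] at h2
      exact h1.eventually_lt_const (by positivity)
    have e3 : ∀ᶠ n in (𝒰 : Filter ℕ), (|R| + 1) * ‖a n - a₀‖ < ε / 3 := by
      have h1 : Tendsto (fun n => (|R| + 1) * ‖a n - a₀‖) (𝒰 : Filter ℕ) (𝓝 0) := by
        have h2 := ((ha₀.sub_const a₀).norm).const_mul (|R| + 1)
        rwa [sub_self, norm_zero, mul_zero] at h2
      exact h1.eventually_lt_const (by positivity)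
    filter_upwards [e1, e2, e3, htop.eventually_gt_atTop R] with n h1 h2 h3 h4 z hz
    rw [mem_closedBall_zero_iff] at hz
    have h5 := hlin n z (by rw [mem_ball_zero_iff]; linarith)
    have h6 : h n z - (y + z • a₀) = (h n z - (h n 0 + z • a n)) + (h n 0 - y) + z • (a n - a₀) := by
      rw [smul_sub]
      abel
    rw [h6]
    have h7 : ‖z • (a n - a₀)‖ ≤ (|R| + 1) * ‖a n - a₀‖ := by
      rw [norm_smul]
      refine mul_le_mul_of_nonneg_right ?_ (norm_nonneg _)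
      have := le_abs_self R
      linarith
    calc ‖(h n z - (h n 0 + z • a n)) + (h n 0 - y) + z • (a n - a₀)‖
        ≤ ‖h n z - (h n 0 + z • a n)‖ + ‖h n 0 - y‖ + ‖z • (a n - a₀)‖ := norm_add₃_le
      _ < ε := by linarith
  obtain ⟨g, S⟩ := P.exists_ls ha₀0 𝒰 hcv hh
  have hy0 : y + (0 : ℂ) • a₀ ∉ D := by
    rw [zero_smul, add_zero]
    exact hyD
  -- the limit of the normalised points
  have hwn : ∀ n, w n 0 ≠ 0 := fun n => Cp.w_ne (le_trans (by norm_num) P.deg) (hcp n) (mem_ball_self (by positivity))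
  obtain ⟨u, hu⟩ : ∃ u : ℕ → EN 1, u = fun n => ((‖w n 0‖⁻¹ : ℝ) : ℂ) • w n 0 := ⟨_, rfl⟩
  have hun : ∀ n, ‖u n‖ = 1 := by
    intro n
    rw [hu]
    simp only
    rw [norm_smul, Complex.norm_real, Real.norm_of_nonneg (inv_nonneg.2 (norm_nonneg _)), inv_mul_cancel₀ (norm_ne_zero_iff.2 (hwn n))]
  have hc0 : ∀ n, ((‖w n 0‖⁻¹ : ℝ) : ℂ) ≠ 0 := fun n => by
    rw [Ne, Complex.ofReal_eq_zero]
    exact inv_ne_zero (norm_ne_zero_iff.2 (hwn n))
  obtain ⟨x, hx1, hx⟩ : ∃ x : EN 1, ‖x‖ = 1 ∧ Tendsto u (𝒰 : Filter ℕ) (𝓝 x) := by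
    obtain ⟨x, hx1, hx⟩ := (isCompact_sphere (0 : EN 1) 1).ultrafilter_le_nhds' (𝒰.map u)
      (by rw [Ultrafilter.mem_map]; exact Filter.univ_mem' fun n => by simpa using hun n)
    exact ⟨x, by simpa using hx1, hx⟩
  have hx0 : x ≠ 0 := by
    rintro rfl
    rw [norm_zero] at hx1
    exact zero_ne_one hx1
  have hprx : pr x = g 0 := by
    have h1 : Tendsto (fun n => pr (u n)) (𝒰 : Filter ℕ) (𝓝 (pr x)) := Tendsto.comp (g := fun v : EN 1 => pr v) (f := u) (Pool.Agent.H62.EF.continuousAt_pr hx0).tendsto hx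
    have h2 : Tendsto (fun n => pr (u n)) (𝒰 : Filter ℕ) (𝓝 (g 0)) := by
      rw [Metric.tendsto_nhds]
      intro ε hε
      filter_upwards [S.lim {0} isCompact_singleton (fun z hz => by rw [Set.mem_singleton_iff.1 hz]; exact hy0) ε hε] with n hn
      have h3 := hn 0 rfl
      have h4 : pr (u n) = pr (w n 0) := by
        rw [hu]
        exact Pool.Agent.H62.EF.pr_smul _ (hc0 n)
      rw [h4]
      exact h3
    exact tendsto_nhds_unique h1 h2
  have hF0 : Fo θ (y + (0 : ℂ) • a₀) x = 0 := by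
    rw [zero_smul, add_zero]
    have hcF : Continuous fun p : Vd (k + 1) × EN 1 => Fo θ p.1 p.2 := (fo_diff P.an).continuous
    have hcW : Continuous fun p : Vd (k + 1) × EN 1 => wt W p.1 := by
      unfold wt
      refine continuous_finsetSum _ fun i _ => ?_
      exact (((W i).continuous.comp continuous_fst).norm).pow 2
    have hc : Continuous fun p : Vd (k + 1) × EN 1 => ‖Fo θ p.1 p.2‖ * Real.exp (-wt W p.1) :=
      hcF.norm.mul (Real.continuous_exp.comp hcW.neg)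
    have h1 : Tendsto (fun n => ‖Fo θ (h n 0) (u n)‖ * Real.exp (-wt W (h n 0))) (𝒰 : Filter ℕ) (𝓝 (‖Fo θ y x‖ * Real.exp (-wt W y))) :=
      Tendsto.comp (g := fun p : Vd (k + 1) × EN 1 => ‖Fo θ p.1 p.2‖ * Real.exp (-wt W p.1)) (f := fun n => (h n 0, u n)) (hc.tendsto (y, x)) (hy.prodMk_nhds hx)
    have h2 : ∀ n, ‖Fo θ (h n 0) (u n)‖ * Real.exp (-wt W (h n 0)) = qf θ W (h n 0) (w n 0) := by
      intro n
      have h3 : qf θ W (h n 0) (u n) = qf θ W (h n 0) (w n 0) := by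
        rw [hu]
        exact qf_smul θ W (h n 0) (hc0 n) (w n 0)
      rw [← h3]
      unfold qf
      rw [hun n, one_pow, div_one]
    have h3 : Tendsto (fun n => ‖Fo θ (h n 0) (u n)‖ * Real.exp (-wt W (h n 0))) (𝒰 : Filter ℕ) (𝓝 0) := by
      refine squeeze_zero (fun n => by positivity) (fun n => ?_) hinv
      rw [h2 n]
      exact (hq n).le
    have h4 := tendsto_nhds_unique h1 h3
    rcases mul_eq_zero.1 h4 with h5 | h5
    · exact norm_eq_zero.1 h5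
    · exact absurd h5 (Real.exp_pos _).ne'
  obtain ⟨G, hG⟩ := P.exists_rl ha₀0 S (P.ls_rt ha₀0 S hy0 hx0 hprx hF0)
  exact P.no_root ha₀0 hG

end Pool.Agent.PX
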