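import Pool.Agent.PX.Cmp
import Pool.Agent.PX.Kap
import Pool.Agent.G3.PS.Jen

/-!
# PX TTb: the characteristic of a root on discs is bounded

Let `z` with `y + z a ∈ Gd D δ`, `b` from `big_pt` at `y + z a`, `f ζ = Fo θ (y + ζ a) b` (entire, `|f ζ| ≤ C e^{wt}`, `|f z| ≥ c e^{wt}`), `δ ζ = dt (G ζ) b`.  `f = δ * q` with `q` entire (`Fo θ y` divided by the linear form `dt (G ζ) ·`: for `x = b`, local formula; or: `f / δ` is locally bounded at the
zeros of `δ`: `x ↦ Fo θ y x` is `0` at `G ζ`).  Circle averages over `‖ζ - z‖ = r`: `log |q z| ≤ avg log |q|` (Jensen), so `avg log |δ| ≤ avg log |f| - log |f z| + log |δ z| ≤ C + log ‖G z‖`; and `|f ζ| ≤ C e^{wt} |δ ζ| / ‖G ζ‖` (`Fo θ y b` vanishes at `G ζ`: mean value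
inequality on the sphere, scaled) gives `avg log ‖G‖ ≤ avg log |δ| + avg (log C + wt - log |f|)`, `avg log |f| ≥ log |f z|`.  (`wt` along the line on the circle: `wt (y + ζ a) ≤ wt (y + z a) + ..`: the averages of `wt W (y + ζ a)` differ from the value at `z` by `r ^ 2 wt W a`.)
-/

set_option autoImplicit false

open Topology Filter Metric

namespace Pool.Agent.PX

open Pool.Agent.H36.BP (EN fs wd)
open Pool.Agent.H62.EF (MN pr)
open Pool.Agent.AD (Vd)
open Pool.Agent.TG (Lat Gd)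
open Pool.Agent.G3 (wt TT LLift)
open Pool.Agent.G4 (Few)

variable {k d r : ℕ}

variable {Λ : AddSubgroup (Vd (k + 1))} {D : Set (Vd (k + 1))} {Bad : Vd (k + 1) → Set (Vd (k + 1))} {θ : Fin (d + 1) → Vd (k + 1) → ℂ}
  {W : Fin r → Vd (k + 1) →L[ℂ] ℂ}

/-- an inequality off a discrete set of the circle -/
private theorem tt_mono {u v : ℂ → ℝ} {z : ℂ} {s : ℝ} (hs : 0 < s) (hu : CircleIntegrable u z s) (hv : CircleIntegrable v z s)
    (h : ∀ᶠ w in codiscreteWithin (sphere z |s|), u w ≤ v w) : Real.circleAverage u z s ≤ Real.circleAverage v z s := by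
  have h3 := circleMap_preimage_codiscrete hs.ne' h
  have h4 := ae_restrict_le_codiscreteWithin (μ := MeasureTheory.volume) measurableSet_uIoc (codiscreteWithin_mono (U₁ := Set.uIoc 0 (2 * Real.pi)) (by simp) h3)
  have h5 : ∀ᵐ θ ∂(MeasureTheory.volume.restrict (Set.uIoc 0 (2 * Real.pi))), u (circleMap z s θ) ≤ v (circleMap z s θ) := by
    filter_upwards [h4] with θ hθ
    exact hθ
  rw [Real.circleAverage, Real.circleAverage, smul_eq_mul, smul_eq_mul]
  refine mul_le_mul_of_nonneg_left ?_ (by positivity)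
  refine intervalIntegral.integral_mono_ae_restrict (by positivity) hu hv ?_
  rw [Set.uIoc_of_le (by positivity)] at h5
  rw [MeasureTheory.Measure.restrict_congr_set MeasureTheory.Ioc_ae_eq_Icc.symm]
  exact h5

/-- an analytic function which is not zero at the centre is not zero outside a discrete set of the circle -/
private theorem tt_codisc {a : ℂ → ℂ} {z : ℂ} {s : ℝ} (hs : 0 < s) (ha : Differentiable ℂ a) (ha0 : a z ≠ 0) :
    a ⁻¹' {0}ᶜ ∈ codiscreteWithin (sphere z |s|) := by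
  have h0 : AnalyticOnNhd ℂ a (closedBall z s) := fun w _ => ha.analyticAt w
  have h1 : a ⁻¹' {0}ᶜ ∈ codiscreteWithin (closedBall z s) :=
    h0.preimage_zero_mem_codiscreteWithin ha0 (mem_closedBall_self hs.le) ((convex_closedBall z s).isConnected ⟨z, mem_closedBall_self hs.le⟩)
  rw [abs_of_pos hs]
  exact codiscreteWithin_mono sphere_subset_closedBall h1

/-- the logarithm of the norm of an entire function is circle integrable -/
private theorem tt_int {a : ℂ → ℂ} {z : ℂ} {s : ℝ} (hs : 0 < s) (ha : Differentiable ℂ a) : CircleIntegrable (fun w => Real.log ‖a w‖) z s := by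
  apply MeromorphicOn.circleIntegrable_log_norm_of_nonneg _ hs.le
  have h0 : AnalyticOnNhd ℂ a (sphere z s) := fun w _ => ha.analyticAt w
  exact h0.meromorphicOn

/-- Jensen's inequality for the locally bounded quotient of two entire functions -/
private theorem tt_jen {f g : ℂ → ℂ} (hf : Differentiable ℂ f) (hg : Differentiable ℂ g) {z : ℂ} {s : ℝ} (hs : 0 < s) (hfz : f z ≠ 0) (hgz : g z ≠ 0)
    (hb : ∀ ζ : ℂ, ∃ M : ℝ, ∀ᶠ ζ' in 𝓝 ζ, ‖f ζ'‖ ≤ M * ‖g ζ'‖) :
    Real.log ‖f z‖ - Real.log ‖g z‖ ≤ Real.circleAverage (fun w => Real.log ‖f w‖) z s - Real.circleAverage (fun w => Real.log ‖g w‖) z s := by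
  set q : ℂ → ℂ := fun ζ => f ζ / g ζ with hq
  have hmer : ∀ ζ, MeromorphicAt q ζ := fun ζ => (hf.analyticAt ζ).meromorphicAt.fun_div (hg.analyticAt ζ).meromorphicAt
  have hqz : AnalyticAt ℂ q z := (hf.analyticAt z).fun_div (hg.analyticAt z) hgz
  have hqz0 : q z ≠ 0 := div_ne_zero hfz hgz
  have hord : ∀ ζ, 0 ≤ meromorphicOrderAt q ζ := by
    intro ζ
    by_contra hneg
    rw [not_le, ← tendsto_cobounded_iff_meromorphicOrderAt_neg (hmer ζ), ← tendsto_norm_atTop_iff_cobounded] at hneg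
    obtain ⟨M, hM⟩ := hb ζ
    obtain ⟨w, h1, h2⟩ := ((hneg.eventually_gt_atTop |M|).and (mem_nhdsWithin_of_mem_nhds hM)).exists
    have h3 : ‖f w‖ ≤ M * ‖g w‖ := h2
    have h4 : ‖q w‖ = ‖f w‖ / ‖g w‖ := norm_div _ _
    have h5 : ‖f w‖ / ‖g w‖ ≤ |M| := by
      rcases (norm_nonneg (g w)).eq_or_lt with h6 | h6
      · rw [← h6, div_zero]
        exact abs_nonneg M
      · rw [div_le_iff₀ h6]
        exact h3.trans (mul_le_mul_of_nonneg_right (le_abs_self M) h6.le)
    rw [h4] at h1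
    exact absurd h5 (not_le.2 h1)
  have hmerOn : MeromorphicOn q (closedBall z |s|) := fun ζ _ => hmer ζ
  have hJ := MeromorphicOn.circleAverage_log_norm hs.ne' hmerOn
  have hz : z ∈ closedBall z |s| := mem_closedBall_self (abs_nonneg s)
  have hdz : MeromorphicOn.divisor q (closedBall z |s|) z = 0 := by
    rw [MeromorphicOn.divisor_apply hmerOn hz, hqz.meromorphicOrderAt_eq, hqz.analyticOrderAt_eq_zero.2 hqz0]
    simp
  have hsum : 0 ≤ ∑ᶠ u, (MeromorphicOn.divisor q (closedBall z |s|) u : ℝ) * Real.log (s * ‖z - u‖⁻¹) := by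
    apply finsum_nonneg
    intro u
    by_cases hu : u ∈ closedBall z |s|
    · apply mul_nonneg
      · have h1 : 0 ≤ MeromorphicOn.divisor q (closedBall z |s|) u := by
          rw [MeromorphicOn.divisor_apply hmerOn hu]
          exact WithTop.untop₀_nonneg.2 (hord u)
        exact_mod_cast h1
      · by_cases huc : u = z
        · simp [huc]
        · apply Real.log_nonneg
          have h2 : 0 < ‖z - u‖ := by
            rw [norm_pos_iff, sub_ne_zero]
            exact fun h => huc h.symm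
          have h3 : ‖z - u‖ ≤ s := by
            rw [mem_closedBall, dist_eq_norm, abs_of_pos hs, norm_sub_rev] at hu
            exact hu
          rw [← div_eq_mul_inv, le_div_iff₀ h2]
          linarith
    · have : MeromorphicOn.divisor q (closedBall z |s|) u = 0 := Function.locallyFinsuppWithin.apply_eq_zero_of_notMem _ hu
      simp [this]
  rw [hdz, hqz.meromorphicTrailingCoeffAt_of_ne_zero hqz0] at hJ
  have hcod : (fun w => Real.log ‖q w‖) =ᶠ[codiscreteWithin (sphere z |s|)] fun w => Real.log ‖f w‖ - Real.log ‖g w‖ := by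
    filter_upwards [tt_codisc hs hf hfz, tt_codisc hs hg hgz] with w h1 h2
    have h3 : ‖q w‖ = ‖f w‖ / ‖g w‖ := norm_div _ _
    rw [h3, Real.log_div (norm_ne_zero_iff.2 h1) (norm_ne_zero_iff.2 h2)]
  have hav := Real.circleAverage_congr_codiscreteWithin hcod hs.ne'
  rw [Real.circleAverage_fun_sub (tt_int hs hf) (tt_int hs hg)] at hav
  have hqn : Real.log ‖q z‖ = Real.log ‖f z‖ - Real.log ‖g z‖ := by
    have h3 : ‖q z‖ = ‖f z‖ / ‖g z‖ := norm_div _ _
    rw [h3, Real.log_div (norm_ne_zero_iff.2 hfz) (norm_ne_zero_iff.2 hgz)]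
  rw [hqn] at hJ
  push_cast at hJ
  linarith

/-- the mean of `‖g‖ ^ 2` -/
private theorem tt_sq {g : ℂ → ℂ} {z : ℂ} {s : ℝ} (hs : 0 < s) (hg : Differentiable ℂ g) :
    Real.circleAverage (fun w => ‖g w‖ ^ 2) z s = ‖g z‖ ^ 2 + Real.circleAverage (fun w => ‖g w - g z‖ ^ 2) z s := by
  have hgc : ContinuousOn g (sphere z s) := hg.continuous.continuousOn
  have hmean : Real.circleAverage g z s = g z := hg.diffContOnCl.circleAverage
  have hIg : CircleIntegrable g z s := hgc.circleIntegrable hs.le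
  -- the linear term
  set L : ℂ →L[ℝ] ℝ := Complex.reCLM.comp ((ContinuousLinearMap.mul ℂ ℂ ((starRingEnd ℂ) (g z))).restrictScalars ℝ) with hL
  have hLv : ∀ w, L w = ((starRingEnd ℂ) (g z) * w).re := fun w => by
    simp [hL]
  have hlin : Real.circleAverage (fun w => L (g w)) z s = L (g z) := by
    have := L.circleAverage_comp_comm hIg
    rw [hmean] at this
    exact this
  have hIL : CircleIntegrable (fun w => L (g w)) z s := (L.continuous.comp_continuousOn hgc).circleIntegrable hs.le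
  have hIn : CircleIntegrable (fun w => ‖g w - g z‖ ^ 2) z s := ((hgc.sub continuousOn_const).norm.pow 2).circleIntegrable hs.le
  have hpt : (fun w => ‖g w‖ ^ 2) = fun w => ((2 : ℝ) • (L (g w)) + ‖g w - g z‖ ^ 2) + (-‖g z‖ ^ 2) := by
    funext w
    rw [hLv, Complex.sq_norm, Complex.sq_norm, Complex.sq_norm, Complex.normSq_apply, Complex.normSq_apply, Complex.normSq_apply]
    simp only [Complex.sub_re, Complex.sub_im, Complex.mul_re, Complex.conj_re, Complex.conj_im, smul_eq_mul]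
    ring
  have hI1 : CircleIntegrable (fun w => (2 : ℝ) • (L (g w))) z s := hIL.const_fun_smul
  rw [hpt, Real.circleAverage_fun_add (hI1.fun_add hIn) (circleIntegrable_const _ _ _), Real.circleAverage_fun_add hI1 hIn,
    Real.circleAverage_fun_smul, Real.circleAverage_const, hlin, hLv]
  have h1 : ((starRingEnd ℂ) (g z) * g z).re = ‖g z‖ ^ 2 := by
    rw [Complex.sq_norm, Complex.normSq_apply]
    simp [Complex.mul_re]
  rw [h1, smul_eq_mul]
  ring

/-- the mean of the weight on a line -/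
private theorem tt_wt (W : Fin r → Vd (k + 1) →L[ℂ] ℂ) {y a : Vd (k + 1)} {A : ℝ} (ha : ‖a‖ ≤ A) {z : ℂ} {s : ℝ} (hs : 0 < s) :
    CircleIntegrable (fun w : ℂ => wt W (y + w • a)) z s ∧
      Real.circleAverage (fun w : ℂ => wt W (y + w • a)) z s ≤ wt W (y + z • a) + s ^ 2 * (∑ i, ‖W i‖ ^ 2) * A ^ 2 := by
  have hd : ∀ i : Fin r, Differentiable ℂ fun w : ℂ => W i (y + w • a) := fun i =>
    (W i).differentiable.comp ((differentiable_const y).add (differentiable_id.smul_const a))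
  have hIi : ∀ i : Fin r, CircleIntegrable (fun w : ℂ => ‖W i (y + w • a)‖ ^ 2) z s := fun i =>
    ((hd i).continuous.norm.pow 2).continuousOn.circleIntegrable hs.le
  have hIW : CircleIntegrable (fun w : ℂ => wt W (y + w • a)) z s := by
    unfold wt
    exact CircleIntegrable.fun_sum _ fun i _ => hIi i
  refine ⟨hIW, ?_⟩
  have h1 : Real.circleAverage (fun w : ℂ => wt W (y + w • a)) z s = ∑ i, Real.circleAverage (fun w : ℂ => ‖W i (y + w • a)‖ ^ 2) z s := by
    unfold wt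
    exact Real.circleAverage_fun_sum fun i _ => hIi i
  rw [h1, wt, Finset.mul_sum, Finset.sum_mul, ← Finset.sum_add_distrib]
  refine Finset.sum_le_sum fun i _ => ?_
  rw [tt_sq hs (hd i)]
  have h2 : Real.circleAverage (fun w : ℂ => ‖W i (y + w • a) - W i (y + z • a)‖ ^ 2) z s ≤ s ^ 2 * ‖W i‖ ^ 2 * A ^ 2 := by
    refine Real.circleAverage_mono_on_of_le_circle ?_ fun w hw => ?_
    · exact ((((hd i).continuous.sub continuous_const).norm.pow 2).continuousOn).circleIntegrable hs.le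
    · rw [abs_of_pos hs, mem_sphere, dist_eq_norm] at hw
      have h3 : W i (y + w • a) - W i (y + z • a) = (w - z) • W i a := by
        rw [← map_sub, ← map_smul]
        congr 1
        rw [sub_smul]
        abel
      rw [h3, norm_smul, hw, mul_pow, mul_assoc]
      refine mul_le_mul_of_nonneg_left ?_ (by positivity)
      rw [← mul_pow]
      exact pow_le_pow_left₀ (norm_nonneg _) (((W i).le_opNorm a).trans (mul_le_mul_of_nonneg_left ha (norm_nonneg _))) 2
  linarith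

/-- orthogonal decomposition -/
private theorem tt_dec {x : EN 1} (hx : x ≠ 0) (b : EN 1) : ∃ (α : ℂ) (p : EN 1), ‖α • x‖ ≤ ‖b‖ ∧ ‖p‖ = 1 ∧ b = α • x + (dt x b / (‖x‖ : ℂ)) • p := by
  have hn : 0 < ‖x‖ := norm_pos_iff.2 hx
  have hnc : (‖x‖ : ℂ) ≠ 0 := Complex.ofReal_ne_zero.2 hn.ne'
  set e : EN 1 := WithLp.toLp 2 ![-(starRingEnd ℂ) (x 1), (starRingEnd ℂ) (x 0)] with he
  have he0 : e 0 = -(starRingEnd ℂ) (x 1) := rfl
  have he1 : e 1 = (starRingEnd ℂ) (x 0) := rfl
  have hsq : (‖x‖ : ℂ) ^ 2 = x 0 * (starRingEnd ℂ) (x 0) + x 1 * (starRingEnd ℂ) (x 1) := by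
    have h1 : ‖x‖ ^ 2 = ‖x 0‖ ^ 2 + ‖x 1‖ ^ 2 := by
      rw [EuclideanSpace.norm_sq_eq, Fin.sum_univ_two]
    rw [Complex.mul_conj, Complex.mul_conj, Complex.normSq_eq_norm_sq, Complex.normSq_eq_norm_sq]
    rw [← Complex.ofReal_pow, h1, Complex.ofReal_add]
  have hne : ‖e‖ = ‖x‖ := by
    rw [EuclideanSpace.norm_eq, EuclideanSpace.norm_eq, Fin.sum_univ_two, Fin.sum_univ_two, he0, he1, norm_neg, RCLike.norm_conj, RCLike.norm_conj, add_comm]
  refine ⟨inner ℂ x b / (‖x‖ : ℂ) ^ 2, (‖x‖ : ℂ)⁻¹ • e, ?_, ?_, ?_⟩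
  · rw [norm_smul, norm_div, norm_pow, Complex.norm_real, norm_norm]
    have h1 : ‖inner ℂ x b‖ ≤ ‖x‖ * ‖b‖ := norm_inner_le_norm x b
    rw [div_mul_eq_mul_div, div_le_iff₀ (by positivity)]
    nlinarith
  · rw [norm_smul, norm_inv, Complex.norm_real, norm_norm, hne]
    exact inv_mul_cancel₀ hn.ne'
  · have hin : inner ℂ x b = (starRingEnd ℂ) (x 0) * b 0 + (starRingEnd ℂ) (x 1) * b 1 := by
      rw [PiLp.inner_apply, Fin.sum_univ_two, RCLike.inner_apply, RCLike.inner_apply]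
      ring
    have h2 : (x 0 * (starRingEnd ℂ) (x 0) + x 1 * (starRingEnd ℂ) (x 1)) ≠ 0 := by
      rw [← hsq]
      exact pow_ne_zero 2 hnc
    have h3 : ∀ j, (((inner ℂ x b : ℂ) / (‖x‖ : ℂ) ^ 2) • x + (dt x b / (‖x‖ : ℂ)) • ((‖x‖ : ℂ)⁻¹ • e)) j = (inner ℂ x b * x j + dt x b * e j) / (‖x‖ : ℂ) ^ 2 := by
      intro j
      simp only [PiLp.add_apply, PiLp.smul_apply, smul_eq_mul]
      field_simp
    ext j
    rw [h3, hsq, eq_div_iff h2, hin, dt]
    fin_cases j
    · simp only [Fin.zero_eta, he0]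
      ring
    · simp only [Fin.mk_one, he1]
      ring

/-- the form at a unit vector, if it has the root `x` -/
private theorem PD.tt_lin (P : PD Λ D Bad θ W) : ∃ C : ℝ, 0 < C ∧ ∀ (y : Vd (k + 1)) (x b : EN 1), x ≠ 0 → Fo θ y x = 0 → ‖b‖ = 1 →
    ‖Fo θ y b‖ ≤ C * Real.exp (wt W y) * (‖dt x b‖ / ‖x‖) := by
  obtain ⟨C, hC, h⟩ := P.fo_le
  refine ⟨C * 3 ^ d, by positivity, fun y x b hx hr hb => ?_⟩
  obtain ⟨α, p, hα, hp, he⟩ := tt_dec hx b
  have hn : 0 < ‖x‖ := norm_pos_iff.2 hx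
  have hφ0 : Fo θ y (α • x + (0 : ℂ) • p) = 0 := by
    rw [zero_smul, add_zero, fo_smul, hr, mul_zero]
  have hφi : Differentiable ℂ fun s : ℂ => (y, α • x + s • p) :=
    (differentiable_const y).prodMk ((differentiable_const (α • x)).add (differentiable_id.smul_const p))
  have hφd : Differentiable ℂ fun s : ℂ => Fo θ y (α • x + s • p) :=
    Differentiable.comp (g := fun q : Vd (k + 1) × EN 1 => Fo θ q.1 q.2) (f := fun s : ℂ => (y, α • x + s • p)) (fo_diff P.an) hφi
  have hE : 0 < Real.exp (wt W y) := Real.exp_pos _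
  have hmap : Set.MapsTo (fun s : ℂ => Fo θ y (α • x + s • p)) (ball 0 2) (closedBall (Fo θ y (α • x + (0 : ℂ) • p)) (C * 3 ^ d * Real.exp (wt W y))) := by
    intro s hs
    rw [mem_ball_zero_iff] at hs
    rw [hφ0, mem_closedBall_zero_iff]
    refine (h y _).trans ?_
    refine mul_le_mul_of_nonneg_right (mul_le_mul_of_nonneg_left (pow_le_pow_left₀ (norm_nonneg _) ?_ d) hC.le) hE.le
    refine (norm_add_le _ _).trans ?_
    rw [norm_smul s, hp]
    linarith
  set s₀ : ℂ := dt x b / (‖x‖ : ℂ) with hs₀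
  have hs₀n : ‖s₀‖ = ‖dt x b‖ / ‖x‖ := by
    rw [hs₀, norm_div, Complex.norm_real, norm_norm]
  have hs₀1 : ‖s₀‖ ≤ 1 := by
    rw [hs₀n, div_le_one hn]
    have := dt_le x b
    rw [hb, mul_one] at this
    exact this
  have h1 := Complex.dist_le_div_mul_dist_of_mapsTo_ball hφd.differentiableOn hmap (z := s₀) (by
    rw [mem_ball_zero_iff]
    linarith)
  rw [hφ0, dist_zero_right, dist_zero_right, ← he, hs₀n] at h1
  refine h1.trans ?_
  refine mul_le_mul_of_nonneg_right ?_ (by positivity)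
  have : 0 < C * 3 ^ d * Real.exp (wt W y) := by positivity
  linarith

theorem PD.tt_root (P : PD Λ D Bad θ W) {δ A ρ : ℝ} (hδ : 0 < δ) (hρ : 0 < ρ) : ∃ T : ℝ, ∀ y a : Vd (k + 1), ‖a‖ ≤ A → ∀ G : ℂ → EN 1, Differentiable ℂ G → (∀ z, G z ≠ 0) →
    (∀ z : ℂ, Fo θ (y + z • a) (G z) = 0) → ∀ z : ℂ, y + z • a ∈ Gd D δ → TT G z ρ ≤ T := by
  obtain ⟨C₁, hC₁, hlin⟩ := P.tt_lin
  obtain ⟨c, hc, hbig⟩ := P.big_pt hδ
  refine ⟨Real.log C₁ - Real.log c + ρ ^ 2 * (∑ i, ‖W i‖ ^ 2) * A ^ 2, fun y a ha G hG hG0 hr z hz => ?_⟩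
  obtain ⟨b, hb1, hb2⟩ := hbig _ hz
  have hline : Differentiable ℂ fun ζ : ℂ => y + ζ • a := (differentiable_const y).add (differentiable_id.smul_const a)
  have hco : ∀ j : Fin 2, Differentiable ℂ fun ζ => G ζ j := fun j =>
    (EuclideanSpace.proj j : EN 1 →L[ℂ] ℂ).differentiable.comp hG
  set f : ℂ → ℂ := fun ζ => Fo θ (y + ζ • a) b with hfdef
  set g : ℂ → ℂ := fun ζ => dt (G ζ) b with hgdef
  have hf : Differentiable ℂ f :=
    Differentiable.comp (g := fun q : Vd (k + 1) × EN 1 => Fo θ q.1 q.2) (f := fun ζ : ℂ => (y + ζ • a, b)) (fo_diff P.an)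
      (hline.prodMk (differentiable_const b))
  have hg : Differentiable ℂ g := ((hco 0).mul_const (b 1)).sub ((hco 1).mul_const (b 0))
  have hnG : ∀ ζ, 0 < ‖G ζ‖ := fun ζ => norm_pos_iff.2 (hG0 ζ)
  have hfz : c * Real.exp (wt W (y + z • a)) ≤ ‖f z‖ := by
    rw [qf, hb1, one_pow, div_one, Real.exp_neg, ← div_eq_mul_inv, le_div_iff₀ (Real.exp_pos _)] at hb2
    exact hb2
  have hfz0 : f z ≠ 0 := by
    intro h
    rw [h, norm_zero] at hfz
    exact absurd hfz (not_le.2 (by positivity))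
  have hle : ∀ ζ, ‖f ζ‖ ≤ C₁ * Real.exp (wt W (y + ζ • a)) * (‖g ζ‖ / ‖G ζ‖) := fun ζ => hlin _ _ _ (hG0 ζ) (hr ζ) hb1
  have hgz0 : g z ≠ 0 := by
    intro h
    have h1 := hle z
    rw [h, norm_zero, zero_div, mul_zero] at h1
    exact hfz0 (norm_le_zero_iff.1 h1)
  have hWc : Continuous fun ζ : ℂ => wt W (y + ζ • a) := by
    unfold wt
    exact continuous_finsetSum _ fun i _ => (((W i).continuous.comp hline.continuous).norm.pow 2)
  have hM : ∀ ζ : ℂ, ∃ M : ℝ, ∀ᶠ ζ' in 𝓝 ζ, ‖f ζ'‖ ≤ M * ‖g ζ'‖ := by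
    intro ζ
    have h1 : ContinuousAt (fun ζ' => C₁ * Real.exp (wt W (y + ζ' • a)) / ‖G ζ'‖) ζ :=
      (continuousAt_const.mul (Real.continuous_exp.continuousAt.comp hWc.continuousAt)).div hG.continuous.norm.continuousAt (hnG ζ).ne'
    refine ⟨C₁ * Real.exp (wt W (y + ζ • a)) / ‖G ζ‖ + 1, ?_⟩
    filter_upwards [h1.eventually (gt_mem_nhds (lt_add_one _))] with ζ' h2
    refine (hle ζ').trans ?_
    have h3 : C₁ * Real.exp (wt W (y + ζ' • a)) * (‖g ζ'‖ / ‖G ζ'‖) = C₁ * Real.exp (wt W (y + ζ' • a)) / ‖G ζ'‖ * ‖g ζ'‖ := by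
      ring
    rw [h3]
    exact mul_le_mul_of_nonneg_right h2.le (norm_nonneg _)
  have hJ := tt_jen hf hg hρ hfz0 hgz0 hM
  obtain ⟨hIW, hW⟩ := tt_wt W (y := y) ha (z := z) hρ
  have hIG : CircleIntegrable (fun w => Real.log ‖G w‖) z ρ :=
    (hG.continuous.norm.log fun w => (hnG w).ne').continuousOn.circleIntegrable hρ.le
  have hIf := tt_int (z := z) hρ hf
  have hIg := tt_int (z := z) hρ hg
  have hIc : CircleIntegrable (fun _ : ℂ => Real.log C₁) z ρ := circleIntegrable_const _ _ _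
  have hmono : Real.circleAverage (fun w => Real.log ‖G w‖) z ρ ≤ Real.circleAverage (fun w => Real.log C₁ + wt W (y + w • a) + Real.log ‖g w‖ - Real.log ‖f w‖) z ρ := by
    refine tt_mono hρ hIG (((hIc.fun_add hIW).fun_add hIg).fun_sub hIf) ?_
    filter_upwards [tt_codisc hρ hf hfz0, tt_codisc hρ hg hgz0] with w h1 h2
    have h3 : 0 < ‖f w‖ := norm_pos_iff.2 h1
    have h4 : 0 < ‖g w‖ := norm_pos_iff.2 h2
    have h5 := Real.log_le_log h3 (hle w)
    rw [Real.log_mul (by positivity) (div_pos h4 (hnG w)).ne', Real.log_mul hC₁.ne' (Real.exp_pos _).ne', Real.log_exp, Real.log_div h4.ne' (hnG w).ne'] at h5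
    linarith
  rw [Real.circleAverage_fun_sub ((hIc.fun_add hIW).fun_add hIg) hIf, Real.circleAverage_fun_add (hIc.fun_add hIW) hIg, Real.circleAverage_fun_add hIc hIW, Real.circleAverage_const] at hmono
  have h6 : Real.log c + wt W (y + z • a) ≤ Real.log ‖f z‖ := by
    have := Real.log_le_log (by positivity) hfz
    rw [Real.log_mul hc.ne' (Real.exp_pos _).ne', Real.log_exp] at this
    exact this
  have h7 : Real.log ‖g z‖ ≤ Real.log ‖G z‖ := by
    refine Real.log_le_log (norm_pos_iff.2 hgz0) ?_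
    have := dt_le (G z) b
    rw [hb1, mul_one] at this
    exact this
  rw [TT]
  linarith

end Pool.Agent.PX
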